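import Pool.Agent.Lib.MP_1e2f52_ag.CylGerm

/-!
# Regular sequences are not longer than the dimension of any component
-/

open MvPolynomial RingTheory.Sequence IsLocalRing Pointwise

namespace Pool.Agent.Lib.MP_1e2f52_ag

noncomputable section

/-- The length of a regular sequence is at most the dimension of the quotient by a prime ideal which
annihilates a nonzero element. -/
theorem length_le_dim (k : ℕ) : ∀ (R : Type) [CommRing R] [IsNoetherianRing R] [IsLocalRing R]
    (rs : List R) (q : Ideal R), rs.length = k → IsRegular R rs → q.IsPrime →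
    (∃ z, z ≠ 0 ∧ ∀ y ∈ q, y * z = 0) → ((k : ℕ∞) : WithBot ℕ∞) ≤ ringKrullDim (R ⧸ q) := by
  induction k with
  | zero =>
    intro R _ _ _ rs q _ _ hq _
    have : Nontrivial (R ⧸ q) := Ideal.Quotient.nontrivial_iff.2 hq.ne_top
    exact ringKrullDim_nonneg_of_nontrivial
  | succ k ih =>
    intro R _ _ _ rs q hl hrs hq hz
    obtain ⟨x, xs, rfl⟩ := List.exists_cons_of_length_eq_add_one hl
    have hx : x ∈ maximalIdeal R := (isRegular_iff_mem.1 hrs).2 x (by simp)
    obtain ⟨hreg, hxs⟩ := (isRegular_cons_iff _ _ _).1 hrs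
    have hxq : x ∉ q := by
      intro h
      obtain ⟨z, hz0, hz1⟩ := hz
      apply hz0
      apply hreg
      change x • z = x • 0
      rw [smul_zero, smul_eq_mul]
      exact hz1 x h
    -- the submodule of elements annihilated by `q`
    let N : Ideal R :=
      { carrier := {z | ∀ y ∈ q, y * z = 0}
        add_mem' := by
          intro a b ha hb y hy
          rw [mul_add, ha y hy, hb y hy, add_zero]
        zero_mem' := fun y _ => mul_zero y
        smul_mem' := by
          intro c a ha y hy
          rw [smul_eq_mul, mul_left_comm, ha y hy, mul_zero] }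
    obtain ⟨z, hzN, hzx⟩ : ∃ z ∈ N, z ∉ Ideal.span {x} := by
      by_contra hcon
      push Not at hcon
      have hN : N ≤ maximalIdeal R • N := by
        intro z hz
        obtain ⟨z', hz'⟩ := Ideal.mem_span_singleton'.1 (hcon z hz)
        have hz'N : z' ∈ N := by
          intro y hy
          apply hreg
          change x • (y * z') = x • 0
          rw [smul_zero, smul_eq_mul]
          have := hz y hy
          rw [← hz'] at this
          linear_combination this
        rw [← hz', mul_comm]
        exact Ideal.mul_mem_mul hx hz'N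
      have hN0 : N = ⊥ := Submodule.eq_bot_of_le_smul_of_le_jacobson_bot _ _
        (IsNoetherian.noetherian _) hN (maximalIdeal_le_jacobson _)
      obtain ⟨z, hz0, hz1⟩ := hz
      apply hz0
      have : z ∈ N := hz1
      rwa [hN0] at this
    have hnt : Nontrivial (R ⧸ Ideal.span {x}) :=
      Ideal.Quotient.nontrivial_iff.2 fun h => (maximalIdeal.isMaximal R).ne_top
        (top_le_iff.1 (h ▸ (Ideal.span_singleton_le_iff_mem _).2 hx))
    have hloc : IsLocalRing (R ⧸ Ideal.span {x}) :=
      IsLocalRing.of_surjective' (Ideal.Quotient.mk _) Ideal.Quotient.mk_surjective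
    have hz0 : (Ideal.Quotient.mk (Ideal.span {x})) z ≠ 0 := fun h =>
      hzx (Ideal.Quotient.eq_zero_iff_mem.1 h)
    obtain ⟨p, hp, hzp⟩ := exists_le_isAssociatedPrime_of_isNoetherianRing
      (R ⧸ Ideal.span {x}) _ hz0
    have hpp : p.IsPrime := hp.isPrime
    have hp2 : ∃ y, y ≠ 0 ∧ ∀ a ∈ p, a * y = 0 := by
      rw [isAssociatedPrime_iff] at hp
      obtain ⟨h1, y, rfl⟩ := hp
      refine ⟨y, ?_, fun a ha => ?_⟩
      · rintro rfl
        exact h1.ne_top (by simp)
      · simpa [Submodule.mem_colon_singleton] using ha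
    have h3 := ih (R ⧸ Ideal.span {x}) _ p (by simpa using hl) ((isRegular_quot_iff x xs).1 hxs)
      hpp hp2
    let ψ : R →+* (R ⧸ Ideal.span {x}) ⧸ p :=
      (Ideal.Quotient.mk p).comp (Ideal.Quotient.mk (Ideal.span {x}))
    have hψ : ∀ a ∈ q, ψ a = 0 := by
      intro a ha
      apply Ideal.Quotient.eq_zero_iff_mem.2
      apply hzp
      rw [Submodule.mem_colon_singleton, smul_eq_mul, ← map_mul, hzN a ha, map_zero]
      exact Submodule.zero_mem _
    let φ : R ⧸ q →+* (R ⧸ Ideal.span {x}) ⧸ p := Ideal.Quotient.lift q ψ hψ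
    have hφ : Function.Surjective φ := by
      apply Ideal.Quotient.lift_surjective_of_surjective
      exact Ideal.Quotient.mk_surjective.comp Ideal.Quotient.mk_surjective
    have hx0 : (Ideal.Quotient.mk q) x ∈ nonZeroDivisors (R ⧸ q) := by
      apply mem_nonZeroDivisors_of_ne_zero
      intro h
      exact hxq (Ideal.Quotient.eq_zero_iff_mem.1 h)
    have h4 := ringKrullDim_succ_le_of_surjective φ hφ hx0 (by
      change ψ x = 0
      have : (Ideal.Quotient.mk (Ideal.span {x})) x = 0 :=
        Ideal.Quotient.eq_zero_iff_mem.2 (Ideal.mem_span_singleton_self x)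
      change (Ideal.Quotient.mk p) ((Ideal.Quotient.mk (Ideal.span {x})) x) = 0
      rw [this, map_zero])
    refine le_trans ?_ h4
    have : (((k + 1 : ℕ) : ℕ∞) : WithBot ℕ∞) = ((k : ℕ∞) : WithBot ℕ∞) + 1 := by
      push_cast
      rfl
    rw [this]
    exact add_le_add_left h3 1

/-- A Cohen-Macaulay local ring is equidimensional. -/
theorem IsCM.dim_le {R : Type} [CommRing R] [IsNoetherianRing R] [IsLocalRing R] (h : IsCM R)
    {q : Ideal R} (hq : q.IsPrime) (hz : ∃ z, z ≠ 0 ∧ ∀ y ∈ q, y * z = 0) :
    ringKrullDim R ≤ ringKrullDim (R ⧸ q) := by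
  obtain ⟨rs, hrs, hl⟩ := h
  rw [← hl]
  exact length_le_dim rs.length R rs q rfl hrs hq hz

end

end Pool.Agent.Lib.MP_1e2f52_ag
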