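import Pool.Agent.Lib.MP_1e2f52_ag.LocS

/-!
# Construction of the data for a given projective variety
-/

open MvPolynomial Matrix

namespace Pool.Agent.Lib.MP_1e2f52_ag

noncomputable section

/-! ### Linear algebra -/

/-- A permutation with two prescribed values. -/
lemma exists_perm2 {N : ℕ} {o1 o2 k1 k2 : Fin N} (ho : o1 ≠ o2) (hk : k1 ≠ k2) :
    ∃ π : Equiv.Perm (Fin N), π o1 = k1 ∧ π o2 = k2 := by
  let π0 : Equiv.Perm (Fin N) := Equiv.swap o1 k1
  let π : Equiv.Perm (Fin N) := (Equiv.swap o2 (π0.symm k2)).trans π0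
  have hπ2 : π o2 = k2 := by simp [π]
  have hπ1 : π o1 = k1 := by
    simp only [π, Equiv.trans_apply]
    rw [Equiv.swap_apply_of_ne_of_ne ho]
    · simp [π0]
    · intro h
      apply hk
      have : π0 o1 = k2 := by rw [h]; simp
      rw [← this]
      simp [π0]
  exact ⟨π, hπ1, hπ2⟩

/-- An invertible matrix with three prescribed rows. -/
lemma exists_G {N : ℕ} {o1 o3 o2 : Fin N} (h13 : o1 ≠ o3) (h12 : o1 ≠ o2) (h32 : o3 ≠ o2)
    (φ1 φ2 φ3 : Fin N → ℂ) (h0 : φ1 ≠ 0) (h1 : φ1 o1 = 0) (h2 : φ1 o2 = 0)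
    (hd : φ3 o1 * φ2 o2 - φ3 o2 * φ2 o1 ≠ 0) :
    ∃ G : Matrix (Fin N) (Fin N) ℂ, IsUnit G.det ∧
      (∀ i, i ≠ o1 → i ≠ o2 → G i o1 = 0 ∧ G i o2 = 0) ∧ G o3 = φ1 ∧ G o2 = φ2 ∧ G o1 = φ3 := by
  obtain ⟨κ, hκ⟩ := Function.ne_iff.1 h0
  simp only [Pi.zero_apply] at hκ
  have hκ1 : κ ≠ o1 := by rintro rfl; exact hκ h1
  have hκ2 : κ ≠ o2 := by rintro rfl; exact hκ h2
  let s : Equiv.Perm (Fin N) := Equiv.swap κ o3
  have hs1 : s o1 = o1 := Equiv.swap_apply_of_ne_of_ne hκ1.symm h13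
  have hs2 : s o2 = o2 := Equiv.swap_apply_of_ne_of_ne hκ2.symm h32.symm
  have hs3 : s o3 = κ := Equiv.swap_apply_right _ _
  let G : Matrix (Fin N) (Fin N) ℂ := fun i =>
    if i = o3 then φ1 else if i = o2 then φ2 else if i = o1 then φ3 else Pi.single (s i) 1
  have g3 : G o3 = φ1 := by simp [G]
  have g2 : G o2 = φ2 := by simp [G, h32.symm]
  have g1 : G o1 = φ3 := by simp [G, h13, h12]
  have gi : ∀ i, i ≠ o3 → i ≠ o2 → i ≠ o1 → G i = Pi.single (s i) 1 := by
    intro i e1 e2 e3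
    simp [G, e1, e2, e3]
  refine ⟨G, ?_, ?_, g3, g2, g1⟩
  · rw [← Matrix.isUnit_iff_isUnit_det, ← Matrix.mulVec_injective_iff_isUnit,
      ← Matrix.coe_mulVecLin, ← LinearMap.ker_eq_bot, LinearMap.ker_eq_bot']
    intro x hx
    rw [Matrix.mulVecLin_apply] at hx
    have hrow : ∀ i, G i ⬝ᵥ x = 0 := fun i => congrFun hx i
    have e1 : ∀ j, j ≠ κ → j ≠ o1 → j ≠ o2 → x j = 0 := by
      intro j j1 j2 j3
      have := hrow (s.symm j)
      rw [gi, single_one_dotProduct, Equiv.apply_symm_apply] at this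
      · exact this
      · intro h; apply j1; rw [← hs3, ← h, Equiv.apply_symm_apply]
      · intro h; apply j3; rw [← hs2, ← h, Equiv.apply_symm_apply]
      · intro h; apply j2; rw [← hs1, ← h, Equiv.apply_symm_apply]
    have e2 : x κ = 0 := by
      have := hrow o3
      rw [g3, dotProduct, Finset.sum_eq_single κ] at this
      · exact (mul_eq_zero.1 this).resolve_left hκ
      · intro j _ hj
        by_cases j2 : j = o1
        · rw [j2, h1, zero_mul]
        by_cases j3 : j = o2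
        · rw [j3, h2, zero_mul]
        rw [e1 j hj j2 j3, mul_zero]
      · intro h; exact absurd (Finset.mem_univ _) h
    have e3 : ∀ φ : Fin N → ℂ, φ ⬝ᵥ x = φ o1 * x o1 + φ o2 * x o2 := by
      intro φ
      rw [dotProduct, ← Finset.sum_pair (f := fun i => φ i * x i) h12]
      symm
      apply Finset.sum_subset (Finset.subset_univ _)
      intro j _ hj
      rw [Finset.mem_insert, Finset.mem_singleton, not_or] at hj
      by_cases j1 : j = κ
      · rw [j1, e2, mul_zero]
      · rw [e1 j j1 hj.1 hj.2, mul_zero]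
    have e4 := hrow o2
    have e5 := hrow o1
    rw [g2, e3] at e4
    rw [g1, e3] at e5
    have e6 : x o1 = 0 := by
      have : (φ3 o1 * φ2 o2 - φ3 o2 * φ2 o1) * x o1 = 0 := by
        linear_combination φ2 o2 * e5 - φ3 o2 * e4
      exact (mul_eq_zero.1 this).resolve_left hd
    have e7 : x o2 = 0 := by
      have : (φ3 o1 * φ2 o2 - φ3 o2 * φ2 o1) * x o2 = 0 := by
        linear_combination φ3 o1 * e4 - φ2 o1 * e5
      exact (mul_eq_zero.1 this).resolve_left hd
    funext j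
    by_cases j1 : j = κ
    · rw [j1, e2]; rfl
    by_cases j2 : j = o1
    · rw [j2, e6]; rfl
    by_cases j3 : j = o2
    · rw [j3, e7]; rfl
    exact e1 j j1 j2 j3
  · intro i i1 i2
    by_cases i3 : i = o3
    · rw [i3, g3]; exact ⟨h1, h2⟩
    · rw [gi i i3 i2 i1]
      constructor
      · apply Pi.single_eq_of_ne
        intro h
        apply i1
        apply s.injective
        rw [hs1]; exact h.symm
      · apply Pi.single_eq_of_ne
        intro h
        apply i2
        apply s.injective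
        rw [hs2]; exact h.symm

/-! ### Polynomials as combinations of monomials of a fixed degree -/

/-- On the hyperplane `z 0 = 1`, the polynomial is a combination of monomials of degree `d`. -/
def Hom {m : ℕ} (d : ℕ) (g : MvPolynomial (Fin (m + 2)) ℂ) : Prop :=
  ∃ c : (Fin d → Fin (m + 2)) → ℂ, ∀ z : Fin (m + 2) → ℂ, z 0 = 1 →
    eval z g = ∑ τ, c τ * ∏ x, z (τ x)

lemma Hom.mul_X {m d : ℕ} {g : MvPolynomial (Fin (m + 2)) ℂ} (h : Hom d g) (j : Fin (m + 2)) :
    Hom (d + 1) (g * X j) := by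
  obtain ⟨c, hc⟩ := h
  refine ⟨fun τ => if τ 0 = j then c (Fin.tail τ) else 0, fun z hz => ?_⟩
  rw [map_mul, eval_X, hc z hz, ← Equiv.sum_comp (Fin.consEquiv (fun _ => Fin (m + 2))),
    Fintype.sum_prod_type, Finset.sum_eq_single j]
  · rw [Finset.sum_mul]
    refine Finset.sum_congr rfl fun τ _ => ?_
    rw [Fin.prod_univ_succ]
    simp only [Fin.consEquiv_apply, Fin.cons_zero, if_true, Fin.cons_succ]
    have : Fin.tail (Fin.cons j τ : Fin (d + 1) → Fin (m + 2)) = τ := Fin.tail_cons _ _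
    have h2 : Fin.tail ((Fin.consEquiv fun _ => Fin (m + 2)) (j, τ)) = τ := this
    rw [h2]
    ring
  · intro i _ hi
    apply Finset.sum_eq_zero
    intro τ _
    simp only [Fin.consEquiv_apply, Fin.cons_zero]
    rw [if_neg hi, zero_mul]
  · intro h; exact absurd (Finset.mem_univ _) h

lemma Hom.congr {m d : ℕ} {g g' : MvPolynomial (Fin (m + 2)) ℂ} (h : Hom d g)
    (h' : ∀ z : Fin (m + 2) → ℂ, z 0 = 1 → eval z g = eval z g') : Hom d g' := by
  obtain ⟨c, hc⟩ := h
  exact ⟨c, fun z hz => by rw [← h' z hz, hc z hz]⟩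

lemma Hom.succ {m d : ℕ} {g : MvPolynomial (Fin (m + 2)) ℂ} (h : Hom d g) : Hom (d + 1) g :=
  (h.mul_X 0).congr fun z hz => by rw [map_mul, eval_X, hz, mul_one]

lemma Hom.mono {m d d' : ℕ} {g : MvPolynomial (Fin (m + 2)) ℂ} (h : Hom d g) (hd : d ≤ d') :
    Hom d' g := by
  induction d', hd using Nat.le_induction with
  | base => exact h
  | succ k _ ih => exact ih.succ

lemma Hom.add {m d : ℕ} {g g' : MvPolynomial (Fin (m + 2)) ℂ} (h : Hom d g) (h' : Hom d g') :
    Hom d (g + g') := by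
  obtain ⟨c, hc⟩ := h
  obtain ⟨c', hc'⟩ := h'
  refine ⟨fun τ => c τ + c' τ, fun z hz => ?_⟩
  rw [map_add, hc z hz, hc' z hz, ← Finset.sum_add_distrib]
  refine Finset.sum_congr rfl fun τ _ => ?_
  ring

lemma exists_hom {m : ℕ} (g : MvPolynomial (Fin (m + 2)) ℂ) : ∃ d, Hom d g := by
  induction g using MvPolynomial.induction_on with
  | C c => exact ⟨0, fun _ => c, fun z _ => by simp⟩
  | add p q hp hq =>
    obtain ⟨d, hd⟩ := hp
    obtain ⟨d', hd'⟩ := hq
    exact ⟨max d d', (hd.mono (le_max_left _ _)).add (hd'.mono (le_max_right _ _))⟩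
  | mul_X p i hp =>
    obtain ⟨d, hd⟩ := hp
    exact ⟨d + 1, hd.mul_X i⟩

/-- Equations for the affine part of a closed cone. -/
lemma exists_eqs {m : ℕ} {K : Set (Fin (m + 2) → ℂ)}
    (hcl : ∀ z, (∀ p : MvPolynomial (Fin (m + 2)) ℂ, (∀ z' ∈ K, eval z' p = 0) → eval z p = 0) →
      z ∈ K)
    (hcone : ∀ z ∈ K, ∀ c : ℂ, c • z ∈ K) :
    ∃ (d s : ℕ) (c : Fin s → (Fin (d + 1) → Fin (m + 2)) → ℂ),
      (∀ z ∈ K, z 0 ≠ 0 → ∀ l, ∑ τ, c l τ * ∏ x, z (τ x) = 0) ∧
      (∀ z : Fin (m + 2) → ℂ, z 0 = 1 → (∀ l, ∑ τ, c l τ * ∏ x, z (τ x) = 0) → z ∈ K) := by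
  obtain ⟨T, hT⟩ : (vanishingIdeal ℂ K).FG := IsNoetherian.noetherian _
  have hgen : ∀ z : Fin (m + 2) → ℂ, (∀ g ∈ T, eval z g = 0) → z ∈ K := by
    intro z hz
    apply hcl
    intro p hp
    have h1 : p ∈ vanishingIdeal ℂ K := hp
    rw [← hT] at h1
    have h2 : Ideal.span (T : Set (MvPolynomial (Fin (m + 2)) ℂ)) ≤ RingHom.ker (eval z) := by
      rw [Ideal.span_le]
      intro g hg
      exact hz g hg
    exact h2 h1
  have hTK : ∀ g ∈ T, ∀ z ∈ K, eval z g = 0 := by
    intro g hg z hz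
    have h1 : g ∈ vanishingIdeal ℂ K := by rw [← hT]; exact Ideal.subset_span hg
    exact h1 z hz
  -- a common degree
  obtain ⟨d, hd⟩ : ∃ d, ∀ g ∈ T, Hom (d + 1) g := by
    choose f hf using (exists_hom (m := m))
    refine ⟨T.sup f, fun g hg => (hf g).mono ?_⟩
    exact le_trans (Finset.le_sup (f := f) hg) (Nat.le_succ _)
  let g : Fin T.card → MvPolynomial (Fin (m + 2)) ℂ := fun l => (T.equivFin.symm l : _)
  have hgT : ∀ l, g l ∈ T := fun l => (T.equivFin.symm l).2
  choose c hc using fun l => hd (g l) (hgT l)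
  refine ⟨d, T.card, c, ?_, ?_⟩
  · intro z hz hz0 l
    have h1 : (z 0)⁻¹ • z ∈ K := hcone z hz _
    have h2 := hTK _ (hgT l) _ h1
    rw [hc l _ (by simp [hz0])] at h2
    have h3 : ∑ τ, c l τ * ∏ x, z (τ x) =
        (z 0) ^ (d + 1) * ∑ τ, c l τ * ∏ x, ((z 0)⁻¹ • z) (τ x) := by
      rw [Finset.mul_sum]
      refine Finset.sum_congr rfl fun τ _ => ?_
      simp only [Pi.smul_apply, smul_eq_mul, Finset.prod_mul_distrib, Finset.prod_const,
        Finset.card_univ, Fintype.card_fin]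
      have h4 : (z 0) ^ (d + 1) * (z 0)⁻¹ ^ (d + 1) = 1 := by
        rw [← mul_pow, mul_inv_cancel₀ hz0, one_pow]
      linear_combination -(c l τ * ∏ x, z (τ x)) * h4
    rw [h3, h2, mul_zero]
  · intro z hz hzl
    apply hgen
    intro g' hg'
    have h1 := hzl (T.equivFin ⟨g', hg'⟩)
    rw [← hc _ z hz] at h1
    simpa [g] using h1

/-! ### The relations -/

section rel

variable {m d s N : ℕ}

/-- The index set of the relations. -/
abbrev Rl (m d s : ℕ) (P : Fin s → Prop) : Type :=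
  {j : Fin (m + 2) // j ≠ 0} ⊕ ({τ : Fin (d + 1) → Fin (m + 2) // τ ≠ fun _ => 0} ⊕
    (((Fin (d + 1) → Fin (m + 2)) × Fin (d + 1) × {j : Fin (m + 2) // j ≠ 0}) ⊕
      {l : Fin s // P l}))

variable (e : ((Fin (d + 1) → Fin (m + 2)) ⊕ Fin (m + 2)) ≃ Fin N)
  (c : Fin s → (Fin (d + 1) → Fin (m + 2)) → ℂ)

/-- The forms of the relations. -/
def f1 {P : Fin s → Prop} : Rl m d s P → Fin N → ℂ
  | .inl j => Pi.single (e (.inr j.1)) 1
  | .inr (.inl τ) => Pi.single (e (.inl τ.1)) 1
  | .inr (.inr (.inl (τ, x, j))) =>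
    Pi.single (e (.inl (Function.update τ x j.1))) 1 + Pi.single (e (.inr j.1)) 1
  | .inr (.inr (.inr l)) => ∑ τ, c l.1 τ • Pi.single (e (.inl τ)) 1

/-- The forms of the relations. -/
def f2 {P : Fin s → Prop} : Rl m d s P → Fin N → ℂ
  | .inl _ => Pi.single (e (.inr 0)) 1
  | .inr (.inl _) => Pi.single (e (.inl fun _ => 0)) 1
  | .inr (.inr (.inl (τ, x, _))) =>
    Pi.single (e (.inl (Function.update τ x 0))) 1 + Pi.single (e (.inr 0)) 1
  | .inr (.inr (.inr _)) => Pi.single (e (.inr 0)) 1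

/-- The forms of the relations. -/
def f3 {P : Fin s → Prop} : Rl m d s P → Fin N → ℂ
  | .inr (.inl _) => Pi.single (e (.inr 0)) 1
  | _ => Pi.single (e (.inl fun _ => 0)) 1

variable {e c}

lemma f1_ne {P : Fin s → Prop} (hP : ∀ l, P l → c l ≠ 0) (k : Rl m d s P) : f1 e c k ≠ 0 := by
  rcases k with j | τ | ⟨τ, x, j⟩ | l
  · intro h
    have := congrFun h (e (.inr j.1))
    simp [f1] at this
  · intro h
    have := congrFun h (e (.inl τ.1))
    simp [f1] at this
  · intro h
    have := congrFun h (e (.inr j.1))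
    simp [f1] at this
  · intro h
    obtain ⟨τ, hτ⟩ := Function.ne_iff.1 (hP l.1 l.2)
    have := congrFun h (e (.inl τ))
    simp [f1, Pi.single_apply, Finset.sum_apply] at this
    exact hτ this

lemma update_ne {τ : Fin (d + 1) → Fin (m + 2)} {x : Fin (d + 1)} {j : Fin (m + 2)}
    (hj : j ≠ 0) : Function.update τ x j ≠ fun _ => 0 := by
  intro h
  have := congrFun h x
  rw [Function.update_self] at this
  exact hj this

lemma f1_o1 {P : Fin s → Prop} (hc : ∀ l, c l (fun _ => 0) = 0) (k : Rl m d s P) :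
    f1 e c k (e (.inl fun _ => 0)) = 0 := by
  rcases k with j | τ | ⟨τ, x, j⟩ | l
  · simp [f1]
  · have := τ.2
    simp [f1, Ne.symm this]
  · have := update_ne (τ := τ) (x := x) j.2
    simp [f1, Ne.symm this]
  · simp [f1, Pi.single_apply, Finset.sum_apply, hc]

lemma f1_o2 {P : Fin s → Prop} (k : Rl m d s P) : f1 e c k (e (.inr 0)) = 0 := by
  rcases k with j | τ | ⟨τ, x, j⟩ | l
  · have := j.2
    simp [f1, Ne.symm this]
  · simp [f1]
  · have := j.2
    simp [f1, Ne.symm this]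
  · simp [f1, Finset.sum_apply]

lemma f_det {P : Fin s → Prop} (k : Rl m d s P) :
    f3 e k (e (.inl fun _ => 0)) * f2 e k (e (.inr 0)) -
      f3 e k (e (.inr 0)) * f2 e k (e (.inl fun _ => 0)) ≠ 0 := by
  rcases k with j | τ | ⟨τ, x, j⟩ | l <;> simp [f2, f3, Pi.single_apply]

/-! ### The relations for the family of planes -/

/-- The family of planes satisfies the relations. -/
lemma rel_fam {P : Fin s → Prop} {z : Fin (m + 2) → ℂ} (hz0 : z 0 ≠ 0)
    (hE : ∀ l, ∑ τ, c l τ * ∏ x, z (τ x) = 0) (k : Rl m d s P) :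
    br (f1 e c k) (f2 e k) (va e z) (vb e z) = 0 ∧ br (f3 e k) (f2 e k) (va e z) (vb e z) ≠ 0 := by
  have hz : (∏ _x : Fin (d + 1), z 0) ≠ 0 := by
    rw [Finset.prod_ne_zero_iff]
    intro _ _
    exact hz0
  rcases k with j | τ | ⟨τ, x, j⟩ | l
  · constructor
    · simp only [br, f1, f2, single_one_dotProduct, va_inr, vb_inr]
      ring
    · simp only [br, f3, f2, single_one_dotProduct, va_inr, vb_inr, va_inl, vb_inl]
      rw [zero_mul, sub_zero]
      exact mul_ne_zero hz hz0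
  · constructor
    · simp only [br, f1, f2, single_one_dotProduct, vb_inl]
      ring
    · simp only [br, f3, f2, single_one_dotProduct, va_inr, vb_inr, va_inl, vb_inl]
      rw [zero_mul, zero_sub, neg_ne_zero]
      exact mul_ne_zero hz0 hz
  · constructor
    · simp only [br, f1, f2, add_dotProduct, single_one_dotProduct, va_inr, vb_inr, va_inl, vb_inl]
      have h1 : ∀ i, ∏ y, z (Function.update τ x i y) = z i * ∏ y ∈ Finset.univ.erase x, z (τ y) := by
        intro i
        rw [← Finset.mul_prod_erase Finset.univ _ (Finset.mem_univ x), Function.update_self]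
        congr 1
        refine Finset.prod_congr rfl fun y hy => ?_
        rw [Function.update_of_ne (Finset.ne_of_mem_erase hy)]
      rw [h1, h1]
      ring
    · simp only [br, f3, f2, add_dotProduct, single_one_dotProduct, va_inr, vb_inr, va_inl, vb_inl]
      rw [zero_mul, sub_zero, zero_add]
      exact mul_ne_zero hz hz0
  · constructor
    · simp only [br, f1, f2, sum_dotProduct, smul_dotProduct, single_one_dotProduct, va_inr, vb_inr,
        va_inl, vb_inl, smul_eq_mul, hE, mul_zero, zero_mul, sub_zero]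
    · simp only [br, f3, f2, single_one_dotProduct, va_inr, vb_inr, va_inl, vb_inl]
      rw [zero_mul, sub_zero]
      exact mul_ne_zero hz hz0

/-- Planes satisfying the relations belong to the family. -/
lemma fam_rel {P : Fin s → Prop} (hP : ∀ l, c l ≠ 0 → P l) {x y : Fin N → ℂ}
    (h1 : ∀ k : Rl m d s P, br (f1 e c k) (f2 e k) x y = 0)
    (h2 : ∀ k : Rl m d s P, br (f3 e k) (f2 e k) x y ≠ 0) :
    ∃ z : Fin (m + 2) → ℂ, z 0 = 1 ∧ (∀ l, ∑ τ, c l τ * ∏ x, z (τ x) = 0) ∧
      (∃ u u' : ℂ, x = u • va e z + u' • vb e z) ∧ (∃ u u' : ℂ, y = u • va e z + u' • vb e z) := by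
  set o1 : Fin N := e (.inl fun _ => 0) with ho1
  set o2 : Fin N := e (.inr 0) with ho2
  -- the normalised basis
  have hδ : x o1 * y o2 - y o1 * x o2 ≠ 0 := by
    have h := h2 (.inl ⟨1, by simp⟩)
    simp only [br, f3, f2, single_one_dotProduct] at h
    exact h
  set δ : ℂ := x o1 * y o2 - y o1 * x o2 with hδd
  set a : Fin N → ℂ := (δ⁻¹ * y o2) • x - (δ⁻¹ * x o2) • y with ha
  set b : Fin N → ℂ := (δ⁻¹ * x o1) • y - (δ⁻¹ * y o1) • x with hb
  have a1 : a o1 = 1 := by
    simp only [ha, Pi.sub_apply, Pi.smul_apply, smul_eq_mul]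
    field_simp
    rw [hδd]; ring
  have a2 : a o2 = 0 := by
    simp only [ha, Pi.sub_apply, Pi.smul_apply, smul_eq_mul]
    ring
  have b1 : b o1 = 0 := by
    simp only [hb, Pi.sub_apply, Pi.smul_apply, smul_eq_mul]
    ring
  have b2 : b o2 = 1 := by
    simp only [hb, Pi.sub_apply, Pi.smul_apply, smul_eq_mul]
    field_simp
    rw [hδd]
  have hx : x = x o1 • a + x o2 • b := by
    funext i
    simp only [ha, hb, Pi.add_apply, Pi.sub_apply, Pi.smul_apply, smul_eq_mul]
    field_simp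
    rw [hδd]; ring
  have hy : y = y o1 • a + y o2 • b := by
    funext i
    simp only [ha, hb, Pi.add_apply, Pi.sub_apply, Pi.smul_apply, smul_eq_mul]
    field_simp
    rw [hδd]; ring
  have hbr : ∀ φ ψ : Fin N → ℂ, br φ ψ x y = 0 → br φ ψ a b = 0 := by
    intro φ ψ h
    have h3 : br φ ψ x y = δ * br φ ψ a b := by
      conv_lhs => rw [hx, hy]
      simp only [br, dotProduct_add, dotProduct_smul, smul_eq_mul]
      rw [hδd]
      ring
    rw [h3] at h
    exact (mul_eq_zero.1 h).resolve_left hδ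
  have h1' : ∀ k : Rl m d s P, br (f1 e c k) (f2 e k) a b = 0 := fun k => hbr _ _ (h1 k)
  -- the coordinates
  have ainr : ∀ j, a (e (.inr j)) = 0 := by
    intro j
    by_cases hj : j = 0
    · rw [hj]; exact a2
    · have h := h1' (.inl ⟨j, hj⟩)
      simp only [br, f1, f2, single_one_dotProduct] at h
      rw [← ho2, a2, b2, mul_one, mul_zero, sub_zero] at h
      exact h
  have binl : ∀ τ, b (e (.inl τ)) = 0 := by
    intro τ
    by_cases hτ : τ = fun _ => 0
    · rw [hτ]; exact b1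
    · have h := h1' (.inr (.inl ⟨τ, hτ⟩))
      simp only [br, f1, f2, single_one_dotProduct] at h
      rw [← ho1, a1, b1, mul_zero, mul_one, zero_sub, neg_eq_zero] at h
      exact h
  set z : Fin (m + 2) → ℂ := fun j => b (e (.inr j)) with hz
  have hz0 : z 0 = 1 := b2
  have aupd : ∀ τ x j, j ≠ 0 → a (e (.inl (Function.update τ x j))) =
      a (e (.inl (Function.update τ x 0))) * z j := by
    intro τ x j hj
    have h := h1' (.inr (.inr (.inl (τ, x, ⟨j, hj⟩))))
    simp only [br, f1, f2, add_dotProduct, single_one_dotProduct] at h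
    rw [ainr, ainr, binl, binl, ← ho2, b2, add_zero, zero_add, mul_one, zero_add, add_zero] at h
    have h' : z j = b (e (.inr j)) := rfl
    rw [h']
    linear_combination h
  have amon : ∀ (S : Finset (Fin (d + 1))) (τ : Fin (d + 1) → Fin (m + 2)),
      (∀ x ∉ S, τ x = 0) → a (e (.inl τ)) = ∏ x, z (τ x) := by
    intro S
    induction S using Finset.induction_on with
    | empty =>
      intro τ hτ
      have : τ = fun _ => 0 := by
        funext x
        exact hτ x (Finset.notMem_empty x)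
      rw [this]
      simp only [hz0, Finset.prod_const_one]
      exact a1
    | insert x S hx ih =>
      intro τ hτ
      have hupd : ∏ y, z (Function.update τ x 0 y) = ∏ y ∈ Finset.univ.erase x, z (τ y) := by
        rw [← Finset.mul_prod_erase Finset.univ _ (Finset.mem_univ x), Function.update_self, hz0,
          one_mul]
        refine Finset.prod_congr rfl fun y hy => ?_
        rw [Function.update_of_ne (Finset.ne_of_mem_erase hy)]
      have hτ0 : a (e (.inl (Function.update τ x 0))) = ∏ y ∈ Finset.univ.erase x, z (τ y) := by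
        rw [← hupd]
        apply ih
        intro y hy
        by_cases hyx : y = x
        · rw [hyx, Function.update_self]
        · rw [Function.update_of_ne hyx]
          apply hτ
          rw [Finset.mem_insert, not_or]
          exact ⟨hyx, hy⟩
      by_cases hτx : τ x = 0
      · have h3 : Function.update τ x 0 = τ := by
          rw [← hτx]; exact Function.update_eq_self x τ
        rw [h3] at hτ0
        rw [hτ0, ← Finset.mul_prod_erase Finset.univ (fun y => z (τ y)) (Finset.mem_univ x), hτx,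
          hz0, one_mul]
      · have h3 := aupd τ x (τ x) hτx
        rw [Function.update_eq_self, hτ0] at h3
        rw [h3, ← Finset.mul_prod_erase Finset.univ (fun y => z (τ y)) (Finset.mem_univ x),
          mul_comm]
  have amon' : ∀ τ, a (e (.inl τ)) = ∏ x, z (τ x) := fun τ =>
    amon Finset.univ τ (fun x hx => absurd (Finset.mem_univ x) hx)
  have hva : a = va e z := by
    funext i
    obtain ⟨i, rfl⟩ := e.surjective i
    rcases i with τ | j
    · rw [va_inl, amon']
    · rw [va_inr, ainr]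
  have hvb : b = vb e z := by
    funext i
    obtain ⟨i, rfl⟩ := e.surjective i
    rcases i with τ | j
    · rw [vb_inl, binl]
    · rw [vb_inr]
  refine ⟨z, hz0, ?_, ⟨x o1, x o2, ?_⟩, ⟨y o1, y o2, ?_⟩⟩
  · intro l
    by_cases hl : c l = 0
    · simp [hl]
    · have h := h1' (.inr (.inr (.inr ⟨l, hP l hl⟩)))
      simp only [br, f1, f2, sum_dotProduct, smul_dotProduct, single_one_dotProduct,
        smul_eq_mul] at h
      rw [← ho2, a2, b2, mul_one, mul_zero, sub_zero] at h
      simp only [amon'] at h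
      exact h
  · rw [← hva, ← hvb]; exact hx
  · rw [← hva, ← hvb]; exact hy

end rel

/-! ### The data -/

/-- The data attached to a closed cone. -/
theorem exists_data {m : ℕ} {K : Set (Fin (m + 2) → ℂ)}
    (hcl : ∀ z, (∀ p : MvPolynomial (Fin (m + 2)) ℂ, (∀ z' ∈ K, eval z' p = 0) → eval z p = 0) →
      z ∈ K)
    (hcone : ∀ z ∈ K, ∀ c : ℂ, c • z ∈ K)
    (haff : ∀ p : MvPolynomial (Fin (m + 2)) ℂ, (∀ z ∈ K, z 0 ≠ 0 → eval z p = 0) →
      ∀ z ∈ K, eval z p = 0)
    (h0 : Pi.single 0 1 ∈ K) : ∃ D : FData, ∃ h : D.m = m, h ▸ D.K = K := by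
  classical
  obtain ⟨d, s, c, hc1, hc2⟩ := exists_eqs hcl hcone
  have hc0 : ∀ l, c l (fun _ => 0) = 0 := by
    intro l
    have h1 := hc1 _ h0 (by simp) l
    rw [Finset.sum_eq_single (fun _ => 0)] at h1
    · simpa using h1
    · intro τ _ hτ
      obtain ⟨x, hx⟩ := Function.ne_iff.1 hτ
      have : ∏ x, (Pi.single 0 1 : Fin (m + 2) → ℂ) (τ x) = 0 := by
        apply Finset.prod_eq_zero (Finset.mem_univ x)
        exact Pi.single_eq_of_ne hx _
      rw [this, mul_zero]
    · intro h; exact absurd (Finset.mem_univ _) h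
  let P : Fin s → Prop := fun l => c l ≠ 0
  let R : Type := Rl m d s P
  have hRne : Nonempty R := ⟨.inl ⟨1, by simp⟩⟩
  obtain ⟨r, hr⟩ : ∃ r, Fintype.card R = r + 1 :=
    ⟨Fintype.card R - 1, by have := Fintype.card_pos (α := R); omega⟩
  let eR : Fin (r + 1) ≃ R := (Fintype.equivFinOfCardEq hr).symm
  let I : Type := (Fin (d + 1) → Fin (m + 2)) ⊕ Fin (m + 2)
  have hI : 3 ≤ Fintype.card I := by
    simp only [I, Fintype.card_sum, Fintype.card_fin, Fintype.card_pi, Finset.prod_const,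
      Finset.card_univ]
    have : 1 ≤ (m + 2) ^ (d + 1) := Nat.one_le_pow _ _ (by omega)
    omega
  obtain ⟨q, hq⟩ : ∃ q, Fintype.card I = q + 3 := ⟨Fintype.card I - 3, by omega⟩
  let e0 : I ≃ Fin (q + 3) := Fintype.equivFinOfCardEq hq
  let o1 : Fin (q + 3) := ⟨q, by omega⟩
  let o3 : Fin (q + 3) := ⟨q + 1, by omega⟩
  let o2 : Fin (q + 3) := ⟨q + 2, by omega⟩
  have h13 : o1 ≠ o3 := by simp [o1, o3]
  have h12 : o1 ≠ o2 := by simp [o1, o2]
  have h32 : o3 ≠ o2 := by simp [o3, o2]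
  obtain ⟨π, hπ1, hπ2⟩ := exists_perm2 (o1 := e0 (.inl fun _ => 0)) (o2 := e0 (.inr 0))
    (k1 := o1) (k2 := o2) (by intro h; have := e0.injective h; cases this) h12
  let e : I ≃ Fin (q + 3) := e0.trans π
  have he1 : e (.inl fun _ => 0) = o1 := hπ1
  have he2 : e (.inr 0) = o2 := hπ2
  have hG : ∀ k : Fin (r + 1), ∃ G : Matrix (Fin (q + 3)) (Fin (q + 3)) ℂ, IsUnit G.det ∧
      (∀ i, i ≠ o1 → i ≠ o2 → G i o1 = 0 ∧ G i o2 = 0) ∧ G o3 = f1 e c (eR k) ∧
      G o2 = f2 e (eR k) ∧ G o1 = f3 e (eR k) := by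
    intro k
    refine exists_G h13 h12 h32 _ _ _ (f1_ne (fun l hl => hl) (eR k)) ?_ ?_ ?_
    · rw [← he1]; exact f1_o1 hc0 (eR k)
    · rw [← he2]; exact f1_o2 (eR k)
    · rw [← he1, ← he2]; exact f_det (eR k)
  choose G hG1 hG2 hG3 hG4 hG5 using hG
  have k1 : ∀ z ∈ K, z 0 ≠ 0 → ∀ k, br (G k o3) (G k o2) (va e z) (vb e z) = 0 := by
    intro z hz hz0 k
    rw [hG3, hG4]
    exact (rel_fam hz0 (hc1 z hz hz0) (eR k)).1
  have k2 : ∀ z ∈ K, z 0 ≠ 0 → ∀ k, br (G k o1) (G k o2) (va e z) (vb e z) ≠ 0 := by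
    intro z hz hz0 k
    rw [hG5, hG4]
    exact (rel_fam hz0 (hc1 z hz hz0) (eR k)).2
  have k3 : ∀ x y : Fin (q + 3) → ℂ,
      (∀ k, br (G k o3) (G k o2) x y = 0 ∧ br (G k o1) (G k o2) x y ≠ 0) →
      ∃ z ∈ K, z 0 ≠ 0 ∧ (∃ s s' : ℂ, x = s • va e z + s' • vb e z) ∧
        (∃ s s' : ℂ, y = s • va e z + s' • vb e z) := by
    intro x y hxy
    have y1 : ∀ k : Rl m d s P, br (f1 e c k) (f2 e k) x y = 0 := by
      intro k
      have := (hxy (eR.symm k)).1
      rwa [hG3, hG4, Equiv.apply_symm_apply] at this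
    have y2 : ∀ k : Rl m d s P, br (f3 e k) (f2 e k) x y ≠ 0 := by
      intro k
      have := (hxy (eR.symm k)).2
      rwa [hG5, hG4, Equiv.apply_symm_apply] at this
    obtain ⟨z, hz0, hzl, hx, hy⟩ := fam_rel (P := P) (fun l hl => hl) y1 y2
    refine ⟨z, hc2 z hz0 hzl, ?_, hx, hy⟩
    rw [hz0]
    exact one_ne_zero
  exact ⟨FData.mk (TData.mk r (q + 3) o1 o3 o2 rfl rfl rfl G hG1 hG2) m (d + 1) e K hcl hcone
    haff k1 k2 k3, rfl, rfl⟩

end

end Pool.Agent.Lib.MP_1e2f52_ag
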