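import Pool.Agent.Lib.MP_1e2f52_ag.Germ

/-!
# The Cohen-Macaulay property and regular elements
-/

open MvPolynomial RingTheory.Sequence IsLocalRing CategoryTheory Abelian Pointwise

namespace Pool.Agent.Lib.MP_1e2f52_ag

noncomputable section

lemma IsCM.of_equiv {R S : Type} [CommRing R] [CommRing S] (e : R ≃+* S) (h : IsCM R) :
    IsCM S := by
  obtain ⟨rs, hrs, hd⟩ := h
  refine ⟨rs.map e, ?_, ?_⟩
  · refine (AddEquiv.isRegular_congr (e := e.toAddEquiv) ?_).1 hrs
    rw [List.forall₂_map_right_iff, List.forall₂_same]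
    intro r _ x
    simp
  · rw [List.length_map, hd]
    exact ringKrullDim_eq_of_ringEquiv e

lemma isCM_congr {R S : Type} [CommRing R] [CommRing S] (e : R ≃+* S) : IsCM R ↔ IsCM S :=
  ⟨IsCM.of_equiv e, IsCM.of_equiv e.symm⟩

variable {R : Type} [CommRing R]

lemma isRegular_quot_iff (x : R) (rs : List R) :
    IsRegular (QuotSMulTop x R) rs ↔
      IsRegular (R ⧸ Ideal.span {x}) (rs.map (Ideal.Quotient.mk (Ideal.span {x}))) := by
  have h : x • (⊤ : Submodule R R) = Ideal.span {x} := by
    rw [← Submodule.ideal_span_singleton_smul]; simp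
  refine AddEquiv.isRegular_congr (e := (Submodule.quotEquivOfEq _ _ h).toAddEquiv) ?_
  rw [List.forall₂_map_right_iff, List.forall₂_same]
  intro r _ y
  obtain ⟨y, rfl⟩ := Submodule.Quotient.mk_surjective _ y
  rfl

/-- Quotients by a regular element of the maximal ideal. -/
theorem isCM_quot_iff [IsNoetherianRing R] [IsLocalRing R] {x : R} (hx : x ∈ maximalIdeal R)
    (reg : IsSMulRegular R x) : IsCM R ↔ IsCM (R ⧸ Ideal.span {x}) := by
  have hdim := ringKrullDim_quotient_span_singleton_succ_eq_ringKrullDim reg hx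
  constructor
  · rintro ⟨rs, hrs, hd⟩
    have hne : maximalIdeal R ≠ ⊤ := (maximalIdeal.isMaximal R).ne_top
    have hlt : (maximalIdeal R) • (⊤ : Submodule R R) < ⊤ := by
      rw [smul_eq_mul, Ideal.mul_top]
      exact hne.lt_top
    have hnt := nontrivial_quotSMulTop_of_mem_maximalIdeal R hx
    have hlt' : (maximalIdeal R) • (⊤ : Submodule R (QuotSMulTop x R)) < ⊤ :=
      lt_top_iff_ne_top.2 (Submodule.top_ne_ideal_smul_of_le_jacobson_annihilator
        (maximalIdeal_le_jacobson _)).symm
    have hmem : ∀ r ∈ rs, r ∈ maximalIdeal R := by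
      intro r hr
      by_contra hcon
      have hu : IsUnit r := by simpa using hcon
      apply hrs.2
      rw [smul_eq_mul, Ideal.mul_top]
      exact (Ideal.eq_top_of_isUnit_mem _ (Ideal.subset_span (by simpa using hr)) hu).symm
    have hext := ((ModuleCat.exists_isRegular_tfae (maximalIdeal R) rs.length
      (ModuleCat.of R R) hlt).out 3 1 rfl rfl).1 ⟨rs, rfl, hmem, hrs⟩
    obtain ⟨rs', hl, hm, hreg⟩ := ((ModuleCat.exists_isRegular_tfae (maximalIdeal R)
      (rs.length - 1) (ModuleCat.of R (QuotSMulTop x R)) hlt').out 1 3 rfl rfl).1 (by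
        intro i hi
        have zero1 := AddCommGrpCat.isZero_of_iff_subsingleton.mpr (hext i (by omega))
        have zero2 := AddCommGrpCat.isZero_of_iff_subsingleton.mpr (hext (i + 1) (by omega))
        exact AddCommGrpCat.subsingleton_of_isZero <| ShortComplex.Exact.isZero_of_both_zeros
          ((Ext.covariant_sequence_exact₃' _ (IsSMulRegular.smulShortComplex_shortExact
            (M := ModuleCat.of R R) reg)) i (i + 1) rfl)
          (zero1.eq_zero_of_src _) (zero2.eq_zero_of_tgt _))
    refine ⟨rs'.map (Ideal.Quotient.mk _), (isRegular_quot_iff x rs').1 hreg, ?_⟩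
    rw [List.length_map, hl]
    rw [← hd] at hdim
    have hnt2 : Nontrivial (R ⧸ Ideal.span {x}) :=
      Ideal.Quotient.nontrivial_iff.2
        (fun h => hne (top_le_iff.1 (h ▸ (Ideal.span_singleton_le_iff_mem _).2 hx)))
    obtain ⟨e, he⟩ : ∃ e : ℕ∞, ringKrullDim (R ⧸ Ideal.span {x}) = (e : WithBot ℕ∞) := by
      have h0 : ringKrullDim (R ⧸ Ideal.span {x}) ≠ ⊥ := by
        intro h
        have := ringKrullDim_nonneg_of_nontrivial (R := R ⧸ Ideal.span {x})
        rw [h] at this
        simp at this
      exact ⟨_, (WithBot.coe_unbot _ h0).symm⟩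
    rw [he] at hdim ⊢
    have h1 : e + 1 = (rs.length : ℕ∞) := by exact_mod_cast hdim
    have h2 : e ≠ ⊤ := by
      rintro rfl
      simp at h1
    lift e to ℕ using h2
    have h3 : e + 1 = rs.length := by exact_mod_cast h1
    rw [← h3]
    rfl
  · rintro ⟨rs, hrs, hd⟩
    obtain ⟨rs', rfl⟩ : ∃ rs' : List R, rs'.map (Ideal.Quotient.mk (Ideal.span {x})) = rs :=
      List.map_surjective_iff.2 Ideal.Quotient.mk_surjective rs
    refine ⟨x :: rs', (isRegular_cons_iff _ _ _).2 ⟨reg, (isRegular_quot_iff x rs').2 hrs⟩, ?_⟩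
    rw [← hdim, ← hd]
    simp

/-! ### Cylinders -/

variable {σ τ : Type}

/-- The product of a subset of affine space with a line. -/
def optCyl (V : Set (σ → ℂ)) : Set (Option σ → ℂ) := {p | (fun i => p (some i)) ∈ V}

/-- The distinguished element of the local ring of a cylinder. -/
def lineElt (V : Set (σ → ℂ)) (p : Option σ → ℂ) : Germ (optCyl V) p :=
  toGerm (optCyl V) p (X none - C (p none))

lemma lineElt_mem {V : Set (σ → ℂ)} {p : Option σ → ℂ} (hp : p ∈ optCyl V) :
    letI := germ_isLocal hp
    lineElt V p ∈ maximalIdeal (Germ (optCyl V) p) := by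
  let _ := germ_isLocal hp
  rw [mem_maximalIdeal, mem_nonunits_iff]
  intro hu
  obtain ⟨y, hy⟩ := hu.exists_right_inv
  obtain ⟨q, s, hs, hq⟩ := toGerm_surj_mul y
  have h1 : toGerm (optCyl V) p ((X none - C (p none)) * q - s) = 0 := by
    rw [map_sub, map_mul, ← hq, ← mul_assoc]
    change lineElt V p * y * _ - _ = 0
    rw [hy, one_mul, sub_self]
  obtain ⟨s', hs', h2⟩ := toGerm_eq_zero_iff.1 h1
  have h3 := h2 p hp
  simp at h3
  rcases h3 with h3 | h3
  · exact hs' h3
  · exact hs h3

lemma lineElt_regular (V : Set (σ → ℂ)) (p : Option σ → ℂ) :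
    IsSMulRegular (Germ (optCyl V) p) (lineElt V p) := by
  intro r r' h
  have h0 : lineElt V p * (r - r') = 0 := by
    rw [mul_sub]; exact sub_eq_zero.2 h
  suffices h' : r - r' = 0 from sub_eq_zero.1 h'
  obtain ⟨q, s, hs, hq⟩ := toGerm_surj_mul (r - r')
  have h1 : toGerm (optCyl V) p ((X none - C (p none)) * q) = 0 := by
    rw [map_mul, ← hq, ← mul_assoc]
    change lineElt V p * (r - r') * _ = 0
    rw [h0, zero_mul]
  obtain ⟨s', hs', h2⟩ := toGerm_eq_zero_iff.1 h1
  have h3 : toGerm (optCyl V) p q = 0 := by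
    refine toGerm_eq_zero_iff.2 ⟨s', hs', fun z hz => ?_⟩
    -- one variable polynomial along the line
    let L : MvPolynomial (Option σ) ℂ →+* Polynomial ℂ :=
      (aeval (fun o : Option σ => o.elim Polynomial.X (fun i => Polynomial.C (z (some i)))) :
        MvPolynomial (Option σ) ℂ →ₐ[ℂ] Polynomial ℂ)
    have hL : ∀ (t : ℂ) (f : MvPolynomial (Option σ) ℂ),
        (L f).eval t = eval (fun o : Option σ => o.elim t (fun i => z (some i))) f := by
      intro t f
      have : (Polynomial.evalRingHom t).comp L =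
          eval (fun o : Option σ => o.elim t (fun i => z (some i))) := by
        ext i
        · simp [L]
        · cases i <;> simp [L]
      exact congrArg (fun g => g f) this
    have h4 : (Polynomial.X - Polynomial.C (p none)) * L (s' * q) = 0 := by
      apply Polynomial.funext
      intro t
      have h5 := h2 (fun o : Option σ => o.elim t (fun i => z (some i))) (by simpa [optCyl] using hz)
      simp only [Polynomial.eval_mul, Polynomial.eval_sub, Polynomial.eval_X, Polynomial.eval_C,
        Polynomial.eval_zero, hL, map_mul, map_sub, eval_X, eval_C, Option.elim_none] at h5 ⊢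
      linear_combination h5
    have h6 : L (s' * q) = 0 := by
      rcases mul_eq_zero.1 h4 with h | h
      · exact absurd h (Polynomial.X_sub_C_ne_zero _)
      · exact h
    have h7 := hL (z none) (s' * q)
    rw [h6, Polynomial.eval_zero] at h7
    have h8 : (fun o : Option σ => o.elim (z none) (fun i => z (some i))) = z := by
      funext o; cases o <;> rfl
    rw [h8, map_mul] at h7
    exact h7.symm
  rw [h3] at hq
  have hu : IsUnit (toGerm (optCyl V) p s) := toGerm_isUnit hs
  exact (hu.mul_left_eq_zero).1 hq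

lemma lineElt_quot {V : Set (σ → ℂ)} {p : Option σ → ℂ} :
    Nonempty ((Germ (optCyl V) p ⧸ Ideal.span {lineElt V p}) ≃+*
      Germ V (fun i => p (some i))) := by
  let φ : MvPolynomial (Option σ) ℂ →+* MvPolynomial σ ℂ :=
    (aeval (fun o : Option σ => o.elim (C (p none)) (fun i => X i)) :
      MvPolynomial (Option σ) ℂ →ₐ[ℂ] MvPolynomial σ ℂ)
  let ρ : MvPolynomial σ ℂ →+* MvPolynomial (Option σ) ℂ :=
    (rename some : MvPolynomial σ ℂ →ₐ[ℂ] MvPolynomial (Option σ) ℂ)
  have hφ : ∀ (z : σ → ℂ) (q : MvPolynomial (Option σ) ℂ),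
      eval z (φ q) = eval (fun o : Option σ => o.elim (p none) z) q := by
    intro z q
    have : (eval z).comp φ = eval (fun o : Option σ => o.elim (p none) z) := by
      ext i
      · simp [φ]
      · cases i <;> simp [φ]
    exact congrArg (fun g => g q) this
  have hρ : ∀ (z : Option σ → ℂ) (q : MvPolynomial σ ℂ),
      eval z (ρ q) = eval (fun i => z (some i)) q := by
    intro z q
    simp only [ρ]
    exact eval_rename _ _ _
  have hpe : (fun o : Option σ => o.elim (p none) (fun i => p (some i))) = p := by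
    funext o; cases o <;> rfl
  let f : Germ (optCyl V) p →+* Germ V (fun i => p (some i)) :=
    germMap φ (fun q => by rw [hφ, hpe]) (by
      intro q hq z hz
      change eval z (φ q) = 0
      rw [hφ]
      exact hq _ (by simpa [optCyl] using hz))
  let g : Germ V (fun i => p (some i)) →+* Germ (optCyl V) p :=
    germMap ρ (fun q => hρ _ _) (by
      intro q hq z hz
      change eval z (ρ q) = 0
      rw [hρ]
      exact hq _ hz)
  have hf : ∀ q, f (toGerm (optCyl V) p q) = toGerm V (fun i => p (some i)) (φ q) :=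
    fun q => germMap_toGerm φ _ _ q
  have hg : ∀ q, g (toGerm V (fun i => p (some i)) q) = toGerm (optCyl V) p (ρ q) :=
    fun q => germMap_toGerm ρ _ _ q
  have hfx : f (lineElt V p) = 0 := by
    have h1 : φ (X none - C (p none)) = 0 := by
      simp [φ]
    have h2 := hf (X none - C (p none))
    rw [h1, map_zero] at h2
    exact h2
  let f' : (Germ (optCyl V) p ⧸ Ideal.span {lineElt V p}) →+* Germ V (fun i => p (some i)) :=
    Ideal.Quotient.lift _ f (by
      intro r hr
      obtain ⟨c, rfl⟩ := Ideal.mem_span_singleton'.1 hr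
      rw [map_mul, hfx, mul_zero])
  let g' : Germ V (fun i => p (some i)) →+* (Germ (optCyl V) p ⧸ Ideal.span {lineElt V p}) :=
    (Ideal.Quotient.mk _).comp g
  have hfg : f'.comp g' = RingHom.id _ := by
    refine germ_endo fun q => ?_
    change f (g (toGerm _ _ q)) = _
    rw [hg, hf]
    congr 1
    have : φ.comp ρ = RingHom.id _ := by
      ext i
      · simp [φ, ρ]
      · simp [φ, ρ]
    exact congrArg (fun h => h q) this
  have hgf : ∀ r : Germ (optCyl V) p, (Ideal.Quotient.mk (Ideal.span {lineElt V p})) (g (f r)) =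
      (Ideal.Quotient.mk (Ideal.span {lineElt V p})) r := by
    have key : ∀ q : MvPolynomial (Option σ) ℂ,
        (Ideal.Quotient.mk (Ideal.span {lineElt V p})) (toGerm (optCyl V) p (ρ (φ q))) =
        (Ideal.Quotient.mk (Ideal.span {lineElt V p})) (toGerm (optCyl V) p q) := by
      intro q
      have : (((Ideal.Quotient.mk (Ideal.span {lineElt V p})).comp
          (toGerm (optCyl V) p)).comp (ρ.comp φ)) =
          ((Ideal.Quotient.mk (Ideal.span {lineElt V p})).comp (toGerm (optCyl V) p)) := by
        ext i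
        · simp [φ, ρ]
        · cases i with
          | none =>
            have h1 : (Ideal.Quotient.mk (Ideal.span {lineElt V p})) (lineElt V p) = 0 :=
              Ideal.Quotient.eq_zero_iff_mem.2 (Ideal.mem_span_singleton_self _)
            have h2 : lineElt V p = toGerm (optCyl V) p (X none) - toGerm (optCyl V) p (C (p none)) := by
              rw [← map_sub]; rfl
            have h3 : (Ideal.Quotient.mk (Ideal.span {lineElt V p})) (lineElt V p) =
                (Ideal.Quotient.mk (Ideal.span {lineElt V p}))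
                  (toGerm (optCyl V) p (X none) - toGerm (optCyl V) p (C (p none))) :=
              congrArg _ h2
            rw [h1, map_sub] at h3
            have h4 := sub_eq_zero.1 h3.symm
            simp only [RingHom.comp_apply]
            rw [h4]
            simp [φ, ρ]
          | some i => simp [φ, ρ]
      exact congrArg (fun h => h q) this
    intro r
    obtain ⟨q, s, hs, hq⟩ := toGerm_surj_mul r
    have hu : IsUnit ((Ideal.Quotient.mk (Ideal.span {lineElt V p})) (toGerm (optCyl V) p s)) :=
      (toGerm_isUnit hs).map _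
    apply hu.mul_right_cancel
    have h1 : ∀ q, g (f (toGerm (optCyl V) p q)) = toGerm (optCyl V) p (ρ (φ q)) := by
      intro q
      rw [hf, hg]
    have h2 : (Ideal.Quotient.mk (Ideal.span {lineElt V p})) (toGerm (optCyl V) p s) =
        (Ideal.Quotient.mk (Ideal.span {lineElt V p})) (g (f (toGerm (optCyl V) p s))) := by
      rw [h1, key]
    have h3 : (Ideal.Quotient.mk (Ideal.span {lineElt V p})) (g (f r)) *
        (Ideal.Quotient.mk (Ideal.span {lineElt V p})) (toGerm (optCyl V) p s) =
        (Ideal.Quotient.mk (Ideal.span {lineElt V p})) (toGerm (optCyl V) p q) := by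
      rw [h2, ← map_mul, ← map_mul, ← map_mul, hq, h1, key]
    rw [h3, ← map_mul, hq]
  refine ⟨RingEquiv.ofRingHom f' g' hfg ?_⟩
  apply Ideal.Quotient.ringHom_ext
  refine RingHom.ext fun r => ?_
  exact hgf r

theorem isCM_optCyl [Finite σ] {V : Set (σ → ℂ)} {p : Option σ → ℂ} (hp : p ∈ optCyl V)
    {a : σ → ℂ} (ha : (fun i => p (some i)) = a) :
    IsCM (Germ (optCyl V) p) ↔ IsCM (Germ V a) := by
  subst ha
  obtain ⟨e⟩ := lineElt_quot (V := V) (p := p)
  exact (@isCM_quot_iff _ _ _ (germ_isLocal hp) _ (lineElt_mem hp) (lineElt_regular V p)).trans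
    (isCM_congr e)

theorem affineCM_optCyl [Finite σ] (V : Set (σ → ℂ)) : AffineCM (optCyl V) ↔ AffineCM V := by
  constructor
  · intro h a ha
    have hp : (fun o : Option σ => o.elim 0 a) ∈ optCyl V := by simpa [optCyl] using ha
    exact (isCM_optCyl hp rfl).1 (h _ hp)
  · intro h p hp
    exact (isCM_optCyl hp rfl).2 (h _ hp)

theorem affineCM_of_polyIso {V : Set (σ → ℂ)} {W : Set (τ → ℂ)} (h : PolyIso V W) :
    AffineCM V ↔ AffineCM W := by
  obtain ⟨F, G, hF, hG⟩ := h
  constructor
  · intro h b hb
    obtain ⟨e⟩ := germ_equiv hG hF hb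
    exact (isCM_congr e).2 (h _ (hG b hb).1)
  · intro h a ha
    obtain ⟨e⟩ := germ_equiv hF hG ha
    exact (isCM_congr e).2 (h _ (hF a ha).1)

lemma polyIso_reindex (e : σ ≃ τ) {V : Set (σ → ℂ)} {W : Set (τ → ℂ)}
    (h : ∀ p : τ → ℂ, p ∈ W ↔ (fun i => p (e i)) ∈ V) : PolyIso V W := by
  refine ⟨fun t => X (e.symm t), fun s => X (e s), ?_, ?_⟩
  · intro a ha
    simp only [eval_X]
    refine ⟨(h _).2 ?_, ?_⟩
    · simpa using ha
    · simp
  · intro b hb
    simp only [eval_X]
    refine ⟨(h _).1 hb, ?_⟩
    simp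

theorem affineCM_cyl [Finite σ] (V : Set (σ → ℂ)) (k : ℕ) :
    AffineCM (cyl V (Fin k)) ↔ AffineCM V := by
  induction k with
  | zero =>
    refine affineCM_of_polyIso (polyIso_reindex (Equiv.sumEmpty σ (Fin 0)) fun p => ?_)
    rfl
  | succ k ih =>
    let e : σ ⊕ Fin (k + 1) ≃ Option (σ ⊕ Fin k) :=
      (Equiv.sumCongr (Equiv.refl σ) (finSuccEquiv k)).trans
        ((Equiv.sumCongr (Equiv.refl σ) (Equiv.optionEquivSumPUnit.{0} (Fin k))).trans
          ((Equiv.sumAssoc σ (Fin k) PUnit.{1}).symm.trans
            (Equiv.optionEquivSumPUnit.{0} (σ ⊕ Fin k)).symm))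
    have h : PolyIso (cyl V (Fin (k + 1))) (optCyl (cyl V (Fin k))) :=
      polyIso_reindex e fun p => Iff.rfl
    exact (affineCM_of_polyIso h).trans ((affineCM_optCyl _).trans ih)

end

end Pool.Agent.Lib.MP_1e2f52_ag
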