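import Pool.Agent.Lib.MP_1e2f52_ag.Defs

/-!
# Springer Schubert cells for the Grassmannian permutation and block matrices
-/

open MvPolynomial Matrix

namespace Pool.Agent.Lib.MP_1e2f52_ag

noncomputable section

variable {N : ℕ}

/-- A two by two block matrix with square blocks of size `N`, indexed by `Fin (N + N)`. -/
def blk (A B C D : Matrix (Fin N) (Fin N) ℂ) : Matrix (Fin (N + N)) (Fin (N + N)) ℂ :=
  (Matrix.fromBlocks A B C D).submatrix finSumFinEquiv.symm finSumFinEquiv.symm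

section blk

variable (A B C D A' B' C' D' : Matrix (Fin N) (Fin N) ℂ) (i j : Fin N)

lemma blk_11 : blk A B C D (Fin.castAdd N i) (Fin.castAdd N j) = A i j := by
  simp only [blk, Matrix.submatrix_apply, finSumFinEquiv_symm_apply_castAdd,
    Matrix.fromBlocks_apply₁₁]

lemma blk_12 : blk A B C D (Fin.castAdd N i) (Fin.natAdd N j) = B i j := by
  simp only [blk, Matrix.submatrix_apply, finSumFinEquiv_symm_apply_castAdd,
    finSumFinEquiv_symm_apply_natAdd, Matrix.fromBlocks_apply₁₂]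

lemma blk_21 : blk A B C D (Fin.natAdd N i) (Fin.castAdd N j) = C i j := by
  simp only [blk, Matrix.submatrix_apply, finSumFinEquiv_symm_apply_castAdd,
    finSumFinEquiv_symm_apply_natAdd, Matrix.fromBlocks_apply₂₁]

lemma blk_22 : blk A B C D (Fin.natAdd N i) (Fin.natAdd N j) = D i j := by
  simp only [blk, Matrix.submatrix_apply, finSumFinEquiv_symm_apply_natAdd,
    Matrix.fromBlocks_apply₂₂]

lemma blk_mul : blk A B C D * blk A' B' C' D' =
    blk (A * A' + B * C') (A * B' + B * D') (C * A' + D * C') (C * B' + D * D') := by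
  rw [blk, blk, Matrix.submatrix_mul_equiv, Matrix.fromBlocks_multiply]
  rfl

lemma blk_one : blk 1 0 0 1 = (1 : Matrix (Fin (N + N)) (Fin (N + N)) ℂ) := by
  rw [blk, Matrix.fromBlocks_one, Matrix.submatrix_one_equiv]

end blk

lemma exists_blk (M : Matrix (Fin (N + N)) (Fin (N + N)) ℂ) :
    ∃ A B C D : Matrix (Fin N) (Fin N) ℂ, M = blk A B C D := by
  refine ⟨Matrix.of fun i j => M (Fin.castAdd N i) (Fin.castAdd N j),
    Matrix.of fun i j => M (Fin.castAdd N i) (Fin.natAdd N j),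
    Matrix.of fun i j => M (Fin.natAdd N i) (Fin.castAdd N j),
    Matrix.of fun i j => M (Fin.natAdd N i) (Fin.natAdd N j), ?_⟩
  ext i j
  refine Fin.addCases (fun i => ?_) (fun i => ?_) i <;>
    refine Fin.addCases (fun j => ?_) (fun j => ?_) j
  · rw [blk_11, Matrix.of_apply]
  · rw [blk_12, Matrix.of_apply]
  · rw [blk_21, Matrix.of_apply]
  · rw [blk_22, Matrix.of_apply]

lemma castAdd_lt_castAdd_iff (i j : Fin N) : Fin.castAdd N i < Fin.castAdd N j ↔ i < j := by
  rw [Fin.lt_def, Fin.lt_def]; rfl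

lemma natAdd_lt_natAdd_iff (i j : Fin N) : Fin.natAdd N i < Fin.natAdd N j ↔ i < j := by
  rw [Fin.lt_def, Fin.lt_def, Fin.val_natAdd, Fin.val_natAdd]; omega

lemma castAdd_lt_natAdd (i j : Fin N) : Fin.castAdd N i < Fin.natAdd N j := by
  rw [Fin.lt_def]; simp only [Fin.val_castAdd, Fin.val_natAdd]; omega

lemma isUpper_blk {A B C D : Matrix (Fin N) (Fin N) ℂ} :
    IsUpper (blk A B C D) ↔ IsUpper A ∧ C = 0 ∧ IsUpper D := by
  constructor
  · intro h
    refine ⟨fun i j hij => ?_, ?_, fun i j hij => ?_⟩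
    · rw [← blk_11 A B C D]
      exact h _ _ ((castAdd_lt_castAdd_iff _ _).2 hij)
    · ext i j
      rw [← blk_21 A B C D]
      exact h _ _ (castAdd_lt_natAdd _ _)
    · rw [← blk_22 A B C D]
      exact h _ _ ((natAdd_lt_natAdd_iff _ _).2 hij)
  · rintro ⟨hA, rfl, hD⟩ i j
    refine Fin.addCases (fun i => ?_) (fun i => ?_) i <;>
      refine Fin.addCases (fun j => ?_) (fun j => ?_) j <;> intro hij
    · rw [blk_11]; exact hA _ _ ((castAdd_lt_castAdd_iff _ _).1 hij)
    · exact absurd hij (castAdd_lt_natAdd _ _).not_gt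
    · rw [blk_21]; rfl
    · rw [blk_22]; exact hD _ _ ((natAdd_lt_natAdd_iff _ _).1 hij)

lemma isUpper_mul {n : ℕ} {A B : Matrix (Fin n) (Fin n) ℂ} (hA : IsUpper A) (hB : IsUpper B) :
    IsUpper (A * B) := by
  intro i j hij
  rw [Matrix.mul_apply]
  refine Finset.sum_eq_zero fun k _ => ?_
  rcases lt_or_ge k i with h | h
  · rw [hA i k h, zero_mul]
  · rw [hB k j (lt_of_lt_of_le hij h), mul_zero]

lemma isUpper_iff_blockTriangular {n : ℕ} {A : Matrix (Fin n) (Fin n) ℂ} :
    IsUpper A ↔ A.BlockTriangular id := Iff.rfl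

lemma isUpper_inv {n : ℕ} {A : Matrix (Fin n) (Fin n) ℂ} (hA : IsUpper A) (hu : IsUnit A.det) :
    IsUpper A⁻¹ := by
  let _ : Invertible A := Matrix.invertibleOfIsUnitDet A hu
  exact Matrix.blockTriangular_inv_of_blockTriangular hA

/-- The Grassmannian permutation exchanging the two halves. -/
abbrev flip (N : ℕ) : Equiv.Perm (Fin (N + N)) := finAddFlip

lemma permMat_flip : permMat (flip N) = blk 0 1 1 0 := by
  ext i j
  refine Fin.addCases (fun i => ?_) (fun i => ?_) i <;>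
    refine Fin.addCases (fun j => ?_) (fun j => ?_) j
  · rw [blk_11, permMat, flip, finAddFlip_apply_castAdd, if_neg]
    · rfl
    · exact (castAdd_lt_natAdd _ _).ne
  · rw [blk_12, permMat, flip, finAddFlip_apply_natAdd, Matrix.one_apply]
    simp only [Fin.ext_iff, Fin.val_castAdd]
  · rw [blk_21, permMat, flip, finAddFlip_apply_castAdd, Matrix.one_apply]
    simp only [Fin.ext_iff, Fin.val_natAdd, Nat.add_left_cancel_iff]
  · rw [blk_22, permMat, flip, finAddFlip_apply_natAdd, if_neg]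
    · rfl
    · exact (castAdd_lt_natAdd _ _).ne'

/-- The matrix of variables. -/
def genMat (n : ℕ) : Matrix (Fin n) (Fin n) (MvPolynomial (Fin n × Fin n) ℂ) :=
  fun i j => X (i, j)

/-- Evaluation at the entries of a matrix. -/
def evMat {n : ℕ} (g : Matrix (Fin n) (Fin n) ℂ) : MvPolynomial (Fin n × Fin n) ℂ →+* ℂ :=
  eval (fun ij => g ij.1 ij.2)

lemma evMat_gen {n : ℕ} (g : Matrix (Fin n) (Fin n) ℂ) : (genMat n).map (evMat g) = g := by
  ext i j
  simp [genMat, evMat]

lemma mem_zclosure_iff {n : ℕ} {S : Set (Matrix (Fin n) (Fin n) ℂ)}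
    {g : Matrix (Fin n) (Fin n) ℂ} : g ∈ zclosure S ↔ IsUnit g.det ∧
      ∀ p : MvPolynomial (Fin n × Fin n) ℂ, (∀ h ∈ S, evMat h p = 0) → evMat g p = 0 := Iff.rfl

lemma subset_zclosure {n : ℕ} {S : Set (Matrix (Fin n) (Fin n) ℂ)}
    (hS : ∀ g ∈ S, IsUnit g.det) : S ⊆ zclosure S :=
  fun g hg => ⟨hS g hg, fun _ hp => hp g hg⟩

lemma zclosure_subset_springer {n : ℕ} {S : Set (Matrix (Fin n) (Fin n) ℂ)}
    {A : Matrix (Fin n) (Fin n) ℂ} (hS : S ⊆ springer A) : zclosure S ⊆ springer A := by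
  intro g hg
  refine ⟨hg.1, fun i j hij => ?_⟩
  have key : ∀ h : Matrix (Fin n) (Fin n) ℂ,
      evMat h (((genMat n).adjugate * A.map (C : ℂ → MvPolynomial (Fin n × Fin n) ℂ) *
        genMat n) i j) = (h.adjugate * A * h) i j := by
    intro h
    have h1 : (((genMat n).adjugate * A.map (C : ℂ → MvPolynomial (Fin n × Fin n) ℂ) *
        genMat n).map (evMat h)) = h.adjugate * A * h := by
      rw [Matrix.map_mul, Matrix.map_mul, evMat_gen]
      congr 2
      · have := (evMat h).map_adjugate (genMat n)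
        rw [RingHom.mapMatrix_apply, RingHom.mapMatrix_apply, evMat_gen] at this
        exact this
      · ext i j
        simp [evMat]
    exact congrFun (congrFun h1 i) j
  have h0 := hg.2 (((genMat n).adjugate * A.map (C : ℂ → MvPolynomial (Fin n × Fin n) ℂ) *
      genMat n) i j) (by
    intro h hh
    change evMat h _ = 0
    rw [key]
    obtain ⟨hu, hup⟩ := hS hh
    have h2 := hup i j hij
    have h3 : h.adjugate = h.det • h⁻¹ := by
      rw [Matrix.inv_def, smul_smul, Ring.mul_inverse_cancel _ hu, one_smul]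
    rw [h3, Matrix.smul_mul, Matrix.smul_mul, Matrix.smul_apply, h2, smul_zero])
  change evMat g _ = 0 at h0
  rw [key] at h0
  rw [Matrix.inv_def, Matrix.smul_mul, Matrix.smul_mul, Matrix.smul_apply, h0, smul_zero]

/-! ### The Schubert cell -/

lemma blk_swap_mul (A B C D : Matrix (Fin N) (Fin N) ℂ) : blk 0 1 1 0 * blk A B C D =
    blk C D A B := by
  rw [blk_mul]; simp

/-- The standard representatives of the points of the Schubert cell. -/
def rep (Q : Matrix (Fin N) (Fin N) ℂ) : Matrix (Fin (N + N)) (Fin (N + N)) ℂ := blk Q 1 1 0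

lemma rep_mul_inv (Q : Matrix (Fin N) (Fin N) ℂ) : rep Q * blk 0 1 1 (-Q) = 1 := by
  rw [rep, blk_mul, ← blk_one]; simp

lemma rep_inv (Q : Matrix (Fin N) (Fin N) ℂ) : (rep Q)⁻¹ = blk 0 1 1 (-Q) :=
  Matrix.inv_eq_right_inv (rep_mul_inv Q)

lemma rep_det (Q : Matrix (Fin N) (Fin N) ℂ) : IsUnit (rep Q).det :=
  Matrix.isUnit_det_of_right_inverse (rep_mul_inv Q)

lemma isUpper_one {n : ℕ} : IsUpper (1 : Matrix (Fin n) (Fin n) ℂ) := by
  intro i j hij
  exact Matrix.one_apply_ne hij.ne'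

lemma rep_mem_bruhat (Q : Matrix (Fin N) (Fin N) ℂ) : rep Q ∈ bruhat (flip N) := by
  refine ⟨blk 1 Q 0 1, 1, isUpper_blk.2 ⟨isUpper_one, rfl, isUpper_one⟩, ?_, isUpper_one,
    by simp, ?_⟩
  · refine Matrix.isUnit_det_of_right_inverse (B := blk 1 (-Q) 0 1) ?_
    rw [blk_mul, ← blk_one]; simp
  · rw [permMat_flip, blk_mul, mul_one, rep]; simp

lemma rep_conj (N1 N2 L Q : Matrix (Fin N) (Fin N) ℂ) : (rep Q)⁻¹ * blk N1 0 L N2 * rep Q =
    blk (L * Q + N2) L ((N1 - Q * L) * Q - Q * N2) (N1 - Q * L) := by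
  rw [rep_inv, rep, blk_mul, blk_mul]
  congr 1 <;> simp <;> noncomm_ring

/-- The conditions for the flag of `rep Q` to be in the Springer fiber. -/
lemma rep_mem_springer {N1 N2 L : Matrix (Fin N) (Fin N) ℂ} {Q : Matrix (Fin N) (Fin N) ℂ} :
    rep Q ∈ springer (blk N1 0 L N2) ↔ IsUpper (L * Q + N2) ∧
      (N1 - Q * L) * Q - Q * N2 = 0 ∧ IsUpper (N1 - Q * L) := by
  have h := rep_conj N1 N2 L Q
  constructor
  · rintro ⟨-, h1⟩
    rw [h] at h1
    exact isUpper_blk.1 h1
  · intro h1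
    refine ⟨rep_det Q, ?_⟩
    rw [h]
    exact isUpper_blk.2 h1

lemma blk_cube {N1 N2 L : Matrix (Fin N) (Fin N) ℂ} (h1 : N1 * N1 = 0) (h2 : N2 * N2 = 0)
    (h3 : N2 * L * N1 = 0) : blk N1 0 L N2 * blk N1 0 L N2 * blk N1 0 L N2 = 0 := by
  have h0 : blk (0 : Matrix (Fin N) (Fin N) ℂ) 0 0 0 = 0 := by
    rw [blk, Matrix.fromBlocks_zero]; rfl
  rw [blk_mul, blk_mul, ← h0]
  congr 1
  · simp [h1]
  · simp
  · rw [h2, add_mul, Matrix.mul_assoc L, h1, h3]; simp
  · simp [h2]

lemma bruhat_blocks {h : Matrix (Fin (N + N)) (Fin (N + N)) ℂ} (hh : h ∈ bruhat (flip N)) :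
    ∃ A B C D : Matrix (Fin N) (Fin N) ℂ, h = blk A B C D ∧ IsUpper C ∧ IsUnit C.det ∧
      IsUpper (B - A * C⁻¹ * D) ∧ IsUnit (B - A * C⁻¹ * D).det := by
  obtain ⟨b, c, hb, hbu, hc, hcu, rfl⟩ := hh
  obtain ⟨b11, b12, b21, b22, rfl⟩ := exists_blk b
  obtain ⟨c11, c12, c21, c22, rfl⟩ := exists_blk c
  obtain ⟨hb1, rfl, hb2⟩ := isUpper_blk.1 hb
  obtain ⟨hc1, rfl, hc2⟩ := isUpper_blk.1 hc
  have hdet : ∀ A B D : Matrix (Fin N) (Fin N) ℂ, (blk A B 0 D).det = A.det * D.det := by
    intro A B D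
    rw [blk, Matrix.det_submatrix_equiv_self, Matrix.det_fromBlocks_zero₂₁]
  rw [hdet, IsUnit.mul_iff] at hbu hcu
  rw [permMat_flip, blk_mul, blk_mul]
  refine ⟨_, _, _, _, rfl, ?_, ?_, ?_⟩
  · simpa using isUpper_mul hb2 hc1
  · simpa using hbu.2.mul hcu.1
  · have h1 : (b11 * 0 + b12 * 1) * c11 + (b11 * 1 + b12 * 0) * 0 = b12 * c11 := by simp
    have h2 : (b11 * 0 + b12 * 1) * c12 + (b11 * 1 + b12 * 0) * c22 = b12 * c12 + b11 * c22 := by
      simp
    have h3 : (0 * 0 + b22 * 1) * c11 + (0 * 1 + b22 * 0) * 0 = b22 * c11 := by simp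
    have h4 : (0 * 0 + b22 * 1) * c12 + (0 * 1 + b22 * 0) * c22 = b22 * c12 := by simp
    rw [h1, h2, h3, h4]
    have h5 : b12 * c11 * (b22 * c11)⁻¹ * (b22 * c12) = b12 * c12 := by
      have e1 : b12 * c11 * (b22 * c11)⁻¹ * (b22 * c12) =
          b12 * (c11 * c11⁻¹) * (b22⁻¹ * b22) * c12 := by
        rw [Matrix.mul_inv_rev]; simp only [Matrix.mul_assoc]
      rw [e1, Matrix.mul_nonsing_inv _ hcu.1, Matrix.nonsing_inv_mul _ hbu.2, Matrix.mul_one,
        Matrix.mul_one]
    rw [h5, add_sub_cancel_left]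
    exact ⟨isUpper_mul hb1 hc2, by rw [Matrix.det_mul]; exact hbu.1.mul hcu.2⟩

lemma bruhat_rep {h : Matrix (Fin (N + N)) (Fin (N + N)) ℂ} (hh : h ∈ bruhat (flip N)) :
    ∃ (Q : Matrix (Fin N) (Fin N) ℂ) (c : Matrix (Fin (N + N)) (Fin (N + N)) ℂ),
      IsUpper c ∧ IsUnit c.det ∧ h = rep Q * c := by
  obtain ⟨A, B, C, D, rfl, hC, hCu, hS, hSu⟩ := bruhat_blocks hh
  refine ⟨A * C⁻¹, blk C D 0 (B - A * C⁻¹ * D), isUpper_blk.2 ⟨hC, rfl, hS⟩, ?_, ?_⟩
  · rw [blk, Matrix.det_submatrix_equiv_self, Matrix.det_fromBlocks_zero₂₁]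
    exact hCu.mul hSu
  · rw [rep, blk_mul, Matrix.mul_assoc, Matrix.nonsing_inv_mul _ hCu]
    simp

/-! ### The closure in the chart at the permutation -/

/-- Equations satisfied by the double coset. -/
lemma zclosure_block {S : Set (Matrix (Fin (N + N)) (Fin (N + N)) ℂ)}
    (hS : S ⊆ bruhat (flip N)) {A B C D : Matrix (Fin N) (Fin N) ℂ}
    (hg : blk A B C D ∈ zclosure S) :
    IsUpper C ∧ IsUpper (C.det • B - A * C.adjugate * D) := by
  have cast : ∀ (A B C D : Matrix (Fin N) (Fin N) ℂ),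
      ((genMat (N + N)).submatrix (Fin.castAdd N) (Fin.castAdd N)).map
        (evMat (blk A B C D)) = A ∧
      ((genMat (N + N)).submatrix (Fin.castAdd N) (Fin.natAdd N)).map
        (evMat (blk A B C D)) = B ∧
      ((genMat (N + N)).submatrix (Fin.natAdd N) (Fin.castAdd N)).map
        (evMat (blk A B C D)) = C ∧
      ((genMat (N + N)).submatrix (Fin.natAdd N) (Fin.natAdd N)).map
        (evMat (blk A B C D)) = D := by
    intro A B C D
    refine ⟨?_, ?_, ?_, ?_⟩ <;> ext i j <;>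
      rw [Matrix.map_apply, Matrix.submatrix_apply, genMat, evMat, eval_X]
    · rw [blk_11]
    · rw [blk_12]
    · rw [blk_21]
    · rw [blk_22]
  constructor
  · intro i j hij
    have key : ∀ A B C D : Matrix (Fin N) (Fin N) ℂ,
        evMat (blk A B C D) (genMat (N + N) (Fin.natAdd N i) (Fin.castAdd N j)) = C i j := by
      intro A B C D
      exact congrFun (congrFun (cast A B C D).2.2.1 i) j
    have h0 := hg.2 (genMat (N + N) (Fin.natAdd N i) (Fin.castAdd N j)) (by
      intro h hh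
      change evMat h _ = 0
      obtain ⟨A', B', C', D', rfl, hC, -, -, -⟩ := bruhat_blocks (hS hh)
      rw [key]
      exact hC i j hij)
    change evMat _ _ = 0 at h0
    rw [key] at h0
    exact h0
  · intro i j hij
    let G11 := (genMat (N + N)).submatrix (Fin.castAdd N) (Fin.castAdd N)
    let G12 := (genMat (N + N)).submatrix (Fin.castAdd N) (Fin.natAdd N)
    let G21 := (genMat (N + N)).submatrix (Fin.natAdd N) (Fin.castAdd N)
    let G22 := (genMat (N + N)).submatrix (Fin.natAdd N) (Fin.natAdd N)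
    let E : Matrix (Fin N) (Fin N) (MvPolynomial (Fin (N + N) × Fin (N + N)) ℂ) :=
      G21.det • G12 - G11 * G21.adjugate * G22
    have key : ∀ A B C D : Matrix (Fin N) (Fin N) ℂ,
        evMat (blk A B C D) (E i j) = (C.det • B - A * C.adjugate * D) i j := by
      intro A B C D
      obtain ⟨hA, hB, hC, hD⟩ := cast A B C D
      have hdet : evMat (blk A B C D) G21.det = C.det := by
        rw [RingHom.map_det, RingHom.mapMatrix_apply, hC]
      have hadj : G21.adjugate.map (evMat (blk A B C D)) = C.adjugate := by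
        have := (evMat (blk A B C D)).map_adjugate G21
        rw [RingHom.mapMatrix_apply, RingHom.mapMatrix_apply, hC] at this
        exact this
      have hA' : ∀ i j, evMat (blk A B C D) (G11 i j) = A i j := fun i j =>
        congrFun (congrFun hA i) j
      have hB' : ∀ i j, evMat (blk A B C D) (G12 i j) = B i j := fun i j =>
        congrFun (congrFun hB i) j
      have hD' : ∀ i j, evMat (blk A B C D) (G22 i j) = D i j := fun i j =>
        congrFun (congrFun hD i) j
      have hadj' : ∀ i j, evMat (blk A B C D) (G21.adjugate i j) = C.adjugate i j := fun i j =>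
        congrFun (congrFun hadj i) j
      simp only [E, Matrix.sub_apply, Matrix.smul_apply, smul_eq_mul,
        map_sub, map_mul, Matrix.mul_apply, map_sum, hA', hB', hD', hadj', hdet]
    have h0 := hg.2 (E i j) (by
      intro h hh
      change evMat h _ = 0
      obtain ⟨A', B', C', D', rfl, hC, hCu, hSc, -⟩ := bruhat_blocks (hS hh)
      rw [key]
      have h3 : C'.adjugate = C'.det • C'⁻¹ := by
        rw [Matrix.inv_def, smul_smul, Ring.mul_inverse_cancel _ hCu, one_smul]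
      rw [h3, Matrix.mul_smul, Matrix.smul_mul, ← smul_sub, Matrix.smul_apply, hSc i j hij,
        smul_zero])
    change evMat _ _ = 0 at h0
    rw [key] at h0
    exact h0

lemma exists_unip_blk (a : Low (N + N) → ℂ) : ∃ A Q D : Matrix (Fin N) (Fin N) ℂ,
    unip a = blk A 0 Q D ∧ (∀ i, A i i = 1) ∧ (∀ i j, i < j → A i j = 0) ∧
      (∀ i, D i i = 1) ∧ (∀ i j, i < j → D i j = 0) := by
  obtain ⟨A, B, Q, D, h⟩ := exists_blk (unip a)
  have h11 : ∀ i j, unip a (Fin.castAdd N i) (Fin.castAdd N j) = A i j := fun i j => by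
    rw [h, blk_11]
  have h12 : ∀ i j, unip a (Fin.castAdd N i) (Fin.natAdd N j) = B i j := fun i j => by
    rw [h, blk_12]
  have h22 : ∀ i j, unip a (Fin.natAdd N i) (Fin.natAdd N j) = D i j := fun i j => by
    rw [h, blk_22]
  have hB : B = 0 := by
    ext i j
    rw [← h12, unip, dif_neg (castAdd_lt_natAdd i j).not_gt, if_neg (castAdd_lt_natAdd i j).ne]
    rfl
  refine ⟨A, Q, D, by rw [h, hB], ?_, ?_, ?_, ?_⟩
  · intro i
    rw [← h11, unip, dif_neg (lt_irrefl _), if_pos rfl]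
  · intro i j hij
    have := (castAdd_lt_castAdd_iff i j).2 hij
    rw [← h11, unip, dif_neg this.not_gt, if_neg this.ne]
  · intro i
    rw [← h22, unip, dif_neg (lt_irrefl _), if_pos rfl]
  · intro i j hij
    have := (natAdd_lt_natAdd_iff i j).2 hij
    rw [← h22, unip, dif_neg this.not_gt, if_neg this.ne]

lemma eq_one_of {A : Matrix (Fin N) (Fin N) ℂ} (h1 : ∀ i, A i i = 1)
    (h2 : ∀ i j, i < j → A i j = 0) (h3 : IsUpper A) : A = 1 := by
  ext i j
  rcases lt_trichotomy i j with h | h | h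
  · rw [h2 i j h, Matrix.one_apply_ne h.ne]
  · rw [h, h1, Matrix.one_apply_eq]
  · rw [h3 i j h, Matrix.one_apply_ne h.ne']

/-- In the chart at the permutation, the closure consists of the representatives `rep Q` lying in
the Springer fiber. -/
theorem chart_iff {X : Matrix (Fin (N + N)) (Fin (N + N)) ℂ} {a : Low (N + N) → ℂ} :
    a ∈ chart X (flip N) (permMat (flip N)) ↔
      ∃ Q : Matrix (Fin N) (Fin N) ℂ, unip a = blk 1 0 Q 1 ∧ rep Q ∈ springer X := by
  have hrep : ∀ Q : Matrix (Fin N) (Fin N) ℂ, permMat (flip N) * blk 1 0 Q 1 = rep Q := by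
    intro Q
    rw [permMat_flip, blk_swap_mul, rep]
  constructor
  · intro ha
    replace ha : permMat (flip N) * unip a ∈ zclosure (cell X (flip N)) := ha
    obtain ⟨A, Q, D, h, hA1, hA2, hD1, hD2⟩ := exists_unip_blk a
    rw [h, permMat_flip, blk_swap_mul] at ha
    obtain ⟨h1, h2⟩ := zclosure_block (S := cell X (flip N)) (fun g hg => hg.1) ha
    have hA : A = 1 := eq_one_of hA1 hA2 h1
    subst hA
    have hD : D = 1 := by
      refine eq_one_of hD1 hD2 ?_
      simpa using h2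
    subst hD
    exact ⟨Q, h, zclosure_subset_springer (S := cell X (flip N)) (fun g hg => hg.2) ha⟩
  · rintro ⟨Q, h, hQ⟩
    change permMat (flip N) * unip a ∈ zclosure (cell X (flip N))
    rw [h, hrep]
    exact subset_zclosure (fun g hg => hg.2.1) ⟨rep_mem_bruhat Q, hQ⟩

lemma springer_mul {n : ℕ} {X g c : Matrix (Fin n) (Fin n) ℂ} (hc : IsUpper c)
    (hcu : IsUnit c.det) (hg : g ∈ springer X) : g * c ∈ springer X := by
  refine ⟨by rw [Matrix.det_mul]; exact hg.1.mul hcu, ?_⟩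
  have : (g * c)⁻¹ * X * (g * c) = c⁻¹ * (g⁻¹ * X * g) * c := by
    rw [Matrix.mul_inv_rev]; simp only [Matrix.mul_assoc]
  rw [this]
  exact isUpper_mul (isUpper_mul (isUpper_inv hc hcu) hg.2) hc

lemma bruhat_mul {n : ℕ} {w : Equiv.Perm (Fin n)} {g c : Matrix (Fin n) (Fin n) ℂ}
    (hc : IsUpper c) (hcu : IsUnit c.det) (hg : g ∈ bruhat w) : g * c ∈ bruhat w := by
  obtain ⟨b, c', hb, hbu, hc', hcu', rfl⟩ := hg
  exact ⟨b, c' * c, hb, hbu, isUpper_mul hc' hc, by rw [Matrix.det_mul]; exact hcu'.mul hcu,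
    by simp only [Matrix.mul_assoc]⟩

/-- The Springer Schubert cell is the part of its closure in the chart at the permutation. -/
theorem mem_cell_iff {X g : Matrix (Fin (N + N)) (Fin (N + N)) ℂ} :
    g ∈ cell X (flip N) ↔ ∃ a ∈ chart X (flip N) (permMat (flip N)),
      ∃ c : Matrix (Fin (N + N)) (Fin (N + N)) ℂ, IsUpper c ∧ IsUnit c.det ∧
        g = permMat (flip N) * unip a * c := by
  have hrep : ∀ Q : Matrix (Fin N) (Fin N) ℂ, permMat (flip N) * blk 1 0 Q 1 = rep Q := by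
    intro Q
    rw [permMat_flip, blk_swap_mul, rep]
  constructor
  · rintro ⟨hb, hs⟩
    obtain ⟨Q, c, hc, hcu, rfl⟩ := bruhat_rep hb
    have hQ : rep Q ∈ springer X := by
      have h1 := springer_mul (isUpper_inv hc hcu)
        (Matrix.isUnit_nonsing_inv_det _ hcu) hs
      rwa [Matrix.mul_assoc, Matrix.mul_nonsing_inv _ hcu, Matrix.mul_one] at h1
    have ha : unip (fun ij : Low (N + N) => blk 1 0 Q 1 ij.1.1 ij.1.2) = blk 1 0 Q 1 := by
      ext i j
      rw [unip]
      split_ifs with h1 h2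
      · rfl
      · subst h2
        refine Fin.addCases (fun i => ?_) (fun i => ?_) i
        · rw [blk_11, Matrix.one_apply_eq]
        · rw [blk_22, Matrix.one_apply_eq]
      · have h3 : i < j := lt_of_le_of_ne (not_lt.1 h1) h2
        clear h1 h2
        revert h3
        refine Fin.addCases (fun i => ?_) (fun i => ?_) i <;>
          refine Fin.addCases (fun j => ?_) (fun j => ?_) j <;> intro h3
        · rw [blk_11, Matrix.one_apply_ne ((castAdd_lt_castAdd_iff _ _).1 h3).ne]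
        · rw [blk_12]; rfl
        · exact absurd h3 (castAdd_lt_natAdd _ _).not_gt
        · rw [blk_22, Matrix.one_apply_ne ((natAdd_lt_natAdd_iff _ _).1 h3).ne]
    exact ⟨_, chart_iff.2 ⟨Q, ha, hQ⟩, c, hc, hcu, by rw [ha, hrep]⟩
  · rintro ⟨a, ha, c, hc, hcu, rfl⟩
    obtain ⟨Q, h, hQ⟩ := chart_iff.1 ha
    rw [h, hrep]
    exact ⟨bruhat_mul hc hcu (rep_mem_bruhat Q), springer_mul hc hcu hQ⟩

end

end Pool.Agent.Lib.MP_1e2f52_ag
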