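import Pool.Agent.Lib.MP_1e2f52_ag.Build

/-!
# Local rings of the closure
-/

open MvPolynomial Matrix

namespace Pool.Agent.Lib.MP_1e2f52_ag

noncomputable section

/-- The local rings of the closure of `C_w ∩ S_X` are the local rings of the product of an affine
space with the projective variety whose affine cone is `K`. -/
def SameGerms {n m : ℕ} (X : Matrix (Fin n) (Fin n) ℂ) (w : Equiv.Perm (Fin n))
    (K : Set (Fin (m + 2) → ℂ)) (k : ℕ) : Prop :=
  (∀ g : Matrix (Fin n) (Fin n) ℂ, IsUnit g.det → ∀ a ∈ chart X w g, ∃ i, ∃ z ∈ K, z i = 1 ∧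
    Nonempty (Germ (chart X w g) a ≃+*
      Germ (cyl {z | z ∈ K ∧ z i = 1} (Fin k)) (Sum.elim z 0))) ∧
  (∀ i, ∀ z ∈ K, z i = 1 → ∃ g : Matrix (Fin n) (Fin n) ℂ, IsUnit g.det ∧ ∃ a ∈ chart X w g,
    Nonempty (Germ (chart X w g) a ≃+*
      Germ (cyl {z | z ∈ K ∧ z i = 1} (Fin k)) (Sum.elim z 0)))

lemma unip_zero {n : ℕ} : unip (0 : Low n → ℂ) = 1 := by
  ext i j
  simp only [unip, Pi.zero_apply, Matrix.one_apply]
  split_ifs <;> simp_all

namespace FData

variable (D : FData)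

lemma blockTriangular_one : BlockTriangular (1 : Matrix (Fin D.n) (Fin D.n) ℂ) D.be :=
  Matrix.blockTriangular_one

/-- The permutation flag lies in the Springer fiber. -/
theorem perm_mem : permMat D.w ∈ springer D.X := by
  obtain ⟨h1, h2, _⟩ := D.coset_data (h := 1) (by simp) (p := 1) D.blockTriangular_one (by simp)
  rw [D.th_one, Matrix.one_mul, Matrix.mul_one] at h1 h2
  refine ⟨h1, fun i j hij => h2 i j (D.be_mono hij.le)⟩

/-- The local rings of the closure. -/
theorem germs : SameGerms D.X D.w D.K D.kk := by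
  constructor
  · intro g hg a ha
    have hT : g * unip a ∈ D.T := by
      rw [← D.zclosure_eq]
      exact ha
    obtain ⟨e1, e2, z, hzK, hz0, e3⟩ := hT
    obtain ⟨i, hi⟩ := Function.ne_iff.1 hz0
    have hi' : z i ≠ 0 := hi
    have hz1 : (z i)⁻¹ • z ∈ D.K := D.hcone z hzK _
    have hz1i : ((z i)⁻¹ • z) i = 1 := by simp [hi']
    have hz10 : (z i)⁻¹ • z ≠ 0 := by
      intro h
      rw [h] at hz1i
      exact zero_ne_one hz1i
    obtain ⟨h, hh, h1, h2⟩ := D.exists_h hz10
    obtain ⟨p, hp, hpu, hga⟩ := D.mem_coset hh e1 e2 (by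
      intro c hc
      obtain ⟨s, s', hss⟩ := e3 c hc
      refine ⟨s * z i ^ D.d, s' * z i, ?_⟩
      rw [h1, h2, va_smul, vb_smul, hss, smul_smul, smul_smul]
      congr 2
      · rw [mul_assoc, ← mul_pow, mul_inv_cancel₀ hi', one_pow, mul_one]
      · rw [mul_assoc, mul_inv_cancel₀ hi', mul_one])
    exact ⟨i, _, hz1, hz1i, loc hg hz1 hz1i hh h1 h2 hp hpu hga⟩
  · intro i z hzK hzi
    have hz0 : z ≠ 0 := by
      intro h
      rw [h] at hzi
      exact zero_ne_one hzi
    obtain ⟨h, hh, h1, h2⟩ := D.exists_h hz0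
    have hT := D.mem_T_of hzK hz0 hh h1 h2 D.blockTriangular_one (by simp)
    rw [Matrix.mul_one] at hT
    refine ⟨D.th h * permMat D.w, hT.1, 0, ?_, ?_⟩
    · change D.th h * permMat D.w * unip 0 ∈ zclosure (cell D.X D.w)
      rw [unip_zero, Matrix.mul_one, D.zclosure_eq]
      exact hT
    · exact loc hT.1 hzK hzi hh h1 h2 D.blockTriangular_one (by simp) (by rw [unip_zero])

end FData

end

end Pool.Agent.Lib.MP_1e2f52_ag
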