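import Pool.Agent.Lib.MP_1e2f52_ag.Sock

/-!
# Local rings of cylinders
-/

open MvPolynomial RingTheory.Sequence IsLocalRing Pointwise

namespace Pool.Agent.Lib.MP_1e2f52_ag

noncomputable section

variable {σ τ : Type}

lemma isGor_congr {R S : Type} [CommRing R] [CommRing S] (e : R ≃+* S) : IsGor R ↔ IsGor S :=
  ⟨IsGor.of_equiv e, IsGor.of_equiv e.symm⟩

theorem isGor_optCyl [Finite σ] {V : Set (σ → ℂ)} {p : Option σ → ℂ} (hp : p ∈ optCyl V)
    {a : σ → ℂ} (ha : (fun i => p (some i)) = a) :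
    IsGor (Germ (optCyl V) p) ↔ IsGor (Germ V a) := by
  subst ha
  obtain ⟨e⟩ := lineElt_quot (V := V) (p := p)
  exact (@isGor_quot_iff _ _ _ (germ_isLocal hp) _ (lineElt_mem hp) (lineElt_regular V p)).trans
    (isGor_congr e)

lemma germ_reindex (e : σ ≃ τ) {V : Set (σ → ℂ)} {W : Set (τ → ℂ)}
    (h : ∀ p : τ → ℂ, p ∈ W ↔ (fun i => p (e i)) ∈ V) {a : σ → ℂ} (ha : a ∈ V) :
    Nonempty (Germ V a ≃+* Germ W (fun t => a (e.symm t))) := by
  have := germ_equiv (V := V) (W := W) (F := fun t => X (e.symm t)) (G := fun s => X (e s))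
    (by
      intro a ha
      simp only [eval_X]
      refine ⟨(h _).2 ?_, ?_⟩
      · simpa using ha
      · simp) (by
      intro b hb
      simp only [eval_X]
      refine ⟨(h _).1 hb, ?_⟩
      simp) ha
  have h2 : (fun t => eval a (X (e.symm t))) = fun t => a (e.symm t) := by
    funext t
    rw [eval_X]
  rw [h2] at this
  exact this

/-- The reindexing of the variables of a cylinder. -/
def cylEquiv (σ : Type) (k : ℕ) : σ ⊕ Fin (k + 1) ≃ Option (σ ⊕ Fin k) :=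
  (Equiv.sumCongr (Equiv.refl σ) (finSuccEquiv k)).trans
    ((Equiv.sumCongr (Equiv.refl σ) (Equiv.optionEquivSumPUnit.{0} (Fin k))).trans
      ((Equiv.sumAssoc σ (Fin k) PUnit.{1}).symm.trans
        (Equiv.optionEquivSumPUnit.{0} (σ ⊕ Fin k)).symm))

/-- Local properties invariant under products with lines are invariant under products with affine
spaces. -/
lemma cyl_germ [Finite σ] {Q : ∀ (R : Type) [CommRing R], Prop}
    (hQ : ∀ (R S : Type) [CommRing R] [CommRing S], (R ≃+* S) → (Q R ↔ Q S))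
    (hQ' : ∀ (ρ : Type) [Finite ρ] (V : Set (ρ → ℂ)) (p : Option ρ → ℂ), p ∈ optCyl V →
      (Q (Germ (optCyl V) p) ↔ Q (Germ V (fun i => p (some i)))))
    {V : Set (σ → ℂ)} (k : ℕ) : ∀ {p : σ ⊕ Fin k → ℂ}, p ∈ cyl V (Fin k) →
      (Q (Germ (cyl V (Fin k)) p) ↔ Q (Germ V (fun i => p (Sum.inl i)))) := by
  induction k with
  | zero =>
    intro p hp
    obtain ⟨e⟩ := germ_reindex (Equiv.sumEmpty σ (Fin 0)) (V := cyl V (Fin 0)) (W := V)
      (fun p => Iff.rfl) hp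
    exact hQ _ _ e
  | succ k ih =>
    intro p hp
    obtain ⟨e⟩ := germ_reindex (cylEquiv σ k) (V := cyl V (Fin (k + 1)))
      (W := optCyl (cyl V (Fin k))) (fun p => Iff.rfl) hp
    have hmem : (fun t => p ((cylEquiv σ k).symm t)) ∈ optCyl (cyl V (Fin k)) := hp
    refine (hQ _ _ e).trans ((hQ' _ _ _ hmem).trans ?_)
    exact ih (p := fun i => p ((cylEquiv σ k).symm (some i))) hmem

theorem isCM_cyl_germ [Finite σ] {V : Set (σ → ℂ)} {k : ℕ} {p : σ ⊕ Fin k → ℂ}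
    (hp : p ∈ cyl V (Fin k)) :
    IsCM (Germ (cyl V (Fin k)) p) ↔ IsCM (Germ V (fun i => p (Sum.inl i))) :=
  cyl_germ (Q := fun R _ => IsCM R) (fun _ _ _ _ e => isCM_congr e)
    (fun _ _ _ _ hp => isCM_optCyl hp rfl) k hp

theorem isGor_cyl_germ [Finite σ] {V : Set (σ → ℂ)} {k : ℕ} {p : σ ⊕ Fin k → ℂ}
    (hp : p ∈ cyl V (Fin k)) :
    IsGor (Germ (cyl V (Fin k)) p) ↔ IsGor (Germ V (fun i => p (Sum.inl i))) :=
  cyl_germ (Q := fun R _ => IsGor R) (fun _ _ _ _ e => isGor_congr e)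
    (fun _ _ _ _ hp => isGor_optCyl hp rfl) k hp

end

end Pool.Agent.Lib.MP_1e2f52_ag
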