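import Mathlib

/-!
# Springer Schubert cells, their closures, and local rings of embedded varieties

Everything is over the complex numbers.  Subsets of the flag variety `GL_n / B` are encoded by
their preimages in `GL_n`, and in the affine charts `g U⁻ B / B` by subsets of affine space.
-/

open MvPolynomial

namespace Pool.Agent.Lib.MP_1e2f52_ag

noncomputable section

/-- A square matrix is upper triangular. -/
def IsUpper {n : ℕ} (M : Matrix (Fin n) (Fin n) ℂ) : Prop :=
  ∀ i j, j < i → M i j = 0

/-- The permutation matrix of `w`; its `j`-th column is the basis vector with index `w j`. -/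
def permMat {n : ℕ} (w : Equiv.Perm (Fin n)) : Matrix (Fin n) (Fin n) ℂ :=
  fun i j => if i = w j then 1 else 0

/-- The double coset `B w B`, the preimage in `GL_n` of the Schubert cell `C_w = B w B / B`. -/
def bruhat {n : ℕ} (w : Equiv.Perm (Fin n)) : Set (Matrix (Fin n) (Fin n) ℂ) :=
  {g | ∃ b c : Matrix (Fin n) (Fin n) ℂ, IsUpper b ∧ IsUnit b.det ∧ IsUpper c ∧ IsUnit c.det ∧
    g = b * permMat w * c}

/-- The preimage in `GL_n` of the Springer fiber of `X`. -/
def springer {n : ℕ} (X : Matrix (Fin n) (Fin n) ℂ) : Set (Matrix (Fin n) (Fin n) ℂ) :=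
  {g | IsUnit g.det ∧ IsUpper (g⁻¹ * X * g)}

/-- The preimage in `GL_n` of the Springer Schubert cell `C_w ∩ S_X`. -/
def cell {n : ℕ} (X : Matrix (Fin n) (Fin n) ℂ) (w : Equiv.Perm (Fin n)) :
    Set (Matrix (Fin n) (Fin n) ℂ) :=
  bruhat w ∩ springer X

/-- Zariski closure in `GL_n` of a set of invertible matrices. -/
def zclosure {n : ℕ} (S : Set (Matrix (Fin n) (Fin n) ℂ)) : Set (Matrix (Fin n) (Fin n) ℂ) :=
  {g | IsUnit g.det ∧ ∀ p : MvPolynomial (Fin n × Fin n) ℂ,
    (∀ h ∈ S, eval (fun ij => h ij.1 ij.2) p = 0) → eval (fun ij => g ij.1 ij.2) p = 0}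

/-- The positions strictly below the diagonal. -/
abbrev Low (n : ℕ) : Type := {ij : Fin n × Fin n // ij.2 < ij.1}

/-- The lower unitriangular matrix with prescribed entries below the diagonal. -/
def unip {n : ℕ} (a : Low n → ℂ) : Matrix (Fin n) (Fin n) ℂ :=
  fun i j => if h : j < i then a ⟨(i, j), h⟩ else if i = j then 1 else 0

/-- The part of the closure of `C_w ∩ S_X` in the affine chart `g U⁻ B / B` of the flag variety,
in the coordinates given by the entries of `U⁻` below the diagonal. -/
def chart {n : ℕ} (X : Matrix (Fin n) (Fin n) ℂ) (w : Equiv.Perm (Fin n))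
    (g : Matrix (Fin n) (Fin n) ℂ) : Set (Low n → ℂ) :=
  {a | g * unip a ∈ zclosure (cell X w)}

/-- The local ring at the point `a` of the Zariski closed set `V` of affine space (with its
reduced structure): the local ring of affine space modulo the functions vanishing on `V`. -/
def Germ {σ : Type} (V : Set (σ → ℂ)) (a : σ → ℂ) : Type :=
  Localization.AtPrime (vanishingIdeal ℂ ({a} : Set (σ → ℂ))) ⧸
    (vanishingIdeal ℂ V).map
      (algebraMap (MvPolynomial σ ℂ) (Localization.AtPrime (vanishingIdeal ℂ ({a} : Set (σ → ℂ)))))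

/-- The ring structure of the local ring. -/
instance germCommRing {σ : Type} (V : Set (σ → ℂ)) (a : σ → ℂ) : CommRing (Germ V a) :=
  inferInstanceAs (CommRing (Localization.AtPrime (vanishingIdeal ℂ ({a} : Set (σ → ℂ))) ⧸
    (vanishingIdeal ℂ V).map (algebraMap (MvPolynomial σ ℂ)
      (Localization.AtPrime (vanishingIdeal ℂ ({a} : Set (σ → ℂ)))))))

/-- A (Noetherian local) ring is Cohen-Macaulay: it has a regular sequence whose length is its
Krull dimension. -/
def IsCM (R : Type) [CommRing R] : Prop :=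
  ∃ rs : List R, RingTheory.Sequence.IsRegular R rs ∧
    ((rs.length : ℕ∞) : WithBot ℕ∞) = ringKrullDim R

/-- A Zariski closed subset of affine space is Cohen-Macaulay: all its local rings are. -/
def AffineCM {σ : Type} (V : Set (σ → ℂ)) : Prop :=
  ∀ a ∈ V, IsCM (Germ V a)

/-- The closure of `C_w ∩ S_X` in `GL_n / B`, with its reduced structure, is Cohen-Macaulay: its
intersection with each affine chart `g U⁻ B / B` is. -/
def ClosureCM {n : ℕ} (X : Matrix (Fin n) (Fin n) ℂ) (w : Equiv.Perm (Fin n)) : Prop :=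
  ∀ g : Matrix (Fin n) (Fin n) ℂ, IsUnit g.det → AffineCM (chart X w g)

/-- Two subsets of affine spaces are isomorphic: polynomial maps restrict to mutually inverse
bijections between them. -/
def PolyIso {σ τ : Type} (V : Set (σ → ℂ)) (W : Set (τ → ℂ)) : Prop :=
  ∃ (F : τ → MvPolynomial σ ℂ) (G : σ → MvPolynomial τ ℂ),
    (∀ a ∈ V, (fun t => eval a (F t)) ∈ W ∧ (fun s => eval (fun t => eval a (F t)) (G s)) = a) ∧
    (∀ b ∈ W, (fun s => eval b (G s)) ∈ V ∧ (fun t => eval (fun s => eval b (G s)) (F t)) = b)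

/-- The product of a subset of affine space with an affine space. -/
def cyl {σ : Type} (V : Set (σ → ℂ)) (κ : Type) : Set (σ ⊕ κ → ℂ) :=
  {p | (fun i => p (Sum.inl i)) ∈ V}

end

end Pool.Agent.Lib.MP_1e2f52_ag
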