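import Pool.Agent.Lib.MP_1e2f52_ag.TowZ

/-!
# The closure of the cell for the family of planes attached to a projective variety
-/

open MvPolynomial Matrix

namespace Pool.Agent.Lib.MP_1e2f52_ag

noncomputable section

section vecs

variable {N m d : ℕ} (e : ((Fin d → Fin (m + 2)) ⊕ Fin (m + 2)) ≃ Fin N)

/-- The vector of all monomials of degree `d`. -/
def va (z : Fin (m + 2) → ℂ) : Fin N → ℂ :=
  fun i => Sum.elim (fun τ => ∏ x, z (τ x)) (fun _ => 0) (e.symm i)

/-- The vector of coordinates. -/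
def vb (z : Fin (m + 2) → ℂ) : Fin N → ℂ :=
  fun i => Sum.elim (fun _ => 0) (fun j => z j) (e.symm i)

lemma va_inl (z : Fin (m + 2) → ℂ) (τ : Fin d → Fin (m + 2)) :
    va e z (e (Sum.inl τ)) = ∏ x, z (τ x) := by simp [va]

lemma va_inr (z : Fin (m + 2) → ℂ) (j : Fin (m + 2)) : va e z (e (Sum.inr j)) = 0 := by simp [va]

lemma vb_inl (z : Fin (m + 2) → ℂ) (τ : Fin d → Fin (m + 2)) : vb e z (e (Sum.inl τ)) = 0 := by
  simp [vb]

lemma vb_inr (z : Fin (m + 2) → ℂ) (j : Fin (m + 2)) : vb e z (e (Sum.inr j)) = z j := by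
  simp [vb]

lemma va_smul (c : ℂ) (z : Fin (m + 2) → ℂ) : va e (c • z) = c ^ d • va e z := by
  funext i
  obtain ⟨i, rfl⟩ := e.surjective i
  rcases i with τ | j
  · rw [va_inl, Pi.smul_apply, va_inl]
    simp [Finset.prod_mul_distrib]
  · rw [va_inr, Pi.smul_apply, va_inr, smul_zero]

lemma vb_smul (c : ℂ) (z : Fin (m + 2) → ℂ) : vb e (c • z) = c • vb e z := by
  funext i
  obtain ⟨i, rfl⟩ := e.surjective i
  rcases i with τ | j
  · rw [vb_inl, Pi.smul_apply, vb_inl, smul_zero]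
  · rw [vb_inr, Pi.smul_apply, Pi.smul_apply, vb_inr]

lemma poly_va (i : Fin N) : PolyFn (fun z => va e z i) := by
  obtain ⟨i, rfl⟩ := e.surjective i
  rcases i with τ | j
  · simp only [va_inl]
    exact PolyFn.prod _ fun x _ => PolyFn.coord _
  · simp only [va_inr]
    exact PolyFn.const _

lemma poly_vb (i : Fin N) : PolyFn (fun z => vb e z i) := by
  obtain ⟨i, rfl⟩ := e.surjective i
  rcases i with τ | j
  · simp only [vb_inl]
    exact PolyFn.const _
  · simp only [vb_inr]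
    exact PolyFn.coord _

end vecs

/-- An invertible matrix with two prescribed columns. -/
lemma exists_mat {N : ℕ} {o1 o2 k1 k2 : Fin N} (ho : o1 ≠ o2) (hk : k1 ≠ k2) (a b : Fin N → ℂ)
    (hab : a k1 * b k2 - a k2 * b k1 ≠ 0) :
    ∃ h : Matrix (Fin N) (Fin N) ℂ, IsUnit h.det ∧ h *ᵥ Pi.single o1 1 = a ∧
      h *ᵥ Pi.single o2 1 = b := by
  let U : Matrix (Fin N) (Fin N) ℂ := fun i j =>
    if j = k1 then a i else if j = k2 then b i else (1 : Matrix (Fin N) (Fin N) ℂ) i j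
  have hU : IsUnit U := by
    rw [← Matrix.mulVec_injective_iff_isUnit]
    rw [← Matrix.coe_mulVecLin, ← LinearMap.ker_eq_bot, LinearMap.ker_eq_bot']
    intro x hx
    rw [Matrix.mulVecLin_apply] at hx
    have h1 : ∀ i, a i * x k1 + b i * x k2 + (if i = k1 ∨ i = k2 then 0 else x i) = 0 := by
      intro i
      have h2 : ∑ j, U i j * x j = 0 := congrFun hx i
      have h3 : ∀ j, U i j * x j = (if j = k1 then a i * x j else 0) +
          (if j = k2 then b i * x j else 0) +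
          (if j = i then (if i = k1 ∨ i = k2 then 0 else x i) else 0) := by
        intro j
        simp only [U, Matrix.one_apply]
        by_cases e1 : j = k1
        · subst e1
          simp only [if_true, if_neg hk]
          by_cases e2 : j = i
          · simp [e2]
          · simp [e2]
        · by_cases e2 : j = k2
          · subst e2
            simp only [if_true, if_neg e1]
            by_cases e3 : j = i
            · simp [e3]
            · simp [e3]
          · simp only [if_neg e1, if_neg e2]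
            by_cases e3 : i = j
            · subst e3
              simp [e1, e2]
            · simp [e3, Ne.symm e3]
      simp only [h3, Finset.sum_add_distrib, Finset.sum_ite_eq', Finset.mem_univ, if_true] at h2
      exact h2
    have e1 := h1 k1
    have e2 := h1 k2
    simp only [true_or, or_true, if_true, add_zero] at e1 e2
    have e3 : x k1 = 0 := by
      have : (a k1 * b k2 - a k2 * b k1) * x k1 = 0 := by
        linear_combination b k2 * e1 - b k1 * e2
      exact (mul_eq_zero.1 this).resolve_left hab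
    have e4 : x k2 = 0 := by
      have : (a k1 * b k2 - a k2 * b k1) * x k2 = 0 := by
        linear_combination a k1 * e2 - a k2 * e1
      exact (mul_eq_zero.1 this).resolve_left hab
    funext i
    by_cases h5 : i = k1
    · rw [h5, e3]; rfl
    by_cases h6 : i = k2
    · rw [h6, e4]; rfl
    have h7 := h1 i
    rw [e3, e4, if_neg (by tauto)] at h7
    simpa using h7
  -- the permutation
  let π0 : Equiv.Perm (Fin N) := Equiv.swap o1 k1
  let π : Equiv.Perm (Fin N) := (Equiv.swap o2 (π0.symm k2)).trans π0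
  have hπ2 : π o2 = k2 := by simp [π]
  have hπ1 : π o1 = k1 := by
    simp only [π, Equiv.trans_apply]
    rw [Equiv.swap_apply_of_ne_of_ne ho]
    · simp [π0]
    · intro h
      apply hk
      have : π0 o1 = k2 := by rw [h]; simp
      rw [← this]
      simp [π0]
  refine ⟨U * permMat π, ?_, ?_, ?_⟩
  · rw [Matrix.det_mul]
    exact ((Matrix.isUnit_iff_isUnit_det _).1 hU).mul (permMat_det _)
  · rw [mul_permMat, Matrix.mulVec_single_one]
    funext i
    rw [Matrix.col_apply, Matrix.submatrix_apply, hπ1]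
    simp [U]
  · rw [mul_permMat, Matrix.mulVec_single_one]
    funext i
    rw [Matrix.col_apply, Matrix.submatrix_apply, hπ2]
    simp only [U, id, if_true, if_neg hk.symm]

/-- The data attached to a projective variety. -/
structure FData extends TData where
  /-- the dimension of the projective space minus one -/
  m : ℕ
  /-- the degree -/
  d : ℕ
  /-- the coordinates of the vector space -/
  e : ((Fin d → Fin (m + 2)) ⊕ Fin (m + 2)) ≃ Fin N
  /-- the cone over the variety -/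
  K : Set (Fin (m + 2) → ℂ)
  hcl : ∀ z, (∀ p : MvPolynomial (Fin (m + 2)) ℂ, (∀ z' ∈ K, eval z' p = 0) → eval z p = 0) →
    z ∈ K
  hcone : ∀ z ∈ K, ∀ c : ℂ, c • z ∈ K
  haff : ∀ p : MvPolynomial (Fin (m + 2)) ℂ, (∀ z ∈ K, z 0 ≠ 0 → eval z p = 0) →
    ∀ z ∈ K, eval z p = 0
  hrel1 : ∀ z ∈ K, z 0 ≠ 0 → ∀ k, br (G k o3) (G k o2) (va e z) (vb e z) = 0
  hrel2 : ∀ z ∈ K, z 0 ≠ 0 → ∀ k, br (G k o1) (G k o2) (va e z) (vb e z) ≠ 0
  hcell : ∀ x y : Fin N → ℂ, (∀ k, br (G k o3) (G k o2) x y = 0 ∧ br (G k o1) (G k o2) x y ≠ 0) →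
    ∃ z ∈ K, z 0 ≠ 0 ∧ (∃ s s' : ℂ, x = s • va e z + s' • vb e z) ∧
      (∃ s s' : ℂ, y = s • va e z + s' • vb e z)

namespace TData

variable (D : TData)

lemma lev_col {g : Matrix (Fin D.n) (Fin D.n) ℂ} (hg : IsUnit g.det)
    (hs : SBT D.be (g⁻¹ * D.X * g)) {c : Fin D.n} (hc : D.be c = 0) (v : Fin D.n)
    (hv : 0 < D.lev v) : g v c = 0 := by
  refine D.X_ker (fun u => g u c) ?_ v hv
  intro v
  have h1 : D.X * g = g * (g⁻¹ * D.X * g) := by
    rw [← Matrix.mul_assoc, ← Matrix.mul_assoc, Matrix.mul_nonsing_inv _ hg, Matrix.one_mul]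
  have h2 := congrFun (congrFun h1 v) c
  rw [Matrix.mul_apply, Matrix.mul_apply] at h2
  rw [Matrix.mulVec, dotProduct, h2]
  apply Finset.sum_eq_zero
  intro i _
  rw [hs i c (by omega), mul_zero]

lemma tv_indep {g : Matrix (Fin D.n) (Fin D.n) ℂ} (hg : IsUnit g.det)
    (hs : SBT D.be (g⁻¹ * D.X * g)) {x y : ℂ} (h : x • D.tv g D.c1 + y • D.tv g D.c2 = 0) :
    x = 0 ∧ y = 0 := by
  have h1 : g *ᵥ (x • Pi.single D.c1 1 + y • Pi.single D.c2 1) = 0 := by
    rw [Matrix.mulVec_add, Matrix.mulVec_smul, Matrix.mulVec_smul, Matrix.mulVec_single_one,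
      Matrix.mulVec_single_one]
    funext v
    simp only [Pi.add_apply, Pi.smul_apply, Matrix.col_apply, Pi.zero_apply]
    by_cases hv : 0 < D.lev v
    · rw [D.lev_col hg hs D.be_c1 v hv, D.lev_col hg hs D.be_c2 v hv]
      simp
    · obtain ⟨⟨a, j⟩, rfl⟩ := D.ix.surjective v
      rw [lev_ix] at hv
      have ha : a = 0 := Fin.ext (by simp only at hv; simpa using hv)
      subst ha
      have h2 : ∀ c, g (D.ix (0, j)) c = (D.G 0 *ᵥ D.tv g c) j := by
        intro c
        rw [tv, Matrix.mulVec_mulVec, G_mul_inv, Matrix.one_mulVec]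
      rw [h2, h2]
      have h3 := congrFun (congrArg (fun t => D.G 0 *ᵥ t) h) j
      simp only [Matrix.mulVec_add, Matrix.mulVec_smul, Matrix.mulVec_zero] at h3
      exact h3
  have h2 : g⁻¹ *ᵥ (g *ᵥ (x • Pi.single D.c1 1 + y • Pi.single D.c2 1)) =
      x • Pi.single D.c1 1 + y • Pi.single D.c2 1 := by
    rw [Matrix.mulVec_mulVec, Matrix.nonsing_inv_mul _ hg, Matrix.one_mulVec]
  rw [h1, Matrix.mulVec_zero] at h2
  have h3 := congrFun h2 D.c1
  have h4 := congrFun h2 D.c2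
  simp only [Pi.add_apply, Pi.smul_apply, Pi.single_eq_same, Pi.single_eq_of_ne D.c1_ne,
    Pi.single_eq_of_ne D.c1_ne.symm, Pi.zero_apply, smul_eq_mul, mul_one, mul_zero, add_zero,
    zero_add] at h3 h4
  exact ⟨h3.symm, h4.symm⟩

lemma poly_tv {σ : Type} {F : (σ → ℂ) → Matrix (Fin D.n) (Fin D.n) ℂ} (hF : PolyMat F)
    (c : Fin D.n) (i : Fin D.N) : PolyFn (fun x => D.tv (F x) c i) := by
  have h1 : (fun x => D.tv (F x) c i) =
      fun x => ∑ y, (D.G 0)⁻¹ i y * F x (D.ix (0, y)) c := rfl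
  rw [h1]
  exact PolyFn.sum _ fun y _ => (PolyFn.const _).mul (hF _ _)

lemma poly_th {σ : Type} {F : (σ → ℂ) → Matrix (Fin D.N) (Fin D.N) ℂ} (hF : PolyMat F) :
    PolyMat (fun x => D.th (F x)) := by
  intro v v'
  obtain ⟨p, rfl⟩ := D.ix.surjective v
  obtain ⟨q, rfl⟩ := D.ix.surjective v'
  simp only [th_apply]
  split_ifs
  · exact (((PolyMat.const (D.G p.1)).mul hF).mul (PolyMat.const _)) _ _
  · exact PolyFn.const _

end TData

namespace FData

variable (D : FData)

/-- The set of matrices whose flag lies over the variety. -/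
def T : Set (Matrix (Fin D.n) (Fin D.n) ℂ) :=
  {g | IsUnit g.det ∧ SBT D.be (g⁻¹ * D.X * g) ∧ ∃ z ∈ D.K, z ≠ 0 ∧
    ∀ c, D.be c = 0 → ∃ s s' : ℂ, D.tv g c = s • va D.e z + s' • vb D.e z}

lemma exists_h {z : Fin (D.m + 2) → ℂ} (hz : z ≠ 0) :
    ∃ h : Matrix (Fin D.N) (Fin D.N) ℂ, IsUnit h.det ∧ h *ᵥ Pi.single D.o1 1 = va D.e z ∧
      h *ᵥ Pi.single D.o2 1 = vb D.e z := by
  obtain ⟨j, hj⟩ := Function.ne_iff.1 hz
  refine exists_mat (k1 := D.e (Sum.inl fun _ => j)) (k2 := D.e (Sum.inr j)) D.o1_ne ?_ _ _ ?_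
  · intro h
    have := D.e.injective h
    cases this
  · rw [va_inl, va_inr, vb_inr, zero_mul, sub_zero]
    apply mul_ne_zero
    · rw [Finset.prod_ne_zero_iff]
      intro _ _
      exact hj
    · exact hj

lemma mem_T_of {z : Fin (D.m + 2) → ℂ} (hzK : z ∈ D.K) (hz : z ≠ 0)
    {h : Matrix (Fin D.N) (Fin D.N) ℂ} (hh : IsUnit h.det)
    (h1 : h *ᵥ Pi.single D.o1 1 = va D.e z) (h2 : h *ᵥ Pi.single D.o2 1 = vb D.e z)
    {p : Matrix (Fin D.n) (Fin D.n) ℂ} (hp : BlockTriangular p D.be) (hu : IsUnit p.det) :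
    D.th h * permMat D.w * p ∈ D.T := by
  obtain ⟨e1, e2, e3⟩ := D.coset_data hh hp hu
  refine ⟨e1, e2, z, hzK, hz, ?_⟩
  rw [← h1, ← h2]
  exact e3

/-- The cell lies in `T`. -/
lemma cell_sub {g : Matrix (Fin D.n) (Fin D.n) ℂ} (hg : g ∈ cell D.X D.w) : g ∈ D.T := by
  refine ⟨hg.2.1, cell_sbt D.lev_mono D.lev_le_blk D.blk_le D.X_lev D.w_mono D.w_anti hg, ?_⟩
  obtain ⟨z, hzK, hz0, hx, hy⟩ := D.hcell _ _ (fun k => D.cell_rel hg k)
  refine ⟨z, hzK, ?_, ?_⟩
  · rintro rfl
    exact hz0 rfl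
  · intro c hc
    rcases D.be_zero hc with rfl | rfl
    · exact hx
    · exact hy

/-- The closure of the cell lies in `T`. -/
lemma zclosure_sub {g : Matrix (Fin D.n) (Fin D.n) ℂ} (hg : g ∈ zclosure (cell D.X D.w)) :
    g ∈ D.T := by
  have hs : SBT D.be (g⁻¹ * D.X * g) :=
    zclosure_sbt (fun g hg => hg.2.1) (fun g hg => (D.cell_sub hg).2.1) hg
  refine ⟨hg.1, hs, ?_⟩
  have ptv : ∀ c i, PolyFn (fun x : Fin D.n × Fin D.n → ℂ => D.tv (mat x) c i) :=
    fun c i => D.poly_tv polyMat_mat c i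
  -- description of the vectors on the cell
  have hcell : ∀ g' ∈ cell D.X D.w, ∃ z ∈ D.K, ∀ c, D.be c = 0 → ∃ s s' : ℂ,
      (∀ τ, D.tv g' c (D.e (Sum.inl τ)) = s * ∏ x, z (τ x)) ∧
      (∀ j, D.tv g' c (D.e (Sum.inr j)) = s' * z j) := by
    intro g' hg'
    obtain ⟨_, _, z, hzK, _, h⟩ := D.cell_sub hg'
    refine ⟨z, hzK, fun c hc => ?_⟩
    obtain ⟨s, s', h⟩ := h c hc
    refine ⟨s, s', fun τ => ?_, fun j => ?_⟩
    · rw [h, Pi.add_apply, Pi.smul_apply, Pi.smul_apply, va_inl, vb_inl, smul_zero, add_zero,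
        smul_eq_mul]
    · rw [h, Pi.add_apply, Pi.smul_apply, Pi.smul_apply, va_inr, vb_inr, smul_zero, zero_add,
        smul_eq_mul]
  -- the equations
  have E1 : ∀ c c', D.be c = 0 → D.be c' = 0 → ∀ j j',
      D.tv g c (D.e (Sum.inr j)) * D.tv g c' (D.e (Sum.inr j')) =
        D.tv g c (D.e (Sum.inr j')) * D.tv g c' (D.e (Sum.inr j)) := by
    intro c c' hc hc' j j'
    have h := zclosure_zero hg (((ptv c (D.e (Sum.inr j))).mul (ptv c' (D.e (Sum.inr j')))).sub
      ((ptv c (D.e (Sum.inr j'))).mul (ptv c' (D.e (Sum.inr j))))) (by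
        intro g' hg'
        obtain ⟨z, _, h⟩ := hcell g' hg'
        obtain ⟨s, s', _, h1⟩ := h c hc
        obtain ⟨t, t', _, h2⟩ := h c' hc'
        rw [mat_ent, h1, h1, h2, h2]
        ring)
    rw [mat_ent] at h
    linear_combination h
  have E2 : ∀ c c', D.be c = 0 → D.be c' = 0 → ∀ j j',
      D.tv g c (D.e (Sum.inl j)) * D.tv g c' (D.e (Sum.inl j')) =
        D.tv g c (D.e (Sum.inl j')) * D.tv g c' (D.e (Sum.inl j)) := by
    intro c c' hc hc' j j'
    have h := zclosure_zero hg (((ptv c (D.e (Sum.inl j))).mul (ptv c' (D.e (Sum.inl j')))).sub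
      ((ptv c (D.e (Sum.inl j'))).mul (ptv c' (D.e (Sum.inl j))))) (by
        intro g' hg'
        obtain ⟨z, _, h⟩ := hcell g' hg'
        obtain ⟨s, s', h1, _⟩ := h c hc
        obtain ⟨t, t', h2, _⟩ := h c' hc'
        rw [mat_ent, h1, h1, h2, h2]
        ring)
    rw [mat_ent] at h
    linear_combination h
  have E3 : ∀ c c', D.be c = 0 → D.be c' = 0 → ∀ τ τ' : Fin D.d → Fin (D.m + 2),
      D.tv g c (D.e (Sum.inl τ)) * ∏ x, D.tv g c' (D.e (Sum.inr (τ' x))) =
        D.tv g c (D.e (Sum.inl τ')) * ∏ x, D.tv g c' (D.e (Sum.inr (τ x))) := by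
    intro c c' hc hc' j j'
    have h := zclosure_zero hg (((ptv c (D.e (Sum.inl j))).mul
        (PolyFn.prod Finset.univ fun x _ => ptv c' (D.e (Sum.inr (j' x))))).sub
      ((ptv c (D.e (Sum.inl j'))).mul
        (PolyFn.prod Finset.univ fun x _ => ptv c' (D.e (Sum.inr (j x)))))) (by
        intro g' hg'
        obtain ⟨z, _, h⟩ := hcell g' hg'
        obtain ⟨s, s', h1, _⟩ := h c hc
        obtain ⟨t, t', _, h2⟩ := h c' hc'
        simp only [mat_ent, h1, h2, Finset.prod_mul_distrib]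
        ring)
    rw [mat_ent] at h
    linear_combination h
  have E4 : ∀ c, D.be c = 0 → (fun j => D.tv g c (D.e (Sum.inr j))) ∈ D.K := by
    intro c hc
    apply D.hcl
    intro p hp
    have h := zclosure_zero hg (PolyFn.evalComp
      (φ := fun (x : Fin D.n × Fin D.n → ℂ) j => D.tv (mat x) c (D.e (Sum.inr j)))
      (fun j => ptv c (D.e (Sum.inr j))) p) (by
        intro g' hg'
        obtain ⟨z, hzK, h⟩ := hcell g' hg'
        obtain ⟨s, s', _, h1⟩ := h c hc
        rw [mat_ent]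
        simp only [h1]
        exact hp _ (D.hcone z hzK s'))
    rw [mat_ent] at h
    exact h
  -- find the point
  have hne : ∃ c, D.be c = 0 ∧ (fun j => D.tv g c (D.e (Sum.inr j))) ≠ 0 := by
    by_contra hcon
    push Not at hcon
    have z1 := hcon _ D.be_c1
    have z2 := hcon _ D.be_c2
    -- the two vectors are proportional
    by_cases h0 : D.tv g D.c2 = 0
    · have := (D.tv_indep hg.1 hs (x := 0) (y := 1) (by rw [h0]; simp)).2
      exact one_ne_zero this
    · obtain ⟨i, hi⟩ := Function.ne_iff.1 h0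
      obtain ⟨i, rfl⟩ := D.e.surjective i
      rcases i with τ | j
      · have := (D.tv_indep hg.1 hs (x := D.tv g D.c2 (D.e (Sum.inl τ)))
          (y := - D.tv g D.c1 (D.e (Sum.inl τ))) (by
            funext i
            obtain ⟨i, rfl⟩ := D.e.surjective i
            rcases i with τ' | j'
            · simp only [Pi.add_apply, Pi.smul_apply, smul_eq_mul, Pi.zero_apply]
              linear_combination E2 _ _ D.be_c2 D.be_c1 τ τ'
            · have e1 := congrFun z1 j'
              have e2 := congrFun z2 j'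
              simp only [Pi.zero_apply] at e1 e2
              simp only [Pi.add_apply, Pi.smul_apply, smul_eq_mul, Pi.zero_apply, e1, e2]
              ring)).1
        exact hi this
      · exact hi (congrFun z2 j)
  obtain ⟨c0, hc0, hz⟩ := hne
  refine ⟨_, E4 c0 hc0, hz, fun c hc => ?_⟩
  obtain ⟨i, hi⟩ := Function.ne_iff.1 hz
  simp only [Pi.zero_apply] at hi
  have hpi : (∏ _x : Fin D.d, D.tv g c0 (D.e (Sum.inr i))) ≠ 0 := by
    rw [Finset.prod_ne_zero_iff]
    intro _ _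
    exact hi
  refine ⟨D.tv g c (D.e (Sum.inl fun _ => i)) / ∏ _x : Fin D.d, D.tv g c0 (D.e (Sum.inr i)),
    D.tv g c (D.e (Sum.inr i)) / D.tv g c0 (D.e (Sum.inr i)), ?_⟩
  funext l
  obtain ⟨l, rfl⟩ := D.e.surjective l
  rcases l with τ | j
  · rw [Pi.add_apply, Pi.smul_apply, Pi.smul_apply, va_inl, vb_inl, smul_zero, add_zero,
      smul_eq_mul, div_mul_eq_mul_div, eq_div_iff hpi]
    exact E3 c c0 hc hc0 τ (fun _ => i)
  · rw [Pi.add_apply, Pi.smul_apply, Pi.smul_apply, va_inr, vb_inr, smul_zero, zero_add,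
      smul_eq_mul, div_mul_eq_mul_div, eq_div_iff hi]
    exact E1 c c0 hc hc0 j i

/-- A matrix with two prescribed columns, depending polynomially on the point. -/
def Hf (h : Matrix (Fin D.N) (Fin D.N) ℂ) (z : Fin (D.m + 2) → ℂ) :
    Matrix (Fin D.N) (Fin D.N) ℂ := fun i j =>
  if j = D.o1 then va D.e z i else if j = D.o2 then vb D.e z i else h i j

lemma Hf_1 (h : Matrix (Fin D.N) (Fin D.N) ℂ) (z : Fin (D.m + 2) → ℂ) :
    D.Hf h z *ᵥ Pi.single D.o1 1 = va D.e z := by
  rw [Matrix.mulVec_single_one]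
  funext i
  rw [Matrix.col_apply, Hf, if_pos rfl]

lemma Hf_2 (h : Matrix (Fin D.N) (Fin D.N) ℂ) (z : Fin (D.m + 2) → ℂ) :
    D.Hf h z *ᵥ Pi.single D.o2 1 = vb D.e z := by
  rw [Matrix.mulVec_single_one]
  funext i
  rw [Matrix.col_apply, Hf, if_neg D.o1_ne.symm, if_pos rfl]

lemma Hf_self {h : Matrix (Fin D.N) (Fin D.N) ℂ} {z : Fin (D.m + 2) → ℂ}
    (h1 : h *ᵥ Pi.single D.o1 1 = va D.e z) (h2 : h *ᵥ Pi.single D.o2 1 = vb D.e z) :
    D.Hf h z = h := by
  rw [Matrix.mulVec_single_one] at h1 h2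
  ext i j
  rw [Hf]
  split_ifs with e1 e2
  · rw [← h1, e1]; rfl
  · rw [← h2, e2]; rfl
  · rfl

lemma poly_Hf (h : Matrix (Fin D.N) (Fin D.N) ℂ) : PolyMat (fun z => D.Hf h z) := by
  intro i j
  simp only [Hf]
  split_ifs
  · exact poly_va _ _
  · exact poly_vb _ _
  · exact PolyFn.const _

/-- `T` lies in the closure of the cell. -/
lemma T_sub {g : Matrix (Fin D.n) (Fin D.n) ℂ} (hg : g ∈ D.T) : g ∈ zclosure (cell D.X D.w) := by
  obtain ⟨hgu, hs, z, hzK, hz, ht⟩ := hg
  obtain ⟨h, hh, h1, h2⟩ := D.exists_h hz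
  obtain ⟨p, hp, hpu, rfl⟩ := D.mem_coset hh hgu hs (by rw [h1, h2]; exact ht)
  refine ⟨hgu, fun P hP => ?_⟩
  -- the polynomial function of the point
  have hf : PolyFn (fun z => eval (ent (D.th (D.Hf h z) * permMat D.w * p)) P *
      (D.Hf h z).det) :=
    (polyFn_eval_mat (((D.poly_th (D.poly_Hf h)).mul (PolyMat.const _)).mul
      (PolyMat.const p)) P).mul (D.poly_Hf h).det
  obtain ⟨q, hq'⟩ := hf
  have hq : ∀ z, eval z q = eval (ent (D.th (D.Hf h z) * permMat D.w * p)) P *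
      (D.Hf h z).det := hq'
  have h3 := D.haff q (by
    intro z' hz' hz'0
    rw [hq]
    by_cases hd : (D.Hf h z').det = 0
    · rw [hd, mul_zero]
    · have hdu : IsUnit (D.Hf h z').det := isUnit_iff_ne_zero.2 hd
      have r1 := D.hrel1 z' hz' hz'0
      have r2 := D.hrel2 z' hz' hz'0
      obtain ⟨p0, hp0, hp0u, hcell⟩ := D.rel_cell hdu
        (by rw [Hf_1, Hf_2]; exact r1) (by rw [Hf_1, Hf_2]; exact r2)
      have h4 := D.cell_mul_mem_zclosure hcell ((bt_inv hp0 hp0u).mul hp)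
        (by rw [Matrix.det_mul]; exact (Matrix.isUnit_nonsing_inv_det _ hp0u).mul hpu)
      have h5 : D.th (D.Hf h z') * permMat D.w * p0 * (p0⁻¹ * p) =
          D.th (D.Hf h z') * permMat D.w * p := by
        rw [Matrix.mul_assoc (D.th (D.Hf h z') * permMat D.w), ← Matrix.mul_assoc p0,
          Matrix.mul_nonsing_inv _ hp0u, Matrix.one_mul]
      rw [h5] at h4
      have h6 : eval (ent (D.th (D.Hf h z') * permMat D.w * p)) P = 0 := h4.2 P hP
      rw [h6, zero_mul]) z hzK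
  rw [hq, D.Hf_self h1 h2] at h3
  exact (mul_eq_zero.1 h3).resolve_right hh.ne_zero

/-- The closure of the cell. -/
theorem zclosure_eq : zclosure (cell D.X D.w) = D.T :=
  Set.ext fun _ => ⟨D.zclosure_sub, D.T_sub⟩

end FData

end

end Pool.Agent.Lib.MP_1e2f52_ag
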