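import Pool.Agent.Lib.MP_1e2f52_ag.Assoc

/-!
# Local rings of affine subspaces
-/

open MvPolynomial RingTheory.Sequence IsLocalRing Pointwise

namespace Pool.Agent.Lib.MP_1e2f52_ag

noncomputable section

variable {σ : Type}

/-- The local ring of a point. -/
lemma germ_point_isField (a : σ → ℂ) : IsField (Germ ({a} : Set (σ → ℂ)) a) := by
  have hnt : Nontrivial (Germ ({a} : Set (σ → ℂ)) a) := germ_nontrivial (Set.mem_singleton a)
  refine ⟨⟨0, 1, zero_ne_one⟩, mul_comm, fun {r} hr => ?_⟩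
  obtain ⟨P, Q, hQ, h⟩ := toGerm_surj_mul r
  have hP : eval a P ≠ 0 := by
    intro h0
    apply hr
    have h1 : toGerm ({a} : Set (σ → ℂ)) a P = 0 := by
      refine toGerm_eq_zero_iff.2 ⟨1, by simp, fun x hx => ?_⟩
      rw [Set.mem_singleton_iff.1 hx, h0, mul_zero]
    rw [h1] at h
    exact (toGerm_isUnit hQ).mul_left_eq_zero.1 h
  obtain ⟨u, hu⟩ := (toGerm_isUnit (V := ({a} : Set (σ → ℂ))) hP).exists_right_inv
  refine ⟨toGerm ({a} : Set (σ → ℂ)) a Q * u, ?_⟩
  rw [← mul_assoc, h, hu]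

lemma isCM_of_isField {R : Type} [CommRing R] (h : IsField R) : IsCM R := by
  have hnt : Nontrivial R := h.nontrivial
  refine ⟨[], IsRegular.nil R R, ?_⟩
  rw [ringKrullDim_eq_zero_of_isField h]
  rfl

lemma isGor_of_isField {R : Type} [CommRing R] (h : IsField R) : IsGor R := by
  have hnt : Nontrivial R := h.nontrivial
  refine ⟨isCM_of_isField h, fun rs _ hl I J hIJ => ?_⟩
  rw [ringKrullDim_eq_zero_of_isField h] at hl
  have h1 : rs.length = 0 := by exact_mod_cast hl
  rw [List.length_eq_zero_iff] at h1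
  subst h1
  rw [Ideal.ofList_nil] at hIJ ⊢
  let _ := h.toField
  by_contra hcon
  push Not at hcon
  have hI : I = ⊤ := by
    rcases Ideal.eq_bot_or_top I with h2 | h2
    · exact absurd h2 hcon.1
    · exact h2
  have hJ : J = ⊤ := by
    rcases Ideal.eq_bot_or_top J with h2 | h2
    · exact absurd h2 hcon.2
    · exact h2
  rw [hI, hJ, inf_top_eq] at hIJ
  exact top_ne_bot hIJ

/-- The dimension of the local rings of a cylinder. -/
lemma dim_cyl_germ [Finite σ] {V : Set (σ → ℂ)} (k : ℕ) : ∀ {p : σ ⊕ Fin k → ℂ},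
    p ∈ cyl V (Fin k) → ringKrullDim (Germ (cyl V (Fin k)) p) =
      ringKrullDim (Germ V (fun i => p (Sum.inl i))) + k := by
  induction k with
  | zero =>
    intro p hp
    obtain ⟨e⟩ := germ_reindex (Equiv.sumEmpty σ (Fin 0)) (V := cyl V (Fin 0)) (W := V)
      (fun p => Iff.rfl) hp
    rw [ringKrullDim_eq_of_ringEquiv e]
    simp only [CharP.cast_eq_zero, add_zero]
    rfl
  | succ k ih =>
    intro p hp
    obtain ⟨e⟩ := germ_reindex (cylEquiv σ k) (V := cyl V (Fin (k + 1)))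
      (W := optCyl (cyl V (Fin k))) (fun p => Iff.rfl) hp
    have hmem : (fun t => p ((cylEquiv σ k).symm t)) ∈ optCyl (cyl V (Fin k)) := hp
    have h1 := ih (p := fun i => p ((cylEquiv σ k).symm (some i))) hmem
    have hloc := germ_isLocal hmem
    have h2 := ringKrullDim_quotient_span_singleton_succ_eq_ringKrullDim
      (lineElt_regular (cyl V (Fin k)) (fun t => p ((cylEquiv σ k).symm t))) (lineElt_mem hmem)
    obtain ⟨e'⟩ := lineElt_quot (V := cyl V (Fin k)) (p := fun t => p ((cylEquiv σ k).symm t))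
    rw [ringKrullDim_eq_of_ringEquiv e', h1] at h2
    rw [ringKrullDim_eq_of_ringEquiv e, ← h2]
    have h3 : (((k + 1 : ℕ)) : WithBot ℕ∞) = (k : WithBot ℕ∞) + 1 := by push_cast; rfl
    rw [h3, ← add_assoc]
    rfl

/-- The local rings of affine space. -/
lemma germ_affine (N : ℕ) (b : Fin N → ℂ) :
    IsGor (Germ (Set.univ : Set (Fin N → ℂ)) b) ∧
      ringKrullDim (Germ (Set.univ : Set (Fin N → ℂ)) b) = N := by
  let V : Set (Fin 0 → ℂ) := {0}
  let p : Fin 0 ⊕ Fin N → ℂ := Sum.elim 0 b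
  have hp : p ∈ cyl V (Fin N) := Subsingleton.elim _ _
  obtain ⟨e⟩ := germ_reindex (Equiv.emptySum (Fin 0) (Fin N)) (V := cyl V (Fin N))
    (W := (Set.univ : Set (Fin N → ℂ))) (fun q => iff_of_true trivial (Subsingleton.elim _ _)) hp
  have hb : (fun t => p ((Equiv.emptySum (Fin 0) (Fin N)).symm t)) = b := by
    funext t
    rfl
  rw [hb] at e
  have hV : IsField (Germ V (fun i => p (Sum.inl i))) := by
    have : (fun i => p (Sum.inl i)) = (0 : Fin 0 → ℂ) := Subsingleton.elim _ _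
    rw [this]
    exact germ_point_isField 0
  constructor
  · exact (isGor_congr e).1 ((isGor_cyl_germ hp).2 (isGor_of_isField hV))
  · rw [← ringKrullDim_eq_of_ringEquiv e, dim_cyl_germ N hp, ringKrullDim_eq_zero_of_isField hV,
      zero_add]

/-- The polynomial of a linear form. -/
def linP [Fintype σ] (f : (σ → ℂ) →ₗ[ℂ] ℂ) : MvPolynomial σ ℂ := by
  classical
  exact ∑ i, C (f (Pi.single i 1)) * X i

lemma eval_linP [Fintype σ] (f : (σ → ℂ) →ₗ[ℂ] ℂ) (z : σ → ℂ) : eval z (linP f) = f z := by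
  classical
  have h1 : z = ∑ i, z i • (Pi.single i 1 : σ → ℂ) := by
    funext j
    simp [Finset.sum_apply, Pi.single_apply]
  conv_rhs => rw [h1]
  simp only [map_sum, map_smul, smul_eq_mul, linP, map_mul, eval_C, eval_X]
  refine Finset.sum_congr rfl fun i _ => ?_
  ring

/-- The local rings of affine subspaces. -/
theorem germ_flat [Fintype σ] (W : Submodule ℂ (σ → ℂ)) (a : σ → ℂ) :
    IsGor (Germ {z | z - a ∈ W} a) ∧
      ringKrullDim (Germ {z | z - a ∈ W} a) = Module.finrank ℂ W := by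
  classical
  set N := Module.finrank ℂ W with hN
  let E : W ≃ₗ[ℂ] (Fin N → ℂ) := (Module.finBasis ℂ W).equivFun
  let ι : (Fin N → ℂ) →ₗ[ℂ] (σ → ℂ) := W.subtype.comp E.symm.toLinearMap
  have hι : LinearMap.ker ι = ⊥ := by
    rw [LinearMap.ker_eq_bot]
    exact (Submodule.injective_subtype W).comp E.symm.injective
  obtain ⟨ρ, hρ⟩ := ι.exists_leftInverse_of_injective hι
  have hρι : ∀ b, ρ (ι b) = b := fun b => LinearMap.congr_fun hρ b
  have hιW : ∀ b, ι b ∈ W := fun b => (E.symm b).2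
  have hιρ : ∀ w ∈ W, ι (ρ w) = w := by
    intro w hw
    have h1 : ι (E ⟨w, hw⟩) = w := by
      change ((E.symm (E ⟨w, hw⟩) : W) : σ → ℂ) = w
      rw [E.symm_apply_apply]
    rw [← h1, hρι]
  -- the polynomial maps
  let F : Fin N → MvPolynomial σ ℂ := fun j => linP ((LinearMap.proj j).comp ρ) - C (ρ a j)
  let G : σ → MvPolynomial (Fin N) ℂ := fun s => linP ((LinearMap.proj s).comp ι) + C (a s)
  have hF : ∀ z : σ → ℂ, (fun j => eval z (F j)) = ρ (z - a) := by
    intro z
    funext j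
    simp only [F, map_sub, eval_C, eval_linP]
    rfl
  have hG : ∀ b : Fin N → ℂ, (fun s => eval b (G s)) = ι b + a := by
    intro b
    funext s
    simp only [G, map_add, eval_C, eval_linP]
    rfl
  have e1 : ∀ z ∈ {z : σ → ℂ | z - a ∈ W}, (fun t => eval z (F t)) ∈ (Set.univ : Set (Fin N → ℂ)) ∧
      (fun s => eval (fun t => eval z (F t)) (G s)) = z := by
    intro z hz
    refine ⟨trivial, ?_⟩
    rw [hF, hG, hιρ _ hz, sub_add_cancel]
  have e2 : ∀ b ∈ (Set.univ : Set (Fin N → ℂ)), (fun s => eval b (G s)) ∈ {z : σ → ℂ | z - a ∈ W} ∧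
      (fun t => eval (fun s => eval b (G s)) (F t)) = b := by
    intro b _
    rw [hG, hF]
    refine ⟨?_, ?_⟩
    · change ι b + a - a ∈ W
      rw [add_sub_cancel_right]
      exact hιW b
    · rw [add_sub_cancel_right, hρι]
  have haW : a ∈ {z : σ → ℂ | z - a ∈ W} := by
    change a - a ∈ W
    rw [sub_self]
    exact W.zero_mem
  obtain ⟨e⟩ := germ_equiv e1 e2 haW
  obtain ⟨h1, h2⟩ := germ_affine N (fun t => eval a (F t))
  exact ⟨(isGor_congr e).2 h1, by rw [ringKrullDim_eq_of_ringEquiv e, h2]⟩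

end

end Pool.Agent.Lib.MP_1e2f52_ag
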