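import Pool.Agent.Lib.MP_1e2f52_ag.Lin

/-!
# A general hyperplane
-/

open MvPolynomial Matrix

namespace Pool.Agent.Lib.MP_1e2f52_ag

noncomputable section

variable {M : ℕ}

/-- A linear form. -/
def lin (ℓ : Fin M → ℂ) : MvPolynomial (Fin M) ℂ := ∑ i, C (ℓ i) * X i

lemma eval_lin (ℓ z : Fin M → ℂ) : eval z (lin ℓ) = ℓ ⬝ᵥ z := by
  simp [lin, dotProduct]

lemma lin_add (ℓ ℓ' : Fin M → ℂ) : lin (ℓ + ℓ') = lin ℓ + lin ℓ' := by
  simp [lin, add_mul, Finset.sum_add_distrib]

lemma lin_smul (c : ℂ) (ℓ : Fin M → ℂ) : lin (c • ℓ) = C c * lin ℓ := by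
  simp [lin, Finset.mul_sum, mul_assoc]

lemma lin_single (i : Fin M) : lin (Pi.single i 1) = X i := by
  rw [lin, Finset.sum_eq_single i]
  · simp
  · intro j _ hj
    rw [Pi.single_eq_of_ne hj, C_0, zero_mul]
  · intro h; exact absurd (Finset.mem_univ _) h

/-- The linear forms in an ideal. -/
def linIn (p : Ideal (MvPolynomial (Fin M) ℂ)) : Submodule ℂ (Fin M → ℂ) where
  carrier := {ℓ | lin ℓ ∈ p}
  add_mem' := by
    intro a b ha hb
    change lin (a + b) ∈ p
    rw [lin_add]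
    exact p.add_mem ha hb
  zero_mem' := by
    change lin 0 ∈ p
    have : lin (0 : Fin M → ℂ) = 0 := by simp [lin]
    rw [this]
    exact p.zero_mem
  smul_mem' := by
    intro c a ha
    change lin (c • a) ∈ p
    rw [lin_smul]
    exact p.mul_mem_left _ ha

/-- The restriction of a polynomial to a line. -/
def toLine (z : Fin M → ℂ) : MvPolynomial (Fin M) ℂ →ₐ[ℂ] Polynomial ℂ :=
  aeval (fun i => Polynomial.C (z i) * Polynomial.X)

lemma eval_toLine (z : Fin M → ℂ) (c : ℂ) (p : MvPolynomial (Fin M) ℂ) :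
    (toLine z p).eval c = eval (c • z) p := by
  have : (Polynomial.evalRingHom c).comp (toLine z : MvPolynomial (Fin M) ℂ →+* Polynomial ℂ) =
      eval (c • z) := by
    ext i
    · simp [toLine]
    · change Polynomial.eval c (aeval (fun i => Polynomial.C (z i) * Polynomial.X) (X _)) = _
      rw [aeval_X, Polynomial.eval_mul, Polynomial.eval_C, Polynomial.eval_X, eval_X, Pi.smul_apply,
        smul_eq_mul, mul_comm]
  exact congrArg (fun f => f p) this

lemma mem_of_X_mem {p : Ideal (MvPolynomial (Fin M) ℂ)} (h : ∀ i, X i ∈ p)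
    (f : MvPolynomial (Fin M) ℂ) : f - C (eval 0 f) ∈ p := by
  induction f using MvPolynomial.induction_on with
  | C c => simp
  | add f g hf hg =>
    have : f + g - C (eval 0 (f + g)) = (f - C (eval 0 f)) + (g - C (eval 0 g)) := by
      rw [map_add, C_add]; ring
    rw [this]
    exact p.add_mem hf hg
  | mul_X f i _ =>
    have : f * X i - C (eval 0 (f * X i)) = f * X i := by simp
    rw [this]
    exact p.mul_mem_left _ (h i)

lemma linIn_ne_top {K : Set (Fin M → ℂ)} (hcone : ∀ z ∈ K, ∀ c : ℂ, c • z ∈ K)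
    (hne : ∃ z ∈ K, z ≠ 0) {p : Ideal (MvPolynomial (Fin M) ℂ)}
    (hp : p ∈ (vanishingIdeal ℂ K).minimalPrimes) : linIn p ≠ ⊤ := by
  intro htop
  have hX : ∀ i, (X i : MvPolynomial (Fin M) ℂ) ∈ p := by
    intro i
    rw [← lin_single]
    have : (Pi.single i 1 : Fin M → ℂ) ∈ linIn p := by rw [htop]; trivial
    exact this
  obtain ⟨z, hz, hz0⟩ := hne
  obtain ⟨i, hi⟩ := Function.ne_iff.1 hz0
  let q : Ideal (MvPolynomial (Fin M) ℂ) := RingHom.ker (toLine z)
  have hq : q.IsPrime := RingHom.ker_isPrime _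
  have hqI : vanishingIdeal ℂ K ≤ q := by
    intro f hf
    change toLine z f = 0
    apply Polynomial.funext
    intro c
    rw [eval_toLine, Polynomial.eval_zero]
    exact hf _ (hcone z hz c)
  have hqp : q ≤ p := by
    intro f hf
    have h1 : toLine z f = 0 := hf
    have h2 : eval 0 f = 0 := by
      have := eval_toLine z 0 f
      rw [h1, Polynomial.eval_zero, zero_smul] at this
      exact this.symm
    have h3 := mem_of_X_mem hX f
    rw [h2, C_0, sub_zero] at h3
    exact h3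
  have hpq : p ≤ q := hp.2 ⟨hq, hqI⟩ hqp
  have h4 : toLine z (X i) = 0 := hpq (hX i)
  simp [toLine] at h4
  exact hi h4

/-- A linear form which is not a zero divisor modulo the ideal of a closed cone. -/
lemma exists_form {K : Set (Fin M → ℂ)} (hcone : ∀ z ∈ K, ∀ c : ℂ, c • z ∈ K)
    (hne : ∃ z ∈ K, z ≠ 0) :
    ∃ ℓ : Fin M → ℂ, ∀ p : MvPolynomial (Fin M) ℂ,
      (∀ z ∈ K, ℓ ⬝ᵥ z ≠ 0 → eval z p = 0) → ∀ z ∈ K, eval z p = 0 := by
  have hfin := (vanishingIdeal ℂ K).finite_minimalPrimes_of_isNoetherianRing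
  have := hfin.to_subtype
  obtain ⟨ℓ, hℓ⟩ : ∃ ℓ : Fin M → ℂ, ∀ p : (vanishingIdeal ℂ K).minimalPrimes, ℓ ∉ linIn p.1 := by
    by_contra hcon
    push Not at hcon
    obtain ⟨p, hp⟩ := Subspace.exists_eq_top_of_iUnion_eq_univ
      (p := fun p : (vanishingIdeal ℂ K).minimalPrimes => linIn p.1)
      (Set.eq_univ_of_forall fun ℓ => Set.mem_iUnion.2 (hcon ℓ))
    exact linIn_ne_top hcone hne p.2 hp
  refine ⟨ℓ, fun f hf => ?_⟩
  have h1 : f * lin ℓ ∈ vanishingIdeal ℂ K := by
    intro z hz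
    rw [map_mul]
    by_cases hz0 : ℓ ⬝ᵥ z = 0
    · have : aeval z (lin ℓ) = 0 := by
        change eval z (lin ℓ) = 0
        rw [eval_lin, hz0]
      rw [this, mul_zero]
    · have : aeval z f = 0 := hf z hz hz0
      rw [this, zero_mul]
  have h2 : f ∈ (vanishingIdeal ℂ K).radical := by
    rw [← Ideal.sInf_minimalPrimes, Ideal.mem_sInf]
    intro p hp
    have hpp : p.IsPrime := hp.1.1
    have h3 : f * lin ℓ ∈ p := hp.1.2 h1
    exact (hpp.mem_or_mem h3).resolve_right (hℓ ⟨p, hp⟩)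
  obtain ⟨n, hn⟩ := h2
  intro z hz
  have h4 : eval z (f ^ n) = 0 := hn z hz
  rw [map_pow] at h4
  by_contra hcon
  exact pow_ne_zero n hcon h4

/-- A change of coordinates. -/
lemma exists_coord {m : ℕ} {ℓ z : Fin (m + 2) → ℂ} (h : ℓ ⬝ᵥ z = 1) :
    ∃ R : Matrix (Fin (m + 2)) (Fin (m + 2)) ℂ, IsUnit R.det ∧ R 0 = ℓ ∧
      R *ᵥ z = Pi.single 0 1 := by
  obtain ⟨j0, hj0⟩ : ∃ j, ℓ j ≠ 0 := by
    by_contra hcon
    push Not at hcon
    rw [dotProduct] at h
    simp [hcon] at h
  let s : Equiv.Perm (Fin (m + 2)) := Equiv.swap 0 j0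
  let R : Matrix (Fin (m + 2)) (Fin (m + 2)) ℂ := fun i =>
    if i = 0 then ℓ else Pi.single (s i) 1 - z (s i) • ℓ
  have r0 : R 0 = ℓ := by simp [R]
  have ri : ∀ i, i ≠ 0 → R i = Pi.single (s i) 1 - z (s i) • ℓ := by
    intro i hi
    simp [R, hi]
  refine ⟨R, ?_, r0, ?_⟩
  · rw [← Matrix.isUnit_iff_isUnit_det, ← Matrix.mulVec_injective_iff_isUnit,
      ← Matrix.coe_mulVecLin, ← LinearMap.ker_eq_bot, LinearMap.ker_eq_bot']
    intro x hx
    rw [Matrix.mulVecLin_apply] at hx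
    have hrow : ∀ i, R i ⬝ᵥ x = 0 := fun i => congrFun hx i
    have h0 : ℓ ⬝ᵥ x = 0 := by rw [← r0]; exact hrow 0
    have h1 : ∀ j, j ≠ j0 → x j = 0 := by
      intro j hj
      have hsj : s.symm j ≠ 0 := by
        intro h2
        apply hj
        have : s (s.symm j) = s 0 := by rw [h2]
        rw [Equiv.apply_symm_apply] at this
        rw [this]
        exact Equiv.swap_apply_left _ _
      have := hrow (s.symm j)
      rw [ri _ hsj, Equiv.apply_symm_apply, sub_dotProduct, smul_dotProduct, h0, smul_zero,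
        sub_zero, single_one_dotProduct] at this
      exact this
    have h2 : x j0 = 0 := by
      rw [dotProduct, Finset.sum_eq_single j0] at h0
      · exact (mul_eq_zero.1 h0).resolve_left hj0
      · intro j _ hj
        rw [h1 j hj, mul_zero]
      · intro h; exact absurd (Finset.mem_univ _) h
    funext j
    by_cases hj : j = j0
    · rw [hj, h2]; rfl
    · rw [h1 j hj]; rfl
  · funext i
    change R i ⬝ᵥ z = _
    by_cases hi : i = 0
    · rw [hi, r0, h, Pi.single_eq_same]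
    · rw [ri i hi, sub_dotProduct, smul_dotProduct, h, single_one_dotProduct,
        Pi.single_eq_of_ne hi]
      simp

end

end Pool.Agent.Lib.MP_1e2f52_ag
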