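import Mathlib

/-!
# The gadget: a Riccati equation over a two-dimensional poset

For matrices `Q` supported on the comparable pairs of a suitable poset of dimension two, the
equation `Q * Q = N1 * Q - Q * N2` encodes an arbitrary system of equations
`(μ c · z) * (ν c · z) = lam c · z`.
-/

namespace Pool.Agent.Lib.MP_1e2f52_ag

noncomputable section

/-- The index set of the gadget. -/
inductive P (r s : ℕ) : Type
  | ck (c : Fin r) | ch (c : Fin r) | cu (e : Fin s)
  | h (c : Fin r) | wk (c : Fin r) | wa (c : Fin r)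
  | u (e : Fin s) | v
  | hh (c : Fin r) | aa (c : Fin r) | a (c : Fin r) | k (c : Fin r) | b (c : Fin r) | q (c : Fin r)
  deriving DecidableEq, Fintype

namespace P

variable {r s : ℕ}

/-- The index set as a disjoint union. -/
def equivSum : P r s ≃ (Fin r ⊕ Fin r ⊕ Fin s ⊕ Fin r ⊕ Fin r ⊕ Fin r ⊕ Fin s ⊕ Unit ⊕
    Fin r ⊕ Fin r ⊕ Fin r ⊕ Fin r ⊕ Fin r ⊕ Fin r) where
  toFun
    | ck c => .inl c
    | ch c => .inr (.inl c)
    | cu e => .inr (.inr (.inl e))
    | h c => .inr (.inr (.inr (.inl c)))
    | wk c => .inr (.inr (.inr (.inr (.inl c))))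
    | wa c => .inr (.inr (.inr (.inr (.inr (.inl c)))))
    | u e => .inr (.inr (.inr (.inr (.inr (.inr (.inl e))))))
    | v => .inr (.inr (.inr (.inr (.inr (.inr (.inr (.inl ())))))))
    | hh c => .inr (.inr (.inr (.inr (.inr (.inr (.inr (.inr (.inl c))))))))
    | aa c => .inr (.inr (.inr (.inr (.inr (.inr (.inr (.inr (.inr (.inl c)))))))))
    | a c => .inr (.inr (.inr (.inr (.inr (.inr (.inr (.inr (.inr (.inr (.inl c))))))))))
    | k c => .inr (.inr (.inr (.inr (.inr (.inr (.inr (.inr (.inr (.inr (.inr (.inl c)))))))))))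
    | b c => .inr (.inr (.inr (.inr (.inr (.inr (.inr (.inr (.inr (.inr (.inr (.inr
        (.inl c))))))))))))
    | q c => .inr (.inr (.inr (.inr (.inr (.inr (.inr (.inr (.inr (.inr (.inr (.inr
        (.inr c))))))))))))
  invFun
    | .inl c => ck c
    | .inr (.inl c) => ch c
    | .inr (.inr (.inl e)) => cu e
    | .inr (.inr (.inr (.inl c))) => h c
    | .inr (.inr (.inr (.inr (.inl c)))) => wk c
    | .inr (.inr (.inr (.inr (.inr (.inl c))))) => wa c
    | .inr (.inr (.inr (.inr (.inr (.inr (.inl e)))))) => u e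
    | .inr (.inr (.inr (.inr (.inr (.inr (.inr (.inl ()))))))) => v
    | .inr (.inr (.inr (.inr (.inr (.inr (.inr (.inr (.inl c)))))))) => hh c
    | .inr (.inr (.inr (.inr (.inr (.inr (.inr (.inr (.inr (.inl c))))))))) => aa c
    | .inr (.inr (.inr (.inr (.inr (.inr (.inr (.inr (.inr (.inr (.inl c)))))))))) => a c
    | .inr (.inr (.inr (.inr (.inr (.inr (.inr (.inr (.inr (.inr (.inr (.inl c))))))))))) => k c
    | .inr (.inr (.inr (.inr (.inr (.inr (.inr (.inr (.inr (.inr (.inr (.inr
        (.inl c)))))))))))) => b c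
    | .inr (.inr (.inr (.inr (.inr (.inr (.inr (.inr (.inr (.inr (.inr (.inr
        (.inr c)))))))))))) => q c
  left_inv p := by cases p <;> rfl
  right_inv p := by
    rcases p with c | c | e | c | c | c | e | e | c | c | c | c | c | c <;> rfl

lemma sumP {R : Type*} [AddCommMonoid R] (f : P r s → R) :
    ∑ p, f p = ∑ c, f (ck c) + (∑ c, f (ch c) + (∑ e, f (cu e) + (∑ c, f (h c) +
      (∑ c, f (wk c) + (∑ c, f (wa c) + (∑ e, f (u e) + (f v + (∑ c, f (hh c) +
      (∑ c, f (aa c) + (∑ c, f (a c) + (∑ c, f (k c) + (∑ c, f (b c) +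
      ∑ c, f (q c))))))))))))) := by
  rw [← Equiv.sum_comp (equivSum (r := r) (s := s)).symm f]
  simp only [Fintype.sum_sum_type, Finset.univ_unique, Finset.sum_singleton]
  rfl

/-- First linear order (by natural numbers). -/
def x : P r s → ℕ
  | ck c => c
  | ch c => r + c
  | cu e => 2 * r + e
  | h c => 2 * r + s + 3 * c
  | wk c => 2 * r + s + 3 * c + 1
  | wa c => 2 * r + s + 3 * c + 2
  | u e => 5 * r + s + e
  | v => 5 * r + 2 * s
  | hh c => 5 * r + 2 * s + 1 + 6 * c
  | aa c => 5 * r + 2 * s + 1 + 6 * c + 1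
  | a c => 5 * r + 2 * s + 1 + 6 * c + 2
  | k c => 5 * r + 2 * s + 1 + 6 * c + 3
  | b c => 5 * r + 2 * s + 1 + 6 * c + 4
  | q c => 5 * r + 2 * s + 1 + 6 * c + 5

/-- Second linear order (by natural numbers). -/
def y : P r s → ℕ
  | wa c => 9 * (r - 1 - c)
  | wk c => 9 * (r - 1 - c) + 1
  | q c => 9 * (r - 1 - c) + 2
  | k c => 9 * (r - 1 - c) + 3
  | h c => 9 * (r - 1 - c) + 4
  | a c => 9 * (r - 1 - c) + 5
  | b c => 9 * (r - 1 - c) + 6
  | hh c => 9 * (r - 1 - c) + 7
  | aa c => 9 * (r - 1 - c) + 8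
  | u e => 9 * r + (s - 1 - e)
  | v => 9 * r + s
  | cu e => 9 * r + s + 1 + (s - 1 - e)
  | ch c => 9 * r + 2 * s + 1 + (r - 1 - c)
  | ck c => 10 * r + 2 * s + 1 + (r - 1 - c)

lemma x_inj : Function.Injective (x : P r s → ℕ) := by
  intro p p' h
  cases p <;> cases p' <;> simp only [x] at h <;>
    first
    | rfl
    | (exfalso; omega)
    | (congr 1; apply Fin.ext; omega)

lemma y_inj : Function.Injective (y : P r s → ℕ) := by
  intro p p' h
  cases p <;> cases p' <;> simp only [y] at h <;>
    first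
    | rfl
    | (exfalso; omega)
    | (congr 1; apply Fin.ext; omega)

/-- The comparable pairs. -/
def Lt (p p' : P r s) : Prop := x p < x p' ∧ y p < y p'

instance (p p' : P r s) : Decidable (Lt p p') := inferInstanceAs (Decidable (_ ∧ _))

/-- The left coefficient matrix. -/
def N1 (μ ν lam : Fin r → Fin s → ℂ) : Matrix (P r s) (P r s) ℂ := fun p p' =>
  match p, p' with
  | h c, k c' => if c = c' then 1 else 0
  | h c, hh c' => if c = c' then 1 else 0
  | h c, u e => μ c e
  | wa c, a c' => if c = c' then 1 else 0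
  | wa c, u e => ν c e
  | wk c, k c' => if c = c' then 1 else 0
  | wk c, u e => lam c e
  | _, _ => 0

/-- The right coefficient matrix. -/
def N2 : Matrix (P r s) (P r s) ℂ := fun p p' =>
  match p, p' with
  | a c, aa c' => if c = c' then 1 else 0
  | a _, v => 1
  | q c, b c' => if c = c' then 1 else 0
  | q _, v => 1
  | k c, ck c' => if c = c' then 1 else 0
  | hh c, ch c' => if c = c' then 1 else 0
  | u e, cu e' => if e = e' then 1 else 0
  | _, _ => 0

/-- The rows of the free entries. -/
def IsW : P r s → Prop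
  | h _ | wk _ | wa _ => True
  | _ => False

/-- The columns of the free entries. -/
def IsT : P r s → Prop
  | b _ | aa _ | v => True
  | _ => False

instance (p : P r s) : Decidable (IsW p) := by
  cases p <;> simp only [IsW] <;> infer_instance

instance (p : P r s) : Decidable (IsT p) := by
  cases p <;> simp only [IsT] <;> infer_instance

/-- The positions of the free entries. -/
def Free (p p' : P r s) : Prop := IsW p ∧ IsT p' ∧ Lt p p'

instance (p p' : P r s) : Decidable (Free p p') := inferInstanceAs (Decidable (_ ∧ _ ∧ _))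

/-- The forced part of a solution. -/
def base {R : Type*} [CommRing R] [Algebra ℂ R] (μ ν lam : Fin r → Fin s → ℂ) (z : Fin s → R) :
    Matrix (P r s) (P r s) R := fun p p' =>
  match p, p' with
  | h c, a c' => if c = c' then ∑ e, algebraMap ℂ R (μ c e) * z e else 0
  | wk c, q c' => if c = c' then ∑ e, algebraMap ℂ R (lam c e) * z e else 0
  | wa c, q c' => if c = c' then ∑ e, algebraMap ℂ R (ν c e) * z e else 0
  | a c, b c' => if c = c' then ∑ e, algebraMap ℂ R (ν c e) * z e else 0
  | k c, b c' => if c = c' then ∑ e, algebraMap ℂ R (lam c e) * z e else 0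
  | hh c, aa c' => if c = c' then ∑ e, algebraMap ℂ R (μ c e) * z e else 0
  | u e, v => z e
  | _, _ => 0

/-- The free part of a solution. -/
def fr {R : Type*} [CommRing R] (f : P r s → P r s → R) : Matrix (P r s) (P r s) R := fun p p' =>
  if Free p p' then f p p' else 0

variable {μ ν lam : Fin r → Fin s → ℂ}

section rows

variable {R : Type*} [CommRing R] [Algebra ℂ R] (z : Fin s → R) (M : Matrix (P r s) (P r s) R)

lemma base_mul_h (c : Fin r) (p' : P r s) : (base μ ν lam z * M) (h c) p' =
    (∑ e, algebraMap ℂ R (μ c e) * z e) * M (a c) p' := by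
  rw [Matrix.mul_apply, sumP]; simp [base]

lemma base_mul_wk (c : Fin r) (p' : P r s) : (base μ ν lam z * M) (wk c) p' =
    (∑ e, algebraMap ℂ R (lam c e) * z e) * M (q c) p' := by
  rw [Matrix.mul_apply, sumP]; simp [base]

lemma base_mul_wa (c : Fin r) (p' : P r s) : (base μ ν lam z * M) (wa c) p' =
    (∑ e, algebraMap ℂ R (ν c e) * z e) * M (q c) p' := by
  rw [Matrix.mul_apply, sumP]; simp [base]

lemma base_mul_a (c : Fin r) (p' : P r s) : (base μ ν lam z * M) (a c) p' =
    (∑ e, algebraMap ℂ R (ν c e) * z e) * M (b c) p' := by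
  rw [Matrix.mul_apply, sumP]; simp [base]

lemma base_mul_k (c : Fin r) (p' : P r s) : (base μ ν lam z * M) (k c) p' =
    (∑ e, algebraMap ℂ R (lam c e) * z e) * M (b c) p' := by
  rw [Matrix.mul_apply, sumP]; simp [base]

lemma base_mul_hh (c : Fin r) (p' : P r s) : (base μ ν lam z * M) (hh c) p' =
    (∑ e, algebraMap ℂ R (μ c e) * z e) * M (aa c) p' := by
  rw [Matrix.mul_apply, sumP]; simp [base]

lemma base_mul_u (e : Fin s) (p' : P r s) : (base μ ν lam z * M) (u e) p' =
    z e * M v p' := by
  rw [Matrix.mul_apply, sumP]; simp [base]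

lemma base_mul_v (p' : P r s) : (base μ ν lam z * M) v p' = 0 := by
  rw [Matrix.mul_apply, sumP]; simp [base]

lemma base_mul_aa (c : Fin r) (p' : P r s) : (base μ ν lam z * M) (aa c) p' = 0 := by
  rw [Matrix.mul_apply, sumP]; simp [base]

lemma base_mul_b (c : Fin r) (p' : P r s) : (base μ ν lam z * M) (b c) p' = 0 := by
  rw [Matrix.mul_apply, sumP]; simp [base]

lemma base_mul_q (c : Fin r) (p' : P r s) : (base μ ν lam z * M) (q c) p' = 0 := by
  rw [Matrix.mul_apply, sumP]; simp [base]

lemma base_mul_ck (c : Fin r) (p' : P r s) : (base μ ν lam z * M) (ck c) p' = 0 := by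
  rw [Matrix.mul_apply, sumP]; simp [base]

lemma base_mul_ch (c : Fin r) (p' : P r s) : (base μ ν lam z * M) (ch c) p' = 0 := by
  rw [Matrix.mul_apply, sumP]; simp [base]

lemma base_mul_cu (e : Fin s) (p' : P r s) : (base μ ν lam z * M) (cu e) p' = 0 := by
  rw [Matrix.mul_apply, sumP]; simp [base]

end rows

section N

variable (Q : Matrix (P r s) (P r s) ℂ)

lemma N1_mul_h (c : Fin r) (p' : P r s) : (N1 μ ν lam * Q) (h c) p' =
    Q (k c) p' + Q (hh c) p' + ∑ e, μ c e * Q (u e) p' := by
  rw [Matrix.mul_apply, sumP]; simp [N1]; ring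

lemma N1_mul_wk (c : Fin r) (p' : P r s) : (N1 μ ν lam * Q) (wk c) p' =
    Q (k c) p' + ∑ e, lam c e * Q (u e) p' := by
  rw [Matrix.mul_apply, sumP]; simp [N1]; ring

lemma N1_mul_wa (c : Fin r) (p' : P r s) : (N1 μ ν lam * Q) (wa c) p' =
    Q (a c) p' + ∑ e, ν c e * Q (u e) p' := by
  rw [Matrix.mul_apply, sumP]; simp [N1]; ring

lemma N1_mul_of_not {p : P r s} (hp : ¬ IsW p) (p' : P r s) : (N1 μ ν lam * Q) p p' = 0 := by
  rw [Matrix.mul_apply]
  refine Finset.sum_eq_zero fun m _ => ?_
  cases p <;> simp_all [IsW, N1]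

lemma mul_N2_aa (p : P r s) (c : Fin r) : (Q * (N2 : Matrix (P r s) (P r s) ℂ)) p (aa c) = Q p (a c) := by
  rw [Matrix.mul_apply, sumP]; simp [N2]

lemma mul_N2_v (p : P r s) : (Q * (N2 : Matrix (P r s) (P r s) ℂ)) p v = ∑ c, Q p (a c) + ∑ c, Q p (q c) := by
  rw [Matrix.mul_apply, sumP]; simp [N2]

lemma mul_N2_b (p : P r s) (c : Fin r) : (Q * (N2 : Matrix (P r s) (P r s) ℂ)) p (b c) = Q p (q c) := by
  rw [Matrix.mul_apply, sumP]; simp [N2]

lemma mul_N2_ck (p : P r s) (c : Fin r) : (Q * (N2 : Matrix (P r s) (P r s) ℂ)) p (ck c) = Q p (k c) := by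
  rw [Matrix.mul_apply, sumP]; simp [N2]

lemma mul_N2_ch (p : P r s) (c : Fin r) : (Q * (N2 : Matrix (P r s) (P r s) ℂ)) p (ch c) = Q p (hh c) := by
  rw [Matrix.mul_apply, sumP]; simp [N2]

lemma mul_N2_cu (p : P r s) (e : Fin s) : (Q * (N2 : Matrix (P r s) (P r s) ℂ)) p (cu e) = Q p (u e) := by
  rw [Matrix.mul_apply, sumP]; simp [N2]

/-- The columns of `N2` that vanish. -/
def IsZ2 : P r s → Prop
  | aa _ | v | b _ | ck _ | ch _ | cu _ => False
  | _ => True

lemma mul_N2_of {p' : P r s} (hp : IsZ2 p') (p : P r s) : (Q * (N2 : Matrix (P r s) (P r s) ℂ)) p p' = 0 := by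
  rw [Matrix.mul_apply]
  refine Finset.sum_eq_zero fun m _ => ?_
  cases p' <;> first | exact hp.elim | (cases m <;> simp [N2])

end N

lemma base_eq {z : Fin s → ℂ}
    (hz : ∀ c, (∑ e, μ c e * z e) * (∑ e, ν c e * z e) = ∑ e, lam c e * z e) :
    base μ ν lam z * base μ ν lam z = N1 μ ν lam * base μ ν lam z - base μ ν lam z * N2 := by
  ext p p'
  rw [Matrix.sub_apply]
  cases p with
  | ck c => rw [base_mul_ck, base_mul_ck, N1_mul_of_not _ (by simp [IsW])]; simp
  | ch c => rw [base_mul_ch, base_mul_ch, N1_mul_of_not _ (by simp [IsW])]; simp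
  | cu c => rw [base_mul_cu, base_mul_cu, N1_mul_of_not _ (by simp [IsW])]; simp
  | v => rw [base_mul_v, base_mul_v, N1_mul_of_not _ (by simp [IsW])]; simp
  | aa c => rw [base_mul_aa, base_mul_aa, N1_mul_of_not _ (by simp [IsW])]; simp
  | b c => rw [base_mul_b, base_mul_b, N1_mul_of_not _ (by simp [IsW])]; simp
  | q c => rw [base_mul_q, base_mul_q, N1_mul_of_not _ (by simp [IsW])]; simp
  | u e => rw [base_mul_u, base_mul_u, N1_mul_of_not _ (by simp [IsW])]; simp [base, N2]
  | hh c => rw [base_mul_hh, base_mul_hh, N1_mul_of_not _ (by simp [IsW])]; simp [base, N2]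
  | k c => rw [base_mul_k, base_mul_k, N1_mul_of_not _ (by simp [IsW])]; simp [base, N2]
  | a c => rw [base_mul_a, base_mul_a, N1_mul_of_not _ (by simp [IsW])]; simp [base, N2]
  | h c =>
    rw [base_mul_h, base_mul_h, N1_mul_h]
    cases p' <;> simp [base, N2, hz]
  | wk c =>
    rw [base_mul_wk, base_mul_wk, N1_mul_wk]
    cases p' <;> simp [base, N2]
  | wa c =>
    rw [base_mul_wa, base_mul_wa, N1_mul_wa]
    cases p' <;> simp [base, N2]

/-! ### The free part is harmless -/

lemma fr_mul {R : Type*} [CommRing R] (f : P r s → P r s → R) (M : Matrix (P r s) (P r s) R)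
    (hM : ∀ m p', IsT m → M m p' = 0) : fr f * M = 0 := by
  ext p p'
  rw [Matrix.mul_apply]
  refine Finset.sum_eq_zero fun m _ => ?_
  by_cases hm : IsT m
  · rw [hM m p' hm, mul_zero]
  · have : fr f p m = 0 := if_neg fun h => hm h.2.1
    rw [this, zero_mul]

lemma mul_fr {R : Type*} [CommRing R] (f : P r s → P r s → R) (M : Matrix (P r s) (P r s) R)
    (hM : ∀ p m, IsW m → M p m = 0) : M * fr f = 0 := by
  ext p p'
  rw [Matrix.mul_apply]
  refine Finset.sum_eq_zero fun m _ => ?_
  by_cases hm : IsW m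
  · rw [hM p m hm, zero_mul]
  · have : fr f m p' = 0 := if_neg fun h => hm h.1
    rw [this, mul_zero]

lemma base_row_T {R : Type*} [CommRing R] [Algebra ℂ R] (z : Fin s → R) (m p' : P r s)
    (hm : IsT m) : base μ ν lam z m p' = 0 := by
  cases m <;> simp_all [IsT, base]

lemma base_col_W {R : Type*} [CommRing R] [Algebra ℂ R] (z : Fin s → R) (p m : P r s)
    (hm : IsW m) : base μ ν lam z p m = 0 := by
  cases m <;> first | exact hm.elim | (cases p <;> rfl)

lemma fr_row_T {R : Type*} [CommRing R] (f : P r s → P r s → R) (m p' : P r s)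
    (hm : IsT m) : fr f m p' = 0 := by
  refine if_neg fun h => ?_
  have := h.1
  cases m <;> simp_all [IsT, IsW]

lemma N1_col_W (p m : P r s) (hm : IsW m) : N1 μ ν lam p m = 0 := by
  cases m <;> first | exact hm.elim | (cases p <;> rfl)

lemma N2_row_T (m p' : P r s) (hm : IsT m) : (N2 : Matrix (P r s) (P r s) ℂ) m p' = 0 := by
  cases m <;> first | exact hm.elim | (cases p' <;> rfl)

/-- The general solution. -/
def sol {R : Type*} [CommRing R] [Algebra ℂ R] (μ ν lam : Fin r → Fin s → ℂ) (z : Fin s → R)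
    (f : P r s → P r s → R) : Matrix (P r s) (P r s) R := base μ ν lam z + fr f

theorem sol_eq {z : Fin s → ℂ} (f : P r s → P r s → ℂ)
    (hz : ∀ c, (∑ e, μ c e * z e) * (∑ e, ν c e * z e) = ∑ e, lam c e * z e) :
    sol μ ν lam z f * sol μ ν lam z f = N1 μ ν lam * sol μ ν lam z f - sol μ ν lam z f * N2 := by
  have h1 : fr f * sol μ ν lam z f = 0 := fr_mul f _ fun m p' hm => by
    rw [sol, Matrix.add_apply, base_row_T z m p' hm, fr_row_T f m p' hm, add_zero]
  have h2 : base μ ν lam z * fr f = 0 := mul_fr f _ fun p m hm => base_col_W z p m hm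
  have h3 : N1 μ ν lam * fr f = 0 := mul_fr f _ fun p m hm => N1_col_W p m hm
  have h4 : fr f * (N2 : Matrix (P r s) (P r s) ℂ) = 0 := fr_mul f _ fun m p' hm => N2_row_T m p' hm
  conv_lhs => rw [sol, add_mul, ← sol, h1, add_zero, sol, mul_add, h2, add_zero]
  rw [sol, mul_add, add_mul, h3, h4, add_zero, add_zero]
  exact base_eq hz

/-- Solutions are supported on comparable pairs. -/
theorem sol_supp {z : Fin s → ℂ} (f : P r s → P r s → ℂ) (p p' : P r s)
    (h : sol μ ν lam z f p p' ≠ 0) : Lt p p' := by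
  by_contra hcon
  apply h
  have h1 : fr f p p' = 0 := if_neg fun h => hcon h.2.2
  rw [sol, Matrix.add_apply, h1, add_zero]
  cases p <;> cases p' <;> first | rfl | skip
  all_goals
    simp only [base]
    first
      | (refine if_neg ?_
         rintro rfl
         apply hcon
         simp only [Lt, x, y]
         omega)
      | (exfalso
         apply hcon
         simp only [Lt, x, y]
         omega)

/-! ### All solutions have this form -/

section conv

variable {Q : Matrix (P r s) (P r s) ℂ} (hS : ∀ p p', Q p p' ≠ 0 → Lt p p')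
  (hE : Q * Q = N1 μ ν lam * Q - Q * N2)

include hS in
lemma zero_of {p p' : P r s} (h : ¬ Lt p p') : Q p p' = 0 := by
  by_contra hcon
  exact h (hS _ _ hcon)

include hS in
lemma col_killer {m : P r s} (hm : ∀ p, ¬ Lt p m) (M : Matrix (P r s) (P r s) ℂ) (p : P r s) :
    (M * Q) p m = 0 := by
  rw [Matrix.mul_apply]
  refine Finset.sum_eq_zero fun j _ => ?_
  rw [zero_of hS (hm j), mul_zero]

lemma not_lt_ck (p : P r s) (c : Fin r) : ¬ Lt p (ck c) := by
  cases p <;> simp only [Lt, x, y] <;> omega

lemma not_lt_ch (p : P r s) (c : Fin r) : ¬ Lt p (ch c) := by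
  cases p <;> simp only [Lt, x, y] <;> omega

lemma not_lt_cu (p : P r s) (c : Fin s) : ¬ Lt p (cu c) := by
  cases p <;> simp only [Lt, x, y] <;> omega

lemma not_lt_W (p p' : P r s) (h : IsW p') : ¬ Lt p p' := by
  cases p' <;> first | exact h.elim | (cases p <;> simp only [Lt, x, y] <;> omega)

include hS hE in
lemma col_k (p : P r s) (c : Fin r) : Q p (k c) = 0 := by
  have h := congrFun (congrFun hE p) (ck c)
  rw [Matrix.sub_apply, col_killer hS (fun j => not_lt_ck j c),
    col_killer hS (fun j => not_lt_ck j c), mul_N2_ck] at h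
  linear_combination h

include hS hE in
lemma col_hh (p : P r s) (c : Fin r) : Q p (hh c) = 0 := by
  have h := congrFun (congrFun hE p) (ch c)
  rw [Matrix.sub_apply, col_killer hS (fun j => not_lt_ch j c),
    col_killer hS (fun j => not_lt_ch j c), mul_N2_ch] at h
  linear_combination h

include hS hE in
lemma col_u (p : P r s) (e : Fin s) : Q p (u e) = 0 := by
  have h := congrFun (congrFun hE p) (cu e)
  rw [Matrix.sub_apply, col_killer hS (fun j => not_lt_cu j e),
    col_killer hS (fun j => not_lt_cu j e), mul_N2_cu] at h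
  linear_combination h

lemma not_lt_row {m : P r s} (h : match m with
    | v | aa _ | b _ | q _ => True
    | _ => False) (p' : P r s) : ¬ Lt m p' := by
  cases m <;> first | exact h.elim | (cases p' <;> simp only [Lt, x, y] <;> omega)

include hS in
lemma row_v (p' : P r s) : Q v p' = 0 := zero_of hS (not_lt_row trivial p')

include hS in
lemma row_aa (c : Fin r) (p' : P r s) : Q (aa c) p' = 0 := zero_of hS (not_lt_row trivial p')

include hS in
lemma row_b (c : Fin r) (p' : P r s) : Q (b c) p' = 0 := zero_of hS (not_lt_row trivial p')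

include hS in
lemma row_q (c : Fin r) (p' : P r s) : Q (q c) p' = 0 := zero_of hS (not_lt_row trivial p')

include hS hE in
lemma row_a (c : Fin r) (p' : P r s) (hp : p' ≠ b c) : Q (a c) p' = 0 := by
  cases p' with
  | k c' => exact col_k hS hE _ _
  | hh c' => exact col_hh hS hE _ _
  | u c' => exact col_u hS hE _ _
  | b c' =>
    refine zero_of hS fun h => hp ?_
    simp only [Lt, x, y] at h
    congr 1; apply Fin.ext; omega
  | _ => refine zero_of hS ?_; simp only [Lt, x, y]; omega

include hS hE in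
lemma row_k (c : Fin r) (p' : P r s) (hp : p' ≠ b c) : Q (k c) p' = 0 := by
  cases p' with
  | k c' => exact col_k hS hE _ _
  | hh c' => exact col_hh hS hE _ _
  | u c' => exact col_u hS hE _ _
  | b c' =>
    refine zero_of hS fun h => hp ?_
    simp only [Lt, x, y] at h
    congr 1; apply Fin.ext; omega
  | _ => refine zero_of hS ?_; simp only [Lt, x, y]; omega

include hS hE in
lemma row_hh (c : Fin r) (p' : P r s) (hp : p' ≠ aa c) : Q (hh c) p' = 0 := by
  cases p' with
  | k c' => exact col_k hS hE _ _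
  | hh c' => exact col_hh hS hE _ _
  | u c' => exact col_u hS hE _ _
  | aa c' =>
    refine zero_of hS fun h => hp ?_
    simp only [Lt, x, y] at h
    congr 1; apply Fin.ext; omega
  | _ => refine zero_of hS ?_; simp only [Lt, x, y]; omega

include hS hE in
lemma row_u (e : Fin s) (p' : P r s) (hp : p' ≠ v) : Q (u e) p' = 0 := by
  cases p' with
  | k c' => exact col_k hS hE _ _
  | hh c' => exact col_hh hS hE _ _
  | u c' => exact col_u hS hE _ _
  | v => exact absurd rfl hp
  | _ => refine zero_of hS ?_; simp only [Lt, x, y]; omega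

include hS hE in
lemma QQ (p p' : P r s) : (Q * Q) p p' = ∑ c, Q p (a c) * Q (a c) p' := by
  rw [Matrix.mul_apply, sumP]
  simp [zero_of hS (not_lt_ck p _), zero_of hS (not_lt_ch p _), zero_of hS (not_lt_cu p _),
    zero_of hS (not_lt_W p (h _) trivial), zero_of hS (not_lt_W p (wk _) trivial),
    zero_of hS (not_lt_W p (wa _) trivial), col_k hS hE, col_hh hS hE, col_u hS hE,
    row_v hS, row_aa hS, row_b hS, row_q hS]

include hS hE in
lemma QQ_b (p : P r s) (c : Fin r) : (Q * Q) p (b c) = Q p (a c) * Q (a c) (b c) := by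
  rw [QQ hS hE]
  refine Finset.sum_eq_single_of_mem c (Finset.mem_univ _) fun c' _ hc => ?_
  rw [row_a hS hE c' (b c) (by simpa using fun h => hc h.symm), mul_zero]

include hS hE in
lemma QQ_of_ne (p p' : P r s) (h : ∀ c, p' ≠ b c) : (Q * Q) p p' = 0 := by
  rw [QQ hS hE]
  refine Finset.sum_eq_zero fun c _ => ?_
  rw [row_a hS hE c p' (h c), mul_zero]

include hS hE in
lemma E_aa (p : P r s) (c : Fin r) : Q p (a c) = (N1 μ ν lam * Q) p (aa c) := by
  have h := congrFun (congrFun hE p) (aa c)
  rw [Matrix.sub_apply, QQ_of_ne hS hE _ _ (by simp), mul_N2_aa] at h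
  linear_combination h

include hS hE in
lemma E_b (p : P r s) (c : Fin r) : Q p (q c) = (N1 μ ν lam * Q) p (b c) -
    Q p (a c) * Q (a c) (b c) := by
  have h := congrFun (congrFun hE p) (b c)
  rw [Matrix.sub_apply, QQ_b hS hE, mul_N2_b] at h
  linear_combination h

include hS hE in
lemma E_v (p : P r s) : ∑ c, Q p (a c) + ∑ c, Q p (q c) = (N1 μ ν lam * Q) p v := by
  have h := congrFun (congrFun hE p) v
  rw [Matrix.sub_apply, QQ_of_ne hS hE _ _ (by simp), mul_N2_v] at h
  linear_combination h

include hS hE in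
lemma ent_h_a (c c' : Fin r) : Q (h c) (a c') = if c = c' then Q (hh c) (aa c) else 0 := by
  rw [E_aa hS hE, N1_mul_h, row_k hS hE _ _ (by simp)]
  have : ∀ e, Q (u e) (aa c') = 0 := fun e => row_u hS hE _ _ (by simp)
  simp only [this, mul_zero, Finset.sum_const_zero, zero_add, add_zero]
  split_ifs with h
  · rw [h]
  · exact row_hh hS hE _ _ (by simpa using fun h' => h h'.symm)

include hS hE in
lemma ent_wa_a (c c' : Fin r) : Q (wa c) (a c') = 0 := by
  rw [E_aa hS hE, N1_mul_wa, row_a hS hE _ _ (by simp)]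
  have : ∀ e, Q (u e) (aa c') = 0 := fun e => row_u hS hE _ _ (by simp)
  simp only [this, mul_zero, Finset.sum_const_zero, add_zero]

include hS hE in
lemma ent_wk_a (c c' : Fin r) : Q (wk c) (a c') = 0 := by
  rw [E_aa hS hE, N1_mul_wk, row_k hS hE _ _ (by simp)]
  have : ∀ e, Q (u e) (aa c') = 0 := fun e => row_u hS hE _ _ (by simp)
  simp only [this, mul_zero, Finset.sum_const_zero, add_zero]

include hS hE in
lemma ent_wa_q (c c' : Fin r) : Q (wa c) (q c') = if c = c' then Q (a c) (b c) else 0 := by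
  rw [E_b hS hE, N1_mul_wa, ent_wa_a hS hE, zero_mul, sub_zero]
  have : ∀ e, Q (u e) (b c') = 0 := fun e => row_u hS hE _ _ (by simp)
  simp only [this, mul_zero, Finset.sum_const_zero, add_zero]
  split_ifs with h
  · rw [h]
  · exact row_a hS hE _ _ (by simpa using fun h' => h h'.symm)

include hS hE in
lemma ent_wk_q (c c' : Fin r) : Q (wk c) (q c') = if c = c' then Q (k c) (b c) else 0 := by
  rw [E_b hS hE, N1_mul_wk, ent_wk_a hS hE, zero_mul, sub_zero]
  have : ∀ e, Q (u e) (b c') = 0 := fun e => row_u hS hE _ _ (by simp)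
  simp only [this, mul_zero, Finset.sum_const_zero, add_zero]
  split_ifs with h
  · rw [h]
  · exact row_k hS hE _ _ (by simpa using fun h' => h h'.symm)

include hS in
lemma ent_h_q_same (c : Fin r) : Q (h c) (q c) = 0 := by
  refine zero_of hS ?_
  simp only [Lt, x, y]; omega

include hS hE in
lemma ent_h_q (c c' : Fin r) : Q (h c) (q c') = 0 := by
  by_cases hc : c = c'
  · subst hc; exact ent_h_q_same hS c
  · have : ∀ e, Q (u e) (b c') = 0 := fun e => row_u hS hE _ _ (by simp)
    rw [E_b hS hE, N1_mul_h, ent_h_a hS hE, if_neg hc,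
      row_k hS hE _ _ (by simpa using fun h' => hc h'.symm), row_hh hS hE _ _ (by simp)]
    simp [this]

include hS hE in
lemma rel1 (c : Fin r) : Q (hh c) (aa c) * Q (a c) (b c) = Q (k c) (b c) := by
  have h1 := E_b hS hE (h c) c
  have : ∀ e, Q (u e) (b c) = 0 := fun e => row_u hS hE _ _ (by simp)
  rw [ent_h_q_same hS, N1_mul_h, ent_h_a hS hE, if_pos rfl, row_hh hS hE _ _ (by simp)] at h1
  simp only [this, mul_zero, Finset.sum_const_zero, add_zero] at h1
  linear_combination h1

include hS hE in
lemma rel_mu (c : Fin r) : ∑ e, μ c e * Q (u e) v = Q (hh c) (aa c) := by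
  have h1 := E_v hS hE (h c)
  rw [N1_mul_h, row_k hS hE _ _ (by simp), row_hh hS hE _ _ (by simp)] at h1
  simp only [ent_h_a hS hE, ent_h_q hS hE, Finset.sum_ite_eq, Finset.mem_univ, if_true,
    Finset.sum_const_zero, add_zero, zero_add] at h1
  exact h1.symm

include hS hE in
lemma rel_nu (c : Fin r) : ∑ e, ν c e * Q (u e) v = Q (a c) (b c) := by
  have h1 := E_v hS hE (wa c)
  rw [N1_mul_wa, row_a hS hE _ _ (by simp)] at h1
  simp only [ent_wa_a hS hE, ent_wa_q hS hE, Finset.sum_ite_eq, Finset.mem_univ, if_true,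
    Finset.sum_const_zero, zero_add] at h1
  exact h1.symm

include hS hE in
lemma rel_lam (c : Fin r) : ∑ e, lam c e * Q (u e) v = Q (k c) (b c) := by
  have h1 := E_v hS hE (wk c)
  rw [N1_mul_wk, row_k hS hE _ _ (by simp)] at h1
  simp only [ent_wk_a hS hE, ent_wk_q hS hE, Finset.sum_ite_eq, Finset.mem_univ, if_true,
    Finset.sum_const_zero, zero_add] at h1
  exact h1.symm

include hS hE in
theorem sol_rel (c : Fin r) : (∑ e, μ c e * Q (u e) v) * (∑ e, ν c e * Q (u e) v) =
    ∑ e, lam c e * Q (u e) v := by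
  rw [rel_mu hS hE, rel_nu hS hE, rel_lam hS hE, rel1 hS hE]

lemma not_lt_killer {m : P r s} (h : match m with
    | ck _ | ch _ | cu _ => True
    | _ => False) (p' : P r s) : ¬ Lt m p' := by
  cases m <;> first | exact h.elim | (cases p' <;> simp only [Lt, x, y] <;> omega)

include hS hE in
/-- Every solution is of the form `sol`. -/
theorem sol_unique : Q = sol μ ν lam (fun e => Q (u e) v) Q := by
  ext p p'
  change Q p p' = base μ ν lam (fun e => Q (u e) v) p p' + fr Q p p'
  by_cases hF : Free p p'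
  · have h1 : fr Q p p' = Q p p' := if_pos hF
    have h2 : base μ ν lam (fun e => Q (u e) v) p p' = 0 := by
      obtain ⟨hw, ht, -⟩ := hF
      cases p <;> first | exact hw.elim | (cases p' <;> first | exact ht.elim | rfl)
    rw [h1, h2, zero_add]
  · have h1 : fr Q p p' = 0 := if_neg hF
    rw [h1, add_zero]
    cases p with
    | ck c => rw [zero_of hS (not_lt_killer trivial p')]; rfl
    | ch c => rw [zero_of hS (not_lt_killer trivial p')]; rfl
    | cu c => rw [zero_of hS (not_lt_killer trivial p')]; rfl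
    | v => rw [row_v hS]; rfl
    | aa c => rw [row_aa hS]; rfl
    | b c => rw [row_b hS]; rfl
    | q c => rw [row_q hS]; rfl
    | u e =>
      by_cases h : p' = v
      · subst h; rfl
      · rw [row_u hS hE e p' h]
        cases p' <;> first | rfl | exact absurd rfl h
    | a c =>
      by_cases h : p' = b c
      · subst h; simp [base, rel_nu hS hE]
      · rw [row_a hS hE c p' h]
        cases p' <;> first | rfl | (simp only [base]; rw [if_neg]; rintro rfl; exact h rfl)
    | k c =>
      by_cases h : p' = b c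
      · subst h; simp [base, rel_lam hS hE]
      · rw [row_k hS hE c p' h]
        cases p' <;> first | rfl | (simp only [base]; rw [if_neg]; rintro rfl; exact h rfl)
    | hh c =>
      by_cases h : p' = aa c
      · subst h; simp [base, rel_mu hS hE]
      · rw [row_hh hS hE c p' h]
        cases p' <;> first | rfl | (simp only [base]; rw [if_neg]; rintro rfl; exact h rfl)
    | h c =>
      cases p' with
      | ck c' => rw [zero_of hS (not_lt_ck _ c')]; rfl
      | ch c' => rw [zero_of hS (not_lt_ch _ c')]; rfl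
      | cu c' => rw [zero_of hS (not_lt_cu _ c')]; rfl
      | h c' => rw [zero_of hS (not_lt_W _ (h c') trivial)]; rfl
      | wk c' => rw [zero_of hS (not_lt_W _ (wk c') trivial)]; rfl
      | wa c' => rw [zero_of hS (not_lt_W _ (wa c') trivial)]; rfl
      | k c' => rw [col_k hS hE]; rfl
      | hh c' => rw [col_hh hS hE]; rfl
      | u c' => rw [col_u hS hE]; rfl
      | a c' => rw [ent_h_a hS hE]; simp [base, rel_mu hS hE]
      | q c' => rw [ent_h_q hS hE]; rfl
      | v => rw [zero_of hS fun h => hF ⟨trivial, trivial, h⟩]; rfl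
      | b c' => rw [zero_of hS fun h => hF ⟨trivial, trivial, h⟩]; rfl
      | aa c' => rw [zero_of hS fun h => hF ⟨trivial, trivial, h⟩]; rfl
    | wk c =>
      cases p' with
      | ck c' => rw [zero_of hS (not_lt_ck _ c')]; rfl
      | ch c' => rw [zero_of hS (not_lt_ch _ c')]; rfl
      | cu c' => rw [zero_of hS (not_lt_cu _ c')]; rfl
      | h c' => rw [zero_of hS (not_lt_W _ (h c') trivial)]; rfl
      | wk c' => rw [zero_of hS (not_lt_W _ (wk c') trivial)]; rfl
      | wa c' => rw [zero_of hS (not_lt_W _ (wa c') trivial)]; rfl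
      | k c' => rw [col_k hS hE]; rfl
      | hh c' => rw [col_hh hS hE]; rfl
      | u c' => rw [col_u hS hE]; rfl
      | a c' => rw [ent_wk_a hS hE]; rfl
      | q c' => rw [ent_wk_q hS hE]; simp [base, rel_lam hS hE]
      | v => rw [zero_of hS fun h => hF ⟨trivial, trivial, h⟩]; rfl
      | b c' => rw [zero_of hS fun h => hF ⟨trivial, trivial, h⟩]; rfl
      | aa c' => rw [zero_of hS fun h => hF ⟨trivial, trivial, h⟩]; rfl
    | wa c =>
      cases p' with
      | ck c' => rw [zero_of hS (not_lt_ck _ c')]; rfl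
      | ch c' => rw [zero_of hS (not_lt_ch _ c')]; rfl
      | cu c' => rw [zero_of hS (not_lt_cu _ c')]; rfl
      | h c' => rw [zero_of hS (not_lt_W _ (h c') trivial)]; rfl
      | wk c' => rw [zero_of hS (not_lt_W _ (wk c') trivial)]; rfl
      | wa c' => rw [zero_of hS (not_lt_W _ (wa c') trivial)]; rfl
      | k c' => rw [col_k hS hE]; rfl
      | hh c' => rw [col_hh hS hE]; rfl
      | u c' => rw [col_u hS hE]; rfl
      | a c' => rw [ent_wa_a hS hE]; rfl
      | q c' => rw [ent_wa_q hS hE]; simp [base, rel_nu hS hE]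
      | v => rw [zero_of hS fun h => hF ⟨trivial, trivial, h⟩]; rfl
      | b c' => rw [zero_of hS fun h => hF ⟨trivial, trivial, h⟩]; rfl
      | aa c' => rw [zero_of hS fun h => hF ⟨trivial, trivial, h⟩]; rfl

end conv

/-! ### Nilpotency -/

lemma N1_sq : N1 μ ν lam * N1 μ ν lam = 0 := by
  ext p p'
  rw [Matrix.mul_apply]
  refine Finset.sum_eq_zero fun m _ => ?_
  by_cases hm : IsW m
  · rw [N1_col_W p m hm, zero_mul]
  · have : N1 μ ν lam m p' = 0 := by cases m <;> first | exact absurd trivial hm | rfl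
    rw [this, mul_zero]

lemma N2_sq : (N2 : Matrix (P r s) (P r s) ℂ) * N2 = 0 := by
  ext p p'
  rw [Matrix.mul_apply]
  refine Finset.sum_eq_zero fun m _ => ?_
  cases m with
  | a c => have : (N2 : Matrix (P r s) (P r s) ℂ) p (a c) = 0 := by cases p <;> rfl
           rw [this, zero_mul]
  | q c => have : (N2 : Matrix (P r s) (P r s) ℂ) p (q c) = 0 := by cases p <;> rfl
           rw [this, zero_mul]
  | k c => have : (N2 : Matrix (P r s) (P r s) ℂ) p (k c) = 0 := by cases p <;> rfl
           rw [this, zero_mul]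
  | hh c => have : (N2 : Matrix (P r s) (P r s) ℂ) p (hh c) = 0 := by cases p <;> rfl
            rw [this, zero_mul]
  | u c => have : (N2 : Matrix (P r s) (P r s) ℂ) p (u c) = 0 := by cases p <;> rfl
           rw [this, zero_mul]
  | _ =>
    rw [mul_eq_zero]; right
    cases p' <;> rfl

lemma N2_N1 : (N2 : Matrix (P r s) (P r s) ℂ) * N1 μ ν lam = 0 := by
  ext p p'
  rw [Matrix.mul_apply]
  refine Finset.sum_eq_zero fun m _ => ?_
  by_cases hm : IsW m
  · have : (N2 : Matrix (P r s) (P r s) ℂ) p m = 0 := by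
      cases m <;> first | exact hm.elim | (cases p <;> rfl)
    rw [this, zero_mul]
  · have : N1 μ ν lam m p' = 0 := by cases m <;> first | exact absurd trivial hm | rfl
    rw [this, mul_zero]

lemma N1_supp (p p' : P r s) (h : N1 μ ν lam p p' ≠ 0) : x p < x p' := by
  by_contra hcon
  apply h
  cases p <;> cases p' <;> first | rfl | skip
  all_goals
    simp only [N1]
    first
      | (refine if_neg ?_
         rintro rfl
         apply hcon
         simp only [x]
         omega)
      | (exfalso
         apply hcon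
         simp only [x]
         omega)

lemma N2_supp (p p' : P r s) (h : (N2 : Matrix (P r s) (P r s) ℂ) p p' ≠ 0) : y p < y p' := by
  by_contra hcon
  apply h
  cases p <;> cases p' <;> first | rfl | skip
  all_goals
    simp only [N2]
    first
      | (refine if_neg ?_
         rintro rfl
         apply hcon
         simp only [y]
         omega)
      | (exfalso
         apply hcon
         simp only [y]
         omega)

end P

end

end Pool.Agent.Lib.MP_1e2f52_ag
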