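import Pool.Agent.Lib.MP_1e2f52_ag.Defs

/-!
# Local rings of embedded varieties: functoriality
-/

open MvPolynomial

namespace Pool.Agent.Lib.MP_1e2f52_ag

noncomputable section

variable {σ τ : Type}

lemma mem_pt {a : σ → ℂ} {p : MvPolynomial σ ℂ} :
    p ∈ vanishingIdeal ℂ ({a} : Set (σ → ℂ)) ↔ eval a p = 0 := by
  rw [mem_vanishingIdeal_singleton_iff]; rfl

lemma mem_van {V : Set (σ → ℂ)} {p : MvPolynomial σ ℂ} :
    p ∈ vanishingIdeal ℂ V ↔ ∀ x ∈ V, eval x p = 0 := Iff.rfl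

lemma eval_bind (F : τ → MvPolynomial σ ℂ) (a : σ → ℂ) (p : MvPolynomial τ ℂ) :
    eval a (bind₁ F p) = eval (fun t => eval a (F t)) p := by
  have : (eval a).comp (bind₁ F : MvPolynomial τ ℂ →+* MvPolynomial σ ℂ) =
      eval (fun t => eval a (F t)) := by
    ext i <;> simp
  exact congrArg (fun f => f p) this

/-- The quotient map onto the local ring. -/
def mkGerm (V : Set (σ → ℂ)) (a : σ → ℂ) :
    Localization.AtPrime (vanishingIdeal ℂ ({a} : Set (σ → ℂ))) →+* Germ V a :=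
  Ideal.Quotient.mk _

lemma mkGerm_surj (V : Set (σ → ℂ)) (a : σ → ℂ) : Function.Surjective (mkGerm V a) :=
  Ideal.Quotient.mk_surjective

lemma mkGerm_eq_zero {V : Set (σ → ℂ)} {a : σ → ℂ}
    {x : Localization.AtPrime (vanishingIdeal ℂ ({a} : Set (σ → ℂ)))} :
    mkGerm V a x = 0 ↔ x ∈ (vanishingIdeal ℂ V).map
      (algebraMap (MvPolynomial σ ℂ)
        (Localization.AtPrime (vanishingIdeal ℂ ({a} : Set (σ → ℂ))))) :=
  Ideal.Quotient.eq_zero_iff_mem

/-- The class of a polynomial in the local ring. -/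
def toGerm (V : Set (σ → ℂ)) (a : σ → ℂ) : MvPolynomial σ ℂ →+* Germ V a :=
  (mkGerm V a).comp (algebraMap (MvPolynomial σ ℂ)
    (Localization.AtPrime (vanishingIdeal ℂ ({a} : Set (σ → ℂ)))))

lemma toGerm_apply (V : Set (σ → ℂ)) (a : σ → ℂ) (p : MvPolynomial σ ℂ) :
    toGerm V a p = mkGerm V a (algebraMap (MvPolynomial σ ℂ)
      (Localization.AtPrime (vanishingIdeal ℂ ({a} : Set (σ → ℂ)))) p) := rfl

/-- The map of local rings induced by a map of polynomial rings. -/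
def germMap {V : Set (σ → ℂ)} {W : Set (τ → ℂ)} {a : σ → ℂ} {b : τ → ℂ}
    (φ : MvPolynomial τ ℂ →+* MvPolynomial σ ℂ) (h1 : ∀ p, eval a (φ p) = eval b p)
    (h2 : ∀ p ∈ vanishingIdeal ℂ W, φ p ∈ vanishingIdeal ℂ V) : Germ W b →+* Germ V a :=
  Ideal.quotientMap _
    (Localization.localRingHom (vanishingIdeal ℂ ({b} : Set (τ → ℂ)))
      (vanishingIdeal ℂ ({a} : Set (σ → ℂ))) φ
      (by ext p; rw [Ideal.mem_comap, mem_pt, mem_pt, h1]))
    (by
      rw [Ideal.map_le_iff_le_comap]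
      intro p hp
      rw [Ideal.mem_comap, Ideal.mem_comap, Localization.localRingHom_to_map]
      exact Ideal.mem_map_of_mem _ (h2 p hp))

lemma germMap_toGerm {V : Set (σ → ℂ)} {W : Set (τ → ℂ)} {a : σ → ℂ} {b : τ → ℂ}
    (φ : MvPolynomial τ ℂ →+* MvPolynomial σ ℂ) (h1 : ∀ p, eval a (φ p) = eval b p)
    (h2 : ∀ p ∈ vanishingIdeal ℂ W, φ p ∈ vanishingIdeal ℂ V) (p : MvPolynomial τ ℂ) :
    germMap φ h1 h2 (toGerm W b p) = toGerm V a (φ p) := by
  rw [toGerm_apply, toGerm_apply]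
  refine (Ideal.quotientMap_mk (I := (vanishingIdeal ℂ V).map
      (algebraMap (MvPolynomial σ ℂ)
        (Localization.AtPrime (vanishingIdeal ℂ ({a} : Set (σ → ℂ))))))).trans ?_
  rw [Localization.localRingHom_to_map]
  rfl

lemma toGerm_eq_of_sub_mem {V : Set (σ → ℂ)} {a : σ → ℂ} {p q : MvPolynomial σ ℂ}
    (h : p - q ∈ vanishingIdeal ℂ V) : toGerm V a p = toGerm V a q := by
  rw [← sub_eq_zero, ← map_sub, toGerm_apply, mkGerm_eq_zero]
  exact Ideal.mem_map_of_mem _ h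

lemma toGerm_surj_mul {V : Set (σ → ℂ)} {a : σ → ℂ} (r : Germ V a) :
    ∃ p s : MvPolynomial σ ℂ, eval a s ≠ 0 ∧ r * toGerm V a s = toGerm V a p := by
  obtain ⟨r, rfl⟩ := mkGerm_surj V a r
  obtain ⟨p, s, rfl⟩ := IsLocalization.exists_mk'_eq
    (vanishingIdeal ℂ ({a} : Set (σ → ℂ))).primeCompl r
  refine ⟨p, s, fun h => s.2 (mem_pt.2 h), ?_⟩
  rw [toGerm_apply, toGerm_apply, ← map_mul, IsLocalization.mk'_spec]

lemma toGerm_isUnit {V : Set (σ → ℂ)} {a : σ → ℂ} {s : MvPolynomial σ ℂ} (hs : eval a s ≠ 0) :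
    IsUnit (toGerm V a s) := by
  rw [toGerm_apply]
  apply IsUnit.map
  exact IsLocalization.map_units _
    (⟨s, fun h => hs (mem_pt.1 h)⟩ : (vanishingIdeal ℂ ({a} : Set (σ → ℂ))).primeCompl)

lemma germ_endo {V : Set (σ → ℂ)} {a : σ → ℂ} {f : Germ V a →+* Germ V a}
    (h : ∀ p, f (toGerm V a p) = toGerm V a p) : f = RingHom.id _ := by
  refine RingHom.ext fun r => ?_
  obtain ⟨p, s, hs, hr⟩ := toGerm_surj_mul r
  have hu : IsUnit (toGerm V a s) := toGerm_isUnit hs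
  have h1 := congrArg f hr
  rw [map_mul, h, h, ← hr] at h1
  exact hu.mul_right_cancel h1

/-- Isomorphic embedded varieties have isomorphic local rings. -/
theorem germ_equiv {V : Set (σ → ℂ)} {W : Set (τ → ℂ)}
    {F : τ → MvPolynomial σ ℂ} {G : σ → MvPolynomial τ ℂ}
    (hF : ∀ a ∈ V, (fun t => eval a (F t)) ∈ W ∧
      (fun s => eval (fun t => eval a (F t)) (G s)) = a)
    (hG : ∀ b ∈ W, (fun s => eval b (G s)) ∈ V ∧
      (fun t => eval (fun s => eval b (G s)) (F t)) = b)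
    {a : σ → ℂ} (ha : a ∈ V) :
    Nonempty (Germ V a ≃+* Germ W (fun t => eval a (F t))) := by
  set b : τ → ℂ := fun t => eval a (F t) with hb
  have hGb : (fun s => eval b (G s)) = a := (hF a ha).2
  have e1 : ∀ p : MvPolynomial τ ℂ, eval a ((bind₁ F : MvPolynomial τ ℂ →+* _) p) = eval b p :=
    fun p => eval_bind F a p
  have e2 : ∀ p ∈ vanishingIdeal ℂ W,
      (bind₁ F : MvPolynomial τ ℂ →+* MvPolynomial σ ℂ) p ∈ vanishingIdeal ℂ V := by
    intro p hp x hx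
    exact (eval_bind F x p).trans (hp _ (hF x hx).1)
  have e3 : ∀ p : MvPolynomial σ ℂ, eval b ((bind₁ G : MvPolynomial σ ℂ →+* _) p) = eval a p := by
    intro p
    refine (eval_bind G b p).trans ?_
    rw [hGb]
  have e4 : ∀ p ∈ vanishingIdeal ℂ V,
      (bind₁ G : MvPolynomial σ ℂ →+* MvPolynomial τ ℂ) p ∈ vanishingIdeal ℂ W := by
    intro p hp x hx
    exact (eval_bind G x p).trans (hp _ (hG x hx).1)
  let f : Germ W b →+* Germ V a := germMap _ e1 e2
  let g : Germ V a →+* Germ W b := germMap _ e3 e4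
  refine ⟨RingEquiv.ofRingHom g f ?_ ?_⟩
  · refine germ_endo (fun p => ?_)
    rw [RingHom.comp_apply, germMap_toGerm, germMap_toGerm]
    apply toGerm_eq_of_sub_mem
    intro x hx
    change eval x _ = 0
    rw [map_sub]
    change eval x (bind₁ G (bind₁ F p)) - _ = 0
    rw [eval_bind, eval_bind, (hG x hx).2, sub_self]
  · refine germ_endo (fun p => ?_)
    rw [RingHom.comp_apply, germMap_toGerm, germMap_toGerm]
    apply toGerm_eq_of_sub_mem
    intro x hx
    change eval x _ = 0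
    rw [map_sub]
    change eval x (bind₁ F (bind₁ G p)) - _ = 0
    rw [eval_bind, eval_bind, (hF x hx).2, sub_self]

lemma toGerm_eq_zero_iff {V : Set (σ → ℂ)} {a : σ → ℂ} {p : MvPolynomial σ ℂ} :
    toGerm V a p = 0 ↔ ∃ s : MvPolynomial σ ℂ, eval a s ≠ 0 ∧ ∀ x ∈ V, eval x s * eval x p = 0 := by
  rw [toGerm_apply, mkGerm_eq_zero,
    IsLocalization.algebraMap_mem_map_algebraMap_iff
      (vanishingIdeal ℂ ({a} : Set (σ → ℂ))).primeCompl]
  constructor
  · rintro ⟨s, hs, h⟩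
    refine ⟨s, fun h0 => hs (mem_pt.2 h0), fun x hx => ?_⟩
    rw [← map_mul]
    exact h x hx
  · rintro ⟨s, hs, h⟩
    refine ⟨s, fun h0 => hs (mem_pt.1 h0), fun x hx => ?_⟩
    change eval x _ = 0
    rw [map_mul]
    exact h x hx

lemma germ_nontrivial {V : Set (σ → ℂ)} {a : σ → ℂ} (ha : a ∈ V) : Nontrivial (Germ V a) := by
  refine ⟨⟨0, 1, fun h => ?_⟩⟩
  have h1 : toGerm V a 1 = 0 := by rw [map_one, ← h]
  obtain ⟨s, hs, hs2⟩ := toGerm_eq_zero_iff.1 h1
  have := hs2 a ha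
  simp only [map_one, mul_one] at this
  exact hs this

lemma germ_isLocal {V : Set (σ → ℂ)} {a : σ → ℂ} (ha : a ∈ V) : IsLocalRing (Germ V a) := by
  have := germ_nontrivial ha
  exact IsLocalRing.of_surjective' (mkGerm V a) (mkGerm_surj V a)

instance germ_noeth [Finite σ] (V : Set (σ → ℂ)) (a : σ → ℂ) : IsNoetherianRing (Germ V a) := by
  have : IsNoetherianRing (Localization.AtPrime (vanishingIdeal ℂ ({a} : Set (σ → ℂ)))) :=
    IsLocalization.isNoetherianRing (vanishingIdeal ℂ ({a} : Set (σ → ℂ))).primeCompl _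
      inferInstance
  exact isNoetherianRing_of_surjective _ _ (mkGerm V a) (mkGerm_surj V a)

end

end Pool.Agent.Lib.MP_1e2f52_ag
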