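import Pool.Agent.Lib.MP_1e2f52_ag.CM

/-!
# The Gorenstein property and regular elements
-/

open MvPolynomial RingTheory.Sequence IsLocalRing Pointwise

namespace Pool.Agent.Lib.MP_1e2f52_ag

noncomputable section

/-- A (Noetherian local) ring is Gorenstein: it is Cohen-Macaulay, and every ideal generated by a
regular sequence whose length is the Krull dimension is irreducible. -/
def IsGor (R : Type) [CommRing R] : Prop :=
  IsCM R ∧ ∀ rs : List R, IsRegular R rs → ((rs.length : ℕ∞) : WithBot ℕ∞) = ringKrullDim R →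
    ∀ I J : Ideal R, I ⊓ J = Ideal.ofList rs → I = Ideal.ofList rs ∨ J = Ideal.ofList rs

/-- A Zariski closed subset of affine space is Gorenstein: all its local rings are. -/
def AffineGor {σ : Type} (V : Set (σ → ℂ)) : Prop :=
  ∀ a ∈ V, IsGor (Germ V a)

/-- The closure of `C_w ∩ S_X` in `GL_n / B`, with its reduced structure, is Gorenstein. -/
def ClosureGor {n : ℕ} (X : Matrix (Fin n) (Fin n) ℂ) (w : Equiv.Perm (Fin n)) : Prop :=
  ∀ g : Matrix (Fin n) (Fin n) ℂ, IsUnit g.det → AffineGor (chart X w g)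

lemma isRegular_map_equiv {R S : Type} [CommRing R] [CommRing S] (e : R ≃+* S) (rs : List R) :
    IsRegular R rs ↔ IsRegular S (rs.map e) := by
  refine AddEquiv.isRegular_congr (e := e.toAddEquiv) ?_
  rw [List.forall₂_map_right_iff, List.forall₂_same]
  intro r _ x
  simp

lemma IsGor.of_equiv {R S : Type} [CommRing R] [CommRing S] (e : R ≃+* S) (h : IsGor R) :
    IsGor S := by
  refine ⟨h.1.of_equiv e, fun rs hrs hl I J hIJ => ?_⟩
  obtain ⟨rs, rfl⟩ : ∃ rs' : List R, rs'.map e = rs :=
    List.map_surjective_iff.2 e.surjective rs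
  have h1 := (isRegular_map_equiv e rs).2 hrs
  have h2 : ((rs.length : ℕ∞) : WithBot ℕ∞) = ringKrullDim R := by
    rw [List.length_map] at hl
    rw [hl]; exact (ringKrullDim_eq_of_ringEquiv e).symm
  have hof : Ideal.comap (e : R →+* S) (Ideal.ofList (rs.map e)) = Ideal.ofList rs := by
    have : Ideal.ofList (rs.map e) = (Ideal.ofList rs).map (e : R →+* S) :=
      (Ideal.map_ofList (e : R →+* S) rs).symm
    rw [this]
    exact Ideal.comap_map_of_bijective (e : R →+* S) e.bijective
  have h3 := h.2 rs h1 h2 (I.comap (e : R →+* S)) (J.comap (e : R →+* S)) (by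
    rw [← Ideal.comap_inf, hIJ, hof])
  have hinj : ∀ K : Ideal S, K.comap (e : R →+* S) = Ideal.ofList rs →
      K = Ideal.ofList (rs.map e) := by
    intro K hK
    rw [← hof] at hK
    exact Ideal.comap_injective_of_surjective (e : R →+* S) e.surjective hK
  rcases h3 with h3 | h3
  · exact Or.inl (hinj I h3)
  · exact Or.inr (hinj J h3)

lemma IsGor.quot {R : Type} [CommRing R] [IsNoetherianRing R] [IsLocalRing R] {x : R}
    (hx : x ∈ maximalIdeal R) (reg : IsSMulRegular R x) (h : IsGor R) :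
    IsGor (R ⧸ Ideal.span {x}) := by
  have hdim := ringKrullDim_quotient_span_singleton_succ_eq_ringKrullDim reg hx
  refine ⟨(isCM_quot_iff hx reg).1 h.1, fun rs hrs hl I J hIJ => ?_⟩
  obtain ⟨rs, rfl⟩ : ∃ rs' : List R, rs'.map (Ideal.Quotient.mk (Ideal.span {x})) = rs :=
    List.map_surjective_iff.2 Ideal.Quotient.mk_surjective rs
  have h1 : IsRegular R (x :: rs) :=
    (isRegular_cons_iff _ _ _).2 ⟨reg, (isRegular_quot_iff x rs).2 hrs⟩
  have h2 : (((x :: rs).length : ℕ∞) : WithBot ℕ∞) = ringKrullDim R := by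
    rw [← hdim, ← hl]; simp
  have hof : (Ideal.ofList (rs.map (Ideal.Quotient.mk (Ideal.span {x})))).comap
      (Ideal.Quotient.mk (Ideal.span {x})) = Ideal.ofList (x :: rs) := by
    rw [← Ideal.map_ofList, Ideal.comap_map_of_surjective _ Ideal.Quotient.mk_surjective,
      Ideal.ofList_cons, sup_comm]
    congr 1
    exact Ideal.mk_ker
  have h3 := h.2 _ h1 h2 (I.comap (Ideal.Quotient.mk (Ideal.span {x})))
    (J.comap (Ideal.Quotient.mk (Ideal.span {x}))) (by rw [← Ideal.comap_inf, hIJ, hof])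
  have hinj : ∀ K : Ideal (R ⧸ Ideal.span {x}),
      K.comap (Ideal.Quotient.mk (Ideal.span {x})) = Ideal.ofList (x :: rs) →
      K = Ideal.ofList (rs.map (Ideal.Quotient.mk (Ideal.span {x}))) := by
    intro K hK
    rw [← hof] at hK
    exact Ideal.comap_injective_of_surjective _ Ideal.Quotient.mk_surjective hK
  rcases h3 with h3 | h3
  · exact Or.inl (hinj I h3)
  · exact Or.inr (hinj J h3)

variable {σ τ : Type}

theorem affineGor_optCyl [Finite σ] (V : Set (σ → ℂ)) (h : AffineGor (optCyl V)) :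
    AffineGor V := by
  intro a ha
  have hp : (fun o : Option σ => o.elim 0 a) ∈ optCyl V := by simpa [optCyl] using ha
  have h1 := h _ hp
  obtain ⟨e⟩ := lineElt_quot (V := V) (p := fun o : Option σ => o.elim 0 a)
  exact (@IsGor.quot _ _ _ (germ_isLocal hp) _ (lineElt_mem hp) (lineElt_regular V _) h1).of_equiv e

theorem affineGor_of_polyIso {V : Set (σ → ℂ)} {W : Set (τ → ℂ)} (h : PolyIso V W)
    (hV : AffineGor V) : AffineGor W := by
  obtain ⟨F, G, hF, hG⟩ := h
  intro b hb
  obtain ⟨e⟩ := germ_equiv hG hF hb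
  exact (hV _ (hG b hb).1).of_equiv e.symm

theorem affineGor_cyl [Finite σ] (V : Set (σ → ℂ)) (k : ℕ) (h : AffineGor (cyl V (Fin k))) :
    AffineGor V := by
  induction k with
  | zero =>
    exact affineGor_of_polyIso (polyIso_reindex (Equiv.sumEmpty σ (Fin 0)) fun p => Iff.rfl) h
  | succ k ih =>
    apply ih
    apply affineGor_optCyl
    let e : σ ⊕ Fin (k + 1) ≃ Option (σ ⊕ Fin k) :=
      (Equiv.sumCongr (Equiv.refl σ) (finSuccEquiv k)).trans
        ((Equiv.sumCongr (Equiv.refl σ) (Equiv.optionEquivSumPUnit.{0} (Fin k))).trans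
          ((Equiv.sumAssoc σ (Fin k) PUnit.{1}).symm.trans
            (Equiv.optionEquivSumPUnit.{0} (σ ⊕ Fin k)).symm))
    have h' : PolyIso (cyl V (Fin (k + 1))) (optCyl (cyl V (Fin k))) :=
      polyIso_reindex e fun p => Iff.rfl
    exact affineGor_of_polyIso h' h

end

end Pool.Agent.Lib.MP_1e2f52_ag
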