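import Pool.Agent.Lib.MP_1e2f52_ag.Defs

/-!
# The factorisation of a matrix into a lower unitriangular and an upper triangular one
-/

namespace Pool.Agent.Lib.MP_1e2f52_ag

noncomputable section

open Matrix

/-- A square matrix is lower unitriangular. -/
def IsLowerU {n : ℕ} (M : Matrix (Fin n) (Fin n) ℂ) : Prop :=
  (∀ i, M i i = 1) ∧ ∀ i j, i < j → M i j = 0

/-- The inclusion of the first `j + 1` indices. -/
def ini {n : ℕ} (j : Fin n) : Fin (j.val + 1) → Fin n := Fin.castLE j.isLt

/-- The rows with index less than `j`, followed by the row `i`. -/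
def rws {n : ℕ} (i j : Fin n) : Fin (j.val + 1) → Fin n :=
  fun k => if k.val = j.val then i else ini j k

/-- The leading principal minor of size `j + 1`. -/
def den {n : ℕ} (M : Matrix (Fin n) (Fin n) ℂ) (j : Fin n) : ℂ := (M.submatrix (ini j) (ini j)).det

/-- The minor computing the entry of the lower unitriangular factor. -/
def num {n : ℕ} (M : Matrix (Fin n) (Fin n) ℂ) (i j : Fin n) : ℂ :=
  (M.submatrix (rws i j) (ini j)).det

lemma ini_val {n : ℕ} (j : Fin n) (k : Fin (j.val + 1)) : (ini j k).val = k.val := rfl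

lemma rws_self {n : ℕ} (j : Fin n) : rws j j = ini j := by
  funext k
  unfold rws
  split_ifs with h
  · apply Fin.ext; rw [ini_val]; exact h.symm
  · rfl

lemma den_eq_num {n : ℕ} (M : Matrix (Fin n) (Fin n) ℂ) (j : Fin n) : den M j = num M j j := by
  rw [den, num, rws_self]

/-- A sum over all indices of terms vanishing beyond `j`. -/
lemma sum_ini {n : ℕ} (j : Fin n) (f : Fin n → ℂ) (h : ∀ k, j < k → f k = 0) :
    ∑ k, f k = ∑ k, f (ini j k) := by
  classical
  symm
  have hinj : Function.Injective (ini j) := by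
    intro k k' hk
    have := congrArg Fin.val hk
    rw [ini_val, ini_val] at this
    exact Fin.ext this
  rw [← Finset.sum_image (s := Finset.univ) (g := ini j) (f := f) (fun _ _ _ _ h => hinj h)]
  apply Finset.sum_subset (Finset.subset_univ _)
  intro k _ hk
  apply h
  by_contra hcon
  apply hk
  rw [Finset.mem_image]
  refine ⟨⟨k.val, ?_⟩, Finset.mem_univ _, Fin.ext rfl⟩
  have : k ≤ j := not_lt.1 hcon
  exact Nat.lt_succ_of_le this

lemma submatrix_mul_upper {n : ℕ} {l b : Matrix (Fin n) (Fin n) ℂ} (hb : IsUpper b) (j : Fin n)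
    (r : Fin (j.val + 1) → Fin n) :
    (l * b).submatrix r (ini j) = l.submatrix r (ini j) * b.submatrix (ini j) (ini j) := by
  ext p q
  rw [Matrix.submatrix_apply, Matrix.mul_apply, Matrix.mul_apply]
  simp only [Matrix.submatrix_apply]
  apply sum_ini
  intro k hk
  rw [hb k (ini j q), mul_zero]
  rw [Fin.lt_def, ini_val]
  have := q.isLt
  rw [Fin.lt_def] at hk
  omega

lemma det_low {n : ℕ} {l : Matrix (Fin n) (Fin n) ℂ} (hl : IsLowerU l) (i j : Fin n)
    (hij : j ≤ i) : (l.submatrix (rws i j) (ini j)).det = l i j := by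
  rw [Matrix.det_of_isLowerTriangular (l.submatrix (rws i j) (ini j))]
  · have hlast : (ini j (Fin.last j.val)) = j := Fin.ext rfl
    rw [Fin.prod_univ_castSucc]
    simp only [Matrix.submatrix_apply]
    have h1 : ∀ k : Fin j.val, rws i j k.castSucc = ini j k.castSucc := by
      intro k
      unfold rws
      rw [if_neg]
      have := k.isLt
      simp only [Fin.val_castSucc]
      omega
    have h2 : rws i j (Fin.last j.val) = i := by
      unfold rws
      rw [if_pos]
      rfl
    simp only [h1, h2, hl.1, Finset.prod_const_one, one_mul, hlast]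
  · intro p q hpq
    rw [Matrix.submatrix_apply]
    change p < q at hpq
    have hp : rws i j p = ini j p := by
      unfold rws
      rw [if_neg]
      have := q.isLt
      have := Fin.lt_def.1 hpq
      omega
    rw [hp]
    exact hl.2 _ _ (by rw [Fin.lt_def, ini_val, ini_val]; exact hpq)

lemma num_mul {n : ℕ} {l b : Matrix (Fin n) (Fin n) ℂ} (hl : IsLowerU l) (hb : IsUpper b)
    (i j : Fin n) (hij : j ≤ i) : num (l * b) i j = l i j * den b j := by
  rw [num, submatrix_mul_upper hb, Matrix.det_mul, det_low hl i j hij]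
  rfl

lemma den_mul {n : ℕ} {l b : Matrix (Fin n) (Fin n) ℂ} (hl : IsLowerU l) (hb : IsUpper b)
    (j : Fin n) : den (l * b) j = den b j := by
  rw [den_eq_num, num_mul hl hb j j le_rfl, hl.1, one_mul]

lemma den_upper {n : ℕ} {b : Matrix (Fin n) (Fin n) ℂ} (hb : IsUpper b) (j : Fin n) :
    den b j = ∏ k, b (ini j k) (ini j k) := by
  rw [den, Matrix.det_of_isUpperTriangular]
  · rfl
  · intro p q hpq
    exact hb _ _ (by rw [Fin.lt_def, ini_val, ini_val]; exact hpq)

lemma den_upper_ne {n : ℕ} {b : Matrix (Fin n) (Fin n) ℂ} (hb : IsUpper b) (hu : IsUnit b.det)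
    (j : Fin n) : den b j ≠ 0 := by
  rw [den_upper hb]
  have h1 : b.det = ∏ i, b i i := by
    rw [Matrix.det_of_isUpperTriangular]
    intro p q hpq
    exact hb _ _ hpq
  rw [h1] at hu
  have h2 := hu.ne_zero
  rw [Finset.prod_ne_zero_iff] at h2 ⊢
  exact fun k _ => h2 _ (Finset.mem_univ _)

/-- The formula for the lower unitriangular factor. -/
lemma low_formula {n : ℕ} {l b : Matrix (Fin n) (Fin n) ℂ} (hl : IsLowerU l) (hb : IsUpper b)
    (hu : IsUnit b.det) (i j : Fin n) (hij : j ≤ i) : l i j = num (l * b) i j / den (l * b) j := by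
  rw [num_mul hl hb i j hij, den_mul hl hb, mul_div_assoc, div_self (den_upper_ne hb hu j), mul_one]

/-- Existence of the factorisation. -/
theorem exists_lu : ∀ (n : ℕ) (M : Matrix (Fin n) (Fin n) ℂ), (∀ j, den M j ≠ 0) →
    ∃ l b : Matrix (Fin n) (Fin n) ℂ, IsLowerU l ∧ IsUpper b ∧ M = l * b := by
  intro n
  induction n with
  | zero =>
    intro M _
    exact ⟨1, 1, ⟨fun i => i.elim0, fun i => i.elim0⟩, fun i => i.elim0, by ext i; exact i.elim0⟩
  | succ n ih =>
    intro M hM
    let A : Matrix (Fin n) (Fin n) ℂ := fun i j => M i.castSucc j.castSucc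
    have hA : ∀ j, den A j ≠ 0 := by
      intro j
      have := hM j.castSucc
      exact this
    obtain ⟨l', b', hl', hb', hlb⟩ := ih A hA
    have hdetl : l'.det = 1 := by
      rw [Matrix.det_of_isLowerTriangular l']
      · simp [hl'.1]
      · intro p q hpq
        exact hl'.2 _ _ hpq
    have hdetb : IsUnit b'.det := by
      have h1 : b'.det = A.det := by rw [hlb, Matrix.det_mul, hdetl, one_mul]
      rw [h1]
      rcases Nat.eq_zero_or_pos n with h0 | h0
      · subst h0
        simp
      · obtain ⟨k, rfl⟩ : ∃ k, n = k + 1 := ⟨n - 1, by omega⟩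
        have h2 := hA (Fin.last k)
        rw [isUnit_iff_ne_zero]
        exact h2
    let R : Fin n → ℂ := fun j => ∑ k, M (Fin.last n) k.castSucc * b'⁻¹ k j
    let Cc : Fin n → ℂ := fun i => ∑ k, l'⁻¹ i k * M k.castSucc (Fin.last n)
    let l : Matrix (Fin (n + 1)) (Fin (n + 1)) ℂ := fun i j =>
      Fin.lastCases (motive := fun _ => ℂ)
        (Fin.lastCases (motive := fun _ => ℂ) 1 (fun j' => R j') j)
        (fun i' => Fin.lastCases (motive := fun _ => ℂ) 0 (fun j' => l' i' j') j) i
    let b : Matrix (Fin (n + 1)) (Fin (n + 1)) ℂ := fun i j =>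
      Fin.lastCases (motive := fun _ => ℂ)
        (Fin.lastCases (motive := fun _ => ℂ)
          (M (Fin.last n) (Fin.last n) - ∑ k, R k * Cc k) (fun _ => 0) j)
        (fun i' => Fin.lastCases (motive := fun _ => ℂ) (Cc i') (fun j' => b' i' j') j) i
    refine ⟨l, b, ⟨?_, ?_⟩, ?_, ?_⟩
    · intro i
      refine Fin.lastCases ?_ (fun i => ?_) i
      · simp [l]
      · simp [l, hl'.1]
    · intro i j hij
      revert hij
      refine Fin.lastCases ?_ (fun i => ?_) i
      · intro h
        exact absurd (Fin.le_last j) (not_le.2 h)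
      · refine Fin.lastCases ?_ (fun j => ?_) j
        · intro _
          simp [l]
        · intro h
          simp only [l, Fin.lastCases_castSucc]
          exact hl'.2 _ _ (by simpa using h)
    · intro i j hij
      revert hij
      refine Fin.lastCases ?_ (fun i => ?_) i
      · refine Fin.lastCases ?_ (fun j => ?_) j
        · intro h; exact absurd h (lt_irrefl _)
        · intro _
          simp [b]
      · refine Fin.lastCases ?_ (fun j => ?_) j
        · intro h
          exact absurd (Fin.le_last i.castSucc) (not_le.2 h)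
        · intro h
          simp only [b, Fin.lastCases_castSucc]
          exact hb' _ _ (by simpa using h)
    · ext i j
      rw [Matrix.mul_apply, Fin.sum_univ_castSucc]
      refine Fin.lastCases ?_ (fun i => ?_) i
      · refine Fin.lastCases ?_ (fun j => ?_) j
        · simp [l, b]
        · simp only [l, b, Fin.lastCases_last, Fin.lastCases_castSucc, mul_zero, add_zero]
          have h1 : (Matrix.of fun (_ : Unit) (k : Fin n) => M (Fin.last n) k.castSucc) =
              (Matrix.of fun (_ : Unit) (k : Fin n) => M (Fin.last n) k.castSucc) *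
                b'⁻¹ * b' := by
            rw [Matrix.mul_assoc, Matrix.nonsing_inv_mul _ hdetb, Matrix.mul_one]
          have h2 := congrFun (congrFun h1 ()) j
          simpa [Matrix.mul_apply, R] using h2
      · refine Fin.lastCases ?_ (fun j => ?_) j
        · simp only [l, b, Fin.lastCases_last, Fin.lastCases_castSucc, zero_mul, add_zero]
          have h1 : (Matrix.of fun (k : Fin n) (_ : Unit) => M k.castSucc (Fin.last n)) =
              l' * (l'⁻¹ *
                (Matrix.of fun (k : Fin n) (_ : Unit) => M k.castSucc (Fin.last n))) := by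
            rw [← Matrix.mul_assoc, Matrix.mul_nonsing_inv _ (by rw [hdetl]; exact isUnit_one),
              Matrix.one_mul]
          have h2 := congrFun (congrFun h1 i) ()
          simpa [Matrix.mul_apply, Cc] using h2
        · simp only [l, b, Fin.lastCases_castSucc, zero_mul, add_zero, Fin.lastCases_last]
          have h2 := congrFun (congrFun hlb i) j
          rw [Matrix.mul_apply] at h2
          exact h2

lemma isLowerU_unip {n : ℕ} (a : Low n → ℂ) : IsLowerU (unip a) := by
  refine ⟨fun i => ?_, fun i j hij => ?_⟩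
  · rw [unip, dif_neg (lt_irrefl _), if_pos rfl]
  · rw [unip, dif_neg (not_lt.2 hij.le), if_neg hij.ne]

lemma unip_apply {n : ℕ} (a : Low n → ℂ) {i j : Fin n} (h : j < i) : unip a i j = a ⟨(i, j), h⟩ := by
  rw [unip, dif_pos h]

lemma IsLowerU.eq_unip {n : ℕ} {l : Matrix (Fin n) (Fin n) ℂ} (hl : IsLowerU l) :
    unip (fun ij : Low n => l ij.1.1 ij.1.2) = l := by
  ext i j
  rcases lt_trichotomy i j with h | h | h
  · rw [(isLowerU_unip _).2 _ _ h, hl.2 _ _ h]
  · subst h
    rw [(isLowerU_unip _).1, hl.1]
  · rw [unip_apply _ h]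

lemma IsLowerU.det {n : ℕ} {l : Matrix (Fin n) (Fin n) ℂ} (hl : IsLowerU l) : l.det = 1 := by
  rw [Matrix.det_of_isLowerTriangular l]
  · simp [hl.1]
  · intro p q hpq
    exact hl.2 _ _ hpq

end

end Pool.Agent.Lib.MP_1e2f52_ag
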