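import Pool.Agent.Lib.MP_1e2f52_ag.Clos

/-!
# Linear changes of coordinates
-/

open MvPolynomial Matrix

namespace Pool.Agent.Lib.MP_1e2f52_ag

noncomputable section

variable {M : ℕ}

/-- The local isomorphism between charts. -/
def chg (κ : Type) (R : Matrix (Fin M) (Fin M) ℂ) (j : Fin M) (x : Fin M ⊕ κ → ℂ) :
    Fin M ⊕ κ → ℂ :=
  Sum.elim (((R *ᵥ (x ∘ Sum.inl)) j)⁻¹ • (R *ᵥ (x ∘ Sum.inl))) (x ∘ Sum.inr)

lemma chg_chg {κ : Type} {R R' : Matrix (Fin M) (Fin M) ℂ} (h : R' * R = 1) {i j : Fin M}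
    {x : Fin M ⊕ κ → ℂ} (hi : x (Sum.inl i) = 1) (hj : (R *ᵥ (x ∘ Sum.inl)) j ≠ 0) :
    chg κ R' i (chg κ R j x) = x := by
  have h1 : (chg κ R j x) ∘ Sum.inl = ((R *ᵥ (x ∘ Sum.inl)) j)⁻¹ • (R *ᵥ (x ∘ Sum.inl)) := by
    simp [chg]
  have h2 : (chg κ R j x) ∘ Sum.inr = x ∘ Sum.inr := by simp [chg]
  have h3 : R' *ᵥ (R *ᵥ (x ∘ Sum.inl)) = x ∘ Sum.inl := by
    rw [Matrix.mulVec_mulVec, h, Matrix.one_mulVec]
  rw [chg, h1, h2, Matrix.mulVec_smul, h3]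
  have h4 : (((R *ᵥ (x ∘ Sum.inl)) j)⁻¹ • (x ∘ Sum.inl)) i = ((R *ᵥ (x ∘ Sum.inl)) j)⁻¹ := by
    simp [hi]
  rw [h4, inv_inv, smul_smul, mul_inv_cancel₀ hj, one_smul]
  funext s
  rcases s with s | s <;> rfl

lemma chg_mem {κ : Type} {R : Matrix (Fin M) (Fin M) ℂ} {K K' : Set (Fin M → ℂ)}
    (hK : ∀ z ∈ K, R *ᵥ z ∈ K') (hcone : ∀ z ∈ K', ∀ c : ℂ, c • z ∈ K')
    {i j : Fin M} {x : Fin M ⊕ κ → ℂ} (hx : x ∈ cyl {z | z ∈ K ∧ z i = 1} κ)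
    (hj : (R *ᵥ (x ∘ Sum.inl)) j ≠ 0) : chg κ R j x ∈ cyl {z | z ∈ K' ∧ z j = 1} κ := by
  change (fun s => chg κ R j x (Sum.inl s)) ∈ {z | z ∈ K' ∧ z j = 1}
  have h1 : (fun s => chg κ R j x (Sum.inl s)) =
      ((R *ᵥ (x ∘ Sum.inl)) j)⁻¹ • (R *ᵥ (x ∘ Sum.inl)) := by
    funext s
    simp [chg]
  rw [h1]
  refine ⟨hcone _ (hK _ hx.1) _, ?_⟩
  simp [hj]

lemma reg_mulVec {κ : Type} {R : Matrix (Fin M) (Fin M) ℂ} {V : Set (Fin M ⊕ κ → ℂ)}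
    {a : Fin M ⊕ κ → ℂ} (s : Fin M) :
    IsRegAt V a (fun x => (R *ᵥ (x ∘ Sum.inl)) s) := by
  simp only [Matrix.mulVec, dotProduct, Function.comp_apply]
  refine IsRegAt.sum _ fun u _ => ?_
  exact (IsRegAt.const _).mul (IsRegAt.coord _)

lemma reg_chg {κ : Type} {R : Matrix (Fin M) (Fin M) ℂ} {V : Set (Fin M ⊕ κ → ℂ)}
    {a : Fin M ⊕ κ → ℂ} (ha : a ∈ V) {j : Fin M} (hj : (R *ᵥ (a ∘ Sum.inl)) j ≠ 0)
    (s : Fin M ⊕ κ) : IsRegAt V a (fun x => chg κ R j x s) := by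
  rcases s with s | s
  · simp only [chg, Sum.elim_inl, Pi.smul_apply, smul_eq_mul]
    exact ((reg_mulVec j).inv ha hj).mul (reg_mulVec s)
  · simp only [chg, Sum.elim_inr, Function.comp_apply]
    exact IsRegAt.coord _

/-- Local rings of a cone over a projective variety in two coordinate systems. -/
theorem germ_lin {κ : Type} {R R' : Matrix (Fin M) (Fin M) ℂ} (h : R' * R = 1) (h' : R * R' = 1)
    {K K' : Set (Fin M → ℂ)} (hK : ∀ z ∈ K, R *ᵥ z ∈ K') (hK' : ∀ z ∈ K', R' *ᵥ z ∈ K)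
    (hcone : ∀ z ∈ K, ∀ c : ℂ, c • z ∈ K) (hcone' : ∀ z ∈ K', ∀ c : ℂ, c • z ∈ K')
    {i j : Fin M} {z : Fin M → ℂ} (hz : z ∈ K) (hzi : z i = 1) (hj : (R *ᵥ z) j ≠ 0) :
    Nonempty (Germ (cyl {z | z ∈ K ∧ z i = 1} κ) (Sum.elim z 0) ≃+*
      Germ (cyl {z | z ∈ K' ∧ z j = 1} κ) (Sum.elim (((R *ᵥ z) j)⁻¹ • (R *ᵥ z)) 0)) := by
  set a : Fin M ⊕ κ → ℂ := Sum.elim z 0 with ha
  have hal : a ∘ Sum.inl = z := by simp [ha]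
  have haV : a ∈ cyl {z | z ∈ K ∧ z i = 1} κ := by
    change (fun s => a (Sum.inl s)) ∈ {z | z ∈ K ∧ z i = 1}
    exact ⟨hz, hzi⟩
  have hja : (R *ᵥ (a ∘ Sum.inl)) j ≠ 0 := by rw [hal]; exact hj
  have hb : chg κ R j a = Sum.elim (((R *ᵥ z) j)⁻¹ • (R *ᵥ z)) 0 := by
    rw [chg, hal]
    rfl
  rw [← hb]
  have hbW : chg κ R j a ∈ cyl {z | z ∈ K' ∧ z j = 1} κ := chg_mem hK hcone' haV hja
  have hib : (R' *ᵥ (chg κ R j a ∘ Sum.inl)) i ≠ 0 := by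
    have h1 : (chg κ R j a) ∘ Sum.inl = ((R *ᵥ z) j)⁻¹ • (R *ᵥ z) := by rw [hb]; rfl
    rw [h1, Matrix.mulVec_smul, Matrix.mulVec_mulVec, h, Matrix.one_mulVec, Pi.smul_apply, hzi]
    simpa using hj
  refine LocData.equiv (φ := chg κ R j) (ψ := chg κ R' i) ⟨haV, hbW, reg_chg haV hja,
    reg_chg hbW hib, rfl, chg_chg h hzi hja, ?_, ?_⟩
  · refine ((reg_mulVec (R := R) j).near_ne haV hja).mono fun x hx hxj => ?_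
    exact ⟨chg_mem hK hcone' hx hxj, chg_chg h hx.2 hxj⟩
  · refine ((reg_mulVec (R := R') i).near_ne hbW hib).mono fun x hx hxj => ?_
    exact ⟨chg_mem hK' hcone hx hxj, chg_chg h' hx.2 hxj⟩

end

end Pool.Agent.Lib.MP_1e2f52_ag
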