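import Pool.Agent.Lib.MP_1e2f52_ag.Germ

/-!
# Local rings of embedded varieties: regular functions and local isomorphisms
-/

open MvPolynomial

namespace Pool.Agent.Lib.MP_1e2f52_ag

noncomputable section

variable {σ τ ρ : Type}

/-- A property holds on `V` near `a`. -/
def Near (V : Set (σ → ℂ)) (a : σ → ℂ) (P : (σ → ℂ) → Prop) : Prop :=
  ∃ Q : MvPolynomial σ ℂ, eval a Q ≠ 0 ∧ ∀ x ∈ V, eval x Q ≠ 0 → P x

lemma Near.mono {V : Set (σ → ℂ)} {a : σ → ℂ} {P P' : (σ → ℂ) → Prop} (h : Near V a P)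
    (h' : ∀ x ∈ V, P x → P' x) : Near V a P' := by
  obtain ⟨Q, hQ, hQ'⟩ := h
  exact ⟨Q, hQ, fun x hx hxQ => h' x hx (hQ' x hx hxQ)⟩

lemma Near.and {V : Set (σ → ℂ)} {a : σ → ℂ} {P P' : (σ → ℂ) → Prop} (h : Near V a P)
    (h' : Near V a P') : Near V a (fun x => P x ∧ P' x) := by
  obtain ⟨Q, hQ, hQ'⟩ := h
  obtain ⟨R, hR, hR'⟩ := h'
  refine ⟨Q * R, by rw [map_mul]; exact mul_ne_zero hQ hR, fun x hx hxQ => ?_⟩
  rw [map_mul] at hxQ
  exact ⟨hQ' x hx (left_ne_zero_of_mul hxQ), hR' x hx (right_ne_zero_of_mul hxQ)⟩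

lemma Near.of_forall {V : Set (σ → ℂ)} {a : σ → ℂ} {P : (σ → ℂ) → Prop} (h : ∀ x ∈ V, P x) :
    Near V a P := ⟨1, by simp, fun x hx _ => h x hx⟩

lemma Near.self {V : Set (σ → ℂ)} {a : σ → ℂ} {P : (σ → ℂ) → Prop} (h : Near V a P)
    (ha : a ∈ V) : P a := by
  obtain ⟨Q, hQ, hQ'⟩ := h
  exact hQ' a ha hQ

lemma Near.all {ι : Type} [Finite ι] {V : Set (σ → ℂ)} {a : σ → ℂ}
    {P : ι → (σ → ℂ) → Prop} (h : ∀ i, Near V a (P i)) : Near V a (fun x => ∀ i, P i x) := by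
  classical
  have := Fintype.ofFinite ι
  choose Q hQ hQ' using h
  refine ⟨∏ i, Q i, ?_, fun x hx hxQ i => ?_⟩
  · rw [map_prod]
    exact Finset.prod_ne_zero_iff.2 fun i _ => hQ i
  · rw [map_prod] at hxQ
    exact hQ' i x hx (Finset.prod_ne_zero_iff.1 hxQ i (Finset.mem_univ i))

/-- The function `f` is regular on `V` at the point `a`. -/
def IsRegAt (V : Set (σ → ℂ)) (a : σ → ℂ) (f : (σ → ℂ) → ℂ) : Prop :=
  ∃ P Q : MvPolynomial σ ℂ, eval a Q ≠ 0 ∧ ∀ x ∈ V, eval x Q ≠ 0 → f x * eval x Q = eval x P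

section reg

variable {V : Set (σ → ℂ)} {a : σ → ℂ} {f g : (σ → ℂ) → ℂ}

lemma IsRegAt.poly (p : MvPolynomial σ ℂ) : IsRegAt V a (fun x => eval x p) :=
  ⟨p, 1, by simp, fun x _ _ => by simp⟩

lemma IsRegAt.const (c : ℂ) : IsRegAt V a (fun _ => c) :=
  ⟨C c, 1, by simp, fun x _ _ => by simp⟩

lemma IsRegAt.coord (i : σ) : IsRegAt V a (fun x => x i) :=
  ⟨X i, 1, by simp, fun x _ _ => by simp⟩

lemma IsRegAt.add (hf : IsRegAt V a f) (hg : IsRegAt V a g) : IsRegAt V a (fun x => f x + g x) := by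
  obtain ⟨P, Q, hQ, h⟩ := hf
  obtain ⟨P', Q', hQ', h'⟩ := hg
  refine ⟨P * Q' + P' * Q, Q * Q', by rw [map_mul]; exact mul_ne_zero hQ hQ', fun x hx hx' => ?_⟩
  rw [map_mul] at hx'
  have h1 := h x hx (left_ne_zero_of_mul hx')
  have h2 := h' x hx (right_ne_zero_of_mul hx')
  rw [map_mul, map_add, map_mul, map_mul, ← h1, ← h2]
  ring

lemma IsRegAt.mul (hf : IsRegAt V a f) (hg : IsRegAt V a g) : IsRegAt V a (fun x => f x * g x) := by
  obtain ⟨P, Q, hQ, h⟩ := hf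
  obtain ⟨P', Q', hQ', h'⟩ := hg
  refine ⟨P * P', Q * Q', by rw [map_mul]; exact mul_ne_zero hQ hQ', fun x hx hx' => ?_⟩
  rw [map_mul] at hx'
  have h1 := h x hx (left_ne_zero_of_mul hx')
  have h2 := h' x hx (right_ne_zero_of_mul hx')
  rw [map_mul, map_mul, ← h1, ← h2]
  ring

lemma IsRegAt.congr (hf : IsRegAt V a f) (h : Near V a (fun x => f x = g x)) :
    IsRegAt V a g := by
  obtain ⟨P, Q, hQ, h1⟩ := hf
  obtain ⟨R, hR, h2⟩ := h
  refine ⟨P * R, Q * R, by rw [map_mul]; exact mul_ne_zero hQ hR, fun x hx hx' => ?_⟩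
  rw [map_mul] at hx'
  rw [map_mul, map_mul, ← h1 x hx (left_ne_zero_of_mul hx'), h2 x hx (right_ne_zero_of_mul hx')]
  ring

lemma IsRegAt.neg (hf : IsRegAt V a f) : IsRegAt V a (fun x => - f x) := by
  refine ((IsRegAt.const (-1)).mul hf).congr (Near.of_forall fun x _ => ?_)
  ring

lemma IsRegAt.sub (hf : IsRegAt V a f) (hg : IsRegAt V a g) : IsRegAt V a (fun x => f x - g x) := by
  refine (hf.add hg.neg).congr (Near.of_forall fun x _ => ?_)
  ring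

lemma IsRegAt.sum {ι : Type} (s : Finset ι) {F : ι → (σ → ℂ) → ℂ}
    (h : ∀ i ∈ s, IsRegAt V a (F i)) : IsRegAt V a (fun x => ∑ i ∈ s, F i x) := by
  classical
  induction s using Finset.induction_on with
  | empty => simpa using IsRegAt.const 0
  | insert i s hi ih =>
    simp only [Finset.sum_insert hi]
    exact (h i (Finset.mem_insert_self _ _)).add
      (ih fun j hj => h j (Finset.mem_insert_of_mem hj))

lemma IsRegAt.prod {ι : Type} (s : Finset ι) {F : ι → (σ → ℂ) → ℂ}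
    (h : ∀ i ∈ s, IsRegAt V a (F i)) : IsRegAt V a (fun x => ∏ i ∈ s, F i x) := by
  classical
  induction s using Finset.induction_on with
  | empty => simpa using IsRegAt.const 1
  | insert i s hi ih =>
    simp only [Finset.prod_insert hi]
    exact (h i (Finset.mem_insert_self _ _)).mul
      (ih fun j hj => h j (Finset.mem_insert_of_mem hj))

lemma IsRegAt.near_ne (hf : IsRegAt V a f) (ha : a ∈ V) (h0 : f a ≠ 0) :
    Near V a (fun x => f x ≠ 0) := by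
  obtain ⟨P, Q, hQ, h⟩ := hf
  have hP : eval a P ≠ 0 := by
    rw [← h a ha hQ]; exact mul_ne_zero h0 hQ
  refine ⟨P * Q, by rw [map_mul]; exact mul_ne_zero hP hQ, fun x hx hx' h1 => ?_⟩
  rw [map_mul] at hx'
  have h2 := h x hx (right_ne_zero_of_mul hx')
  rw [h1, zero_mul] at h2
  exact left_ne_zero_of_mul hx' h2.symm

lemma IsRegAt.inv (hf : IsRegAt V a f) (ha : a ∈ V) (h0 : f a ≠ 0) :
    IsRegAt V a (fun x => (f x)⁻¹) := by
  obtain ⟨R, hR, hR'⟩ := hf.near_ne ha h0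
  obtain ⟨P, Q, hQ, h⟩ := hf
  have hP : eval a P ≠ 0 := by
    rw [← h a ha hQ]; exact mul_ne_zero h0 hQ
  refine ⟨Q * Q * R, P * Q * R, ?_, fun x hx hx' => ?_⟩
  · rw [map_mul, map_mul]; exact mul_ne_zero (mul_ne_zero hP hQ) hR
  · rw [map_mul, map_mul] at hx'
    have hxR := right_ne_zero_of_mul hx'
    have hxQ := right_ne_zero_of_mul (left_ne_zero_of_mul hx')
    have h1 := hR' x hx hxR
    have h2 := h x hx hxQ
    simp only [map_mul, ← h2]
    field_simp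

lemma IsRegAt.div (hf : IsRegAt V a f) (hg : IsRegAt V a g) (ha : a ∈ V) (h0 : g a ≠ 0) :
    IsRegAt V a (fun x => f x / g x) := by
  simp only [div_eq_mul_inv]
  exact hf.mul (hg.inv ha h0)

lemma IsRegAt.evalComp {φ : (σ → ℂ) → τ → ℂ} (hφ : ∀ t, IsRegAt V a (fun x => φ x t))
    (p : MvPolynomial τ ℂ) : IsRegAt V a (fun x => eval (φ x) p) := by
  induction p using MvPolynomial.induction_on with
  | C c => simpa using IsRegAt.const c
  | add p q hp hq =>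
    simp only [map_add]
    exact hp.add hq
  | mul_X p i hp =>
    simp only [map_mul, eval_X]
    exact hp.mul (hφ i)

lemma IsRegAt.comp {W : Set (τ → ℂ)} {φ : (σ → ℂ) → τ → ℂ}
    (hφ : ∀ t, IsRegAt V a (fun x => φ x t)) (ha : a ∈ V) (hW : Near V a (fun x => φ x ∈ W))
    {f : (τ → ℂ) → ℂ} (hf : IsRegAt W (φ a) f) : IsRegAt V a (fun x => f (φ x)) := by
  obtain ⟨P, Q, hQ, h⟩ := hf
  have h1 : IsRegAt V a (fun x => eval (φ x) Q) := IsRegAt.evalComp hφ Q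
  have h2 : IsRegAt V a (fun x => eval (φ x) P) := IsRegAt.evalComp hφ P
  refine (h2.div h1 ha hQ).congr ?_
  refine (hW.and (h1.near_ne ha hQ)).mono fun x _ hx => ?_
  rw [div_eq_iff hx.2]
  exact (h _ hx.1 hx.2).symm

end reg

/-- The element `r` of the local ring is represented by the function `f`. -/
def Rep (V : Set (σ → ℂ)) (a : σ → ℂ) (r : Germ V a) (f : (σ → ℂ) → ℂ) : Prop :=
  ∃ P Q : MvPolynomial σ ℂ, eval a Q ≠ 0 ∧ r * toGerm V a Q = toGerm V a P ∧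
    ∀ x ∈ V, eval x Q ≠ 0 → f x * eval x Q = eval x P

section rep

variable {V : Set (σ → ℂ)} {a : σ → ℂ} {f g : (σ → ℂ) → ℂ} {r s : Germ V a}

lemma Rep.reg (h : Rep V a r f) : IsRegAt V a f := by
  obtain ⟨P, Q, hQ, _, h⟩ := h
  exact ⟨P, Q, hQ, h⟩

lemma Rep.unique (h : Rep V a r f) (h' : Rep V a s f) : r = s := by
  obtain ⟨P, Q, hQ, h1, h2⟩ := h
  obtain ⟨P', Q', hQ', h1', h2'⟩ := h'
  have h3 : toGerm V a (P * Q' - P' * Q) = 0 := by
    refine toGerm_eq_zero_iff.2 ⟨Q * Q', by rw [map_mul]; exact mul_ne_zero hQ hQ',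
      fun x hx => ?_⟩
    rw [map_mul, map_sub, map_mul, map_mul]
    by_cases hq : eval x Q = 0
    · rw [hq]; ring
    by_cases hq' : eval x Q' = 0
    · rw [hq']; ring
    rw [← h2 x hx hq, ← h2' x hx hq']
    ring
  rw [map_sub, map_mul, map_mul, ← h1, ← h1', sub_eq_zero] at h3
  have hu : IsUnit (toGerm V a Q * toGerm V a Q') := (toGerm_isUnit hQ).mul (toGerm_isUnit hQ')
  apply hu.mul_right_cancel
  linear_combination h3

lemma exists_rep (r : Germ V a) : ∃ f, Rep V a r f := by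
  obtain ⟨p, s, hs, h⟩ := toGerm_surj_mul r
  refine ⟨fun x => eval x p / eval x s, p, s, hs, h, fun x _ hx => ?_⟩
  rw [div_mul_cancel₀ _ hx]

lemma IsRegAt.exists_germ (h : IsRegAt V a f) : ∃ r, Rep V a r f := by
  obtain ⟨P, Q, hQ, h⟩ := h
  obtain ⟨u, hu⟩ := toGerm_isUnit (V := V) hQ
  refine ⟨toGerm V a P * (↑u⁻¹ : Germ V a), P, Q, hQ, ?_, h⟩
  rw [← hu, mul_assoc, Units.inv_mul, mul_one]

lemma Rep.congr (h : Rep V a r f) (h' : Near V a (fun x => f x = g x)) : Rep V a r g := by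
  obtain ⟨P, Q, hQ, h1, h2⟩ := h
  obtain ⟨R, hR, h3⟩ := h'
  refine ⟨P * R, Q * R, by rw [map_mul]; exact mul_ne_zero hQ hR, ?_, fun x hx hx' => ?_⟩
  · rw [map_mul, map_mul, ← mul_assoc, h1]
  · rw [map_mul] at hx'
    rw [map_mul, map_mul, ← h2 x hx (left_ne_zero_of_mul hx'), h3 x hx (right_ne_zero_of_mul hx')]
    ring

lemma Rep.add (h : Rep V a r f) (h' : Rep V a s g) : Rep V a (r + s) (fun x => f x + g x) := by
  obtain ⟨P, Q, hQ, h1, h2⟩ := h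
  obtain ⟨P', Q', hQ', h1', h2'⟩ := h'
  refine ⟨P * Q' + P' * Q, Q * Q', by rw [map_mul]; exact mul_ne_zero hQ hQ', ?_,
    fun x hx hx' => ?_⟩
  · rw [map_mul, map_add, map_mul, map_mul, ← h1, ← h1']; ring
  · rw [map_mul] at hx'
    rw [map_mul, map_add, map_mul, map_mul, ← h2 x hx (left_ne_zero_of_mul hx'),
      ← h2' x hx (right_ne_zero_of_mul hx')]
    ring

lemma Rep.mul (h : Rep V a r f) (h' : Rep V a s g) : Rep V a (r * s) (fun x => f x * g x) := by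
  obtain ⟨P, Q, hQ, h1, h2⟩ := h
  obtain ⟨P', Q', hQ', h1', h2'⟩ := h'
  refine ⟨P * P', Q * Q', by rw [map_mul]; exact mul_ne_zero hQ hQ', ?_,
    fun x hx hx' => ?_⟩
  · rw [map_mul, map_mul, ← h1, ← h1']; ring
  · rw [map_mul] at hx'
    rw [map_mul, map_mul, ← h2 x hx (left_ne_zero_of_mul hx'),
      ← h2' x hx (right_ne_zero_of_mul hx')]
    ring

lemma Rep.one : Rep V a (1 : Germ V a) (fun _ => 1) :=
  ⟨1, 1, by simp, by simp, fun x _ _ => by simp⟩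

lemma Rep.zero : Rep V a (0 : Germ V a) (fun _ => 0) :=
  ⟨0, 1, by simp, by simp, fun x _ _ => by simp⟩

lemma Rep.neg (h : Rep V a r f) : Rep V a (-r) (fun x => - f x) := by
  obtain ⟨P, Q, hQ, h1, h2⟩ := h
  refine ⟨-P, Q, hQ, by rw [map_neg, ← h1]; ring, fun x hx hx' => ?_⟩
  rw [map_neg, ← h2 x hx hx']
  ring

lemma Rep.near_zero (h : Rep V a (0 : Germ V a) f) : Near V a (fun x => f x = 0) := by
  obtain ⟨P, Q, hQ, h1, h2⟩ := h
  rw [zero_mul] at h1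
  obtain ⟨s, hs, h3⟩ := toGerm_eq_zero_iff.1 h1.symm
  refine ⟨Q * s, by rw [map_mul]; exact mul_ne_zero hQ hs, fun x hx hx' => ?_⟩
  rw [map_mul] at hx'
  have h4 := h2 x hx (left_ne_zero_of_mul hx')
  have h5 := h3 x hx
  rw [← h4] at h5
  have h6 := left_ne_zero_of_mul hx'
  have h7 := right_ne_zero_of_mul hx'
  simpa [h6, h7] using h5

lemma Rep.near_eq (h : Rep V a r f) (h' : Rep V a r g) : Near V a (fun x => f x = g x) := by
  have h1 := h.add h'.neg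
  rw [add_neg_cancel] at h1
  exact h1.near_zero.mono fun x _ hx => by linear_combination hx

end rep

/-- Data of a local isomorphism between `V` near `a` and `W` near `b`. -/
structure LocData (V : Set (σ → ℂ)) (a : σ → ℂ) (W : Set (τ → ℂ)) (b : τ → ℂ)
    (φ : (σ → ℂ) → (τ → ℂ)) (ψ : (τ → ℂ) → (σ → ℂ)) : Prop where
  mem : a ∈ V
  mem' : b ∈ W
  regφ : ∀ t, IsRegAt V a (fun x => φ x t)
  regψ : ∀ s, IsRegAt W b (fun y => ψ y s)
  pt : φ a = b
  pt' : ψ b = a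
  near : Near V a (fun x => φ x ∈ W ∧ ψ (φ x) = x)
  near' : Near W b (fun y => ψ y ∈ V ∧ φ (ψ y) = y)

lemma LocData.symm {V : Set (σ → ℂ)} {a : σ → ℂ} {W : Set (τ → ℂ)} {b : τ → ℂ}
    {φ : (σ → ℂ) → (τ → ℂ)} {ψ : (τ → ℂ) → (σ → ℂ)} (h : LocData V a W b φ ψ) :
    LocData W b V a ψ φ :=
  ⟨h.mem', h.mem, h.regψ, h.regφ, h.pt', h.pt, h.near', h.near⟩

/-- Pull back functions. -/
lemma LocData.comp_reg {V : Set (σ → ℂ)} {a : σ → ℂ} {W : Set (τ → ℂ)} {b : τ → ℂ}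
    {φ : (σ → ℂ) → (τ → ℂ)} {ψ : (τ → ℂ) → (σ → ℂ)} (h : LocData V a W b φ ψ)
    {f : (τ → ℂ) → ℂ} (hf : IsRegAt W b f) : IsRegAt V a (fun x => f (φ x)) :=
  IsRegAt.comp h.regφ h.mem (h.near.mono fun _ _ hx => hx.1) (by rw [h.pt]; exact hf)

lemma LocData.near_comp {V : Set (σ → ℂ)} {a : σ → ℂ} {W : Set (τ → ℂ)} {b : τ → ℂ}
    {φ : (σ → ℂ) → (τ → ℂ)} {ψ : (τ → ℂ) → (σ → ℂ)} (h : LocData V a W b φ ψ)
    {P : (τ → ℂ) → Prop} (hP : Near W b P) : Near V a (fun x => P (φ x)) := by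
  obtain ⟨Q, hQ, hQ'⟩ := hP
  have h1 : IsRegAt V a (fun x => eval (φ x) Q) := IsRegAt.evalComp h.regφ Q
  refine (h.near.and (h1.near_ne h.mem (by rw [h.pt]; exact hQ))).mono fun x _ hx => ?_
  exact hQ' _ hx.1.1 hx.2

/-- The function of a local isomorphism on local rings. -/
def LocData.fn {V : Set (σ → ℂ)} {a : σ → ℂ} {W : Set (τ → ℂ)} {b : τ → ℂ}
    {φ : (σ → ℂ) → (τ → ℂ)} {ψ : (τ → ℂ) → (σ → ℂ)} (h : LocData V a W b φ ψ)
    (r : Germ W b) : Germ V a :=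
  (h.comp_reg (exists_rep r).choose_spec.reg).exists_germ.choose

lemma LocData.fn_rep {V : Set (σ → ℂ)} {a : σ → ℂ} {W : Set (τ → ℂ)} {b : τ → ℂ}
    {φ : (σ → ℂ) → (τ → ℂ)} {ψ : (τ → ℂ) → (σ → ℂ)} (h : LocData V a W b φ ψ)
    {r : Germ W b} {f : (τ → ℂ) → ℂ} (hf : Rep W b r f) : Rep V a (h.fn r) (fun x => f (φ x)) := by
  have h1 : Rep V a (h.fn r) (fun x => (exists_rep r).choose (φ x)) :=
    (h.comp_reg (exists_rep r).choose_spec.reg).exists_germ.choose_spec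
  exact h1.congr (h.near_comp ((exists_rep r).choose_spec.near_eq hf))

lemma LocData.fn_fn {V : Set (σ → ℂ)} {a : σ → ℂ} {W : Set (τ → ℂ)} {b : τ → ℂ}
    {φ : (σ → ℂ) → (τ → ℂ)} {ψ : (τ → ℂ) → (σ → ℂ)} (h : LocData V a W b φ ψ)
    (r : Germ W b) : h.symm.fn (h.fn r) = r := by
  obtain ⟨f, hf⟩ := exists_rep r
  have h1 := h.symm.fn_rep (h.fn_rep hf)
  refine h1.unique (hf.congr ?_)
  exact h.near'.mono fun y _ hy => by rw [hy.2]

/-- A local isomorphism induces an isomorphism of local rings. -/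
theorem LocData.equiv {V : Set (σ → ℂ)} {a : σ → ℂ} {W : Set (τ → ℂ)} {b : τ → ℂ}
    {φ : (σ → ℂ) → (τ → ℂ)} {ψ : (τ → ℂ) → (σ → ℂ)} (h : LocData V a W b φ ψ) :
    Nonempty (Germ V a ≃+* Germ W b) := by
  refine ⟨{ toFun := h.symm.fn, invFun := h.fn, left_inv := ?_, right_inv := ?_,
            map_mul' := ?_, map_add' := ?_ }⟩
  · intro r
    exact h.symm.fn_fn r
  · intro r
    exact h.fn_fn r
  · intro r s
    obtain ⟨f, hf⟩ := exists_rep r
    obtain ⟨g, hg⟩ := exists_rep s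
    exact (h.symm.fn_rep (hf.mul hg)).unique ((h.symm.fn_rep hf).mul (h.symm.fn_rep hg))
  · intro r s
    obtain ⟨f, hf⟩ := exists_rep r
    obtain ⟨g, hg⟩ := exists_rep s
    exact (h.symm.fn_rep (hf.add hg)).unique ((h.symm.fn_rep hf).add (h.symm.fn_rep hg))

end

end Pool.Agent.Lib.MP_1e2f52_ag
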