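import Pool.Agent.Lib.MP_1e2f52_ag.Fam

/-!
# The local structure of the closure of the cell
-/

open MvPolynomial Matrix

namespace Pool.Agent.Lib.MP_1e2f52_ag

noncomputable section

/-- The lower unitriangular factor. -/
def low {n : ℕ} (M : Matrix (Fin n) (Fin n) ℂ) : Low n → ℂ :=
  fun ij => num M ij.1.1 ij.1.2 / den M ij.1.2

lemma low_mul {n : ℕ} {l b : Matrix (Fin n) (Fin n) ℂ} (hl : IsLowerU l) (hb : IsUpper b)
    (hu : IsUnit b.det) : low (l * b) = fun ij => l ij.1.1 ij.1.2 := by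
  funext ij
  exact (low_formula hl hb hu ij.1.1 ij.1.2 (le_of_lt ij.2)).symm

lemma low_unip_mul {n : ℕ} (a : Low n → ℂ) {b : Matrix (Fin n) (Fin n) ℂ} (hb : IsUpper b)
    (hu : IsUnit b.det) : low (unip a * b) = a := by
  rw [low_mul (isLowerU_unip a) hb hu]
  funext ij
  exact unip_apply a ij.2

lemma lu_low {n : ℕ} {M : Matrix (Fin n) (Fin n) ℂ} (hM : ∀ j, den M j ≠ 0) (hu : IsUnit M.det) :
    ∃ b : Matrix (Fin n) (Fin n) ℂ, IsUpper b ∧ IsUnit b.det ∧ M = unip (low M) * b := by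
  obtain ⟨l, b, hl, hb, rfl⟩ := exists_lu _ M hM
  have hbu : IsUnit b.det := by
    rwa [Matrix.det_mul, hl.det, one_mul] at hu
  refine ⟨b, hb, hbu, ?_⟩
  rw [low_mul hl hb hbu, hl.eq_unip]

lemma PolyFn.compReg {σ τ : Type} {V : Set (σ → ℂ)} {a : σ → ℂ} {φ : (σ → ℂ) → τ → ℂ}
    (hφ : ∀ t, IsRegAt V a (fun x => φ x t)) {f : (τ → ℂ) → ℂ} (hf : PolyFn f) :
    IsRegAt V a (fun x => f (φ x)) := by
  obtain ⟨p, hp⟩ := hf
  have := IsRegAt.evalComp hφ p
  simpa only [hp] using this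

lemma polyMat_unip {n : ℕ} : PolyMat (fun a : Low n → ℂ => unip a) := by
  intro i j
  by_cases h : j < i
  · simp only [unip, dif_pos h]
    exact PolyFn.coord _
  · simp only [unip, dif_neg h]
    exact PolyFn.const _

lemma PolyMat.compReg {σ τ : Type} {V : Set (σ → ℂ)} {a : σ → ℂ} {φ : (σ → ℂ) → τ → ℂ}
    (hφ : ∀ t, IsRegAt V a (fun x => φ x t)) {m n : Type} {F : (τ → ℂ) → Matrix m n ℂ}
    (hF : PolyMat F) : RegMat V a (fun x => F (φ x)) :=
  fun i j => PolyFn.compReg hφ (hF i j)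

lemma den_one {n : ℕ} (j : Fin n) : den (1 : Matrix (Fin n) (Fin n) ℂ) j ≠ 0 :=
  den_upper_ne isUpper_one (by simp) j

lemma den_unip {n : ℕ} (a : Low n → ℂ) (j : Fin n) : den (unip a) j ≠ 0 := by
  have h := den_mul (isLowerU_unip a) (isUpper_one (n := n)) j
  rw [Matrix.mul_one] at h
  rw [h]
  exact den_one j

namespace FData

variable (D : FData)

/-- The fibre coordinates. -/
abbrev LB : Type := {ij : Low D.n // D.be ij.1.1 = D.be ij.1.2}

/-- The dimension of the fibre. -/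
def kk : ℕ := Fintype.card D.LB

/-- The enumeration of the fibre coordinates. -/
def eL : D.LB ≃ Fin D.kk := Fintype.equivFin _

/-- Extension by zero of the fibre coordinates. -/
def lfr (l : Fin D.kk → ℂ) : Low D.n → ℂ :=
  fun ij => if h : D.be ij.1.1 = D.be ij.1.2 then l (D.eL ⟨ij, h⟩) else 0

lemma lfr_bt (l : Fin D.kk → ℂ) : BlockTriangular (unip (D.lfr l)) D.be := by
  intro i j hij
  have h1 : j < i := by
    by_contra hcon
    exact absurd (D.be_mono (not_lt.1 hcon)) (not_le.2 hij)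
  rw [unip_apply _ h1, lfr, dif_neg (ne_of_gt hij)]

/-- The point of the variety below a point of the chart. -/
def zf (g : Matrix (Fin D.n) (Fin D.n) ℂ) (c : Fin D.n) (i : Fin (D.m + 2))
    (a : Low D.n → ℂ) : Fin (D.m + 2) → ℂ :=
  fun j => D.tv (g * unip a) c (D.e (Sum.inr j)) / D.tv (g * unip a) c (D.e (Sum.inr i))

/-- The element of the parabolic subgroup attached to a point of the chart. -/
def Pf (g : Matrix (Fin D.n) (Fin D.n) ℂ) (h : Matrix (Fin D.N) (Fin D.N) ℂ)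
    (p : Matrix (Fin D.n) (Fin D.n) ℂ) (c : Fin D.n) (i : Fin (D.m + 2)) (a : Low D.n → ℂ) :
    Matrix (Fin D.n) (Fin D.n) ℂ :=
  p⁻¹ * (permMat D.w)⁻¹ * (D.th (D.Hf h (D.zf g c i a)))⁻¹ * (g * unip a)

/-- The matrix attached to a point of the variety and fibre coordinates. -/
def Mf (g : Matrix (Fin D.n) (Fin D.n) ℂ) (h : Matrix (Fin D.N) (Fin D.N) ℂ)
    (p : Matrix (Fin D.n) (Fin D.n) ℂ) (z : Fin (D.m + 2) → ℂ) (l : Fin D.kk → ℂ) :
    Matrix (Fin D.n) (Fin D.n) ℂ :=
  g⁻¹ * (D.th (D.Hf h z) * permMat D.w * p * unip (D.lfr l))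

lemma poly_zf (g : Matrix (Fin D.n) (Fin D.n) ℂ) (c : Fin D.n) (i : Fin D.N) :
    PolyFn (fun a : Low D.n → ℂ => D.tv (g * unip a) c i) :=
  D.poly_tv ((PolyMat.const g).mul polyMat_unip) c i

lemma poly_Mf (g p : Matrix (Fin D.n) (Fin D.n) ℂ) (h : Matrix (Fin D.N) (Fin D.N) ℂ) :
    PolyMat (fun y : Fin (D.m + 2) ⊕ Fin D.kk → ℂ =>
      D.Mf g h p (fun j => y (Sum.inl j)) (fun t => y (Sum.inr t))) := by
  have h1 : PolyMat (fun y : Fin (D.m + 2) ⊕ Fin D.kk → ℂ =>
      D.th (D.Hf h (fun j => y (Sum.inl j)))) := by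
    apply D.poly_th
    intro i j
    obtain ⟨q, hq⟩ := D.poly_Hf h i j
    refine ⟨rename Sum.inl q, fun y => ?_⟩
    rw [eval_rename]
    exact hq _
  have h2 : PolyMat (fun y : Fin (D.m + 2) ⊕ Fin D.kk → ℂ =>
      unip (D.lfr (fun t => y (Sum.inr t)))) := by
    intro i j
    by_cases h : j < i
    · simp only [unip, dif_pos h, lfr]
      split_ifs
      · exact PolyFn.coord _
      · exact PolyFn.const _
    · simp only [unip, dif_neg h]
      exact PolyFn.const _
  exact (PolyMat.const g⁻¹).mul (((h1.mul (PolyMat.const _)).mul (PolyMat.const p)).mul h2)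

variable {D}

/-- The local structure of the closure. -/
theorem loc {g : Matrix (Fin D.n) (Fin D.n) ℂ} (hg : IsUnit g.det) {a1 : Low D.n → ℂ}
    {z1 : Fin (D.m + 2) → ℂ} (hz1 : z1 ∈ D.K) {i : Fin (D.m + 2)} (hi : z1 i = 1)
    {h : Matrix (Fin D.N) (Fin D.N) ℂ} (hh : IsUnit h.det)
    (h1 : h *ᵥ Pi.single D.o1 1 = va D.e z1) (h2 : h *ᵥ Pi.single D.o2 1 = vb D.e z1)
    {p : Matrix (Fin D.n) (Fin D.n) ℂ} (hp : BlockTriangular p D.be) (hpu : IsUnit p.det)
    (hga : g * unip a1 = D.th h * permMat D.w * p) :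
    Nonempty (Germ (chart D.X D.w g) a1 ≃+*
      Germ (cyl {z | z ∈ D.K ∧ z i = 1} (Fin D.kk)) (Sum.elim z1 0)) := by
  have hpi := bt_inv hp hpu
  have hchart : ∀ a, a ∈ chart D.X D.w g ↔ g * unip a ∈ D.T := by
    intro a
    rw [← D.zclosure_eq]
    rfl
  -- choose the column
  obtain ⟨hT1, hT2, hT3⟩ := D.coset_data hh hp hpu
  rw [← hga] at hT1 hT2 hT3
  rw [h1, h2] at hT3
  obtain ⟨c, hc, hE⟩ : ∃ c, D.be c = 0 ∧ D.tv (g * unip a1) c (D.e (Sum.inr i)) ≠ 0 := by
    by_contra hcon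
    push Not at hcon
    obtain ⟨s1, t1, q1⟩ := hT3 _ D.be_c1
    obtain ⟨s2, t2, q2⟩ := hT3 _ D.be_c2
    have r1 := hcon _ D.be_c1
    have r2 := hcon _ D.be_c2
    rw [q1, Pi.add_apply, Pi.smul_apply, Pi.smul_apply, va_inr, vb_inr, hi, smul_zero, zero_add,
      smul_eq_mul, mul_one] at r1
    rw [q2, Pi.add_apply, Pi.smul_apply, Pi.smul_apply, va_inr, vb_inr, hi, smul_zero, zero_add,
      smul_eq_mul, mul_one] at r2
    rw [r1, zero_smul, add_zero] at q1
    rw [r2, zero_smul, add_zero] at q2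
    by_cases hs : s2 = 0
    · have := (D.tv_indep hT1 hT2 (x := 0) (y := 1) (by rw [q2, hs]; simp)).2
      exact one_ne_zero this
    · have := (D.tv_indep hT1 hT2 (x := s2) (y := -s1) (by
        rw [q1, q2, smul_smul, smul_smul, ← add_smul]
        have : s2 * s1 + -s1 * s2 = 0 := by ring
        rw [this, zero_smul])).1
      exact hs this
  -- the values at the base point
  have hzf1 : D.zf g c i a1 = z1 := by
    obtain ⟨s, t, q⟩ := hT3 c hc
    funext j
    rw [zf]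
    rw [q, Pi.add_apply, Pi.smul_apply, Pi.smul_apply, va_inr, vb_inr, hi, smul_zero, zero_add,
      smul_eq_mul, mul_one] at hE
    rw [q]
    simp only [Pi.add_apply, Pi.smul_apply, va_inr, vb_inr, hi, smul_eq_mul, mul_zero, zero_add,
      mul_one]
    rw [mul_comm, mul_div_assoc, div_self hE, mul_one]
  have hH1 : D.Hf h z1 = h := D.Hf_self h1 h2
  have hPf1 : D.Pf g h p c i a1 = 1 := by
    rw [Pf, hzf1, hH1, hga]
    have e1 : (D.th h)⁻¹ * (D.th h * permMat D.w * p) = permMat D.w * p := by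
      rw [Matrix.mul_assoc (D.th h), ← Matrix.mul_assoc, Matrix.nonsing_inv_mul _ (D.th_det hh),
        Matrix.one_mul]
    rw [Matrix.mul_assoc (p⁻¹ * (permMat D.w)⁻¹), e1, Matrix.mul_assoc, ← Matrix.mul_assoc
      ((permMat D.w)⁻¹), Matrix.nonsing_inv_mul _ (permMat_det _), Matrix.one_mul,
      Matrix.nonsing_inv_mul _ hpu]
  have hl0 : D.lfr 0 = 0 := by
    funext ij
    simp only [lfr, Pi.zero_apply]
    split_ifs <;> rfl
  have hu0 : unip (0 : Low D.n → ℂ) = 1 := by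
    ext i j
    rw [unip, Matrix.one_apply]
    split_ifs with e1 e2 e3
    · exact absurd e2 (ne_of_gt e1)
    · rfl
    · rfl
    · rfl
  have hMf1 : D.Mf g h p z1 0 = unip a1 := by
    rw [Mf, hH1, hl0, hu0, Matrix.mul_one, ← hga, ← Matrix.mul_assoc, Matrix.nonsing_inv_mul _ hg,
      Matrix.one_mul]
  -- the two maps
  let φ : (Low D.n → ℂ) → (Fin (D.m + 2) ⊕ Fin D.kk → ℂ) := fun a =>
    Sum.elim (D.zf g c i a) (fun t => low (D.Pf g h p c i a) (D.eL.symm t).1)
  let ψ : (Fin (D.m + 2) ⊕ Fin D.kk → ℂ) → (Low D.n → ℂ) := fun y =>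
    low (D.Mf g h p (fun j => y (Sum.inl j)) (fun t => y (Sum.inr t)))
  set V : Set (Low D.n → ℂ) := chart D.X D.w g with hV
  set W : Set (Fin (D.m + 2) ⊕ Fin D.kk → ℂ) := cyl {z | z ∈ D.K ∧ z i = 1} (Fin D.kk) with hW
  have haV : a1 ∈ V := by
    rw [hV, hchart, hga]
    refine D.mem_T_of hz1 ?_ hh h1 h2 hp hpu
    rintro rfl
    exact zero_ne_one hi
  have hbW : (Sum.elim z1 0 : Fin (D.m + 2) ⊕ Fin D.kk → ℂ) ∈ W := ⟨hz1, hi⟩
  -- regularity
  have rzf : ∀ j, IsRegAt V a1 (fun a => D.zf g c i a j) := fun j =>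
    (D.poly_zf g c _).reg.div (D.poly_zf g c _).reg haV hE
  have rth : RegMat V a1 (fun a => D.th (D.Hf h (D.zf g c i a))) :=
    PolyMat.compReg rzf (D.poly_th (D.poly_Hf h))
  have rPf : RegMat V a1 (fun a => D.Pf g h p c i a) := by
    have r1 := rth.inv haV (by
      simp only [hzf1, hH1]
      exact (D.th_det hh).ne_zero)
    exact ((RegMat.const (p⁻¹ * (permMat D.w)⁻¹)).mul r1).mul
      (fun i j => (((PolyMat.const g).mul polyMat_unip) i j).reg)
  have rφ : ∀ t, IsRegAt V a1 (fun a => φ a t) := by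
    rintro (j | t)
    · exact rzf j
    · refine (rPf.num _ _).div (rPf.den _) haV ?_
      simp only [hPf1]
      exact den_one _
  have rψ : ∀ s, IsRegAt W (Sum.elim z1 0) (fun y => ψ y s) := by
    intro s
    have r1 : RegMat W (Sum.elim z1 0) (fun y : Fin (D.m + 2) ⊕ Fin D.kk → ℂ =>
        D.Mf g h p (fun j => y (Sum.inl j)) (fun t => y (Sum.inr t))) :=
      fun i j => (D.poly_Mf g p h i j).reg
    refine (r1.num _ _).div (r1.den _) hbW ?_
    have : D.Mf g h p (fun j => (Sum.elim z1 0 : Fin (D.m + 2) ⊕ Fin D.kk → ℂ) (Sum.inl j))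
        (fun t => (Sum.elim z1 0 : Fin (D.m + 2) ⊕ Fin D.kk → ℂ) (Sum.inr t)) = unip a1 := hMf1
    simp only [this]
    exact den_unip _ _
  have hφ1 : φ a1 = Sum.elim z1 0 := by
    funext t
    rcases t with j | t
    · exact congrFun hzf1 j
    · simp only [φ, Sum.elim_inr, hPf1, Pi.zero_apply]
      have := low_mul (isLowerU_unip (0 : Low D.n → ℂ)) (isUpper_one (n := D.n)) (by simp)
      rw [hu0, Matrix.mul_one] at this
      rw [this]
      exact Matrix.one_apply_ne (ne_of_gt (D.eL.symm t).1.2)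
  have hψ1 : ψ (Sum.elim z1 0) = a1 := by
    have e1 : ψ (Sum.elim z1 0) = low (D.Mf g h p z1 0) := rfl
    rw [e1, hMf1]
    have := low_unip_mul a1 (isUpper_one (n := D.n)) (by simp)
    rwa [Matrix.mul_one] at this
  -- the first composition
  have near1 : Near V a1 (fun a => φ a ∈ W ∧ ψ (φ a) = a) := by
    have n1 := (D.poly_zf g c (D.e (Sum.inr i))).reg.near_ne (V := V) haV hE
    have n2 := rth.det.near_ne haV (by
      simp only [hzf1, hH1]
      exact (D.th_det hh).ne_zero)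
    have n3 : Near V a1 (fun a => ∀ j, den (D.Pf g h p c i a) j ≠ 0) :=
      Near.all fun j => (rPf.den j).near_ne haV (by
        simp only [hPf1]
        exact den_one _)
    have n4 := (PolyFn.compReg rzf (D.poly_Hf h).det).near_ne haV (by
      simp only [hzf1, hH1]
      exact hh.ne_zero)
    refine (((n1.and n2).and n3).and n4).mono fun a ha hn => ?_
    obtain ⟨⟨⟨m1, m2⟩, m3⟩, m4⟩ := hn
    obtain ⟨t1, t2, z', hz'K, hz', t3⟩ := (hchart a).1 ha
    -- the point below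
    have hEj : ∃ s' : ℂ, ∀ j, D.tv (g * unip a) c (D.e (Sum.inr j)) = s' * z' j := by
      obtain ⟨s, s', q⟩ := t3 c hc
      refine ⟨s', fun j => ?_⟩
      rw [q, Pi.add_apply, Pi.smul_apply, Pi.smul_apply, va_inr, vb_inr, smul_zero, zero_add,
        smul_eq_mul]
    obtain ⟨s', hEj⟩ := hEj
    rw [hEj] at m1
    have hs' := left_ne_zero_of_mul m1
    have hz'i := right_ne_zero_of_mul m1
    have hzfa : D.zf g c i a = (z' i)⁻¹ • z' := by
      funext j
      rw [zf, hEj, hEj, Pi.smul_apply, smul_eq_mul]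
      field_simp
    have hzz : z' = (z' i) • D.zf g c i a := by
      rw [hzfa, smul_smul, mul_inv_cancel₀ hz'i, one_smul]
    have hzfK : D.zf g c i a ∈ D.K := by
      rw [hzfa]; exact D.hcone z' hz'K _
    have hzfi : D.zf g c i a i = 1 := by
      rw [hzfa, Pi.smul_apply, smul_eq_mul, inv_mul_cancel₀ hz'i]
    have hHu : IsUnit (D.Hf h (D.zf g c i a)).det := isUnit_iff_ne_zero.2 m4
    obtain ⟨p', hp', hp'u, hgp⟩ := D.mem_coset hHu t1 t2 (by
      intro c' hc'
      obtain ⟨s, t, q⟩ := t3 c' hc'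
      rw [Hf_1, Hf_2, q]
      refine ⟨s * (z' i) ^ D.d, t * (z' i), ?_⟩
      rw [hzz, va_smul, vb_smul, smul_smul, smul_smul, ← hzz])
    have hthu := D.th_det hHu
    have hPa : D.Pf g h p c i a = p⁻¹ * p' := by
      rw [Pf, hgp]
      have e1 : (D.th (D.Hf h (D.zf g c i a)))⁻¹ *
          (D.th (D.Hf h (D.zf g c i a)) * permMat D.w * p') = permMat D.w * p' := by
        rw [Matrix.mul_assoc (D.th _), ← Matrix.mul_assoc, Matrix.nonsing_inv_mul _ hthu,
          Matrix.one_mul]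
      rw [Matrix.mul_assoc (p⁻¹ * (permMat D.w)⁻¹), e1, Matrix.mul_assoc, ← Matrix.mul_assoc
        ((permMat D.w)⁻¹), Matrix.nonsing_inv_mul _ (permMat_det _), Matrix.one_mul]
    have hPau : IsUnit (D.Pf g h p c i a).det := by
      rw [hPa, Matrix.det_mul]
      exact (Matrix.isUnit_nonsing_inv_det _ hpu).mul hp'u
    obtain ⟨b', hb', hb'u, hlb⟩ := lu_low m3 hPau
    -- the lower factor is block triangular
    have hlbt : BlockTriangular (unip (low (D.Pf g h p c i a))) D.be := by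
      have e1 : unip (low (D.Pf g h p c i a)) = D.Pf g h p c i a * b'⁻¹ := by
        conv_rhs => rw [hlb]
        rw [Matrix.mul_assoc, Matrix.mul_nonsing_inv _ hb'u, Matrix.mul_one]
      rw [e1, hPa]
      exact (hpi.mul hp').mul (bt_inv (isUpper_bt D.be_mono hb') hb'u)
    have hlfr : D.lfr (fun t => low (D.Pf g h p c i a) (D.eL.symm t).1) =
        low (D.Pf g h p c i a) := by
      funext ij
      rw [lfr]
      split_ifs with e1
      · rw [Equiv.symm_apply_apply]
      · have e2 : D.be ij.1.2 < D.be ij.1.1 :=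
          lt_of_le_of_ne (D.be_mono (le_of_lt ij.2)) (Ne.symm e1)
        have e3 := hlbt e2
        rw [unip_apply _ ij.2] at e3
        exact e3.symm
    refine ⟨⟨hzfK, hzfi⟩, ?_⟩
    have e0 : ψ (φ a) = low (D.Mf g h p (D.zf g c i a)
        (fun t => low (D.Pf g h p c i a) (D.eL.symm t).1)) := rfl
    have e1 : D.Mf g h p (D.zf g c i a) (fun t => low (D.Pf g h p c i a) (D.eL.symm t).1) =
        unip a * b'⁻¹ := by
      rw [Mf, hlfr]
      have e2 : unip (low (D.Pf g h p c i a)) = p⁻¹ * p' * b'⁻¹ := by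
        rw [← hPa]
        conv_rhs => rw [hlb]
        rw [Matrix.mul_assoc, Matrix.mul_nonsing_inv _ hb'u, Matrix.mul_one]
      have e3 : D.th (D.Hf h (D.zf g c i a)) * permMat D.w * p * (p⁻¹ * p' * b'⁻¹) =
          (D.th (D.Hf h (D.zf g c i a)) * permMat D.w * p') * b'⁻¹ := by
        have e4 : p * (p⁻¹ * p' * b'⁻¹) = p' * b'⁻¹ := by
          rw [Matrix.mul_assoc p⁻¹, ← Matrix.mul_assoc, Matrix.mul_nonsing_inv _ hpu,
            Matrix.one_mul]
        rw [Matrix.mul_assoc _ p, e4]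
        exact (Matrix.mul_assoc _ _ _).symm
      rw [e2, e3, ← hgp, Matrix.mul_assoc g, ← Matrix.mul_assoc, Matrix.nonsing_inv_mul _ hg,
        Matrix.one_mul]
    rw [e0, e1]
    exact low_unip_mul a (isUpper_inv hb' hb'u) (Matrix.isUnit_nonsing_inv_det _ hb'u)
  -- the second composition
  have near2 : Near W (Sum.elim z1 0) (fun y => ψ y ∈ V ∧ φ (ψ y) = y) := by
    have hMb : D.Mf g h p (fun j => (Sum.elim z1 0 : Fin (D.m + 2) ⊕ Fin D.kk → ℂ) (Sum.inl j))
        (fun t => (Sum.elim z1 0 : Fin (D.m + 2) ⊕ Fin D.kk → ℂ) (Sum.inr t)) = unip a1 := hMf1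
    have n1 : Near W (Sum.elim z1 0) (fun y => (D.Hf h (fun j => y (Sum.inl j))).det ≠ 0) := by
      have r1 : IsRegAt W (Sum.elim z1 0) (fun y => (D.Hf h (fun j => y (Sum.inl j))).det) :=
        PolyFn.compReg (φ := fun y j => y (Sum.inl j)) (fun j => IsRegAt.coord _)
          (D.poly_Hf h).det
      refine r1.near_ne hbW ?_
      change (D.Hf h z1).det ≠ 0
      rw [hH1]
      exact hh.ne_zero
    have n2 : Near W (Sum.elim z1 0) (fun y => ∀ j, den (D.Mf g h p (fun j => y (Sum.inl j))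
        (fun t => y (Sum.inr t))) j ≠ 0) := by
      refine Near.all fun j => ?_
      have r1 : RegMat W (Sum.elim z1 0) (fun y : Fin (D.m + 2) ⊕ Fin D.kk → ℂ =>
          D.Mf g h p (fun j => y (Sum.inl j)) (fun t => y (Sum.inr t))) :=
        fun i j => (D.poly_Mf g p h i j).reg
      refine (r1.den j).near_ne hbW ?_
      simp only [hMb]
      exact den_unip _ _
    have n3 : Near W (Sum.elim z1 0)
        (fun y => D.tv (g * unip (ψ y)) c (D.e (Sum.inr i)) ≠ 0) := by
      have r1 : IsRegAt W (Sum.elim z1 0)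
          (fun y => D.tv (g * unip (ψ y)) c (D.e (Sum.inr i))) :=
        PolyFn.compReg rψ (D.poly_zf g c (D.e (Sum.inr i)))
      refine r1.near_ne hbW ?_
      rw [hψ1]
      exact hE
    refine ((n1.and n2).and n3).mono fun y hy hn => ?_
    obtain ⟨⟨m1, m2⟩, m3⟩ := hn
    set z : Fin (D.m + 2) → ℂ := fun j => y (Sum.inl j) with hz
    set l : Fin D.kk → ℂ := fun t => y (Sum.inr t) with hl
    have hzK : z ∈ D.K := hy.1
    have hzi : z i = 1 := hy.2
    have hz0 : z ≠ 0 := by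
      intro h0
      rw [h0] at hzi
      exact zero_ne_one hzi
    have hHu : IsUnit (D.Hf h z).det := isUnit_iff_ne_zero.2 m1
    have hMu : IsUnit (D.Mf g h p z l).det := by
      rw [Mf, Matrix.det_mul, Matrix.det_mul, Matrix.det_mul, Matrix.det_mul,
        (isLowerU_unip _).det, mul_one]
      exact (Matrix.isUnit_nonsing_inv_det _ hg).mul
        (((D.th_det hHu).mul (permMat_det _)).mul hpu)
    obtain ⟨b', hb', hb'u, hMb'⟩ := lu_low m2 hMu
    have hψy : ψ y = low (D.Mf g h p z l) := rfl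
    have hgu : g * unip (ψ y) = D.th (D.Hf h z) * permMat D.w * (p * unip (D.lfr l) * b'⁻¹) := by
      have e1 : unip (ψ y) = D.Mf g h p z l * b'⁻¹ := by
        rw [hψy]
        conv_rhs => rw [hMb']
        rw [Matrix.mul_assoc, Matrix.mul_nonsing_inv _ hb'u, Matrix.mul_one]
      rw [e1, Mf, ← Matrix.mul_assoc, ← Matrix.mul_assoc, Matrix.mul_nonsing_inv _ hg,
        Matrix.one_mul]
      simp only [Matrix.mul_assoc]
    have hqbt : BlockTriangular (p * unip (D.lfr l) * b'⁻¹) D.be :=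
      (hp.mul (D.lfr_bt l)).mul (bt_inv (isUpper_bt D.be_mono hb') hb'u)
    have hqu : IsUnit (p * unip (D.lfr l) * b'⁻¹).det := by
      rw [Matrix.det_mul, Matrix.det_mul, (isLowerU_unip _).det, mul_one]
      exact hpu.mul (Matrix.isUnit_nonsing_inv_det _ hb'u)
    have hTψ : g * unip (ψ y) ∈ D.T := by
      rw [hgu]
      exact D.mem_T_of hzK hz0 hHu (D.Hf_1 h z) (D.Hf_2 h z) hqbt hqu
    refine ⟨(hchart _).2 hTψ, ?_⟩
    -- the point below
    have hzf : D.zf g c i (ψ y) = z := by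
      obtain ⟨_, _, q3⟩ := D.coset_data hHu hqbt hqu
      rw [← hgu, Hf_1, Hf_2] at q3
      obtain ⟨s, s', q⟩ := q3 c hc
      have q' : ∀ j, D.tv (g * unip (ψ y)) c (D.e (Sum.inr j)) = s' * z j := by
        intro j
        rw [q, Pi.add_apply, Pi.smul_apply, Pi.smul_apply, va_inr, vb_inr, smul_zero, zero_add,
          smul_eq_mul]
      rw [q', hzi, mul_one] at m3
      funext j
      rw [zf, q', q', hzi, mul_one, mul_comm, mul_div_assoc, div_self m3, mul_one]
    have hPf : D.Pf g h p c i (ψ y) = unip (D.lfr l) * b'⁻¹ := by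
      have hthu := D.th_det hHu
      rw [Pf, hzf, hgu]
      have e1 : (D.th (D.Hf h z))⁻¹ *
          (D.th (D.Hf h z) * permMat D.w * (p * unip (D.lfr l) * b'⁻¹)) =
          permMat D.w * (p * unip (D.lfr l) * b'⁻¹) := by
        rw [Matrix.mul_assoc (D.th _), ← Matrix.mul_assoc, Matrix.nonsing_inv_mul _ hthu,
          Matrix.one_mul]
      rw [Matrix.mul_assoc (p⁻¹ * (permMat D.w)⁻¹), e1, Matrix.mul_assoc p⁻¹, ← Matrix.mul_assoc
        ((permMat D.w)⁻¹), Matrix.nonsing_inv_mul _ (permMat_det _), Matrix.one_mul,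
        Matrix.mul_assoc p, ← Matrix.mul_assoc, Matrix.nonsing_inv_mul _ hpu, Matrix.one_mul]
    funext t
    rcases t with j | t
    · exact congrFun hzf j
    · have e1 : φ (ψ y) (Sum.inr t) = low (D.Pf g h p c i (ψ y)) (D.eL.symm t).1 := rfl
      rw [e1, hPf, low_unip_mul _ (isUpper_inv hb' hb'u) (Matrix.isUnit_nonsing_inv_det _ hb'u),
        lfr, dif_pos (D.eL.symm t).2]
      simp only [hl]
      congr 2
      exact D.eL.apply_symm_apply t
  exact LocData.equiv (φ := φ) (ψ := ψ) ⟨haV, hbW, rφ, rψ, hφ1, hψ1, near1, near2⟩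

end FData

end

end Pool.Agent.Lib.MP_1e2f52_ag
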