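import Pool.Agent.Lib.MP_1e2f52_ag.Par3
import Pool.Agent.Lib.MP_1e2f52_ag.Flat

/-!
# The Cohen-Macaulay locus
-/

open MvPolynomial Matrix IsLocalRing

namespace Pool.Agent.Lib.MP_1e2f52_ag

noncomputable section

/-! ### Closures of cones over affine varieties -/

section pcl

variable {m : ℕ} {Y : Set (Fin (m + 2) → ℂ)}

/-- Polynomials vanishing on `Y` vanish on the part of the closed cone in `z 0 = 1`. -/
lemma pcl_one (hY : ∀ y ∈ Y, y 0 = 1) {g : MvPolynomial (Fin (m + 2)) ℂ}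
    (hg : ∀ y ∈ Y, eval y g = 0) {z : Fin (m + 2) → ℂ} (hz : z ∈ pcl Y) (hz0 : z 0 = 1) :
    eval z g = 0 := by
  obtain ⟨d, c, hc⟩ := exists_hom g
  rw [hc z hz0]
  refine frm_pcl (c := c) (fun y hy => ?_) hz
  change ∑ τ, c τ * ∏ x, y (τ x) = 0
  rw [← hc y (hY y hy)]
  exact hg y hy

end pcl

/-- The restriction of a polynomial to a line. -/
def toLine2 {M : ℕ} (z v : Fin M → ℂ) : MvPolynomial (Fin M) ℂ →ₐ[ℂ] Polynomial ℂ :=
  aeval (fun i => Polynomial.C (z i) + Polynomial.C (v i) * Polynomial.X)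

lemma eval_toLine2 {M : ℕ} (z v : Fin M → ℂ) (c : ℂ) (p : MvPolynomial (Fin M) ℂ) :
    (toLine2 z v p).eval c = eval (z + c • v) p := by
  have : (Polynomial.evalRingHom c).comp (toLine2 z v : MvPolynomial (Fin M) ℂ →+* Polynomial ℂ) =
      eval (z + c • v) := by
    ext i
    · simp [toLine2]
    · change Polynomial.eval c (aeval (fun i => Polynomial.C (z i) + Polynomial.C (v i) *
        Polynomial.X) (X _)) = _
      rw [aeval_X, Polynomial.eval_add, Polynomial.eval_mul, Polynomial.eval_C, Polynomial.eval_C,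
        Polynomial.eval_X, eval_X, Pi.add_apply, Pi.smul_apply, smul_eq_mul, mul_comm]
  exact congrArg (fun f => f p) this

/-- A polynomial vanishing at all points but one of a line vanishes at this point. -/
lemma vanish_line {M : ℕ} {z v : Fin M → ℂ} {p : MvPolynomial (Fin M) ℂ}
    (h : ∀ c : ℂ, c ≠ 0 → eval (z + c • v) p = 0) : eval z p = 0 := by
  have h1 : Polynomial.X * toLine2 z v p = 0 := by
    apply Polynomial.funext
    intro b
    rw [Polynomial.eval_mul, Polynomial.eval_X, eval_toLine2, Polynomial.eval_zero]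
    by_cases hb : b = 0
    · rw [hb, zero_mul]
    · rw [h b hb, mul_zero]
  have h2 : toLine2 z v p = 0 := (mul_eq_zero.1 h1).resolve_left Polynomial.X_ne_zero
  have h3 := eval_toLine2 z v 0 p
  rw [h2, Polynomial.eval_zero, zero_smul, add_zero] at h3
  exact h3.symm

/-- The closed cone over an affine subspace. -/
lemma pcl_linear {m : ℕ} (L : Submodule ℂ (Fin (m + 2) → ℂ)) {v : Fin (m + 2) → ℂ} (hv : v ∈ L)
    (hv0 : v 0 = 1) : pcl {z | z ∈ L ∧ z 0 = 1} = (L : Set (Fin (m + 2) → ℂ)) := by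
  apply Set.Subset.antisymm
  · intro z hz
    -- linear forms vanishing on `L`
    by_contra hcon
    obtain ⟨f, hf1, hf2⟩ := Submodule.exists_le_ker_of_notMem hcon
    apply hf1
    rw [← eval_linP]
    apply hz
    intro a _ y hy
    rw [eval_linP]
    exact hf2 (L.smul_mem a hy.1)
  · intro z hz p hp
    have key : ∀ z ∈ L, z 0 ≠ 0 → eval z p = 0 := by
      intro z hz h0
      have := hp (z 0) h0 ((z 0)⁻¹ • z) ⟨L.smul_mem _ hz, by simp [h0]⟩
      rwa [smul_smul, mul_inv_cancel₀ h0, one_smul] at this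
    by_cases h0 : z 0 = 0
    · apply vanish_line (v := v)
      intro c hc
      apply key _ (L.add_mem hz (L.smul_mem c hv))
      rw [Pi.add_apply, Pi.smul_apply, h0, hv0, zero_add, smul_eq_mul, mul_one]
      exact hc
    · exact key z hz h0

/-- The charts of a linear subspace of projective space are Gorenstein. -/
lemma affineGor_linear {M : ℕ} (L : Submodule ℂ (Fin M → ℂ)) (i : Fin M) :
    AffineGor {z | z ∈ (L : Set (Fin M → ℂ)) ∧ z i = 1} := by
  intro a ha
  have h1 : {z | z ∈ (L : Set (Fin M → ℂ)) ∧ z i = 1} =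
      {z | z - a ∈ L ⊓ LinearMap.ker (LinearMap.proj i : (Fin M → ℂ) →ₗ[ℂ] ℂ)} := by
    ext z
    constructor
    · rintro ⟨hz, hzi⟩
      refine ⟨L.sub_mem hz ha.1, ?_⟩
      change (z - a) i = 0
      rw [Pi.sub_apply, hzi, ha.2, sub_self]
    · rintro ⟨hz, hzi⟩
      have h2 : (z - a) i = 0 := hzi
      rw [Pi.sub_apply, ha.2, sub_eq_zero] at h2
      refine ⟨?_, h2⟩
      have h3 := L.add_mem hz ha.1
      rwa [sub_add_cancel] at h3
  rw [h1]
  exact (germ_flat _ a).1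

/-! ### The varieties attached to a system of equations -/

section sys

variable {q p l : ℕ}

/-- The enumeration of the coordinates. -/
def ex (q p : ℕ) : (Fin q ⊕ (Fin p ⊕ Fin 3)) ≃ Fin (q + p + 2 + 1) :=
  Fintype.equivFinOfCardEq (by simp only [Fintype.card_sum, Fintype.card_fin]; omega)

/-- The coordinates with parameters. -/
def cT (i : Fin q) : Fin (q + p + 2 + 2) := (ex q p (.inl i)).succ

/-- The coordinates of the unknowns. -/
def cU (j : Fin p) : Fin (q + p + 2 + 2) := (ex q p (.inr (.inl j))).succ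

/-- Three further coordinates. -/
def cA (j : Fin 3) : Fin (q + p + 2 + 2) := (ex q p (.inr (.inr j))).succ

lemma cT_inj {i i' : Fin q} : (cT i : Fin (q + p + 2 + 2)) = cT i' ↔ i = i' := by
  simp [cT]

lemma cU_inj {i i' : Fin p} : (cU i : Fin (q + p + 2 + 2)) = cU i' ↔ i = i' := by
  simp [cU]

lemma cA_inj {i i' : Fin 3} : (cA i : Fin (q + p + 2 + 2)) = cA i' ↔ i = i' := by
  simp [cA]

lemma cT_ne_U {i : Fin q} {j : Fin p} : (cT i : Fin (q + p + 2 + 2)) ≠ cU j := by
  simp [cT, cU]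

lemma cT_ne_A {i : Fin q} {j : Fin 3} : (cT i : Fin (q + p + 2 + 2)) ≠ cA j := by
  simp [cT, cA]

lemma cU_ne_A {i : Fin p} {j : Fin 3} : (cU i : Fin (q + p + 2 + 2)) ≠ cA j := by
  simp [cU, cA]

lemma zero_ne_A {j : Fin 3} : (0 : Fin (q + p + 2 + 2)) ≠ cA j := (Fin.succ_ne_zero _).symm

lemma cases_coord (i : Fin (q + p + 2 + 2)) :
    i = 0 ∨ (∃ j, i = cT j) ∨ (∃ j, i = cU j) ∨ ∃ j, i = cA j := by
  refine Fin.cases (Or.inl rfl) (fun i => Or.inr ?_) i
  obtain ⟨i, rfl⟩ := (ex q p).surjective i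
  rcases i with i | i | i
  · exact Or.inl ⟨i, rfl⟩
  · exact Or.inr (Or.inl ⟨i, rfl⟩)
  · exact Or.inr (Or.inr ⟨i, rfl⟩)

/-- A function on the coordinates. -/
def mkC (x0 : ℂ) (xT : Fin q → ℂ) (xU : Fin p → ℂ) (xA : Fin 3 → ℂ) : Fin (q + p + 2 + 2) → ℂ :=
  Fin.cons x0 (fun i => Sum.elim xT (Sum.elim xU xA) ((ex q p).symm i))

lemma mkC_0 (x0 : ℂ) (xT : Fin q → ℂ) (xU : Fin p → ℂ) (xA : Fin 3 → ℂ) :
    mkC x0 xT xU xA 0 = x0 := rfl

lemma mkC_T (x0 : ℂ) (xT : Fin q → ℂ) (xU : Fin p → ℂ) (xA : Fin 3 → ℂ) (i : Fin q) :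
    mkC x0 xT xU xA (cT i) = xT i := by simp [mkC, cT]

lemma mkC_U (x0 : ℂ) (xT : Fin q → ℂ) (xU : Fin p → ℂ) (xA : Fin 3 → ℂ) (i : Fin p) :
    mkC x0 xT xU xA (cU i) = xU i := by simp [mkC, cU]

lemma mkC_A (x0 : ℂ) (xT : Fin q → ℂ) (xU : Fin p → ℂ) (xA : Fin 3 → ℂ) (i : Fin 3) :
    mkC x0 xT xU xA (cA i) = xA i := by simp [mkC, cA]

/-- The equations with constant coefficients. -/
def sysEq (h : Fin l → MvPolynomial (Fin q ⊕ Fin p) ℂ) :
    Fin (l + 1 + 1) → MvPolynomial (Fin (q + p + 2 + 2)) ℂ :=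
  Fin.cons (X (cA 2) * (X (cA 0) - 1)) (Fin.cons (X (cA 2) * X (cA 1))
    (fun j => X (cA 2) * rename (Sum.elim cT cU) (h j)))

/-- The affine variety attached to the system. -/
abbrev sysY (h : Fin l → MvPolynomial (Fin q ⊕ Fin p) ℂ) (t : Fin q → ℂ) :
    Set (Fin (q + p + 2 + 2) → ℂ) :=
  Yp (sysEq h) cT (fun _ => cA 0) t

lemma mem_sysY {h : Fin l → MvPolynomial (Fin q ⊕ Fin p) ℂ} {t : Fin q → ℂ}
    {z : Fin (q + p + 2 + 2) → ℂ} : z ∈ sysY h t ↔ z 0 = 1 ∧ (∀ i, z (cT i) = t i * z (cA 0)) ∧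
      z (cA 2) * (z (cA 0) - 1) = 0 ∧ z (cA 2) * z (cA 1) = 0 ∧
      ∀ j, z (cA 2) * eval (Sum.elim (fun i => z (cT i)) (fun i => z (cU i))) (h j) = 0 := by
  have h1 : ∀ j, eval z (rename (Sum.elim cT cU) (h j)) =
      eval (Sum.elim (fun i => z (cT i)) (fun i => z (cU i))) (h j) := by
    intro j
    rw [eval_rename]
    congr 2
    funext s
    rcases s with s | s <;> rfl
  constructor
  · rintro ⟨e1, e2, e3⟩
    refine ⟨e1, e2, ?_, ?_, fun j => ?_⟩
    · have := e3 0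
      simpa [sysEq] using this
    · have := e3 1
      simpa [sysEq] using this
    · have := e3 j.succ.succ
      rw [← h1]
      simpa only [sysEq, Fin.cons_succ, map_mul, eval_X] using this
  · rintro ⟨e1, e2, e3, e4, e5⟩
    refine ⟨e1, e2, fun j => ?_⟩
    refine Fin.cases ?_ (fun j => Fin.cases ?_ (fun j => ?_) j) j
    · simpa [sysEq] using e3
    · simpa [sysEq] using e4
    · have := e5 j
      rw [← h1] at this
      simpa only [sysEq, Fin.cons_succ, map_mul, eval_X] using this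

/-- The linear component. -/
def sysL (t : Fin q → ℂ) : Submodule ℂ (Fin (q + p + 2 + 2) → ℂ) where
  carrier := {z | z (cA 2) = 0 ∧ ∀ i, z (cT i) = t i * z (cA 0)}
  add_mem' := by
    rintro a b ⟨ha, ha'⟩ ⟨hb, hb'⟩
    refine ⟨?_, fun i => ?_⟩
    · rw [Pi.add_apply, ha, hb, add_zero]
    · rw [Pi.add_apply, Pi.add_apply, ha', hb']
      ring
  zero_mem' := ⟨rfl, fun i => by simp⟩
  smul_mem' := by
    rintro c a ⟨ha, ha'⟩
    refine ⟨?_, fun i => ?_⟩
    · rw [Pi.smul_apply, ha, smul_zero]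
    · rw [Pi.smul_apply, Pi.smul_apply, ha', smul_eq_mul, smul_eq_mul]
      ring

lemma sysL_sub {h : Fin l → MvPolynomial (Fin q ⊕ Fin p) ℂ} {t : Fin q → ℂ} :
    {z | z ∈ sysL (p := p) t ∧ z 0 = 1} ⊆ sysY h t := by
  rintro z ⟨⟨h1, h2⟩, h3⟩
  refine mem_sysY.2 ⟨h3, h2, ?_, ?_, fun j => ?_⟩ <;> rw [h1, zero_mul]

/-- If the system has no solution, the variety is linear. -/
lemma sysY_eq {h : Fin l → MvPolynomial (Fin q ⊕ Fin p) ℂ} {t : Fin q → ℂ}
    (hno : ¬ ∃ u : Fin p → ℂ, ∀ j, eval (Sum.elim t u) (h j) = 0) :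
    sysY h t = {z | z ∈ sysL (p := p) t ∧ z 0 = 1} := by
  apply Set.Subset.antisymm _ sysL_sub
  intro z hz
  obtain ⟨e1, e2, e3, e4, e5⟩ := mem_sysY.1 hz
  refine ⟨⟨?_, e2⟩, e1⟩
  by_contra h0
  apply hno
  have h1 : z (cA 0) = 1 := sub_eq_zero.1 ((mul_eq_zero.1 e3).resolve_left h0)
  refine ⟨fun i => z (cU i), fun j => ?_⟩
  have h2 := (mul_eq_zero.1 (e5 j)).resolve_left h0
  have h3 : (fun i => z (cT i)) = t := by
    funext i
    rw [e2, h1, mul_one]
  rwa [h3] at h2

lemma mkC_mem_sysL (t : Fin q → ℂ) (x0 a0 a1 : ℂ) (xU : Fin p → ℂ) :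
    mkC x0 (fun i => t i * a0) xU ![a0, a1, 0] ∈ sysL (p := p) t := by
  refine ⟨?_, fun i => ?_⟩
  · rw [mkC_A]; rfl
  · rw [mkC_T, mkC_A]; rfl

/-- If the system has no solution, all charts of the projective closure are Gorenstein. -/
lemma sys_gor {h : Fin l → MvPolynomial (Fin q ⊕ Fin p) ℂ} {t : Fin q → ℂ}
    (hno : ¬ ∃ u : Fin p → ℂ, ∀ j, eval (Sum.elim t u) (h j) = 0) (i : Fin (q + p + 2 + 2)) :
    AffineGor {z | z ∈ pcl (sysY h t) ∧ z i = 1} := by
  rw [sysY_eq hno, pcl_linear (sysL t) (mkC_mem_sysL t 1 0 0 0) (mkC_0 _ _ _ _)]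
  exact affineGor_linear _ i

/-- The solution point. -/
def solPt (t : Fin q → ℂ) (u : Fin p → ℂ) : Fin (q + p + 2 + 2) → ℂ :=
  mkC 1 (fun i => t i * 1) u ![1, 0, 0]

lemma solPt_mem (t : Fin q → ℂ) (u : Fin p → ℂ) :
    solPt t u ∈ {z | z ∈ sysL (p := p) t ∧ z 0 = 1} := ⟨mkC_mem_sysL t 1 1 0 u, rfl⟩

lemma line_mem {h : Fin l → MvPolynomial (Fin q ⊕ Fin p) ℂ} {t : Fin q → ℂ} {u : Fin p → ℂ}
    (hu : ∀ j, eval (Sum.elim t u) (h j) = 0) (c : ℂ) :
    solPt t u + c • (Pi.single (cA 2) 1 : Fin (q + p + 2 + 2) → ℂ) ∈ sysY h t := by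
  have eT : ∀ i : Fin q, (solPt t u + c • (Pi.single (cA 2) 1 : Fin (q + p + 2 + 2) → ℂ)) (cT i) =
      t i := by
    intro i
    rw [Pi.add_apply, Pi.smul_apply, Pi.single_eq_of_ne cT_ne_A, smul_zero, add_zero, solPt, mkC_T,
      mul_one]
  have eU : ∀ i : Fin p, (solPt t u + c • (Pi.single (cA 2) 1 : Fin (q + p + 2 + 2) → ℂ)) (cU i) =
      u i := by
    intro i
    rw [Pi.add_apply, Pi.smul_apply, Pi.single_eq_of_ne cU_ne_A, smul_zero, add_zero, solPt, mkC_U]
  have eA0 : (solPt t u + c • (Pi.single (cA 2) 1 : Fin (q + p + 2 + 2) → ℂ)) (cA 0) = 1 := by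
    rw [Pi.add_apply, Pi.smul_apply, Pi.single_eq_of_ne (by rw [Ne, cA_inj]; decide), smul_zero,
      add_zero, solPt, mkC_A]
    rfl
  have eA1 : (solPt t u + c • (Pi.single (cA 2) 1 : Fin (q + p + 2 + 2) → ℂ)) (cA 1) = 0 := by
    rw [Pi.add_apply, Pi.smul_apply, Pi.single_eq_of_ne (by rw [Ne, cA_inj]; decide), smul_zero,
      add_zero, solPt, mkC_A]
    rfl
  refine mem_sysY.2 ⟨?_, fun i => ?_, ?_, ?_, fun j => ?_⟩
  · rw [Pi.add_apply, Pi.smul_apply, Pi.single_eq_of_ne zero_ne_A, smul_zero,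
      add_zero]
    rfl
  · rw [eT, eA0, mul_one]
  · rw [eA0, sub_self, mul_zero]
  · rw [eA1, mul_zero]
  · simp only [eT, eU]
    rw [hu j, mul_zero]

end sys

/-! ### Maximal ideals and surjections -/

section germ

variable {σ : Type}

lemma toGerm_sub_mem {V : Set (σ → ℂ)} {a : σ → ℂ} (P : MvPolynomial σ ℂ) :
    toGerm V a P - toGerm V a (C (eval a P)) ∈
      Ideal.span (Set.range fun i => toGerm V a (X i - C (a i))) := by
  induction P using MvPolynomial.induction_on with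
  | C c => simp
  | add f g hf hg =>
    have : toGerm V a (f + g) - toGerm V a (C (eval a (f + g))) =
        (toGerm V a f - toGerm V a (C (eval a f))) +
          (toGerm V a g - toGerm V a (C (eval a g))) := by
      rw [map_add, map_add, C_add, map_add]; ring
    rw [this]
    exact Ideal.add_mem _ hf hg
  | mul_X f i hf =>
    have : toGerm V a (f * X i) - toGerm V a (C (eval a (f * X i))) =
        toGerm V a (X i) * (toGerm V a f - toGerm V a (C (eval a f))) +
          toGerm V a (C (eval a f)) * toGerm V a (X i - C (a i)) := by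
      rw [map_mul, map_mul, eval_X, C_mul, map_mul, map_sub]; ring
    rw [this]
    exact Ideal.add_mem _ (Ideal.mul_mem_left _ _ hf)
      (Ideal.mul_mem_left _ _ (Ideal.subset_span ⟨i, rfl⟩))

lemma toGerm_unit_iff {V : Set (σ → ℂ)} {a : σ → ℂ} (ha : a ∈ V) {P : MvPolynomial σ ℂ} :
    IsUnit (toGerm V a P) ↔ eval a P ≠ 0 := by
  refine ⟨fun hu h0 => ?_, toGerm_isUnit⟩
  obtain ⟨y, hy⟩ := hu.exists_right_inv
  obtain ⟨q, s, hs, hq⟩ := toGerm_surj_mul y
  have h1 : toGerm V a (P * q - s) = 0 := by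
    rw [map_sub, map_mul, ← hq, ← mul_assoc, hy, one_mul, sub_self]
  obtain ⟨s', hs', h2⟩ := toGerm_eq_zero_iff.1 h1
  have h3 := h2 a ha
  rw [map_sub, map_mul, h0, zero_mul, zero_sub, mul_neg, neg_eq_zero] at h3
  exact (mul_ne_zero hs' hs) h3

lemma max_le_span {V : Set (σ → ℂ)} {a : σ → ℂ} {r : Germ V a} (hr : ¬ IsUnit r) :
    r ∈ Ideal.span (Set.range fun i => toGerm V a (X i - C (a i))) := by
  obtain ⟨P, Q, hQ, h⟩ := toGerm_surj_mul r
  have hP : eval a P = 0 := by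
    by_contra h0
    apply hr
    have := toGerm_isUnit (V := V) h0
    rw [← h] at this
    exact isUnit_of_mul_isUnit_left this
  have h1 := toGerm_sub_mem (V := V) (a := a) P
  rw [hP, C_0, map_zero, sub_zero, ← h] at h1
  exact (Ideal.mul_unit_mem_iff_mem _ (toGerm_isUnit hQ)).1 h1

/-- Restriction to a subvariety. -/
lemma dim_le_of_subset {V W : Set (σ → ℂ)} (hVW : V ⊆ W) (a : σ → ℂ) :
    ringKrullDim (Germ V a) ≤ ringKrullDim (Germ W a) := by
  let f : Germ W a →+* Germ V a := germMap (RingHom.id _) (fun _ => rfl) (by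
    intro p hp x hx
    exact hp x (hVW hx))
  apply ringKrullDim_le_of_surjective f
  intro r
  obtain ⟨P, Q, hQ, h⟩ := toGerm_surj_mul r
  obtain ⟨u, hu⟩ := (toGerm_isUnit (V := W) hQ).exists_right_inv
  refine ⟨toGerm W a P * u, ?_⟩
  apply (toGerm_isUnit (V := V) hQ).mul_right_cancel
  have h1 : f (toGerm W a Q) = toGerm V a Q := germMap_toGerm _ _ _ Q
  have h2 : f (toGerm W a P) = toGerm V a P := germMap_toGerm _ _ _ P
  rw [h, ← h1, ← map_mul, mul_assoc, mul_comm u, hu, mul_one, h2]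

end germ

/-- The dimension of the charts of linear subspaces. -/
lemma dim_linear {M : ℕ} (L : Submodule ℂ (Fin M → ℂ)) {i : Fin M} {a : Fin M → ℂ}
    (ha : a ∈ {z | z ∈ L ∧ z i = 1}) :
    ringKrullDim (Germ {z | z ∈ L ∧ z i = 1} a) =
      Module.finrank ℂ (L ⊓ LinearMap.ker (LinearMap.proj i : (Fin M → ℂ) →ₗ[ℂ] ℂ) :
        Submodule ℂ (Fin M → ℂ)) := by
  have h1 : {z | z ∈ L ∧ z i = 1} =
      {z | z - a ∈ L ⊓ LinearMap.ker (LinearMap.proj i : (Fin M → ℂ) →ₗ[ℂ] ℂ)} := by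
    ext z
    constructor
    · rintro ⟨hz, hzi⟩
      refine ⟨L.sub_mem hz ha.1, ?_⟩
      change (z - a) i = 0
      rw [Pi.sub_apply, hzi, ha.2, sub_self]
    · rintro ⟨hz, hzi⟩
      have h2 : (z - a) i = 0 := hzi
      rw [Pi.sub_apply, ha.2, sub_eq_zero] at h2
      refine ⟨?_, h2⟩
      have h3 := L.add_mem hz ha.1
      rwa [sub_add_cancel] at h3
  rw [h1]
  exact (germ_flat _ a).2

section sys

variable {q p l : ℕ}

lemma finrank_sysL (t : Fin q → ℂ) : p + 2 ≤ Module.finrank ℂ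
    (sysL (p := p) t ⊓ LinearMap.ker (LinearMap.proj 0 : (Fin (q + p + 2 + 2) → ℂ) →ₗ[ℂ] ℂ) :
      Submodule ℂ (Fin (q + p + 2 + 2) → ℂ)) := by
  let f : (Fin p ⊕ Fin 2 → ℂ) →ₗ[ℂ]
      (sysL (p := p) t ⊓ LinearMap.ker (LinearMap.proj 0 : (Fin (q + p + 2 + 2) → ℂ) →ₗ[ℂ] ℂ) :
        Submodule ℂ (Fin (q + p + 2 + 2) → ℂ)) :=
    { toFun := fun x => ⟨mkC 0 (fun i => t i * x (.inr 0)) (fun i => x (.inl i))
        ![x (.inr 0), x (.inr 1), 0], mkC_mem_sysL t 0 _ _ _, rfl⟩
      map_add' := by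
        intro x y
        apply Subtype.ext
        funext i
        rcases cases_coord i with rfl | ⟨j, rfl⟩ | ⟨j, rfl⟩ | ⟨j, rfl⟩
        · simp [mkC_0]
        · simp [mkC_T, mul_add]
        · simp [mkC_U]
        · simp only [mkC_A, Submodule.coe_add, Pi.add_apply]
          fin_cases j <;> simp
      map_smul' := by
        intro c x
        apply Subtype.ext
        funext i
        rcases cases_coord i with rfl | ⟨j, rfl⟩ | ⟨j, rfl⟩ | ⟨j, rfl⟩
        · simp [mkC_0]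
        · simp only [mkC_T, Submodule.coe_smul, Pi.smul_apply, smul_eq_mul, RingHom.id_apply]
          ring
        · simp [mkC_U]
        · simp only [mkC_A, Submodule.coe_smul, Pi.smul_apply, smul_eq_mul, RingHom.id_apply]
          fin_cases j <;> simp }
  have hf : Function.Injective f := by
    intro x y hxy
    have hfx : ∀ (x : Fin p ⊕ Fin 2 → ℂ) i, (f x : Fin (q + p + 2 + 2) → ℂ) i =
        mkC 0 (fun i => t i * x (.inr 0)) (fun i => x (.inl i)) ![x (.inr 0), x (.inr 1), 0] i :=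
      fun _ _ => rfl
    have h1 : ∀ i, (f x : Fin (q + p + 2 + 2) → ℂ) i = (f y : Fin (q + p + 2 + 2) → ℂ) i :=
      fun i => by rw [hxy]
    funext i
    rcases i with i | i
    · have := h1 (cU i)
      rwa [hfx, hfx, mkC_U, mkC_U] at this
    · have h2 := h1 (cA 0)
      have h3 := h1 (cA 1)
      rw [hfx, hfx, mkC_A, mkC_A] at h2 h3
      fin_cases i
      · exact h2
      · exact h3
  have h1 := LinearMap.finrank_le_finrank_of_injective hf
  simpa using h1

/-- If the system has a solution, the variety is not Cohen-Macaulay at the solution point. -/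
theorem sys_notCM {h : Fin l → MvPolynomial (Fin q ⊕ Fin p) ℂ} {t : Fin q → ℂ} {u : Fin p → ℂ}
    (hu : ∀ j, eval (Sum.elim t u) (h j) = 0) : ¬ IsCM (Germ (sysY h t) (solPt t u)) := by
  set a := solPt t u with ha
  set Y := sysY h t with hYdef
  have haY : a ∈ Y := sysL_sub (solPt_mem t u)
  have hloc : IsLocalRing (Germ Y a) := germ_isLocal haY
  intro hCM
  -- the element vanishing on the linear component
  have hv0 : toGerm Y a (X (cA 2)) ≠ 0 := by
    intro h0
    obtain ⟨s, hs, h1⟩ := toGerm_eq_zero_iff.1 h0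
    apply hs
    apply vanish_line (v := Pi.single (cA 2) 1)
    intro c hc
    have h2 := h1 _ (line_mem hu c)
    rw [eval_X, Pi.add_apply, Pi.smul_apply, Pi.single_eq_same, smul_eq_mul, mul_one] at h2
    have h3 : solPt t u (cA 2) = 0 := by rw [solPt, mkC_A]; rfl
    rw [h3, zero_add] at h2
    exact (mul_eq_zero.1 h2).resolve_right hc
  obtain ⟨P, hP, hvP⟩ := exists_le_isAssociatedPrime_of_isNoetherianRing (Germ Y a) _ hv0
  have hPp : P.IsPrime := hP.isPrime
  have hP2 : ∃ y, y ≠ 0 ∧ ∀ b ∈ P, b * y = 0 := by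
    rw [isAssociatedPrime_iff] at hP
    obtain ⟨h1, y, rfl⟩ := hP
    refine ⟨y, ?_, fun b hb => ?_⟩
    · rintro rfl
      exact h1.ne_top (by simp)
    · simpa [Submodule.mem_colon_singleton] using hb
  have hdim := hCM.dim_le hPp hP2
  -- elements of the prime ideal
  have hmem : ∀ f : MvPolynomial (Fin (q + p + 2 + 2)) ℂ,
      (∀ z ∈ Y, eval z f * z (cA 2) = 0) → toGerm Y a f ∈ P := by
    intro f hf
    apply hvP
    rw [Submodule.mem_colon_singleton, smul_eq_mul, ← map_mul]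
    have : toGerm Y a (f * X (cA 2)) = 0 := by
      refine toGerm_eq_zero_iff.2 ⟨1, by simp, fun z hz => ?_⟩
      rw [map_one, one_mul, map_mul, eval_X]
      exact hf z hz
    rw [this]
    exact Submodule.zero_mem _
  have hgen : ∀ i, (∃ j, i = cU j) ∨ i = cA 2 ∨ toGerm Y a (X i - C (a i)) ∈ P := by
    intro i
    rcases cases_coord i with rfl | ⟨j, rfl⟩ | ⟨j, rfl⟩ | ⟨j, rfl⟩
    · right; right
      apply hmem
      intro z hz
      rw [map_sub, eval_X, eval_C, (mem_sysY.1 hz).1]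
      have : a 0 = 1 := rfl
      rw [this, sub_self, zero_mul]
    · right; right
      apply hmem
      intro z hz
      obtain ⟨e1, e2, e3, e4, e5⟩ := mem_sysY.1 hz
      have : a (cT j) = t j := by rw [ha, solPt, mkC_T, mul_one]
      rw [map_sub, eval_X, eval_C, this, e2]
      linear_combination t j * e3
    · left
      exact ⟨j, rfl⟩
    · right
      fin_cases j
      · right
        apply hmem
        intro z hz
        obtain ⟨e1, e2, e3, e4, e5⟩ := mem_sysY.1 hz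
        have : a (cA 0) = 1 := by rw [ha, solPt, mkC_A]; rfl
        simp only [Fin.zero_eta, Fin.isValue, map_sub, eval_X, eval_C, this]
        linear_combination e3
      · right
        apply hmem
        intro z hz
        obtain ⟨e1, e2, e3, e4, e5⟩ := mem_sysY.1 hz
        have : a (cA 1) = 0 := by rw [ha, solPt, mkC_A]; rfl
        simp only [Fin.mk_one, Fin.isValue, map_sub, eval_X, eval_C, this]
        linear_combination e4
      · left; rfl
  -- the dimension of the quotient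
  have hntS : Nontrivial (Germ Y a ⧸ P) := Ideal.Quotient.nontrivial_iff.2 hPp.ne_top
  have hlocS : IsLocalRing (Germ Y a ⧸ P) :=
    IsLocalRing.of_surjective' (Ideal.Quotient.mk _) Ideal.Quotient.mk_surjective
  let π : Germ Y a →+* Germ Y a ⧸ P := Ideal.Quotient.mk P
  let T : Option (Fin p) → Germ Y a ⧸ P := fun o =>
    o.elim (π (toGerm Y a (X (cA 2) - C (a (cA 2))))) fun j => π (toGerm Y a (X (cU j) - C (a (cU j))))
  have hlh : IsLocalHom π := IsLocalHom.of_surjective π Ideal.Quotient.mk_surjective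
  have hmax : maximalIdeal (Germ Y a ⧸ P) = Ideal.span (Set.range T) := by
    apply le_antisymm
    · intro s hs
      obtain ⟨r, rfl⟩ := Ideal.Quotient.mk_surjective s
      have hr : ¬ IsUnit r := by
        intro hru
        exact hs (hru.map π)
      have h1 := Ideal.mem_map_of_mem π (max_le_span hr)
      rw [Ideal.map_span] at h1
      refine (Ideal.span_le.2 ?_) h1
      rintro _ ⟨_, ⟨i, rfl⟩, rfl⟩
      rcases hgen i with ⟨j, rfl⟩ | rfl | h2
      · exact Ideal.subset_span ⟨some j, rfl⟩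
      · exact Ideal.subset_span ⟨none, rfl⟩
      · have : π (toGerm Y a (X i - C (a i))) = 0 := Ideal.Quotient.eq_zero_iff_mem.2 h2
        rw [this]
        exact Ideal.zero_mem _
    · rw [Ideal.span_le]
      have hnon : ∀ i, π (toGerm Y a (X i - C (a i))) ∈ maximalIdeal (Germ Y a ⧸ P) := by
        intro i
        rw [mem_maximalIdeal, mem_nonunits_iff, isUnit_map_iff, toGerm_unit_iff haY]
        simp
      rintro _ ⟨o, rfl⟩
      rcases o with _ | j
      · exact hnon _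
      · exact hnon _
  have hd1 : ringKrullDim (Germ Y a ⧸ P) ≤ ((p + 1 : ℕ) : WithBot ℕ∞) := by
    refine le_trans (ringKrullDim_le_spanFinrank_maximalIdeal _) ?_
    rw [hmax]
    have h1 : (Ideal.span (Set.range T)).spanFinrank ≤ (Set.range T).ncard :=
      Submodule.spanFinrank_span_le_ncard_of_finite (Set.finite_range T)
    have h2 : (Set.range T).ncard ≤ p + 1 := by
      rw [← Set.image_univ]
      refine le_trans (Set.ncard_image_le Set.finite_univ) ?_
      rw [Set.ncard_univ]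
      simp
    exact_mod_cast le_trans h1 h2
  have hd2 : ((p + 2 : ℕ) : WithBot ℕ∞) ≤ ringKrullDim (Germ Y a) := by
    refine le_trans ?_ (dim_le_of_subset (sysL_sub (h := h) (t := t)) a)
    rw [dim_linear (sysL t) (solPt_mem t u)]
    exact_mod_cast finrank_sysL t
  have hcon : ((p + 2 : ℕ) : WithBot ℕ∞) ≤ ((p + 1 : ℕ) : WithBot ℕ∞) :=
    le_trans hd2 (le_trans hdim hd1)
  have : p + 2 ≤ p + 1 := by exact_mod_cast hcon
  omega

/-- The closed cone over the variety of the system, in the main chart. -/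
lemma pcl_sysY (h : Fin l → MvPolynomial (Fin q ⊕ Fin p) ℂ) (t : Fin q → ℂ) :
    {z | z ∈ pcl (sysY h t) ∧ z 0 = 1} = sysY h t := by
  ext z
  constructor
  · rintro ⟨hz, h0⟩
    have hY : ∀ y ∈ sysY h t, y 0 = 1 := fun y hy => hy.1
    refine ⟨h0, fun i => ?_, fun j => ?_⟩
    · have := pcl_one hY (g := X (cT i) - C (t i) * X (cA 0)) (fun y hy => by
        rw [map_sub, map_mul, eval_X, eval_X, eval_C, hy.2.1 i, sub_self]) hz h0
      rw [map_sub, map_mul, eval_X, eval_X, eval_C, sub_eq_zero] at this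
      exact this
    · exact pcl_one hY (fun y hy => hy.2.2 j) hz h0
  · intro hz
    exact ⟨sub_pcl hz, hz.1⟩

/-- The charts of the projective variety attached to a system are Cohen-Macaulay if and only if
the system has no solution. -/
theorem sys_iff (h : Fin l → MvPolynomial (Fin q ⊕ Fin p) ℂ) (t : Fin q → ℂ) :
    ((∀ i, AffineCM {z | z ∈ pcl (sysY h t) ∧ z i = 1}) ↔
      ¬ ∃ u : Fin p → ℂ, ∀ j, eval (Sum.elim t u) (h j) = 0) ∧
    ((∀ i, AffineGor {z | z ∈ pcl (sysY h t) ∧ z i = 1}) ↔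
      ¬ ∃ u : Fin p → ℂ, ∀ j, eval (Sum.elim t u) (h j) = 0) := by
  have key : (∀ i, AffineCM {z | z ∈ pcl (sysY h t) ∧ z i = 1}) →
      ¬ ∃ u : Fin p → ℂ, ∀ j, eval (Sum.elim t u) (h j) = 0 := by
    rintro hCM ⟨u, hu⟩
    have h1 := hCM 0
    rw [pcl_sysY] at h1
    exact sys_notCM hu (h1 _ (sysL_sub (solPt_mem t u)))
  refine ⟨⟨key, fun hno i a ha => (sys_gor hno i a ha).1⟩,
    ⟨fun hG => key fun i a ha => (hG i a ha).1, fun hno i => sys_gor hno i⟩⟩

end sys

end

end Pool.Agent.Lib.MP_1e2f52_ag
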