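import Mathlib

/-!
# Every system of polynomial equations in terms of products of linear forms
-/

open MvPolynomial

namespace Pool.Agent.Lib.MP_1e2f52_ag

noncomputable section

variable {m D : ℕ}

/-- The exponent vector of a point of the box. -/
def toF (e : Fin m → Fin (D + 1)) : Fin m →₀ ℕ :=
  Finsupp.equivFunOnFinite.symm (fun i => (e i : ℕ))

lemma toF_apply (e : Fin m → Fin (D + 1)) (i : Fin m) : toF e i = e i := rfl

lemma eval_box {f : MvPolynomial (Fin m) ℂ} (hf : ∀ d ∈ f.support, ∀ i, d i ≤ D)
    (t : Fin m → ℂ) :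
    eval t f = ∑ e : Fin m → Fin (D + 1), coeff (toF e) f * ∏ i, t i ^ (e i : ℕ) := by
  rw [eval_eq']
  refine Finset.sum_of_injOn (fun d i => (⟨min (d i) D, by omega⟩ : Fin (D + 1))) ?_ ?_ ?_ ?_
  · intro d hd d' hd' h
    ext i
    have h1 := congrArg Fin.val (congrFun h i)
    simp only at h1
    have h2 := hf d hd i
    have h3 := hf d' hd' i
    omega
  · intro d _
    exact Finset.mem_univ _
  · intro e _ he
    rw [mul_eq_zero]
    left
    by_contra hne
    apply he
    refine ⟨toF e, mem_support_iff.2 hne, ?_⟩
    funext i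
    apply Fin.ext
    simp only [toF_apply]
    have := (e i).isLt
    omega
  · intro d hd
    have : toF (fun i => (⟨min (d i) D, by omega⟩ : Fin (D + 1))) = d := by
      ext i
      rw [toF_apply]
      exact min_eq_left (hf d hd i)
    rw [this]
    congr 1
    refine Finset.prod_congr rfl fun i _ => ?_
    simp only
    rw [min_eq_left (hf d hd i)]

/-- The exponent vectors in the box. -/
abbrev Box (m D : ℕ) : Type := Fin m → Fin (D + 1)

/-- The index set of the relations. -/
abbrev Rel (m D n : ℕ) : Type := (Box m D × Box m D) ⊕ Unit ⊕ Fin n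

/-- The truncated sum of two exponent vectors. -/
def addBox (e e' : Box m D) : Box m D := fun i => ⟨min (e i + e' i) D, by omega⟩

/-- Two nonzero exponent vectors whose sum stays in the box. -/
def Good (e e' : Box m D) : Prop := e ≠ 0 ∧ e' ≠ 0 ∧ ∀ i, (e i : ℕ) + e' i ≤ D

open Classical in
/-- First linear forms. -/
def muF {n : ℕ} : Rel m D n → Box m D → ℂ
  | .inl (e, e'), f => if Good e e' ∧ f = e then 1 else 0
  | _, _ => 0

open Classical in
/-- Second linear forms. -/
def nuF {n : ℕ} : Rel m D n → Box m D → ℂ
  | .inl (e, e'), f => if Good e e' ∧ f = e' then 1 else 0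
  | _, _ => 0

open Classical in
/-- Third linear forms. -/
def lamF {n : ℕ} (F : Fin n → MvPolynomial (Fin m) ℂ) : Rel m D n → Box m D → ℂ
  | .inl (e, e'), f => if Good e e' ∧ f = addBox e e' then 1 else 0
  | .inr (.inl _), f => if f = 0 then 1 else 0
  | .inr (.inr j), f => if f = 0 then 0 else coeff (toF f) (F j)

open Classical in
/-- The monomials, with the constant one replaced by zero. -/
def zF (t : Fin m → ℂ) (e : Box m D) : ℂ := if e = 0 then 0 else ∏ i, t i ^ (e i : ℕ)

lemma sum_lam_poly {n : ℕ} {F : Fin n → MvPolynomial (Fin m) ℂ}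
    (hF : ∀ j, ∀ d ∈ (F j).support, ∀ i, d i ≤ D) (t : Fin m → ℂ) (j : Fin n) :
    ∑ e : Box m D, lamF F (.inr (.inr j)) e * zF t e = eval t (F j) - coeff 0 (F j) := by
  classical
  rw [eval_box (hF j) t, ← Finset.add_sum_erase _ _ (Finset.mem_univ (0 : Box m D)),
    ← Finset.add_sum_erase _ _ (Finset.mem_univ (0 : Box m D))]
  have h0 : toF (0 : Box m D) = 0 := by ext i; simp [toF_apply]
  simp only [lamF, zF, if_true, zero_mul, zero_add, h0]
  have h1 : ∏ i, t i ^ (((0 : Box m D) i : Fin (D + 1)) : ℕ) = 1 := by simp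
  rw [h1, mul_one, add_sub_cancel_left]
  refine Finset.sum_congr rfl fun e he => ?_
  rw [if_neg (Finset.ne_of_mem_erase he), if_neg (Finset.ne_of_mem_erase he)]

lemma sum_ite_form (z : Box m D → ℂ) (p : Prop) [Decidable p] (e : Box m D) :
    ∑ f : Box m D, (if p ∧ f = e then (1 : ℂ) else 0) * z f = if p then z e else 0 := by
  classical
  by_cases hp : p
  · simp [hp]
  · simp [hp]

lemma zF_add {t : Fin m → ℂ} {e e' : Box m D} (h : Good e e') :
    zF t e * zF t e' = zF t (addBox e e') := by
  classical
  have h1 : addBox e e' ≠ 0 := by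
    intro h0
    apply h.1
    funext i
    have h2 := congrArg Fin.val (congrFun h0 i)
    simp only [addBox, Pi.zero_apply, Fin.val_zero] at h2
    have h3 := h.2.2 i
    apply Fin.ext
    rw [Pi.zero_apply, Fin.val_zero]
    omega
  rw [zF, zF, zF, if_neg h.1, if_neg h.2.1, if_neg h1, ← Finset.prod_mul_distrib]
  refine Finset.prod_congr rfl fun i _ => ?_
  have h3 := h.2.2 i
  simp only [addBox]
  rw [min_eq_left h3, pow_add]

/-- Points give solutions of the system. -/
lemma zF_rel {n : ℕ} {F : Fin n → MvPolynomial (Fin m) ℂ}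
    (hF : ∀ j, ∀ d ∈ (F j).support, ∀ i, d i ≤ D) (h0 : ∀ j, coeff 0 (F j) = 0)
    {t : Fin m → ℂ} (ht : ∀ j, eval t (F j) = 0) (c : Rel m D n) :
    (∑ e, muF c e * zF t e) * (∑ e, nuF c e * zF t e) = ∑ e, lamF F c e * zF t e := by
  classical
  rcases c with ⟨e, e'⟩ | ⟨⟩ | j
  · simp only [muF, nuF, lamF]
    rw [sum_ite_form, sum_ite_form, sum_ite_form]
    by_cases hg : Good e e'
    · rw [if_pos hg, if_pos hg, if_pos hg, zF_add hg]
    · simp only [if_neg hg, zero_mul]
  · have h1 : ∑ e : Box m D, lamF F (.inr (.inl ())) e * zF t e = 0 := by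
      refine Finset.sum_eq_zero fun e _ => ?_
      by_cases he : e = 0
      · simp [zF, he]
      · simp [lamF, he]
    rw [h1]
    simp [muF]
  · rw [sum_lam_poly hF, ht, h0]
    simp [muF, nuF]

/-- The unit vectors of the box. -/
def unitV (hD : 1 ≤ D) (i : Fin m) : Box m D := fun j => if j = i then ⟨1, by omega⟩ else 0

lemma unitV_ne (hD : 1 ≤ D) (i : Fin m) : unitV hD i ≠ 0 := by
  intro h
  have := congrArg Fin.val (congrFun h i)
  simp [unitV] at this

lemma zF_unit (hD : 1 ≤ D) (t : Fin m → ℂ) (i : Fin m) : zF t (unitV hD i) = t i := by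
  classical
  rw [zF, if_neg (unitV_ne hD i), Finset.prod_eq_single i]
  · simp [unitV]
  · intro j _ hj
    simp [unitV, hj]
  · simp

/-- Solutions of the system are given by points. -/
lemma eq_zF {n : ℕ} {F : Fin n → MvPolynomial (Fin m) ℂ} (hD : 1 ≤ D)
    {z : Box m D → ℂ}
    (hz : ∀ c : Rel m D n, (∑ e, muF c e * z e) * (∑ e, nuF c e * z e) = ∑ e, lamF F c e * z e) :
    z = zF (fun i => z (unitV hD i)) := by
  classical
  have h0 : z 0 = 0 := by
    have := hz (.inr (.inl ()))
    simpa [muF, nuF, lamF] using this.symm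
  have hadd : ∀ e e', Good e e' → z e * z e' = z (addBox e e') := by
    intro e e' hg
    have := hz (.inl (e, e'))
    simp only [muF, nuF, lamF] at this
    rw [sum_ite_form, sum_ite_form, sum_ite_form, if_pos hg, if_pos hg, if_pos hg] at this
    exact this
  have key : ∀ (k : ℕ) (e : Box m D), ∑ i, (e i : ℕ) = k → z e = zF (fun i => z (unitV hD i)) e := by
    intro k
    induction k using Nat.strong_induction_on with
    | _ k ih =>
      intro e he
      by_cases h : e = 0
      · subst h; rw [h0, zF, if_pos rfl]
      · obtain ⟨i, hi⟩ : ∃ i, e i ≠ 0 := by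
          by_contra hcon
          push Not at hcon
          exact h (funext hcon)
        have hi' : 1 ≤ (e i : ℕ) := by
          rcases Nat.eq_zero_or_pos (e i : ℕ) with h1 | h1
          · exact absurd (Fin.ext h1) hi
          · exact h1
        by_cases hu : e = unitV hD i
        · subst hu
          rw [zF_unit]
        · let e' : Box m D := fun j => ⟨(e j : ℕ) - (unitV hD i j : ℕ), by omega⟩
          have hsum : ∀ j, (unitV hD i j : ℕ) + (e' j : ℕ) = e j := by
            intro j
            simp only [e']
            by_cases hj : j = i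
            · subst hj
              simp only [unitV, if_true]
              omega
            · simp [unitV, hj]
          have he' : e' ≠ 0 := by
            intro h1
            apply hu
            funext j
            apply Fin.ext
            rw [← hsum j, h1]
            simp
          have hg : Good (unitV hD i) e' := by
            refine ⟨unitV_ne hD i, he', fun j => ?_⟩
            rw [hsum]
            have := (e j).isLt
            omega
          have hadd' : addBox (unitV hD i) e' = e := by
            funext j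
            apply Fin.ext
            simp only [addBox]
            rw [hsum]
            have := (e j).isLt
            omega
          have hlt : ∑ j, (e' j : ℕ) < k := by
            rw [← he]
            refine Finset.sum_lt_sum (fun j _ => ?_) ⟨i, Finset.mem_univ _, ?_⟩
            · have := hsum j; omega
            · have := hsum i
              have h2 : (unitV hD i i : ℕ) = 1 := by simp [unitV]
              omega
          rw [← hadd', ← hadd _ _ hg, ← zF_add hg, zF_unit, ih _ hlt e' rfl]
  funext e
  exact key _ e rfl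

/-- The polynomials giving the monomials. -/
def zPoly (e : Box m D) : MvPolynomial (Fin m) ℂ :=
  open Classical in if e = 0 then 0 else ∏ i, X i ^ (e i : ℕ)

lemma eval_zPoly (t : Fin m → ℂ) (e : Box m D) : eval t (zPoly e) = zF t e := by
  classical
  rw [zPoly, zF]
  split_ifs
  · simp
  · simp

/-- Every algebraic set through the origin is given by a system of equations
`(linear form) * (linear form) = linear form`. -/
theorem exists_system (m n : ℕ) (F : Fin n → MvPolynomial (Fin m) ℂ)
    (h0 : ∀ j, eval 0 (F j) = 0) :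
    ∃ (r s : ℕ) (μ ν lam : Fin r → Fin s → ℂ) (zp : Fin s → MvPolynomial (Fin m) ℂ)
      (τ : Fin m → Fin s),
      (∀ t : Fin m → ℂ, (∀ j, eval t (F j) = 0) → ∀ c, (∑ e, μ c e * eval t (zp e)) *
        (∑ e, ν c e * eval t (zp e)) = ∑ e, lam c e * eval t (zp e)) ∧
      (∀ z : Fin s → ℂ, (∀ c, (∑ e, μ c e * z e) * (∑ e, ν c e * z e) = ∑ e, lam c e * z e) →
        (∀ j, eval (fun i => z (τ i)) (F j) = 0) ∧
          ∀ e, eval (fun i => z (τ i)) (zp e) = z e) ∧
      (∀ t : Fin m → ℂ, ∀ i, eval t (zp (τ i)) = t i) := by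
  classical
  obtain ⟨D, hD, hF⟩ : ∃ D : ℕ, 1 ≤ D ∧ ∀ j, ∀ d ∈ (F j).support, ∀ i, d i ≤ D := by
    refine ⟨1 + ∑ j, (F j).totalDegree, by omega, fun j d hd i => ?_⟩
    have h1 : (d.sum fun _ k => k) ≤ (F j).totalDegree := le_totalDegree hd
    have h2 : d i ≤ d.sum fun _ k => k := by
      by_cases hi : i ∈ d.support
      · exact Finset.single_le_sum (f := fun i => d i) (fun _ _ => Nat.zero_le _) hi
      · rw [Finsupp.notMem_support_iff.1 hi]; exact Nat.zero_le _
    have h3 : (F j).totalDegree ≤ ∑ j, (F j).totalDegree :=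
      Finset.single_le_sum (f := fun j => (F j).totalDegree) (fun _ _ => Nat.zero_le _)
        (Finset.mem_univ j)
    omega
  have h0' : ∀ j, coeff 0 (F j) = 0 := by
    intro j
    have h1 := sum_lam_poly hF 0 j
    rw [h0 j, zero_sub] at h1
    have h2 : ∑ e : Box m D, lamF F (.inr (.inr j)) e * zF 0 e = 0 := by
      refine Finset.sum_eq_zero fun e _ => ?_
      by_cases he : e = 0
      · simp [zF, he]
      · obtain ⟨i, hi⟩ : ∃ i, e i ≠ 0 := by
          by_contra hcon
          push Not at hcon
          exact he (funext hcon)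
        have : zF (0 : Fin m → ℂ) e = 0 := by
          rw [zF, if_neg he]
          refine Finset.prod_eq_zero (Finset.mem_univ i) ?_
          have : (e i : ℕ) ≠ 0 := fun h => hi (Fin.ext h)
          simp [this]
        rw [this, mul_zero]
    rw [h2] at h1
    exact neg_eq_zero.1 h1.symm
  let eI := (Fintype.equivFin (Box m D))
  let eC := (Fintype.equivFin (Rel m D n))
  refine ⟨Fintype.card (Rel m D n), Fintype.card (Box m D), fun c e => muF (eC.symm c) (eI.symm e),
    fun c e => nuF (eC.symm c) (eI.symm e), fun c e => lamF F (eC.symm c) (eI.symm e),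
    fun e => zPoly (eI.symm e), fun i => eI (unitV hD i), ?_, ?_, ?_⟩
  · intro t ht c
    have := zF_rel hF h0' ht (eC.symm c)
    simp only [eval_zPoly]
    rw [← Equiv.sum_comp eI.symm, ← Equiv.sum_comp eI.symm, ← Equiv.sum_comp eI.symm] at this
    exact this
  · intro z hz
    have hz' : ∀ c : Rel m D n, (∑ e, muF c e * z (eI e)) * (∑ e, nuF c e * z (eI e)) =
        ∑ e, lamF F c e * z (eI e) := by
      intro c
      have := hz (eC c)
      rw [← Equiv.sum_comp eI, ← Equiv.sum_comp eI, ← Equiv.sum_comp eI] at this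
      simpa using this
    have h1 := eq_zF (F := F) (z := fun e => z (eI e)) hD hz'
    obtain ⟨t, ht⟩ : ∃ t : Fin m → ℂ, t = fun i => z (eI (unitV hD i)) := ⟨_, rfl⟩
    have h2 : ∀ e, z (eI e) = zF t e := fun e => by rw [ht]; exact congrFun h1 e
    rw [← ht]
    constructor
    · intro j
      have h3 := hz' (.inr (.inr j))
      have h4 : ∑ e : Box m D, lamF F (.inr (.inr j)) e * z (eI e) = 0 := by
        rw [← h3]; simp [muF]
      simp only [h2] at h4
      have h5 := sum_lam_poly hF t j
      rw [h4, h0', sub_zero] at h5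
      exact h5.symm
    · intro e
      rw [eval_zPoly, ← h2, Equiv.apply_symm_apply]
  · intro t i
    simp only [Equiv.symm_apply_apply]
    rw [eval_zPoly, zF_unit]

end

end Pool.Agent.Lib.MP_1e2f52_ag
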