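import Pool.Agent.Lib.MP_1e2f52_ag.CM
import Pool.Agent.Lib.MP_1e2f52_ag.Cell
import Pool.Agent.Lib.MP_1e2f52_ag.Gadget
import Pool.Agent.Lib.MP_1e2f52_ag.Mono

/-!
# Every affine variety is, up to an affine space factor, a Springer Schubert cell
-/

open MvPolynomial Matrix

namespace Pool.Agent.Lib.MP_1e2f52_ag

noncomputable section

/-! ### Polynomial isomorphisms -/

lemma PolyIso.symm {σ τ : Type} {V : Set (σ → ℂ)} {W : Set (τ → ℂ)} (h : PolyIso V W) :
    PolyIso W V := by
  obtain ⟨F, G, hF, hG⟩ := h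
  exact ⟨G, F, hG, hF⟩

lemma PolyIso.trans {σ τ υ : Type} {V : Set (σ → ℂ)} {W : Set (τ → ℂ)} {Z : Set (υ → ℂ)}
    (h1 : PolyIso V W) (h2 : PolyIso W Z) : PolyIso V Z := by
  obtain ⟨F, G, hF, hG⟩ := h1
  obtain ⟨F', G', hF', hG'⟩ := h2
  refine ⟨fun i => bind₁ F (F' i), fun i => bind₁ G' (G i), ?_, ?_⟩
  · intro a ha
    obtain ⟨h1, h2⟩ := hF a ha
    obtain ⟨h3, h4⟩ := hF' _ h1
    simp only [eval_bind]
    refine ⟨h3, ?_⟩
    rw [h4]
    exact h2
  · intro b hb
    obtain ⟨h1, h2⟩ := hG' b hb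
    obtain ⟨h3, h4⟩ := hG _ h1
    simp only [eval_bind]
    refine ⟨h3, ?_⟩
    rw [h4]
    exact h2

/-! ### Auxiliary facts about the gadget -/

namespace P

variable {r s : ℕ} {μ ν lam : Fin r → Fin s → ℂ}

lemma map_sol {R S : Type*} [CommRing R] [Algebra ℂ R] [CommRing S] [Algebra ℂ S] (φ : R →+* S)
    (hφ : ∀ c, φ (algebraMap ℂ R c) = algebraMap ℂ S c) (z : Fin s → R) (f : P r s → P r s → R)
    (p p' : P r s) : φ (sol μ ν lam z f p p') =
      sol μ ν lam (fun e => φ (z e)) (fun p p' => φ (f p p')) p p' := by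
  rw [sol, sol, Matrix.add_apply, Matrix.add_apply, map_add]
  congr 1
  · cases p <;> cases p' <;> first | exact map_zero φ | rfl |
      (simp only [base]; split_ifs <;> simp [map_sum, map_mul, hφ])
  · rw [fr, fr]
    split_ifs
    · rfl
    · exact map_zero φ

lemma sol_u_v {R : Type*} [CommRing R] [Algebra ℂ R] (z : Fin s → R) (f : P r s → P r s → R)
    (e : Fin s) : sol μ ν lam z f (u e) v = z e := by
  have h : fr f (u e) v = 0 := if_neg fun h => h.1
  rw [sol, Matrix.add_apply, h, add_zero]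
  rfl

lemma sol_free {R : Type*} [CommRing R] [Algebra ℂ R] (z : Fin s → R) (f : P r s → P r s → R)
    {p p' : P r s} (h : Free p p') : sol μ ν lam z f p p' = f p p' := by
  have h1 : fr f p p' = f p p' := if_pos h
  have h2 : base μ ν lam z p p' = 0 := by
    obtain ⟨hw, ht, -⟩ := h
    cases p <;> first | exact hw.elim | (cases p' <;> first | exact ht.elim | rfl)
  rw [sol, Matrix.add_apply, h1, h2, zero_add]

lemma sol_congr {R : Type*} [CommRing R] [Algebra ℂ R] {z z' : Fin s → R}
    {f f' : P r s → P r s → R} (hz : ∀ e, z e = z' e) (hf : ∀ p p', Free p p' → f p p' = f' p p') :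
    sol μ ν lam z f = sol μ ν lam z' f' := by
  have h1 : z = z' := funext hz
  subst h1
  ext p p'
  rw [sol, sol, Matrix.add_apply, Matrix.add_apply, fr, fr]
  congr 1
  split_ifs with h
  · exact hf p p' h
  · rfl

end P

lemma exists_rank {α : Type} [Fintype α] (x : α → ℕ) (hx : Function.Injective x) :
    ∃ e : α ≃ Fin (Fintype.card α), ∀ a b, x a < x b ↔ e a < e b := by
  let _ := LinearOrder.lift' x hx
  let e := (Fintype.orderIsoFinOfCardEq α rfl).symm
  refine ⟨e.toEquiv, fun a b => ?_⟩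
  exact (e.lt_iff_lt (x := a) (y := b)).symm

lemma diag_zero {n : ℕ} {M : Matrix (Fin n) (Fin n) ℂ} (hM : IsUpper M) (h3 : M * M * M = 0)
    (i : Fin n) : M i i = 0 := by
  have hd : ∀ {A B : Matrix (Fin n) (Fin n) ℂ}, IsUpper A → IsUpper B →
      (A * B) i i = A i i * B i i := by
    intro A B hA hB
    rw [Matrix.mul_apply, Finset.sum_eq_single i]
    · intro j _ hj
      rcases lt_or_gt_of_ne hj with h | h
      · rw [hA i j h, zero_mul]
      · rw [hB j i h, mul_zero]
    · simp
  have h1 := congrFun (congrFun h3 i) i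
  rw [hd (isUpper_mul hM hM) hM, hd hM hM] at h1
  have h2 : M i i ^ 3 = 0 := by
    rw [pow_succ, pow_two]; exact h1
  exact pow_eq_zero_iff (by norm_num) |>.1 h2

lemma springer_cube {n : ℕ} {X g : Matrix (Fin n) (Fin n) ℂ} (hX : X * X * X = 0)
    (hg : IsUnit g.det) : (g⁻¹ * X * g) * (g⁻¹ * X * g) * (g⁻¹ * X * g) = 0 := by
  have h1 : (g⁻¹ * X * g) * (g⁻¹ * X * g) * (g⁻¹ * X * g) =
      g⁻¹ * (X * (g * g⁻¹) * X * (g * g⁻¹) * X) * g := by
    simp only [Matrix.mul_assoc]
  rw [h1, Matrix.mul_nonsing_inv _ hg, Matrix.mul_one, Matrix.mul_one, hX, Matrix.mul_zero,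
    Matrix.zero_mul]

/-! ### The nilpotent matrix of the gadget -/

section core

variable {r s : ℕ} (μ ν lam : Fin r → Fin s → ℂ)

/-- Size of the gadget. -/
abbrev NN (r s : ℕ) : ℕ := Fintype.card (P r s)

variable (ex ey : P r s ≃ Fin (NN r s))

/-- The nilpotent matrix of the gadget. -/
def XX : Matrix (Fin (NN r s + NN r s)) (Fin (NN r s + NN r s)) ℂ :=
  blk ((P.N1 μ ν lam).submatrix ex.symm ex.symm) 0
    ((1 : Matrix (P r s) (P r s) ℂ).submatrix ey.symm ex.symm)
    ((P.N2 : Matrix (P r s) (P r s) ℂ).submatrix ey.symm ey.symm)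

lemma XX_cube : XX μ ν lam ex ey * XX μ ν lam ex ey * XX μ ν lam ex ey = 0 := by
  refine blk_cube ?_ ?_ ?_
  · rw [Matrix.submatrix_mul_equiv, P.N1_sq]; rfl
  · rw [Matrix.submatrix_mul_equiv, P.N2_sq]; rfl
  · rw [Matrix.submatrix_mul_equiv, Matrix.submatrix_mul_equiv, Matrix.mul_one, P.N2_N1]; rfl

variable {ex ey} (hx : ∀ p p', P.x p < P.x p' ↔ ex p < ex p')
  (hy : ∀ p p', P.y p < P.y p' ↔ ey p < ey p')

include hx hy in
lemma rep_iff (Q : Matrix (P r s) (P r s) ℂ) :
    rep (Q.submatrix ex.symm ey.symm) ∈ springer (XX μ ν lam ex ey) ↔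
      (∀ p p', Q p p' ≠ 0 → P.Lt p p') ∧ Q * Q = P.N1 μ ν lam * Q - Q * P.N2 := by
  have e1 : ∀ M : Matrix (P r s) (P r s) ℂ, IsUpper (M.submatrix ey.symm ey.symm) ↔
      ∀ p p', P.y p' < P.y p → M p p' = 0 := by
    intro M
    constructor
    · intro h p p' hp
      have := h (ey p) (ey p') ((hy _ _).1 hp)
      simpa using this
    · intro h i j hij
      refine h _ _ ((hy _ _).2 ?_)
      simpa using hij
  have e2 : ∀ M : Matrix (P r s) (P r s) ℂ, IsUpper (M.submatrix ex.symm ex.symm) ↔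
      ∀ p p', P.x p' < P.x p → M p p' = 0 := by
    intro M
    constructor
    · intro h p p' hp
      have := h (ex p) (ex p') ((hx _ _).1 hp)
      simpa using this
    · intro h i j hij
      refine h _ _ ((hx _ _).2 ?_)
      simpa using hij
  have e3 : ∀ M : Matrix (P r s) (P r s) ℂ, M.submatrix ex.symm ey.symm = 0 ↔ M = 0 := by
    intro M
    constructor
    · intro h
      ext p p'
      have := congrFun (congrFun h (ex p)) (ey p')
      simpa using this
    · rintro rfl
      rfl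
  have s1 : (1 : Matrix (P r s) (P r s) ℂ).submatrix ey.symm ex.symm *
      Q.submatrix ex.symm ey.symm + (P.N2 : Matrix (P r s) (P r s) ℂ).submatrix ey.symm ey.symm =
      (Q + P.N2).submatrix ey.symm ey.symm := by
    rw [Matrix.submatrix_mul_equiv, Matrix.one_mul]; rfl
  have s2 : (P.N1 μ ν lam).submatrix ex.symm ex.symm - Q.submatrix ex.symm ey.symm *
      (1 : Matrix (P r s) (P r s) ℂ).submatrix ey.symm ex.symm =
      (P.N1 μ ν lam - Q).submatrix ex.symm ex.symm := by
    rw [Matrix.submatrix_mul_equiv, Matrix.mul_one]; rfl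
  have s3 : ((P.N1 μ ν lam).submatrix ex.symm ex.symm - Q.submatrix ex.symm ey.symm *
      (1 : Matrix (P r s) (P r s) ℂ).submatrix ey.symm ex.symm) * Q.submatrix ex.symm ey.symm -
      Q.submatrix ex.symm ey.symm * (P.N2 : Matrix (P r s) (P r s) ℂ).submatrix ey.symm ey.symm =
      ((P.N1 μ ν lam - Q) * Q - Q * P.N2).submatrix ex.symm ey.symm := by
    rw [s2, Matrix.submatrix_mul_equiv, Matrix.submatrix_mul_equiv]; rfl
  constructor
  · intro h
    have hcube := springer_cube (XX_cube μ ν lam ex ey) h.1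
    have hdiag := diag_zero h.2 hcube
    obtain ⟨h1, h2, h3⟩ := rep_mem_springer.1 h
    rw [s3, e3] at h2
    rw [s1] at h1
    rw [s2] at h3
    have h4 := (e1 _).1 h1
    have h5 := (e2 _).1 h3
    have h6 : ∀ p, Q p p = 0 := by
      intro p
      have h7 : (rep (Q.submatrix ex.symm ey.symm))⁻¹ * XX μ ν lam ex ey *
          rep (Q.submatrix ex.symm ey.symm) = blk ((Q + P.N2).submatrix ey.symm ey.symm)
          ((1 : Matrix (P r s) (P r s) ℂ).submatrix ey.symm ex.symm) 0
          ((P.N1 μ ν lam - Q).submatrix ex.symm ex.symm) := by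
        rw [XX, rep_conj, s1, s3, s2, h2]; rfl
      have h8 := hdiag (Fin.castAdd _ (ey p))
      rw [h7, blk_11, Matrix.submatrix_apply, Equiv.symm_apply_apply, Matrix.add_apply] at h8
      have h9 : (P.N2 : Matrix (P r s) (P r s) ℂ) p p = 0 := by
        by_contra hcon
        exact lt_irrefl _ (P.N2_supp p p hcon)
      rw [h9, add_zero] at h8
      exact h8
    refine ⟨fun p p' hne => ?_, ?_⟩
    · have hnx : ¬ P.x p' < P.x p := by
        intro hlt
        have h7 := h5 p p' hlt
        rw [Matrix.sub_apply] at h7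
        have h8 : P.N1 μ ν lam p p' = 0 := by
          by_contra hcon
          exact lt_asymm hlt (P.N1_supp p p' hcon)
        rw [h8, zero_sub, neg_eq_zero] at h7
        exact hne h7
      have hny : ¬ P.y p' < P.y p := by
        intro hlt
        have h7 := h4 p p' hlt
        rw [Matrix.add_apply] at h7
        have h8 : (P.N2 : Matrix (P r s) (P r s) ℂ) p p' = 0 := by
          by_contra hcon
          exact lt_asymm hlt (P.N2_supp p p' hcon)
        rw [h8, add_zero] at h7
        exact hne h7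
      have hpp : p ≠ p' := by
        rintro rfl
        exact hne (h6 p)
      exact ⟨lt_of_le_of_ne (not_lt.1 hnx) fun h => hpp (P.x_inj h),
        lt_of_le_of_ne (not_lt.1 hny) fun h => hpp (P.y_inj h)⟩
    · rw [sub_mul] at h2
      have : Q * Q = P.N1 μ ν lam * Q - Q * P.N2 -
          (P.N1 μ ν lam * Q - Q * Q - Q * P.N2) := by abel
      rw [this, h2, sub_zero]
  · rintro ⟨hS, hE⟩
    refine rep_mem_springer.2 ⟨?_, ?_, ?_⟩
    · rw [s1, e1]
      intro p p' hp
      rw [Matrix.add_apply]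
      have h1 : Q p p' = 0 := by
        by_contra hcon
        exact lt_asymm hp (hS p p' hcon).2
      have h2 : (P.N2 : Matrix (P r s) (P r s) ℂ) p p' = 0 := by
        by_contra hcon
        exact lt_asymm hp (P.N2_supp p p' hcon)
      rw [h1, h2, add_zero]
    · rw [s3, e3, sub_mul, hE]
      abel
    · rw [s2, e2]
      intro p p' hp
      rw [Matrix.sub_apply]
      have h1 : Q p p' = 0 := by
        by_contra hcon
        exact lt_asymm hp (hS p p' hcon).1
      have h2 : P.N1 μ ν lam p p' = 0 := by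
        by_contra hcon
        exact lt_asymm hp (P.N1_supp p p' hcon)
      rw [h1, h2, sub_zero]

/-- The position of an entry of `Q` in the unipotent matrix. -/
def pos (ex ey : P r s ≃ Fin (NN r s)) (p p' : P r s) : Low (NN r s + NN r s) :=
  ⟨(Fin.natAdd _ (ex p), Fin.castAdd _ (ey p')), castAdd_lt_natAdd _ _⟩

lemma unip_pos (a : Low (NN r s + NN r s) → ℂ) (p p' : P r s) :
    a (pos ex ey p p') = unip a (Fin.natAdd _ (ex p)) (Fin.castAdd _ (ey p')) := by
  rw [unip, dif_pos (castAdd_lt_natAdd _ _)]; rfl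

lemma unip_inj {n : ℕ} {a a' : Low n → ℂ} (h : unip a = unip a') : a = a' := by
  funext ij
  have h1 := congrFun (congrFun h ij.1.1) ij.1.2
  rw [unip, unip, dif_pos ij.2, dif_pos ij.2] at h1
  exact h1

lemma unip_eq_blk {N : ℕ} {a : Low (N + N) → ℂ} {Q : Matrix (Fin N) (Fin N) ℂ}
    (h : ∀ ij : Low (N + N), a ij = blk 1 0 Q 1 ij.1.1 ij.1.2) : unip a = blk 1 0 Q 1 := by
  ext i j
  rw [unip]
  split_ifs with h1 h2
  · exact h _
  · subst h2
    refine Fin.addCases (fun i => ?_) (fun i => ?_) i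
    · rw [blk_11, Matrix.one_apply_eq]
    · rw [blk_22, Matrix.one_apply_eq]
  · have h3 : i < j := lt_of_le_of_ne (not_lt.1 h1) h2
    clear h1 h2
    revert h3
    refine Fin.addCases (fun i => ?_) (fun i => ?_) i <;>
      refine Fin.addCases (fun j => ?_) (fun j => ?_) j <;> intro h3
    · rw [blk_11, Matrix.one_apply_ne ((castAdd_lt_castAdd_iff _ _).1 h3).ne]
    · rw [blk_12]; rfl
    · exact absurd h3 (castAdd_lt_natAdd _ _).not_gt
    · rw [blk_22, Matrix.one_apply_ne ((natAdd_lt_natAdd_iff _ _).1 h3).ne]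

end core

section final

variable {m n : ℕ} {F : Fin n → MvPolynomial (Fin m) ℂ} {r s : ℕ} {μ ν lam : Fin r → Fin s → ℂ}
  {zp : Fin s → MvPolynomial (Fin m) ℂ} {τ : Fin m → Fin s}
  {ex ey : P r s ≃ Fin (NN r s)}

/-- The positions of the free entries as a type. -/
abbrev FreeT (r s : ℕ) : Type := {pp : P r s × P r s // P.Free pp.1 pp.2}

/-- The generic solution over the polynomial ring. -/
def genSol (μ ν lam : Fin r → Fin s → ℂ) (zp : Fin s → MvPolynomial (Fin m) ℂ) {k : ℕ}
    (eK : FreeT r s ≃ Fin k) : Matrix (P r s) (P r s) (MvPolynomial (Fin m ⊕ Fin k) ℂ) :=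
  P.sol μ ν lam (fun e => rename Sum.inl (zp e))
    (fun p p' => if h : P.Free p p' then X (Sum.inr (eK ⟨(p, p'), h⟩)) else 0)

/-- The solution at a point. -/
def solAt (μ ν lam : Fin r → Fin s → ℂ) (zp : Fin s → MvPolynomial (Fin m) ℂ) {k : ℕ}
    (eK : FreeT r s ≃ Fin k) (b : Fin m ⊕ Fin k → ℂ) : Matrix (P r s) (P r s) ℂ :=
  P.sol μ ν lam (fun e => eval (fun i => b (Sum.inl i)) (zp e))
    (fun p p' => if h : P.Free p p' then b (Sum.inr (eK ⟨(p, p'), h⟩)) else 0)

lemma eval_genSol {k : ℕ} (eK : FreeT r s ≃ Fin k) (b : Fin m ⊕ Fin k → ℂ) (p p' : P r s) :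
    eval b (genSol μ ν lam zp eK p p') = solAt μ ν lam zp eK b p p' := by
  rw [genSol, P.map_sol (eval b) (fun c => by simp), solAt]
  refine congrFun (congrFun (P.sol_congr (fun e => ?_) (fun p p' h => ?_)) p) p'
  · exact eval_rename _ _ _
  · rw [dif_pos h, dif_pos h, eval_X]

theorem polyIso_core (hx : ∀ p p', P.x p < P.x p' ↔ ex p < ex p')
    (hy : ∀ p p', P.y p < P.y p' ↔ ey p < ey p')
    (h1 : ∀ t : Fin m → ℂ, (∀ j, eval t (F j) = 0) → ∀ c, (∑ e, μ c e * eval t (zp e)) *
        (∑ e, ν c e * eval t (zp e)) = ∑ e, lam c e * eval t (zp e))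
    (h2 : ∀ z : Fin s → ℂ, (∀ c, (∑ e, μ c e * z e) * (∑ e, ν c e * z e) =
        ∑ e, lam c e * z e) → (∀ j, eval (fun i => z (τ i)) (F j) = 0) ∧
          ∀ e, eval (fun i => z (τ i)) (zp e) = z e)
    (h3 : ∀ t : Fin m → ℂ, ∀ i, eval t (zp (τ i)) = t i) {k : ℕ} (eK : FreeT r s ≃ Fin k) :
    PolyIso (chart (XX μ ν lam ex ey) (flip (NN r s)) (permMat (flip (NN r s))))
      (cyl {t : Fin m → ℂ | ∀ j, eval t (F j) = 0} (Fin k)) := by
  let Fw : Fin m ⊕ Fin k → MvPolynomial (Low (NN r s + NN r s)) ℂ := fun i =>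
    match i with
    | .inl i => X (pos ex ey (P.u (τ i)) P.v)
    | .inr j => X (pos ex ey (eK.symm j).1.1 (eK.symm j).1.2)
  let Gw : Low (NN r s + NN r s) → MvPolynomial (Fin m ⊕ Fin k) ℂ := fun ij =>
    Fin.addCases (fun _ => 0) (fun i => Fin.addCases
      (fun j => genSol μ ν lam zp eK (ex.symm i) (ey.symm j)) (fun _ => 0) ij.1.2) ij.1.1
  -- the unipotent matrix attached to a point
  have hG : ∀ b : Fin m ⊕ Fin k → ℂ, unip (fun ij => eval b (Gw ij)) =
      blk 1 0 ((solAt μ ν lam zp eK b).submatrix ex.symm ey.symm) 1 := by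
    intro b
    apply unip_eq_blk
    rintro ⟨⟨i, j⟩, hij⟩
    revert hij
    refine Fin.addCases (fun i => ?_) (fun i => ?_) i <;>
      refine Fin.addCases (fun j => ?_) (fun j => ?_) j <;> intro hij
    · have hlt := (castAdd_lt_castAdd_iff _ _).1 hij
      simp only [Gw, Fin.addCases_left, map_zero]
      rw [blk_11, Matrix.one_apply_ne hlt.ne']
    · exact absurd hij (castAdd_lt_natAdd _ _).not_gt
    · simp only [Gw, Fin.addCases_left, Fin.addCases_right]
      rw [blk_21, eval_genSol]; rfl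
    · have hlt := (natAdd_lt_natAdd_iff _ _).1 hij
      simp only [Gw, Fin.addCases_right, map_zero]
      rw [blk_22, Matrix.one_apply_ne hlt.ne']
  refine ⟨Fw, Gw, ?_, ?_⟩
  · intro a ha
    obtain ⟨Q', hQ', hsp⟩ := chart_iff.1 ha
    obtain ⟨Q, rfl⟩ : ∃ Q : Matrix (P r s) (P r s) ℂ, Q' = Q.submatrix ex.symm ey.symm := by
      refine ⟨Q'.submatrix ex ey, ?_⟩
      ext i j
      simp
    obtain ⟨hS, hE⟩ := (rep_iff μ ν lam hx hy Q).1 hsp
    have hpos : ∀ p p', a (pos ex ey p p') = Q p p' := by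
      intro p p'
      have := unip_pos (ex := ex) (ey := ey) a p p'
      rw [hQ', blk_21] at this
      simpa using this
    have hrel := P.sol_rel hS hE
    obtain ⟨h4, h5⟩ := h2 (fun e => Q (P.u e) P.v) hrel
    have hb1 : ∀ i, eval a (Fw (Sum.inl i)) = Q (P.u (τ i)) P.v := fun i => by
      simp only [Fw, eval_X]; exact hpos _ _
    have hb2 : ∀ j, eval a (Fw (Sum.inr j)) = Q (eK.symm j).1.1 (eK.symm j).1.2 := fun j => by
      simp only [Fw, eval_X]; exact hpos _ _
    constructor
    · change (fun i => eval a (Fw (Sum.inl i))) ∈ {t : Fin m → ℂ | ∀ j, eval t (F j) = 0}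
      simp only [hb1]
      exact h4
    · apply unip_inj
      rw [hG, hQ']
      congr 2
      rw [solAt]
      conv_rhs => rw [P.sol_unique hS hE]
      refine P.sol_congr (fun e => ?_) (fun p p' h => ?_)
      · simp only [hb1]
        exact h5 e
      · rw [dif_pos h, hb2]
        simp
  · intro b hb
    have hb' : ∀ j, eval (fun i => b (Sum.inl i)) (F j) = 0 := hb
    have hrel := h1 _ hb'
    have hE := P.sol_eq (z := fun e => eval (fun i => b (Sum.inl i)) (zp e))
      (fun p p' => if h : P.Free p p' then b (Sum.inr (eK ⟨(p, p'), h⟩)) else 0) hrel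
    have hS := P.sol_supp (μ := μ) (ν := ν) (lam := lam)
      (z := fun e => eval (fun i => b (Sum.inl i)) (zp e))
      (fun p p' => if h : P.Free p p' then b (Sum.inr (eK ⟨(p, p'), h⟩)) else 0)
    have hpos : ∀ p p', eval b (Gw (pos ex ey p p')) = solAt μ ν lam zp eK b p p' := by
      intro p p'
      have := unip_pos (ex := ex) (ey := ey) (fun ij => eval b (Gw ij)) p p'
      rw [hG, blk_21] at this
      simpa using this
    constructor
    · refine chart_iff.2 ⟨_, hG b, ?_⟩
      exact (rep_iff μ ν lam hx hy _).2 ⟨hS, hE⟩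
    · funext i
      rcases i with i | j
      · simp only [Fw, eval_X]
        rw [hpos, solAt, P.sol_u_v, h3]
      · simp only [Fw, eval_X]
        rw [hpos, solAt, P.sol_free _ _ (eK.symm j).2, dif_pos (eK.symm j).2]
        simp

end final

lemma XX_mem {r s : ℕ} {μ ν lam : Fin r → Fin s → ℂ} {ex ey : P r s ≃ Fin (NN r s)}
    (hx : ∀ p p', P.x p < P.x p' ↔ ex p < ex p')
    (hy : ∀ p p', P.y p < P.y p' ↔ ey p < ey p') :
    permMat (flip (NN r s)) ∈ springer (XX μ ν lam ex ey) := by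
  have h : permMat (flip (NN r s)) = rep ((0 : Matrix (P r s) (P r s) ℂ).submatrix
      ex.symm ey.symm) := by
    rw [permMat_flip]; rfl
  rw [h, rep_iff μ ν lam hx hy]
  refine ⟨fun p p' hne => absurd rfl hne, by simp⟩

/-- Translations. -/
lemma polyIso_translate {m k : ℕ} (Y : Set (Fin m → ℂ)) (y : Fin m → ℂ) :
    PolyIso (cyl {t : Fin m → ℂ | (fun i => t i + y i) ∈ Y} (Fin k)) (cyl Y (Fin k)) := by
  refine ⟨fun i => match i with
    | .inl i => X (Sum.inl i) + C (y i)
    | .inr j => X (Sum.inr j), fun i => match i with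
    | .inl i => X (Sum.inl i) - C (y i)
    | .inr j => X (Sum.inr j), ?_, ?_⟩
  · intro a ha
    constructor
    · change (fun i => eval a (X (Sum.inl i) + C (y i))) ∈ Y
      simp only [eval_X, eval_C, map_add]
      exact ha
    · funext i
      rcases i with i | j <;> simp
  · intro b hb
    constructor
    · change (fun i => eval b (X (Sum.inl i) - C (y i)) + y i) ∈ Y
      simp only [eval_X, eval_C, map_sub, sub_add_cancel]
      exact hb
    · funext i
      rcases i with i | j <;> simp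

/-- **Universality.**  For every nonempty Zariski closed subset `Y` of affine space there are a
nilpotent matrix `A` with `A ^ 3 = 0` and an integer `k` such that, for the Grassmannian
permutation `w` of `2 N` letters exchanging the two halves, the closure of the Springer Schubert
cell is isomorphic to `Y × 𝔸^k` in the chart at `w`. -/
theorem murphy {m : ℕ} (J : Ideal (MvPolynomial (Fin m) ℂ))
    (hJ : (zeroLocus ℂ J).Nonempty) :
    ∃ (N k : ℕ) (A : Matrix (Fin (N + N)) (Fin (N + N)) ℂ),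
      A * A * A = 0 ∧ permMat (flip N) ∈ springer A ∧
      PolyIso (chart A (flip N) (permMat (flip N))) (cyl (zeroLocus ℂ J) (Fin k)) := by
  obtain ⟨y, hy0⟩ := hJ
  obtain ⟨T, hT⟩ : J.FG := IsNoetherian.noetherian J
  let n := T.card
  let g : Fin n → MvPolynomial (Fin m) ℂ := fun j => (T.equivFin.symm j : MvPolynomial (Fin m) ℂ)
  have hg : ∀ t : Fin m → ℂ, t ∈ zeroLocus ℂ J ↔ ∀ j, eval t (g j) = 0 := by
    intro t
    constructor
    · intro ht j
      exact ht _ (hT ▸ Ideal.subset_span (T.equivFin.symm j).2)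
    · intro ht
      rw [← hT, zeroLocus_span]
      intro p hp
      have := ht (T.equivFin ⟨p, hp⟩)
      simpa [g] using this
  let F : Fin n → MvPolynomial (Fin m) ℂ := fun j => bind₁ (fun i => X i + C (y i)) (g j)
  have hF : ∀ (t : Fin m → ℂ) j, eval t (F j) = eval (fun i => t i + y i) (g j) := by
    intro t j
    simp only [F]
    rw [eval_bind]
    simp
  have hF0 : ∀ j, eval 0 (F j) = 0 := by
    intro j
    rw [hF]
    simpa using (hg y).1 hy0 j
  obtain ⟨r, s, μ, ν, lam, zp, τ, h1, h2, h3⟩ := exists_system m n F hF0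
  obtain ⟨ex, hx⟩ := exists_rank (P.x : P r s → ℕ) P.x_inj
  obtain ⟨ey, hy⟩ := exists_rank (P.y : P r s → ℕ) P.y_inj
  let eK := Fintype.equivFin (FreeT r s)
  refine ⟨NN r s, Fintype.card (FreeT r s), XX μ ν lam ex ey, XX_cube μ ν lam ex ey,
    XX_mem hx hy, ?_⟩
  have e1 := polyIso_core hx hy h1 h2 h3 eK
  have e2 := polyIso_translate (k := Fintype.card (FreeT r s)) (zeroLocus ℂ J) y
  have e3 : {t : Fin m → ℂ | (fun i => t i + y i) ∈ zeroLocus ℂ J} =
      {t : Fin m → ℂ | ∀ j, eval t (F j) = 0} := by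
    ext t
    simp only [Set.mem_ofPred_eq, hg, hF]
  rw [e3] at e2
  exact e1.trans e2

end

end Pool.Agent.Lib.MP_1e2f52_ag
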