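import Pool.Agent.Lib.MP_1e2f52_ag.UnivCM

/-!
# Families of Springer Schubert cells depending affinely on parameters
-/

open MvPolynomial Matrix

namespace Pool.Agent.Lib.MP_1e2f52_ag

noncomputable section

/-! ### The matrices at each level -/

/-- An invertible matrix with three prescribed rows. -/
def Gm {N : ℕ} (o1 o3 o2 κ : Fin N) (φ1 φ2 φ3 : Fin N → ℂ) : Matrix (Fin N) (Fin N) ℂ := fun i =>
  if i = o3 then φ1 else if i = o2 then φ2 else if i = o1 then φ3 else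
    Pi.single (Equiv.swap κ o3 i) 1

section Gm

variable {N : ℕ} {o1 o3 o2 κ : Fin N} (h13 : o1 ≠ o3) (h12 : o1 ≠ o2) (h32 : o3 ≠ o2)
  {φ1 φ2 φ3 : Fin N → ℂ}

lemma Gm_o3 : Gm o1 o3 o2 κ φ1 φ2 φ3 o3 = φ1 := by simp [Gm]

include h32 in
lemma Gm_o2 : Gm o1 o3 o2 κ φ1 φ2 φ3 o2 = φ2 := by simp [Gm, h32.symm]

include h13 h12 in
lemma Gm_o1 : Gm o1 o3 o2 κ φ1 φ2 φ3 o1 = φ3 := by simp [Gm, h13, h12]

lemma Gm_other {i : Fin N} (e1 : i ≠ o3) (e2 : i ≠ o2) (e3 : i ≠ o1) :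
    Gm o1 o3 o2 κ φ1 φ2 φ3 i = Pi.single (Equiv.swap κ o3 i) 1 := by
  simp [Gm, e1, e2, e3]

include h13 h12 h32 in
lemma Gm_det (hκ : φ1 κ ≠ 0) (h1 : φ1 o1 = 0) (h2 : φ1 o2 = 0)
    (hd : φ3 o1 * φ2 o2 - φ3 o2 * φ2 o1 ≠ 0) : IsUnit (Gm o1 o3 o2 κ φ1 φ2 φ3).det := by
  have hκ1 : κ ≠ o1 := by rintro rfl; exact hκ h1
  have hκ2 : κ ≠ o2 := by rintro rfl; exact hκ h2
  set G := Gm o1 o3 o2 κ φ1 φ2 φ3 with hG
  let s : Equiv.Perm (Fin N) := Equiv.swap κ o3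
  have hs1 : s o1 = o1 := Equiv.swap_apply_of_ne_of_ne hκ1.symm h13
  have hs2 : s o2 = o2 := Equiv.swap_apply_of_ne_of_ne hκ2.symm h32.symm
  have hs3 : s o3 = κ := Equiv.swap_apply_right _ _
  have g3 : G o3 = φ1 := Gm_o3
  have g2 : G o2 = φ2 := Gm_o2 h32
  have g1 : G o1 = φ3 := Gm_o1 h13 h12
  have gi : ∀ i, i ≠ o3 → i ≠ o2 → i ≠ o1 → G i = Pi.single (s i) 1 :=
    fun i e1 e2 e3 => Gm_other e1 e2 e3
  rw [← Matrix.isUnit_iff_isUnit_det, ← Matrix.mulVec_injective_iff_isUnit,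
    ← Matrix.coe_mulVecLin, ← LinearMap.ker_eq_bot, LinearMap.ker_eq_bot']
  intro x hx
  rw [Matrix.mulVecLin_apply] at hx
  have hrow : ∀ i, G i ⬝ᵥ x = 0 := fun i => congrFun hx i
  have e1 : ∀ j, j ≠ κ → j ≠ o1 → j ≠ o2 → x j = 0 := by
    intro j j1 j2 j3
    have := hrow (s.symm j)
    rw [gi, single_one_dotProduct, Equiv.apply_symm_apply] at this
    · exact this
    · intro h; apply j1; rw [← hs3, ← h, Equiv.apply_symm_apply]
    · intro h; apply j3; rw [← hs2, ← h, Equiv.apply_symm_apply]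
    · intro h; apply j2; rw [← hs1, ← h, Equiv.apply_symm_apply]
  have e2 : x κ = 0 := by
    have := hrow o3
    rw [g3, dotProduct, Finset.sum_eq_single κ] at this
    · exact (mul_eq_zero.1 this).resolve_left hκ
    · intro j _ hj
      by_cases j2 : j = o1
      · rw [j2, h1, zero_mul]
      by_cases j3 : j = o2
      · rw [j3, h2, zero_mul]
      rw [e1 j hj j2 j3, mul_zero]
    · intro h; exact absurd (Finset.mem_univ _) h
  have e3 : ∀ φ : Fin N → ℂ, φ ⬝ᵥ x = φ o1 * x o1 + φ o2 * x o2 := by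
    intro φ
    rw [dotProduct, ← Finset.sum_pair (f := fun i => φ i * x i) h12]
    symm
    apply Finset.sum_subset (Finset.subset_univ _)
    intro j _ hj
    rw [Finset.mem_insert, Finset.mem_singleton, not_or] at hj
    by_cases j1 : j = κ
    · rw [j1, e2, mul_zero]
    · rw [e1 j j1 hj.1 hj.2, mul_zero]
  have e4 := hrow o2
  have e5 := hrow o1
  rw [g2, e3] at e4
  rw [g1, e3] at e5
  have e6 : x o1 = 0 := by
    have : (φ3 o1 * φ2 o2 - φ3 o2 * φ2 o1) * x o1 = 0 := by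
      linear_combination φ2 o2 * e5 - φ3 o2 * e4
    exact (mul_eq_zero.1 this).resolve_left hd
  have e7 : x o2 = 0 := by
    have : (φ3 o1 * φ2 o2 - φ3 o2 * φ2 o1) * x o2 = 0 := by
      linear_combination φ3 o1 * e4 - φ2 o1 * e5
    exact (mul_eq_zero.1 this).resolve_left hd
  funext j
  by_cases j1 : j = κ
  · rw [j1, e2]; rfl
  by_cases j2 : j = o1
  · rw [j2, e6]; rfl
  by_cases j3 : j = o2
  · rw [j3, e7]; rfl
  exact e1 j j1 j2 j3

include h13 h32 in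
lemma Gm_J (hκ : φ1 κ ≠ 0) (h1 : φ1 o1 = 0) (h2 : φ1 o2 = 0) (i : Fin N) (i1 : i ≠ o1)
    (i2 : i ≠ o2) : Gm o1 o3 o2 κ φ1 φ2 φ3 i o1 = 0 ∧ Gm o1 o3 o2 κ φ1 φ2 φ3 i o2 = 0 := by
  have hκ1 : κ ≠ o1 := by rintro rfl; exact hκ h1
  have hκ2 : κ ≠ o2 := by rintro rfl; exact hκ h2
  have hs1 : Equiv.swap κ o3 o1 = o1 := Equiv.swap_apply_of_ne_of_ne hκ1.symm h13
  have hs2 : Equiv.swap κ o3 o2 = o2 := Equiv.swap_apply_of_ne_of_ne hκ2.symm h32.symm
  by_cases i3 : i = o3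
  · rw [i3, Gm_o3]; exact ⟨h1, h2⟩
  · rw [Gm_other i3 i2 i1]
    constructor
    · apply Pi.single_eq_of_ne
      intro h
      apply i1
      apply (Equiv.swap κ o3).injective
      rw [hs1]; exact h.symm
    · apply Pi.single_eq_of_ne
      intro h
      apply i2
      apply (Equiv.swap κ o3).injective
      rw [hs2]; exact h.symm

include h13 h12 h32 in
/-- The inverse of the matrix depends affinely on a parameter. -/
lemma Gm_inv {κ' : Fin N} (hκ : φ1 κ ≠ 0) (h1 : φ1 o1 = 0) (h2 : φ1 o2 = 0)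
    (hd : φ3 o1 * φ2 o2 - φ3 o2 * φ2 o1 ≠ 0) (k0 : κ' ≠ κ) (k1 : κ' ≠ o1) (k2 : κ' ≠ o2) (a : ℂ) :
    (Gm o1 o3 o2 κ (φ1 - a • Pi.single κ' 1) φ2 φ3)⁻¹ = (Gm o1 o3 o2 κ φ1 φ2 φ3)⁻¹ +
      a • ((Gm o1 o3 o2 κ φ1 φ2 φ3)⁻¹ * Matrix.single o3 (Equiv.swap κ o3 κ') 1) := by
  have hκ1 : κ ≠ o1 := by rintro rfl; exact hκ h1
  have hκ2 : κ ≠ o2 := by rintro rfl; exact hκ h2
  have hs1 : Equiv.swap κ o3 o1 = o1 := Equiv.swap_apply_of_ne_of_ne hκ1.symm h13
  have hs2 : Equiv.swap κ o3 o2 = o2 := Equiv.swap_apply_of_ne_of_ne hκ2.symm h32.symm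
  have hs3 : Equiv.swap κ o3 o3 = κ := Equiv.swap_apply_right _ _
  set G0 := Gm o1 o3 o2 κ φ1 φ2 φ3 with hG0
  have hu : IsUnit G0.det := Gm_det h13 h12 h32 hκ h1 h2 hd
  set i2 := Equiv.swap κ o3 κ' with hi2
  have hsi : Equiv.swap κ o3 i2 = κ' := by rw [hi2, Equiv.swap_apply_self]
  have n3 : i2 ≠ o3 := by
    intro h; apply k0; rw [← hsi, h, hs3]
  have n1 : i2 ≠ o1 := by
    intro h; apply k1; rw [← hsi, h, hs1]
  have n2 : i2 ≠ o2 := by
    intro h; apply k2; rw [← hsi, h, hs2]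
  have hrow : G0 i2 = Pi.single κ' 1 := by
    rw [hG0, Gm_other n3 n2 n1, hsi]
  have hSS : (Matrix.single o3 i2 (1 : ℂ)) * (Matrix.single o3 i2 1) = 0 :=
    Matrix.single_mul_single_of_ne _ _ _ _ n3 _
  have hG : Gm o1 o3 o2 κ (φ1 - a • Pi.single κ' 1) φ2 φ3 =
      (1 - a • Matrix.single o3 i2 1) * G0 := by
    have hprod : (1 - a • Matrix.single o3 i2 (1 : ℂ)) * G0 =
        G0 - a • (Matrix.single o3 i2 1 * G0) := by
      rw [Matrix.sub_mul, Matrix.one_mul, Matrix.smul_mul]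
    rw [hprod]
    ext i j
    rw [Matrix.sub_apply, Matrix.smul_apply]
    by_cases hi : i = o3
    · rw [hi, Matrix.single_mul_apply_same, one_mul, hrow, Gm_o3, hG0, Gm_o3]
      rfl
    · rw [Matrix.single_mul_apply_of_ne _ _ _ _ _ hi, smul_zero, sub_zero, hG0]
      simp only [Gm, if_neg hi]
  rw [hG]
  apply Matrix.inv_eq_right_inv
  have h3 : (1 - a • Matrix.single o3 i2 (1 : ℂ)) * (1 + a • Matrix.single o3 i2 1) = 1 := by
    rw [Matrix.sub_mul, Matrix.one_mul, Matrix.smul_mul, Matrix.mul_add, Matrix.mul_one,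
      Matrix.mul_smul, hSS, smul_zero, add_zero, add_sub_cancel_right]
  have h4 : G0⁻¹ + a • (G0⁻¹ * Matrix.single o3 i2 1) = G0⁻¹ * (1 + a • Matrix.single o3 i2 1) := by
    rw [Matrix.mul_add, Matrix.mul_one, Matrix.mul_smul]
  rw [h4, Matrix.mul_assoc, ← Matrix.mul_assoc G0, Matrix.mul_nonsing_inv _ hu, Matrix.one_mul, h3]

end Gm

/-! ### Affine functions -/

/-- An affine function. -/
def AffFn {q : ℕ} (f : (Fin q → ℂ) → ℂ) : Prop :=
  ∃ (a0 : ℂ) (a : Fin q → ℂ), ∀ t, f t = a0 + ∑ i, t i * a i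

section aff

variable {q : ℕ} {f g : (Fin q → ℂ) → ℂ}

lemma AffFn.const (c : ℂ) : AffFn (fun _ : Fin q → ℂ => c) := ⟨c, 0, fun t => by simp⟩

lemma AffFn.coord (i : Fin q) : AffFn (fun t : Fin q → ℂ => t i) :=
  ⟨0, Pi.single i 1, fun t => by simp [Pi.single_apply]⟩

lemma AffFn.add (hf : AffFn f) (hg : AffFn g) : AffFn (fun t => f t + g t) := by
  obtain ⟨a0, a, ha⟩ := hf
  obtain ⟨b0, b, hb⟩ := hg
  refine ⟨a0 + b0, a + b, fun t => ?_⟩
  change f t + g t = _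
  rw [ha, hb]
  simp only [Pi.add_apply, mul_add, Finset.sum_add_distrib]
  ring

lemma AffFn.mul_const (hf : AffFn f) (c : ℂ) : AffFn (fun t => f t * c) := by
  obtain ⟨a0, a, ha⟩ := hf
  refine ⟨a0 * c, fun i => a i * c, fun t => ?_⟩
  change f t * c = _
  rw [ha, add_mul, Finset.sum_mul]
  simp only [mul_assoc]

lemma AffFn.const_mul (c : ℂ) (hf : AffFn f) : AffFn (fun t => c * f t) := by
  have := hf.mul_const c
  simpa only [mul_comm] using this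

lemma AffFn.sum {ι : Type} (s : Finset ι) {F : ι → (Fin q → ℂ) → ℂ}
    (h : ∀ i ∈ s, AffFn (F i)) : AffFn (fun t => ∑ i ∈ s, F i t) := by
  classical
  induction s using Finset.induction_on with
  | empty => simpa using AffFn.const 0
  | insert i s hi ih =>
    simp only [Finset.sum_insert hi]
    exact (h i (Finset.mem_insert_self _ _)).add
      (ih fun j hj => h j (Finset.mem_insert_of_mem hj))

lemma AffFn.congr (hf : AffFn f) (h : ∀ t, f t = g t) : AffFn g := by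
  have : f = g := funext h
  rwa [← this]

end aff

end

end Pool.Agent.Lib.MP_1e2f52_ag
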