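import Pool.Agent.Lib.MP_1e2f52_ag.Par

/-!
# The family of data attached to a family of equations
-/

open MvPolynomial Matrix

namespace Pool.Agent.Lib.MP_1e2f52_ag

noncomputable section

/-! ### Closed cones generated by affine varieties -/

section pcl

variable {M : ℕ}

/-- The affine cone over the projective closure of the subset `Y` of the hyperplane `z 0 = 1`. -/
def pcl (Y : Set (Fin M → ℂ)) : Set (Fin M → ℂ) :=
  {z | ∀ p : MvPolynomial (Fin M) ℂ, (∀ a : ℂ, a ≠ 0 → ∀ y ∈ Y, eval (a • y) p = 0) →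
    eval z p = 0}

variable {Y : Set (Fin M → ℂ)}

lemma smul_mem_pcl {a : ℂ} (ha : a ≠ 0) {y : Fin M → ℂ} (hy : y ∈ Y) : a • y ∈ pcl Y :=
  fun _ hp => hp a ha y hy

lemma sub_pcl {y : Fin M → ℂ} (hy : y ∈ Y) : y ∈ pcl Y := by
  have := smul_mem_pcl one_ne_zero hy
  rwa [one_smul] at this

lemma pcl_closed (z : Fin M → ℂ)
    (h : ∀ p : MvPolynomial (Fin M) ℂ, (∀ z' ∈ pcl Y, eval z' p = 0) → eval z p = 0) :
    z ∈ pcl Y := fun p hp => h p fun _ hz' => hz' p hp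

lemma eval_scale (a : ℂ) (z : Fin M → ℂ) (p : MvPolynomial (Fin M) ℂ) :
    eval z (bind₁ (fun i => C a * X i) p) = eval (a • z) p := by
  rw [eval_bind]
  congr 2
  funext i
  simp

lemma pcl_cone {z : Fin M → ℂ} (hz : z ∈ pcl Y) (c : ℂ) : c • z ∈ pcl Y := by
  have key : ∀ c : ℂ, c ≠ 0 → c • z ∈ pcl Y := by
    intro c hc p hp
    rw [← eval_scale]
    apply hz
    intro a ha y hy
    rw [eval_scale, smul_smul]
    exact hp _ (mul_ne_zero hc ha) y hy
  by_cases hc : c = 0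
  · intro p hp
    have h1 : Polynomial.X * toLine z p = 0 := by
      apply Polynomial.funext
      intro b
      rw [Polynomial.eval_mul, Polynomial.eval_X, eval_toLine, Polynomial.eval_zero]
      by_cases hb : b = 0
      · rw [hb, zero_mul]
      · rw [key b hb p hp, mul_zero]
    have h2 : toLine z p = 0 := (mul_eq_zero.1 h1).resolve_left Polynomial.X_ne_zero
    rw [← eval_toLine, h2, Polynomial.eval_zero]
  · exact key c hc

/-- A form of degree `d`. -/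
def frm {d : ℕ} (c : (Fin d → Fin M) → ℂ) (z : Fin M → ℂ) : ℂ := ∑ τ, c τ * ∏ x, z (τ x)

lemma frm_smul {d : ℕ} (c : (Fin d → Fin M) → ℂ) (a : ℂ) (z : Fin M → ℂ) :
    frm c (a • z) = a ^ d * frm c z := by
  rw [frm, frm, Finset.mul_sum]
  refine Finset.sum_congr rfl fun τ _ => ?_
  simp only [Pi.smul_apply, smul_eq_mul, Finset.prod_mul_distrib, Finset.prod_const,
    Finset.card_univ, Fintype.card_fin]
  ring

lemma frm_eval {d : ℕ} (c : (Fin d → Fin M) → ℂ) (z : Fin M → ℂ) :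
    eval z (∑ τ, C (c τ) * ∏ x, X (τ x)) = frm c z := by
  rw [frm, map_sum]
  refine Finset.sum_congr rfl fun τ _ => ?_
  rw [map_mul, eval_C, map_prod]
  simp

lemma frm_pcl {d : ℕ} {c : (Fin d → Fin M) → ℂ} (hc : ∀ y ∈ Y, frm c y = 0) {z : Fin M → ℂ}
    (hz : z ∈ pcl Y) : frm c z = 0 := by
  rw [← frm_eval]
  apply hz
  intro a _ y hy
  rw [frm_eval, frm_smul, hc y hy, mul_zero]

end pcl

/-- The affine variety of the equations. -/
def Yaff {m d s : ℕ} (c : Fin s → (Fin (d + 1) → Fin (m + 2)) → ℂ) : Set (Fin (m + 2) → ℂ) :=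
  {z | z 0 = 1 ∧ ∀ l, frm (c l) z = 0}

lemma pcl_Yaff_frm {m d s : ℕ} {c : Fin s → (Fin (d + 1) → Fin (m + 2)) → ℂ}
    {z : Fin (m + 2) → ℂ} (hz : z ∈ pcl (Yaff c)) (l : Fin s) : frm (c l) z = 0 :=
  frm_pcl (fun _ hy => hy.2 l) hz

lemma pcl_Yaff_one {m d s : ℕ} {c : Fin s → (Fin (d + 1) → Fin (m + 2)) → ℂ}
    {z : Fin (m + 2) → ℂ} : (z ∈ pcl (Yaff c) ∧ z 0 = 1) ↔ z ∈ Yaff c :=
  ⟨fun h => ⟨h.2, fun l => pcl_Yaff_frm h.1 l⟩, fun h => ⟨sub_pcl h, h.1⟩⟩

lemma pcl_dense {m : ℕ} {Y : Set (Fin (m + 2) → ℂ)} (hY : ∀ y ∈ Y, y 0 = 1)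
    (p : MvPolynomial (Fin (m + 2)) ℂ) (h : ∀ z ∈ pcl Y, z 0 ≠ 0 → eval z p = 0) :
    ∀ z ∈ pcl Y, eval z p = 0 := by
  intro z hz
  apply hz
  intro a ha y hy
  apply h _ (smul_mem_pcl ha hy)
  rw [Pi.smul_apply, hY y hy, smul_eq_mul, mul_one]
  exact ha

/-- The pivot coordinates of the relations. -/
def kap {m d s N : ℕ} (e : ((Fin (d + 1) → Fin (m + 2)) ⊕ Fin (m + 2)) ≃ Fin N)
    (κ0 : Fin s → Fin (d + 1) → Fin (m + 2)) {P : Fin s → Prop} : Rl m d s P → Fin N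
  | .inl j => e (.inr j.1)
  | .inr (.inl τ) => e (.inl τ.1)
  | .inr (.inr (.inl (_, _, j))) => e (.inr j.1)
  | .inr (.inr (.inr l)) => e (.inl (κ0 l.1))

lemma f1_kap {m d s N : ℕ} {e : ((Fin (d + 1) → Fin (m + 2)) ⊕ Fin (m + 2)) ≃ Fin N}
    {κ0 : Fin s → Fin (d + 1) → Fin (m + 2)} {P : Fin s → Prop}
    {c : Fin s → (Fin (d + 1) → Fin (m + 2)) → ℂ} (hP : ∀ l, P l → c l (κ0 l) ≠ 0)
    (k : Rl m d s P) : f1 e c k (kap e κ0 k) ≠ 0 := by
  rcases k with j | τ | ⟨τ, x, j⟩ | l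
  · simp [f1, kap]
  · simp [f1, kap]
  · simp [f1, kap]
  · have := hP l.1 l.2
    simpa [f1, kap, Pi.single_apply, Finset.sum_apply] using this

section fam

variable {m d s q N : ℕ} {e : ((Fin (d + 1) → Fin (m + 2)) ⊕ Fin (m + 2)) ≃ Fin N}
  {c : (Fin q → ℂ) → Fin s → (Fin (d + 1) → Fin (m + 2)) → ℂ} {P : Fin s → Prop}
  {κ0 : Fin s → Fin (d + 1) → Fin (m + 2)}

/-- The equation with index `l` is constant or has one coefficient depending on a parameter. -/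
def AffEq (c : (Fin q → ℂ) → Fin s → (Fin (d + 1) → Fin (m + 2)) → ℂ)
    (κ0 : Fin s → Fin (d + 1) → Fin (m + 2)) (l : Fin s) : Prop :=
  (∀ t, c t l = c 0 l) ∨ ∃ (i : Fin q) (κ2 : Fin (d + 1) → Fin (m + 2)), κ2 ≠ κ0 l ∧
    κ2 ≠ (fun _ => 0) ∧ ∀ t, c t l = Pi.single (κ0 l) 1 - t i • Pi.single κ2 1

/-- The entries of the level matrices and of their inverses are affine functions. -/
lemma aff_Gm {o1 o3 o2 : Fin N} (h13 : o1 ≠ o3) (h12 : o1 ≠ o2) (h32 : o3 ≠ o2)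
    (he1 : e (.inl fun _ => 0) = o1) (he2 : e (.inr 0) = o2)
    (hP : ∀ t l, P l → c t l (κ0 l) ≠ 0) (h0 : ∀ t l, c t l (fun _ => 0) = 0)
    (haff : ∀ l, P l → AffEq c κ0 l) (ρ : Rl m d s P) (i j : Fin N) :
    AffFn (fun t => Gm o1 o3 o2 (kap e κ0 ρ) (f1 e (c t) ρ) (f2 e ρ) (f3 e ρ) i j) ∧
    AffFn (fun t => (Gm o1 o3 o2 (kap e κ0 ρ) (f1 e (c t) ρ) (f2 e ρ) (f3 e ρ))⁻¹ i j) := by
  have hconst : (∀ t, f1 e (c t) ρ = f1 e (c 0) ρ) →
      AffFn (fun t => Gm o1 o3 o2 (kap e κ0 ρ) (f1 e (c t) ρ) (f2 e ρ) (f3 e ρ) i j) ∧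
      AffFn (fun t => (Gm o1 o3 o2 (kap e κ0 ρ) (f1 e (c t) ρ) (f2 e ρ) (f3 e ρ))⁻¹ i j) := by
    intro h
    constructor
    · exact (AffFn.const (Gm o1 o3 o2 (kap e κ0 ρ) (f1 e (c 0) ρ) (f2 e ρ) (f3 e ρ) i j)).congr
        fun t => by rw [h t]
    · exact (AffFn.const
        ((Gm o1 o3 o2 (kap e κ0 ρ) (f1 e (c 0) ρ) (f2 e ρ) (f3 e ρ))⁻¹ i j)).congr
        fun t => by rw [h t]
  rcases ρ with j' | τ | ⟨τ, x, j'⟩ | l
  · exact hconst fun t => rfl
  · exact hconst fun t => rfl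
  · exact hconst fun t => rfl
  · rcases haff l.1 l.2 with h | ⟨i0, κ2, hκ2, hκ20, h⟩
    · refine hconst fun t => ?_
      simp only [f1]
      rw [h t]
    · have hf : ∀ t, f1 e (c t) (.inr (.inr (.inr l)) : Rl m d s P) =
          Pi.single (e (.inl (κ0 l.1))) 1 - t i0 • Pi.single (e (.inl κ2)) 1 := by
        intro t
        simp only [f1]
        rw [h t]
        simp only [Pi.sub_apply, Pi.smul_apply, sub_smul, Finset.sum_sub_distrib]
        congr 1
        · rw [Finset.sum_eq_single (κ0 l.1)]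
          · rw [Pi.single_eq_same, one_smul]
          · intro τ _ hτ
            rw [Pi.single_eq_of_ne hτ, zero_smul]
          · intro h; exact absurd (Finset.mem_univ _) h
        · rw [Finset.sum_eq_single κ2]
          · rw [Pi.single_eq_same, smul_eq_mul, mul_one]
          · intro τ _ hτ
            rw [Pi.single_eq_of_ne hτ, smul_zero, zero_smul]
          · intro h; exact absurd (Finset.mem_univ _) h
      set ρ : Rl m d s P := .inr (.inr (.inr l)) with hρ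
      have hkap : kap e κ0 ρ = e (.inl (κ0 l.1)) := rfl
      have hκ00 : κ0 l.1 ≠ fun _ => 0 := by
        intro h1
        have := hP 0 l.1 l.2
        rw [h1, h0] at this
        exact this rfl
      constructor
      · by_cases hi : i = o3
        · have : ∀ t, Gm o1 o3 o2 (kap e κ0 ρ) (f1 e (c t) ρ) (f2 e ρ) (f3 e ρ) i j =
              (Pi.single (e (.inl (κ0 l.1))) 1 : Fin N → ℂ) j -
                t i0 * (Pi.single (e (.inl κ2)) 1 : Fin N → ℂ) j := by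
            intro t
            rw [hi, Gm_o3, hf]
            rfl
          refine AffFn.congr ?_ fun t => (this t).symm
          have h2 := (AffFn.const ((Pi.single (e (.inl (κ0 l.1))) 1 : Fin N → ℂ) j)).add
            ((AffFn.coord i0).mul_const (-(Pi.single (e (.inl κ2)) 1 : Fin N → ℂ) j))
          exact h2.congr fun t => by ring
        · refine (AffFn.const (Gm o1 o3 o2 (kap e κ0 ρ) (f1 e (c 0) ρ) (f2 e ρ) (f3 e ρ) i j)).congr
            fun t => ?_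
          simp only [Gm, if_neg hi]
      · have hinv : ∀ t, (Gm o1 o3 o2 (kap e κ0 ρ) (f1 e (c t) ρ) (f2 e ρ) (f3 e ρ))⁻¹ =
            (Gm o1 o3 o2 (kap e κ0 ρ) (Pi.single (e (.inl (κ0 l.1))) 1) (f2 e ρ) (f3 e ρ))⁻¹ +
            t i0 • ((Gm o1 o3 o2 (kap e κ0 ρ) (Pi.single (e (.inl (κ0 l.1))) 1)
              (f2 e ρ) (f3 e ρ))⁻¹ *
                Matrix.single o3 (Equiv.swap (kap e κ0 ρ) o3 (e (.inl κ2))) 1) := by
          intro t
          rw [hf]
          apply Gm_inv h13 h12 h32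
          · rw [hkap, Pi.single_eq_same]
            exact one_ne_zero
          · rw [← he1]
            apply Pi.single_eq_of_ne
            intro h1
            exact hκ00 (Sum.inl_injective (e.injective h1)).symm
          · rw [← he2]
            apply Pi.single_eq_of_ne
            intro h1
            have := e.injective h1
            cases this
          · rw [← he1, ← he2]
            exact f_det ρ
          · rw [hkap]
            intro h1
            exact hκ2 (Sum.inl_injective (e.injective h1))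
          · rw [← he1]
            intro h1
            exact hκ20 (Sum.inl_injective (e.injective h1))
          · rw [← he2]
            intro h1
            have := e.injective h1
            cases this
        refine AffFn.congr ?_ fun t => (congrFun (congrFun (hinv t) i) j).symm
        exact (AffFn.const _).add ((AffFn.coord i0).mul_const _)

end fam

/-- The permutation does not depend on the level matrices. -/
lemma TData.w_eq {r N : ℕ} {o1 o3 o2 : Fin N} (h13 : o1.val + 1 = o3.val)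
    (h32 : o3.val + 1 = o2.val) (hN : o2.val + 1 = N)
    (G G' : Fin (r + 1) → Matrix (Fin N) (Fin N) ℂ) (hG : ∀ k, IsUnit (G k).det)
    (hG' : ∀ k, IsUnit (G' k).det)
    (hJ : ∀ k i, i ≠ o1 → i ≠ o2 → G k i o1 = 0 ∧ G k i o2 = 0)
    (hJ' : ∀ k i, i ≠ o1 → i ≠ o2 → G' k i o1 = 0 ∧ G' k i o2 = 0) :
    (TData.mk r N o1 o3 o2 h13 h32 hN G hG hJ).w = (TData.mk r N o1 o3 o2 h13 h32 hN G' hG' hJ').w :=
  rfl

/-- The dimension of the fibre. -/
def TData.tk (T : TData) : ℕ := Fintype.card {ij : Low T.n // T.be ij.1.1 = T.be ij.1.2}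

lemma TData.tk_eq {r N : ℕ} {o1 o3 o2 : Fin N} (h13 : o1.val + 1 = o3.val)
    (h32 : o3.val + 1 = o2.val) (hN : o2.val + 1 = N)
    (G G' : Fin (r + 1) → Matrix (Fin N) (Fin N) ℂ) (hG : ∀ k, IsUnit (G k).det)
    (hG' : ∀ k, IsUnit (G' k).det)
    (hJ : ∀ k i, i ≠ o1 → i ≠ o2 → G k i o1 = 0 ∧ G k i o2 = 0)
    (hJ' : ∀ k i, i ≠ o1 → i ≠ o2 → G' k i o1 = 0 ∧ G' k i o2 = 0) :
    (TData.mk r N o1 o3 o2 h13 h32 hN G hG hJ).tk =
      (TData.mk r N o1 o3 o2 h13 h32 hN G' hG' hJ').tk :=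
  rfl

lemma FData.kk_eq_tk (D : FData) : D.kk = D.toTData.tk := rfl

/-- Families of closures of Springer Schubert cells with affine dependence of the nilpotent matrix
on the parameters, attached to families of projective varieties. -/
theorem exists_par {m d s q : ℕ} (c : (Fin q → ℂ) → Fin s → (Fin (d + 1) → Fin (m + 2)) → ℂ)
    (P : Fin s → Prop) (κ0 : Fin s → Fin (d + 1) → Fin (m + 2))
    (hP : ∀ t l, P l → c t l (κ0 l) ≠ 0) (hP' : ∀ t l, ¬ P l → c t l = 0)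
    (h0 : ∀ t l, c t l (fun _ => 0) = 0) (haff : ∀ l, P l → AffEq c κ0 l) :
    ∃ (n k : ℕ) (w : Equiv.Perm (Fin n)) (X0 : Matrix (Fin n) (Fin n) ℂ)
      (X1 : Fin q → Matrix (Fin n) (Fin n) ℂ), ∀ t : Fin q → ℂ,
        IsNilpotent (X0 + ∑ i, t i • X1 i) ∧ permMat w ∈ springer (X0 + ∑ i, t i • X1 i) ∧
        SameGerms (X0 + ∑ i, t i • X1 i) w (pcl (Yaff (c t))) k := by
  classical
  let R : Type := Rl m d s P
  have hRne : Nonempty R := ⟨.inl ⟨1, by simp⟩⟩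
  obtain ⟨r, hr⟩ : ∃ r, Fintype.card R = r + 1 :=
    ⟨Fintype.card R - 1, by have := Fintype.card_pos (α := R); omega⟩
  let eR : Fin (r + 1) ≃ R := (Fintype.equivFinOfCardEq hr).symm
  let I : Type := (Fin (d + 1) → Fin (m + 2)) ⊕ Fin (m + 2)
  have hI : 3 ≤ Fintype.card I := by
    simp only [I, Fintype.card_sum, Fintype.card_fin, Fintype.card_pi, Finset.prod_const,
      Finset.card_univ]
    have : 1 ≤ (m + 2) ^ (d + 1) := Nat.one_le_pow _ _ (by omega)
    omega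
  obtain ⟨u, hu⟩ : ∃ u, Fintype.card I = u + 3 := ⟨Fintype.card I - 3, by omega⟩
  let e0 : I ≃ Fin (u + 3) := Fintype.equivFinOfCardEq hu
  let o1 : Fin (u + 3) := ⟨u, by omega⟩
  let o3 : Fin (u + 3) := ⟨u + 1, by omega⟩
  let o2 : Fin (u + 3) := ⟨u + 2, by omega⟩
  have h13 : o1 ≠ o3 := by simp [o1, o3]
  have h12 : o1 ≠ o2 := by simp [o1, o2]
  have h32 : o3 ≠ o2 := by simp [o3, o2]
  obtain ⟨π, hπ1, hπ2⟩ := exists_perm2 (o1 := e0 (.inl fun _ => 0)) (o2 := e0 (.inr 0))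
    (k1 := o1) (k2 := o2) (by intro h; have := e0.injective h; cases this) h12
  let e : I ≃ Fin (u + 3) := e0.trans π
  have he1 : e (.inl fun _ => 0) = o1 := hπ1
  have he2 : e (.inr 0) = o2 := hπ2
  -- the levels
  let rl : Fin (2 * r + 1 + 1) → R := fun k =>
    if k.val % 2 = 0 then eR ⟨k.val / 2, by omega⟩ else .inl ⟨1, by simp⟩
  have hrl : ∀ ρ : R, ∃ k, rl k = ρ := by
    intro ρ
    have hlt := (eR.symm ρ).isLt
    refine ⟨⟨2 * (eR.symm ρ).val, by omega⟩, ?_⟩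
    have h1 : (2 * (eR.symm ρ).val) % 2 = 0 := by omega
    have h2 : (2 * (eR.symm ρ).val) / 2 = (eR.symm ρ).val := by omega
    simp only [rl, h1, if_true, h2]
    exact eR.apply_symm_apply ρ
  let G : (Fin q → ℂ) → Fin (2 * r + 1 + 1) → Matrix (Fin (u + 3)) (Fin (u + 3)) ℂ := fun t k =>
    Gm o1 o3 o2 (kap e κ0 (rl k)) (f1 e (c t) (rl k)) (f2 e (rl k)) (f3 e (rl k))
  have z1 : ∀ t ρ, f1 e (c t) ρ o1 = 0 := fun t (ρ : R) => by rw [← he1]; exact f1_o1 (h0 t) ρ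
  have z2 : ∀ t ρ, f1 e (c t) ρ o2 = 0 := fun t (ρ : R) => by rw [← he2]; exact f1_o2 ρ
  have z3 : ∀ ρ : R, f3 e ρ o1 * f2 e ρ o2 - f3 e ρ o2 * f2 e ρ o1 ≠ 0 := by
    intro ρ
    rw [← he1, ← he2]
    exact f_det ρ
  have z4 : ∀ t (ρ : R), f1 e (c t) ρ (kap e κ0 ρ) ≠ 0 := fun t ρ => f1_kap (hP t) ρ
  have hG1 : ∀ t k, IsUnit (G t k).det := fun t k =>
    Gm_det h13 h12 h32 (z4 t _) (z1 t _) (z2 t _) (z3 _)
  have hG2 : ∀ t k i, i ≠ o1 → i ≠ o2 → G t k i o1 = 0 ∧ G t k i o2 = 0 := fun t k i i1 i2 =>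
    Gm_J h13 h32 (z4 t _) (z1 t _) (z2 t _) i i1 i2
  have hG3 : ∀ t k, G t k o3 = f1 e (c t) (rl k) := fun t k => Gm_o3
  have hG4 : ∀ t k, G t k o2 = f2 e (rl k) := fun t k => Gm_o2 h32
  have hG5 : ∀ t k, G t k o1 = f3 e (rl k) := fun t k => Gm_o1 h13 h12
  have k1 : ∀ t, ∀ z ∈ pcl (Yaff (c t)), z 0 ≠ 0 →
      ∀ k, br (G t k o3) (G t k o2) (va e z) (vb e z) = 0 := by
    intro t z hz hz0 k
    rw [hG3, hG4]
    exact (rel_fam hz0 (fun l => pcl_Yaff_frm hz l) (rl k)).1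
  have k2 : ∀ t, ∀ z ∈ pcl (Yaff (c t)), z 0 ≠ 0 →
      ∀ k, br (G t k o1) (G t k o2) (va e z) (vb e z) ≠ 0 := by
    intro t z hz hz0 k
    rw [hG5, hG4]
    exact (rel_fam hz0 (fun l => pcl_Yaff_frm hz l) (rl k)).2
  have k3 : ∀ t, ∀ x y : Fin (u + 3) → ℂ,
      (∀ k, br (G t k o3) (G t k o2) x y = 0 ∧ br (G t k o1) (G t k o2) x y ≠ 0) →
      ∃ z ∈ pcl (Yaff (c t)), z 0 ≠ 0 ∧ (∃ s s' : ℂ, x = s • va e z + s' • vb e z) ∧
        (∃ s s' : ℂ, y = s • va e z + s' • vb e z) := by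
    intro t x y hxy
    have y1 : ∀ k : Rl m d s P, br (f1 e (c t) k) (f2 e k) x y = 0 := by
      intro ρ
      obtain ⟨k, rfl⟩ := hrl ρ
      have := (hxy k).1
      rwa [hG3, hG4] at this
    have y2 : ∀ k : Rl m d s P, br (f3 e k) (f2 e k) x y ≠ 0 := by
      intro ρ
      obtain ⟨k, rfl⟩ := hrl ρ
      have := (hxy k).2
      rwa [hG5, hG4] at this
    obtain ⟨z, hz0, hzl, hx, hy⟩ := fam_rel (P := P)
      (fun l hl => by by_contra hcon; exact hl (hP' t l hcon)) y1 y2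
    refine ⟨z, sub_pcl ⟨hz0, hzl⟩, ?_, hx, hy⟩
    rw [hz0]
    exact one_ne_zero
  let TD : (Fin q → ℂ) → TData := fun t =>
    TData.mk (2 * r + 1) (u + 3) o1 o3 o2 rfl rfl rfl (G t) (hG1 t) (hG2 t)
  let D : (Fin q → ℂ) → FData := fun t => FData.mk (TD t) m (d + 1) e (pcl (Yaff (c t)))
    pcl_closed (fun z hz a => pcl_cone hz a) (pcl_dense fun y hy => hy.1) (k1 t) (k2 t) (k3 t)
  -- affinity
  have hA : ∀ v v' : Fin (TD 0).n, AffFn (fun t => (TD t).X v v') := by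
    intro v v'
    obtain ⟨p, rfl⟩ := (TD 0).ix.surjective v
    obtain ⟨p', rfl⟩ := (TD 0).ix.surjective v'
    have hX : ∀ t, (TD t).X ((TD 0).ix p) ((TD 0).ix p') =
        if p.1.val + 1 = p'.1.val then (G t p.1 * (G t p'.1)⁻¹) p.2 p'.2 else 0 :=
      fun t => (TD t).X_apply p p'
    refine AffFn.congr ?_ fun t => (hX t).symm
    by_cases hp : p.1.val + 1 = p'.1.val
    · simp only [if_pos hp, Matrix.mul_apply]
      refine AffFn.sum _ fun x _ => ?_
      have hc : (∀ t, G t p.1 = G 0 p.1) ∨ (∀ t, G t p'.1 = G 0 p'.1) := by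
        have hodd : ∀ k : Fin (2 * r + 1 + 1), k.val % 2 ≠ 0 → ∀ t, G t k = G 0 k := by
          intro k hk t
          have h1 : rl k = .inl ⟨1, by simp⟩ := by simp only [rl, if_neg hk]
          simp only [G]
          rw [h1]
          rfl
        by_cases h1 : p.1.val % 2 = 0
        · exact Or.inr (hodd _ (by omega))
        · exact Or.inl (hodd _ h1)
      rcases hc with hc | hc
      · have h1 := (aff_Gm h13 h12 h32 he1 he2 hP h0 haff (rl p'.1) x p'.2).2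
        refine (AffFn.const_mul (G 0 p.1 p.2 x) h1).congr fun t => ?_
        rw [hc t]
      · have h1 := (aff_Gm h13 h12 h32 he1 he2 hP h0 haff (rl p.1) p.2 x).1
        refine (h1.mul_const ((G 0 p'.1)⁻¹ x p'.2)).congr fun t => ?_
        rw [hc t]
    · simp only [if_neg hp]
      exact AffFn.const 0
  choose a0 a ha using hA
  let n0 : ℕ := (2 * r + 1 + 1) * (u + 3)
  let X0 : Matrix (Fin n0) (Fin n0) ℂ := Matrix.of fun v v' => a0 v v'
  let X1 : Fin q → Matrix (Fin n0) (Fin n0) ℂ := fun i => Matrix.of fun v v' => a v v' i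
  have hXt : ∀ t, X0 + ∑ i, t i • X1 i = (TD t).X := by
    intro t
    ext v v'
    rw [Matrix.add_apply, Matrix.sum_apply]
    exact (ha v v' t).symm
  refine ⟨n0, (TD 0).tk, (TD 0).w, X0, X1, fun t => ?_⟩
  have hw : (TD t).w = (TD 0).w := TData.w_eq _ _ _ _ _ _ _ _ _
  have hk : (TD t).tk = (TD 0).tk := TData.tk_eq _ _ _ _ _ _ _ _ _
  have h1 : IsNilpotent (TD t).X := (D t).X_nilpotent
  have h2 : permMat (TD t).w ∈ springer (TD t).X := (D t).perm_mem
  have h3 : SameGerms (TD t).X (TD t).w (pcl (Yaff (c t))) (TD t).tk := (D t).germs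
  rw [hXt t]
  rw [hw] at h2
  rw [hw, hk] at h3
  exact ⟨h1, h2, h3⟩

end

end Pool.Agent.Lib.MP_1e2f52_ag
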