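import Pool.Agent.Lib.MP_1e2f52_ag.Par2

/-!
# Families of affine varieties with linear parametric equations
-/

open MvPolynomial Matrix

namespace Pool.Agent.Lib.MP_1e2f52_ag

noncomputable section

/-- The affine variety with fixed equations `g` and parametric equations `z a = t z b`. -/
def Yp {m q s : ℕ} (g : Fin s → MvPolynomial (Fin (m + 2)) ℂ) (a b : Fin q → Fin (m + 2))
    (t : Fin q → ℂ) : Set (Fin (m + 2) → ℂ) :=
  {z | z 0 = 1 ∧ (∀ i, z (a i) = t i * z (b i)) ∧ ∀ l, eval z (g l) = 0}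

lemma exists_forms {m s : ℕ} (g : Fin s → MvPolynomial (Fin (m + 2)) ℂ) :
    ∃ (d : ℕ) (c : Fin s → (Fin (d + 1) → Fin (m + 2)) → ℂ),
      ∀ l (z : Fin (m + 2) → ℂ), z 0 = 1 → eval z (g l) = frm (c l) z := by
  choose f hf using fun l => exists_hom (g l)
  have hd : ∀ l, Hom (Finset.univ.sup f + 1) (g l) := fun l =>
    (hf l).mono (le_trans (Finset.le_sup (f := f) (Finset.mem_univ l)) (Nat.le_succ _))
  choose c hc using hd
  exact ⟨Finset.univ.sup f, c, hc⟩

lemma frm_single {M d : ℕ} (κ : Fin d → Fin M) (z : Fin M → ℂ) :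
    frm (Pi.single κ 1) z = ∏ x, z (κ x) := by
  rw [frm, Finset.sum_eq_single κ]
  · rw [Pi.single_eq_same, one_mul]
  · intro τ _ hτ
    rw [Pi.single_eq_of_ne hτ, zero_mul]
  · intro h; exact absurd (Finset.mem_univ _) h

lemma frm_sub {M d : ℕ} (c c' : (Fin d → Fin M) → ℂ) (z : Fin M → ℂ) :
    frm (c - c') z = frm c z - frm c' z := by
  simp only [frm, Pi.sub_apply, sub_mul, Finset.sum_sub_distrib]

lemma frm_csmul {M d : ℕ} (a : ℂ) (c : (Fin d → Fin M) → ℂ) (z : Fin M → ℂ) :
    frm (a • c) z = a * frm c z := by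
  simp only [frm, Pi.smul_apply, smul_eq_mul, mul_assoc, Finset.mul_sum]

lemma prod_cons_zero {m d : ℕ} (a : Fin (m + 2)) {z : Fin (m + 2) → ℂ} (hz : z 0 = 1) :
    ∏ x, z ((Fin.cons a (fun _ => 0) : Fin (d + 1) → Fin (m + 2)) x) = z a := by
  rw [Fin.prod_univ_succ]
  simp [hz]

/-- Families of closures of Springer Schubert cells with affine dependence of the nilpotent matrix
on the parameters, attached to families of affine varieties. -/
theorem exists_par' {m q s : ℕ} (g : Fin s → MvPolynomial (Fin (m + 2)) ℂ)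
    (hg : ∀ l, eval (Pi.single 0 1) (g l) = 0) (a b : Fin q → Fin (m + 2)) (ha : ∀ i, a i ≠ 0)
    (hb : ∀ i, b i ≠ 0) (hab : ∀ i, a i ≠ b i) :
    ∃ (n k : ℕ) (w : Equiv.Perm (Fin n)) (X0 : Matrix (Fin n) (Fin n) ℂ)
      (X1 : Fin q → Matrix (Fin n) (Fin n) ℂ), ∀ t : Fin q → ℂ,
        IsNilpotent (X0 + ∑ i, t i • X1 i) ∧ permMat w ∈ springer (X0 + ∑ i, t i • X1 i) ∧
        SameGerms (X0 + ∑ i, t i • X1 i) w (pcl (Yp g a b t)) k := by
  classical
  obtain ⟨d, cg, hcg⟩ := exists_forms g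
  let eΛ : Fin (q + s) ≃ Fin q ⊕ Fin s := finSumFinEquiv.symm
  let κa : Fin q → Fin (d + 1) → Fin (m + 2) := fun i => Fin.cons (a i) (fun _ => 0)
  let κb : Fin q → Fin (d + 1) → Fin (m + 2) := fun i => Fin.cons (b i) (fun _ => 0)
  have hcg0 : ∀ l, cg l (fun _ => 0) = 0 := by
    intro l
    have h1 := hcg l (Pi.single 0 1) (by simp)
    rw [hg l, frm, Finset.sum_eq_single (fun _ => 0)] at h1
    · simpa using h1.symm
    · intro τ _ hτ
      obtain ⟨x, hx⟩ := Function.ne_iff.1 hτ
      have : ∏ x, (Pi.single 0 1 : Fin (m + 2) → ℂ) (τ x) = 0 := by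
        apply Finset.prod_eq_zero (Finset.mem_univ x)
        exact Pi.single_eq_of_ne hx _
      rw [this, mul_zero]
    · intro h; exact absurd (Finset.mem_univ _) h
  have hκa : ∀ i, κa i ≠ fun _ => 0 := by
    intro i h
    have := congrFun h 0
    exact ha i this
  have hκb : ∀ i, κb i ≠ fun _ => 0 := by
    intro i h
    have := congrFun h 0
    exact hb i this
  have hκab : ∀ i, κb i ≠ κa i := by
    intro i h
    have := congrFun h 0
    exact hab i this.symm
  let cΛ : (Fin q → ℂ) → Fin q ⊕ Fin s → (Fin (d + 1) → Fin (m + 2)) → ℂ := fun t l =>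
    Sum.elim (fun i => Pi.single (κa i) 1 - t i • Pi.single (κb i) 1) cg l
  let PΛ : Fin q ⊕ Fin s → Prop := Sum.elim (fun _ => True) (fun l => cg l ≠ 0)
  let κΛ : Fin q ⊕ Fin s → Fin (d + 1) → Fin (m + 2) :=
    Sum.elim κa (fun l => if h : cg l ≠ 0 then (Function.ne_iff.1 h).choose else fun _ => 0)
  have e1 : ∀ t l, PΛ l → cΛ t l (κΛ l) ≠ 0 := by
    intro t l hl
    rcases l with i | l
    · change (Pi.single (κa i) 1 - t i • Pi.single (κb i) 1 :
        (Fin (d + 1) → Fin (m + 2)) → ℂ) (κa i) ≠ 0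
      rw [Pi.sub_apply, Pi.smul_apply, Pi.single_eq_same, Pi.single_eq_of_ne (hκab i).symm,
        smul_zero, sub_zero]
      exact one_ne_zero
    · have h : cg l ≠ 0 := hl
      change cg l (if h : cg l ≠ 0 then (Function.ne_iff.1 h).choose else fun _ => 0) ≠ 0
      rw [dif_pos h]
      exact (Function.ne_iff.1 h).choose_spec
  have e2 : ∀ t l, ¬ PΛ l → cΛ t l = 0 := by
    intro t l hl
    rcases l with i | l
    · exact absurd trivial hl
    · exact not_not.1 hl
  have e3 : ∀ t l, cΛ t l (fun _ => 0) = 0 := by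
    intro t l
    rcases l with i | l
    · change (Pi.single (κa i) 1 - t i • Pi.single (κb i) 1 :
        (Fin (d + 1) → Fin (m + 2)) → ℂ) (fun _ => 0) = 0
      rw [Pi.sub_apply, Pi.smul_apply, Pi.single_eq_of_ne (hκa i).symm,
        Pi.single_eq_of_ne (hκb i).symm, smul_zero, sub_zero]
    · exact hcg0 l
  obtain ⟨n, k, w, X0, X1, h⟩ := exists_par (fun t l => cΛ t (eΛ l)) (fun l => PΛ (eΛ l))
    (fun l => κΛ (eΛ l)) (fun t l hl => e1 t _ hl) (fun t l hl => e2 t _ hl) (fun t l => e3 t _)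
    (by
      intro l hl
      rcases hl' : eΛ l with i | l'
      · right
        refine ⟨i, κb i, ?_, hκb i, fun t => ?_⟩
        · change κb i ≠ κΛ (eΛ l)
          rw [hl']
          exact hκab i
        · change cΛ t (eΛ l) = Pi.single (κΛ (eΛ l)) 1 - t i • Pi.single (κb i) 1
          rw [hl']
          rfl
      · left
        intro t
        change cΛ t (eΛ l) = cΛ 0 (eΛ l)
        rw [hl']
        rfl)
  have hY : ∀ t, Yaff (fun l => cΛ t (eΛ l)) = Yp g a b t := by
    intro t
    ext z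
    constructor
    · rintro ⟨hz, hl⟩
      refine ⟨hz, fun i => ?_, fun l => ?_⟩
      · have h1 := hl (eΛ.symm (.inl i))
        simp only [Equiv.apply_symm_apply] at h1
        change frm (Pi.single (κa i) 1 - t i • Pi.single (κb i) 1) z = 0 at h1
        rw [frm_sub, frm_csmul, frm_single, frm_single, prod_cons_zero _ hz,
          prod_cons_zero _ hz, sub_eq_zero] at h1
        exact h1
      · have h1 := hl (eΛ.symm (.inr l))
        simp only [Equiv.apply_symm_apply] at h1
        rw [hcg l z hz]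
        exact h1
    · rintro ⟨hz, h1, h2⟩
      refine ⟨hz, fun l => ?_⟩
      change frm (cΛ t (eΛ l)) z = 0
      rcases eΛ l with i | l'
      · change frm (Pi.single (κa i) 1 - t i • Pi.single (κb i) 1) z = 0
        rw [frm_sub, frm_csmul, frm_single, frm_single, prod_cons_zero _ hz,
          prod_cons_zero _ hz, sub_eq_zero]
        exact h1 i
      · change frm (cg l') z = 0
        rw [← hcg l' z hz]
        exact h2 l'
  refine ⟨n, k, w, X0, X1, fun t => ?_⟩
  rw [← hY t]
  exact h t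

end

end Pool.Agent.Lib.MP_1e2f52_ag
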