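import Pool.Agent.Lib.MP_1e2f52_ag.LU

/-!
# Block patterns of matrices
-/

namespace Pool.Agent.Lib.MP_1e2f52_ag

noncomputable section

open Matrix

/-- Strictly block upper triangular with respect to a function on the indices. -/
def SBT {n : ℕ} (f : Fin n → ℕ) (M : Matrix (Fin n) (Fin n) ℂ) : Prop :=
  ∀ i j, f j ≤ f i → M i j = 0

variable {n : ℕ} {f : Fin n → ℕ} {M M' : Matrix (Fin n) (Fin n) ℂ}

lemma bt_mul (h : BlockTriangular M f) (h' : BlockTriangular M' f) :
    BlockTriangular (M * M') f := h.mul h'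

lemma bt_inv (h : BlockTriangular M f) (hu : IsUnit M.det) : BlockTriangular M⁻¹ f := by
  let _ : Invertible M := Matrix.invertibleOfIsUnitDet M hu
  exact Matrix.blockTriangular_inv_of_blockTriangular h

lemma SBT.bt (h : SBT f M) : BlockTriangular M f := fun i j hij => h i j hij.le

lemma SBT.mul_bt (h : SBT f M) (h' : BlockTriangular M' f) : SBT f (M * M') := by
  intro i j hij
  rw [Matrix.mul_apply]
  apply Finset.sum_eq_zero
  intro k _
  by_cases hk : f k ≤ f i
  · rw [h i k hk, zero_mul]
  · rw [h' (show f j < f k by omega), mul_zero]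

lemma SBT.bt_mul (h : BlockTriangular M f) (h' : SBT f M') : SBT f (M * M') := by
  intro i j hij
  rw [Matrix.mul_apply]
  apply Finset.sum_eq_zero
  intro k _
  by_cases hk : f k < f i
  · rw [h hk, zero_mul]
  · rw [h' k j (by omega), mul_zero]

lemma isUpper_bt (hf : Monotone f) (h : IsUpper M) : BlockTriangular M f := by
  intro i j hij
  apply h
  by_contra hcon
  exact absurd (hf (not_lt.1 hcon)) (not_le.2 hij)

lemma SBT.isUpper (hf : Monotone f) (h : SBT f M) : IsUpper M := fun i j hij => h i j (hf hij.le)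

lemma SBT.pow (h : SBT f M) (k : ℕ) : ∀ i j, f j < f i + k → (M ^ k) i j = 0 := by
  induction k with
  | zero =>
    intro i j hij
    rw [pow_zero, Matrix.one_apply_ne]
    rintro rfl
    omega
  | succ k ih =>
    intro i j hij
    rw [pow_succ, Matrix.mul_apply]
    apply Finset.sum_eq_zero
    intro l _
    by_cases hl : f l < f i + k
    · rw [ih i l hl, zero_mul]
    · rw [h l j (by omega), mul_zero]

lemma SBT.nilpotent (h : SBT f M) : IsNilpotent M := by
  obtain ⟨B, hB⟩ : ∃ B, ∀ j, f j < B := by
    refine ⟨(∑ j, f j) + 1, fun j => ?_⟩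
    have := Finset.single_le_sum (f := f) (fun i _ => Nat.zero_le _) (Finset.mem_univ j)
    omega
  refine ⟨B, ?_⟩
  ext i j
  exact h.pow B i j (by have := hB j; omega)

lemma SBT.conj {p : Matrix (Fin n) (Fin n) ℂ} (h : SBT f M) (hp : BlockTriangular p f)
    (hu : IsUnit p.det) : SBT f (p⁻¹ * M * p) :=
  (SBT.bt_mul (bt_inv hp hu) h).mul_bt hp

/-! ### Permutation matrices -/

lemma permMat_mul (w : Equiv.Perm (Fin n)) (M : Matrix (Fin n) (Fin n) ℂ) :
    permMat w * M = M.submatrix w.symm id := by
  ext i j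
  rw [Matrix.mul_apply, Matrix.submatrix_apply, Finset.sum_eq_single (w.symm i)]
  · rw [permMat, if_pos (by simp), one_mul]; rfl
  · intro k _ hk
    rw [permMat, if_neg, zero_mul]
    rintro rfl
    exact hk (by simp)
  · intro h; exact absurd (Finset.mem_univ _) h

lemma mul_permMat (w : Equiv.Perm (Fin n)) (M : Matrix (Fin n) (Fin n) ℂ) :
    M * permMat w = M.submatrix id w := by
  ext i j
  rw [Matrix.mul_apply, Matrix.submatrix_apply, Finset.sum_eq_single (w j)]
  · rw [permMat, if_pos rfl, mul_one]; rfl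
  · intro k _ hk
    rw [permMat, if_neg hk, mul_zero]
  · intro h; exact absurd (Finset.mem_univ _) h

lemma permMat_inv_mul (w : Equiv.Perm (Fin n)) : permMat w.symm * permMat w = 1 := by
  rw [mul_permMat]
  ext i j
  rw [Matrix.submatrix_apply, permMat, Matrix.one_apply]
  simp

lemma permMat_inv (w : Equiv.Perm (Fin n)) : (permMat w)⁻¹ = permMat w.symm :=
  Matrix.inv_eq_left_inv (permMat_inv_mul w)

lemma permMat_det (w : Equiv.Perm (Fin n)) : IsUnit (permMat w).det :=
  Matrix.isUnit_det_of_left_inverse (permMat_inv_mul w)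

lemma permMat_conj (w : Equiv.Perm (Fin n)) (M : Matrix (Fin n) (Fin n) ℂ) :
    (permMat w)⁻¹ * M * permMat w = M.submatrix w w := by
  rw [permMat_inv, permMat_mul, mul_permMat]
  rfl

/-! ### Sorting -/

/-- A permutation listing the indices by increasing value of `f`, in decreasing order where `f` is
constant. -/
lemma exists_sort (f : Fin n → ℕ) : ∃ w : Equiv.Perm (Fin n), Monotone (f ∘ w) ∧
    ∀ i j, i < j → f (w i) = f (w j) → w j < w i := by
  let key : Fin n → ℕ := fun v => f v * n + (n - 1 - v.val)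
  have hm := Tuple.monotone_sort key
  have hlt : ∀ v : Fin n, n - 1 - v.val < n := fun v => by have := v.isLt; omega
  refine ⟨Tuple.sort key, ?_, ?_⟩
  · intro i j hij
    have h1 : f (Tuple.sort key i) * n + (n - 1 - (Tuple.sort key i).val) ≤
        f (Tuple.sort key j) * n + (n - 1 - (Tuple.sort key j).val) := hm hij
    simp only [Function.comp]
    by_contra hcon
    have h2 : f (Tuple.sort key j) + 1 ≤ f (Tuple.sort key i) := by omega
    have h3 := Nat.mul_le_mul_right n h2
    have h4 := hlt (Tuple.sort key j)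
    rw [add_mul, one_mul] at h3
    omega
  · intro i j hij he
    have h1 : f (Tuple.sort key i) * n + (n - 1 - (Tuple.sort key i).val) ≤
        f (Tuple.sort key j) * n + (n - 1 - (Tuple.sort key j).val) := hm hij.le
    rw [he] at h1
    have h2 := (Tuple.sort key i).isLt
    have h3 := (Tuple.sort key j).isLt
    have h4 : (Tuple.sort key j).val ≠ (Tuple.sort key i).val := by
      intro h
      exact hij.ne' ((Tuple.sort key).injective (Fin.ext h))
    rw [Fin.lt_def]
    omega

/-! ### The structure of cells -/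

/-- On a Springer Schubert cell with `w` sorted by blocks, the conjugate of `X` is strictly block
upper triangular. -/
theorem cell_sbt {X : Matrix (Fin n) (Fin n) ℂ} {lev blk : Fin n → ℕ} (hlev : Monotone lev)
    (h1 : ∀ v, lev v ≤ blk v) (h2 : ∀ v, blk v ≤ lev v + 1) (hX : SBT lev X)
    {w : Equiv.Perm (Fin n)} (hw : Monotone (blk ∘ w))
    (hw' : ∀ i j, i < j → blk (w i) = blk (w j) → w j < w i)
    {g : Matrix (Fin n) (Fin n) ℂ} (hg : g ∈ cell X w) :
    SBT (blk ∘ w) (g⁻¹ * X * g) := by
  obtain ⟨⟨b, c, hb, hbu, hc, hcu, rfl⟩, hs⟩ := hg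
  obtain ⟨hsu, hs⟩ := hs
  have hci := bt_inv (isUpper_bt hw hc) hcu
  have hpu := permMat_det w
  -- the conjugate by `b * permMat w`
  set Z : Matrix (Fin n) (Fin n) ℂ := (b * permMat w)⁻¹ * X * (b * permMat w) with hZ
  have hZc : (b * permMat w * c)⁻¹ * X * (b * permMat w * c) = c⁻¹ * Z * c := by
    rw [hZ, Matrix.mul_inv_rev (b * permMat w) c]
    simp only [Matrix.mul_assoc]
  have hZ' : Z = (b⁻¹ * X * b).submatrix w w := by
    rw [← permMat_conj, hZ, Matrix.mul_inv_rev]
    simp only [Matrix.mul_assoc]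
  rw [hZc] at hs ⊢
  -- `Z` is upper triangular
  have hZu : IsUpper Z := by
    have h3 : Z = c * (c⁻¹ * Z * c) * c⁻¹ := by
      rw [← Matrix.mul_assoc, ← Matrix.mul_assoc, Matrix.mul_nonsing_inv _ hcu, Matrix.one_mul,
        Matrix.mul_assoc, Matrix.mul_nonsing_inv _ hcu, Matrix.mul_one]
    rw [h3]
    have hc1 : BlockTriangular c (id : Fin n → Fin n) := fun i j h => hc i j h
    have hc2 : BlockTriangular c⁻¹ (id : Fin n → Fin n) := by
      let _ : Invertible c := Matrix.invertibleOfIsUnitDet c hcu
      exact Matrix.blockTriangular_inv_of_blockTriangular hc1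
    have h4 : BlockTriangular (c⁻¹ * Z * c) (id : Fin n → Fin n) := fun i j h => hs i j h
    exact fun i j h => ((hc1.mul h4).mul hc2) h
  -- `b⁻¹ * X * b` is strictly upper triangular in levels
  have hY : SBT lev (b⁻¹ * X * b) := hX.conj (isUpper_bt hlev hb) hbu
  have hZs : SBT (blk ∘ w) Z := by
    intro i j hij
    simp only [Function.comp] at hij
    by_cases hl : lev (w j) ≤ lev (w i)
    · rw [hZ', Matrix.submatrix_apply]
      exact hY _ _ hl
    · have e1 := h1 (w i)
      have e2 := h2 (w i)
      have e3 := h1 (w j)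
      have e4 := h2 (w j)
      have e5 : blk (w i) = blk (w j) := by omega
      apply hZu
      rcases lt_trichotomy i j with h | h | h
      · exfalso
        have h6 := hw' i j h e5
        exact hl (hlev h6.le)
      · subst h
        exact absurd le_rfl hl
      · exact h
  exact (SBT.bt_mul hci hZs).mul_bt (isUpper_bt hw hc)

end

end Pool.Agent.Lib.MP_1e2f52_ag
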