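import Pool.Agent.Lib.MP_1e2f52_ag.Loc
import Pool.Agent.Lib.MP_1e2f52_ag.Pat

/-!
# Polynomial and regular matrix valued functions
-/

open MvPolynomial Matrix

namespace Pool.Agent.Lib.MP_1e2f52_ag

noncomputable section

variable {σ τ : Type}

/-- A polynomial function. -/
def PolyFn (f : (σ → ℂ) → ℂ) : Prop := ∃ p : MvPolynomial σ ℂ, ∀ x, eval x p = f x

/-- A matrix valued polynomial function. -/
def PolyMat {m n : Type} (F : (σ → ℂ) → Matrix m n ℂ) : Prop := ∀ i j, PolyFn (fun x => F x i j)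

namespace PolyFn

variable {f g : (σ → ℂ) → ℂ}

lemma const (c : ℂ) : PolyFn (fun _ : σ → ℂ => c) := ⟨C c, fun x => by simp⟩

lemma coord (i : σ) : PolyFn (fun x : σ → ℂ => x i) := ⟨X i, fun x => by simp⟩

lemma poly (p : MvPolynomial σ ℂ) : PolyFn (fun x : σ → ℂ => eval x p) := ⟨p, fun _ => rfl⟩

lemma add (hf : PolyFn f) (hg : PolyFn g) : PolyFn (fun x => f x + g x) := by
  obtain ⟨p, hp⟩ := hf
  obtain ⟨q, hq⟩ := hg
  exact ⟨p + q, fun x => by rw [map_add, hp, hq]⟩

lemma mul (hf : PolyFn f) (hg : PolyFn g) : PolyFn (fun x => f x * g x) := by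
  obtain ⟨p, hp⟩ := hf
  obtain ⟨q, hq⟩ := hg
  exact ⟨p * q, fun x => by rw [map_mul, hp, hq]⟩

lemma neg (hf : PolyFn f) : PolyFn (fun x => - f x) := by
  obtain ⟨p, hp⟩ := hf
  exact ⟨-p, fun x => by rw [map_neg, hp]⟩

lemma sub (hf : PolyFn f) (hg : PolyFn g) : PolyFn (fun x => f x - g x) := by
  obtain ⟨p, hp⟩ := hf
  obtain ⟨q, hq⟩ := hg
  exact ⟨p - q, fun x => by rw [map_sub, hp, hq]⟩

lemma sum {ι : Type} (s : Finset ι) {F : ι → (σ → ℂ) → ℂ} (h : ∀ i ∈ s, PolyFn (F i)) :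
    PolyFn (fun x => ∑ i ∈ s, F i x) := by
  classical
  induction s using Finset.induction_on with
  | empty => simpa using const 0
  | insert i s hi ih =>
    simp only [Finset.sum_insert hi]
    exact (h i (Finset.mem_insert_self _ _)).add
      (ih fun j hj => h j (Finset.mem_insert_of_mem hj))

lemma prod {ι : Type} (s : Finset ι) {F : ι → (σ → ℂ) → ℂ} (h : ∀ i ∈ s, PolyFn (F i)) :
    PolyFn (fun x => ∏ i ∈ s, F i x) := by
  classical
  induction s using Finset.induction_on with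
  | empty => simpa using const 1
  | insert i s hi ih =>
    simp only [Finset.prod_insert hi]
    exact (h i (Finset.mem_insert_self _ _)).mul
      (ih fun j hj => h j (Finset.mem_insert_of_mem hj))

lemma evalComp {φ : (σ → ℂ) → τ → ℂ} (hφ : ∀ t, PolyFn (fun x => φ x t))
    (p : MvPolynomial τ ℂ) : PolyFn (fun x => eval (φ x) p) := by
  induction p using MvPolynomial.induction_on with
  | C c => simpa using const c
  | add p q hp hq =>
    simp only [map_add]
    exact hp.add hq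
  | mul_X p i hp =>
    simp only [map_mul, eval_X]
    exact hp.mul (hφ i)

/-- Polynomial functions form an integral domain. -/
lemma eq_zero_of_mul (hf : PolyFn f) (hg : PolyFn g) (h : ∀ x, f x * g x = 0) (y : σ → ℂ)
    (hy : g y ≠ 0) (x : σ → ℂ) : f x = 0 := by
  obtain ⟨p, hp⟩ := hf
  obtain ⟨q, hq⟩ := hg
  have h1 : p * q = 0 := by
    apply MvPolynomial.funext
    intro x
    rw [map_mul, hp, hq, h, map_zero]
  rcases mul_eq_zero.1 h1 with h2 | h2
  · rw [← hp, h2, map_zero]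
  · exfalso
    apply hy
    rw [← hq, h2, map_zero]

lemma reg (hf : PolyFn f) {V : Set (σ → ℂ)} {a : σ → ℂ} : IsRegAt V a f := by
  obtain ⟨p, hp⟩ := hf
  have := IsRegAt.poly (V := V) (a := a) p
  simpa only [hp] using this

end PolyFn

namespace PolyMat

variable {l m n : Type}

lemma const (M : Matrix m n ℂ) : PolyMat (fun _ : σ → ℂ => M) := fun _ _ => PolyFn.const _

lemma mul [Fintype m] {F : (σ → ℂ) → Matrix l m ℂ} {G : (σ → ℂ) → Matrix m n ℂ}
    (hF : PolyMat F) (hG : PolyMat G) : PolyMat (fun x => F x * G x) := by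
  intro i j
  simp only [Matrix.mul_apply]
  exact PolyFn.sum _ fun k _ => (hF i k).mul (hG k j)

lemma det [Fintype m] [DecidableEq m] {F : (σ → ℂ) → Matrix m m ℂ} (hF : PolyMat F) :
    PolyFn (fun x => (F x).det) := by
  simp only [Matrix.det_apply]
  refine PolyFn.sum _ fun e _ => ?_
  have h1 : PolyFn (fun x => ∏ i, F x (e i) i) := PolyFn.prod _ fun i _ => hF _ _
  have h2 : ∀ x, (Equiv.Perm.sign e • ∏ i, F x (e i) i) =
      (((Equiv.Perm.sign e : ℤˣ) : ℤ) : ℂ) * ∏ i, F x (e i) i := by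
    intro x
    rw [Units.smul_def, zsmul_eq_mul]
  simp only [h2]
  exact (PolyFn.const _).mul h1

lemma submatrix {F : (σ → ℂ) → Matrix m n ℂ} (hF : PolyMat F) {l' m' : Type} (e : l' → m)
    (e' : m' → n) : PolyMat (fun x => (F x).submatrix e e') := fun _ _ => hF _ _

lemma adjugate [Fintype m] [DecidableEq m] {F : (σ → ℂ) → Matrix m m ℂ} (hF : PolyMat F) :
    PolyMat (fun x => (F x).adjugate) := by
  intro i j
  simp only [Matrix.adjugate_apply]
  apply det
  intro k l
  by_cases hk : k = j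
  · subst hk
    simp only [Matrix.updateRow_self]
    exact PolyFn.const _
  · simp only [Matrix.updateRow_ne hk]
    exact hF _ _

end PolyMat

/-- A matrix valued regular function. -/
def RegMat (V : Set (σ → ℂ)) (a : σ → ℂ) {m n : Type} (F : (σ → ℂ) → Matrix m n ℂ) : Prop :=
  ∀ i j, IsRegAt V a (fun x => F x i j)

namespace RegMat

variable {l m n : Type} {V : Set (σ → ℂ)} {a : σ → ℂ}

lemma const (M : Matrix m n ℂ) : RegMat V a (fun _ => M) := fun _ _ => IsRegAt.const _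

lemma mul [Fintype m] {F : (σ → ℂ) → Matrix l m ℂ} {G : (σ → ℂ) → Matrix m n ℂ}
    (hF : RegMat V a F) (hG : RegMat V a G) : RegMat V a (fun x => F x * G x) := by
  intro i j
  simp only [Matrix.mul_apply]
  exact IsRegAt.sum _ fun k _ => (hF i k).mul (hG k j)

lemma det [Fintype m] [DecidableEq m] {F : (σ → ℂ) → Matrix m m ℂ} (hF : RegMat V a F) :
    IsRegAt V a (fun x => (F x).det) := by
  simp only [Matrix.det_apply]
  refine IsRegAt.sum _ fun e _ => ?_
  have h1 : IsRegAt V a (fun x => ∏ i, F x (e i) i) := IsRegAt.prod _ fun i _ => hF _ _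
  have h2 : ∀ x, (Equiv.Perm.sign e • ∏ i, F x (e i) i) =
      (((Equiv.Perm.sign e : ℤˣ) : ℤ) : ℂ) * ∏ i, F x (e i) i := by
    intro x
    rw [Units.smul_def, zsmul_eq_mul]
  simp only [h2]
  exact (IsRegAt.const _).mul h1

lemma submatrix {F : (σ → ℂ) → Matrix m n ℂ} (hF : RegMat V a F) {l' m' : Type} (e : l' → m)
    (e' : m' → n) : RegMat V a (fun x => (F x).submatrix e e') := fun _ _ => hF _ _

lemma adjugate [Fintype m] [DecidableEq m] {F : (σ → ℂ) → Matrix m m ℂ} (hF : RegMat V a F) :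
    RegMat V a (fun x => (F x).adjugate) := by
  intro i j
  simp only [Matrix.adjugate_apply]
  apply det
  intro k l
  by_cases hk : k = j
  · subst hk
    simp only [Matrix.updateRow_self]
    exact IsRegAt.const _
  · simp only [Matrix.updateRow_ne hk]
    exact hF _ _

lemma inv [Fintype m] [DecidableEq m] {F : (σ → ℂ) → Matrix m m ℂ} (hF : RegMat V a F)
    (ha : a ∈ V) (h0 : (F a).det ≠ 0) : RegMat V a (fun x => (F x)⁻¹) := by
  intro i j
  refine ((hF.det.inv ha h0).mul (hF.adjugate i j)).congr ?_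
  refine (hF.det.near_ne ha h0).mono fun x _ hx => ?_
  change ((F x).det)⁻¹ * (F x).adjugate i j = (F x)⁻¹ i j
  rw [Matrix.inv_def, Matrix.smul_apply, smul_eq_mul, Ring.inverse_eq_inv']

end RegMat

/-! ### The minors of the triangular factorisation -/

section lu

variable {n : ℕ} {V : Set (σ → ℂ)} {a : σ → ℂ}

lemma PolyMat.den {F : (σ → ℂ) → Matrix (Fin n) (Fin n) ℂ} (hF : PolyMat F) (j : Fin n) :
    PolyFn (fun x => den (F x) j) := (hF.submatrix _ _).det

lemma RegMat.den {F : (σ → ℂ) → Matrix (Fin n) (Fin n) ℂ} (hF : RegMat V a F) (j : Fin n) :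
    IsRegAt V a (fun x => Pool.Agent.Lib.MP_1e2f52_ag.den (F x) j) := (hF.submatrix _ _).det

lemma RegMat.num {F : (σ → ℂ) → Matrix (Fin n) (Fin n) ℂ} (hF : RegMat V a F) (i j : Fin n) :
    IsRegAt V a (fun x => Pool.Agent.Lib.MP_1e2f52_ag.num (F x) i j) := (hF.submatrix _ _).det

end lu

/-! ### Zariski closures -/

/-- The entries of a matrix. -/
def ent {n : ℕ} (g : Matrix (Fin n) (Fin n) ℂ) : Fin n × Fin n → ℂ := fun ij => g ij.1 ij.2

/-- The matrix with given entries. -/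
def mat {n : ℕ} (x : Fin n × Fin n → ℂ) : Matrix (Fin n) (Fin n) ℂ := fun i j => x (i, j)

lemma mat_ent {n : ℕ} (g : Matrix (Fin n) (Fin n) ℂ) : mat (ent g) = g := rfl

lemma polyMat_mat {n : ℕ} : PolyMat (mat : (Fin n × Fin n → ℂ) → Matrix (Fin n) (Fin n) ℂ) :=
  fun i j => PolyFn.coord (i, j)

lemma zclosure_zero {n : ℕ} {S : Set (Matrix (Fin n) (Fin n) ℂ)} {g : Matrix (Fin n) (Fin n) ℂ}
    (hg : g ∈ zclosure S) {f : (Fin n × Fin n → ℂ) → ℂ} (hf : PolyFn f)
    (h : ∀ g' ∈ S, f (ent g') = 0) : f (ent g) = 0 := by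
  obtain ⟨p, hp⟩ := hf
  rw [← hp]
  apply hg.2 p
  intro g' hg'
  have := h g' hg'
  rw [← hp] at this
  exact this

lemma sub_zclosure {n : ℕ} {S : Set (Matrix (Fin n) (Fin n) ℂ)} {g : Matrix (Fin n) (Fin n) ℂ}
    (hu : IsUnit g.det) (hg : g ∈ S) : g ∈ zclosure S := ⟨hu, fun _ hp => hp g hg⟩

/-- Strict block patterns of `g⁻¹ X g` pass to the closure. -/
lemma zclosure_sbt {n : ℕ} {S : Set (Matrix (Fin n) (Fin n) ℂ)} {X : Matrix (Fin n) (Fin n) ℂ}
    {f : Fin n → ℕ} (hu : ∀ g ∈ S, IsUnit g.det) (hS : ∀ g ∈ S, SBT f (g⁻¹ * X * g))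
    {g : Matrix (Fin n) (Fin n) ℂ} (hg : g ∈ zclosure S) : SBT f (g⁻¹ * X * g) := by
  intro i j hij
  have h1 : PolyFn (fun x : Fin n × Fin n → ℂ => ((mat x).adjugate * X * mat x) i j) :=
    ((polyMat_mat.adjugate.mul (PolyMat.const X)).mul polyMat_mat) i j
  have h2 := zclosure_zero hg h1 (by
    intro g' hg'
    rw [mat_ent]
    have h3 : g'.adjugate = g'.det • g'⁻¹ := by
      rw [Matrix.inv_def, smul_smul, Ring.mul_inverse_cancel _ (hu g' hg'), one_smul]
    rw [h3, Matrix.smul_mul, Matrix.smul_mul, Matrix.smul_apply, hS g' hg' i j hij, smul_zero])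
  rw [mat_ent] at h2
  rw [Matrix.inv_def, Matrix.smul_mul, Matrix.smul_mul, Matrix.smul_apply, h2, smul_zero]

end

end Pool.Agent.Lib.MP_1e2f52_ag
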