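import Pool.Agent.Lib.MP_1e2f52_ag.Gor

/-!
# Irreducibility of parameter ideals in Cohen-Macaulay rings
-/

open MvPolynomial RingTheory.Sequence IsLocalRing Pointwise

namespace Pool.Agent.Lib.MP_1e2f52_ag

noncomputable section

section socle

variable {R : Type} [CommRing R]

lemma mem_sup_span {q : Ideal R} {x r : R} : r ∈ q ⊔ Ideal.span {x} ↔ ∃ c, r - c * x ∈ q := by
  rw [Submodule.mem_sup]
  constructor
  · rintro ⟨a, ha, b, hb, rfl⟩
    obtain ⟨c, rfl⟩ := Ideal.mem_span_singleton'.1 hb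
    exact ⟨c, by simpa using ha⟩
  · rintro ⟨c, hc⟩
    exact ⟨_, hc, c * x, Ideal.mem_span_singleton'.2 ⟨c, rfl⟩, by ring⟩

/-- Multiplication by `x` is injective modulo `q`. -/
def RegMod (q : Ideal R) (x : R) : Prop := ∀ r, x * r ∈ q → r ∈ q

variable [IsLocalRing R]

/-- The socle of `R / I` is one-dimensional. -/
def SS (I : Ideal R) : Prop :=
  ∃ s, s ∉ I ∧ (∀ y ∈ maximalIdeal R, y * s ∈ I) ∧
    ∀ t, (∀ y ∈ maximalIdeal R, y * t ∈ I) → ∃ c, t - c * s ∈ I

/-- A socle element modulo `q + (y x)` is divisible by `y`. -/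
lemma socle_div {q : Ideal R} {x y t : R} (hx : x ∈ maximalIdeal R) (hqx : RegMod q x)
    (hqy : RegMod q y)
    (ht : ∀ z ∈ maximalIdeal R, z * t ∈ q ⊔ Ideal.span {y * x}) :
    ∃ c, t - c * y ∈ q ∧ ∀ z ∈ maximalIdeal R, z * c ∈ q ⊔ Ideal.span {x} := by
  obtain ⟨c, hc⟩ := mem_sup_span.1 (ht x hx)
  have h1 : t - c * y ∈ q := by
    apply hqx
    have : x * (t - c * y) = x * t - c * (y * x) := by ring
    rw [this]
    exact hc
  refine ⟨c, h1, fun z hz => ?_⟩
  obtain ⟨e, he⟩ := mem_sup_span.1 (ht z hz)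
  refine mem_sup_span.2 ⟨e, hqy _ ?_⟩
  have : y * (z * c - e * x) = (z * t - e * (y * x)) - z * (t - c * y) := by ring
  rw [this]
  exact q.sub_mem he (q.mul_mem_left _ h1)

lemma ss_mul {q : Ideal R} {x y : R} (hx : x ∈ maximalIdeal R) (hqx : RegMod q x)
    (hqy : RegMod q y) : SS (q ⊔ Ideal.span {x}) ↔ SS (q ⊔ Ideal.span {y * x}) := by
  have key : ∀ r, y * r ∈ q ⊔ Ideal.span {y * x} ↔ r ∈ q ⊔ Ideal.span {x} := by
    intro r
    rw [mem_sup_span, mem_sup_span]
    constructor
    · rintro ⟨c, hc⟩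
      refine ⟨c, hqy _ ?_⟩
      have : y * (r - c * x) = y * r - c * (y * x) := by ring
      rw [this]; exact hc
    · rintro ⟨c, hc⟩
      refine ⟨c, ?_⟩
      have : y * r - c * (y * x) = y * (r - c * x) := by ring
      rw [this]; exact q.mul_mem_left _ hc
  have hle : q ≤ q ⊔ Ideal.span {y * x} := le_sup_left
  constructor
  · rintro ⟨s, hs, hms, hall⟩
    refine ⟨y * s, fun h => hs ((key s).1 h), fun z hz => ?_, fun t ht => ?_⟩
    · have : z * (y * s) = y * (z * s) := by ring
      rw [this]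
      exact (key _).2 (hms z hz)
    · obtain ⟨c, hc1, hc2⟩ := socle_div hx hqx hqy ht
      obtain ⟨c', hc'⟩ := hall c hc2
      refine ⟨c', ?_⟩
      have : t - c' * (y * s) = (t - c * y) + y * (c - c' * s) := by ring
      rw [this]
      exact Ideal.add_mem _ (hle hc1) ((key _).2 hc')
  · rintro ⟨s', hs', hms', hall⟩
    obtain ⟨s, hs1, hs2⟩ := socle_div hx hqx hqy hms'
    refine ⟨s, fun h => hs' ?_, hs2, fun t ht => ?_⟩
    · have : s' = (s' - s * y) + y * s := by ring
      rw [this]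
      exact Ideal.add_mem _ (hle hs1) ((key _).2 h)
    · obtain ⟨c, hc⟩ := hall (y * t) (fun z hz => by
        have : z * (y * t) = y * (z * t) := by ring
        rw [this]
        exact (key _).2 (ht z hz))
      refine ⟨c, (key _).1 ?_⟩
      have : y * (t - c * s) = (y * t - c * s') + c * (s' - s * y) := by ring
      rw [this]
      exact Ideal.add_mem _ hc (hle (q.mul_mem_left _ hs1))

/-- Exchange of the last parameter. -/
lemma ss_exch {q : Ideal R} {x y : R} (hx : x ∈ maximalIdeal R) (hy : y ∈ maximalIdeal R)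
    (hqx : RegMod q x) (hqy : RegMod q y) :
    SS (q ⊔ Ideal.span {x}) ↔ SS (q ⊔ Ideal.span {y}) := by
  rw [ss_mul hx hqx hqy, ss_mul hy hqy hqx, mul_comm]

/-- The ideal `I` is not an intersection of two larger ideals. -/
def Irr (I : Ideal R) : Prop := ∀ J J' : Ideal R, J ⊓ J' = I → J = I ∨ J' = I

lemma exists_socle {I : Ideal R} (n : ℕ) : ∀ t, t ∉ I →
    (∀ y ∈ maximalIdeal R ^ n, y * t ∈ I) →
    ∃ c, c * t ∉ I ∧ ∀ y ∈ maximalIdeal R, y * (c * t) ∈ I := by
  induction n with
  | zero =>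
    intro t ht h
    have := h 1 (by simp)
    rw [one_mul] at this
    exact absurd this ht
  | succ n ih =>
    intro t ht h
    by_cases h1 : ∀ y ∈ maximalIdeal R, y * t ∈ I
    · exact ⟨1, by rwa [one_mul], by simpa using h1⟩
    · push Not at h1
      obtain ⟨y, hy, hyt⟩ := h1
      obtain ⟨c, hc1, hc2⟩ := ih (y * t) hyt (fun z hz => by
        rw [← mul_assoc]
        exact h _ (by rw [pow_succ]; exact Ideal.mul_mem_mul hz hy))
      refine ⟨c * y, ?_, fun z hz => ?_⟩
      · rw [mul_assoc]; exact hc1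
      · rw [mul_assoc c]; exact hc2 z hz

lemma unit_or {c : R} : IsUnit c ∨ c ∈ maximalIdeal R := by
  by_cases h : IsUnit c
  · exact Or.inl h
  · exact Or.inr (by simpa using h)

/-- Irreducibility of a primary ideal in terms of the socle. -/
lemma irr_iff {I : Ideal R} (hI : I ≠ ⊤) {n : ℕ} (hn : maximalIdeal R ^ n ≤ I) :
    Irr I ↔ SS I := by
  have hsoc : ∀ t ∉ I, ∃ c, c * t ∉ I ∧ ∀ y ∈ maximalIdeal R, y * (c * t) ∈ I :=
    fun t ht => exists_socle n t ht fun y hy => I.mul_mem_right _ (hn hy)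
  constructor
  · intro h
    obtain ⟨c, hc1, hc2⟩ := hsoc 1 (fun h => hI ((Ideal.eq_top_iff_one _).2 h))
    rw [mul_one] at hc1 hc2
    refine ⟨c, hc1, hc2, fun t ht => ?_⟩
    by_cases htI : t ∈ I
    · exact ⟨0, by simpa using htI⟩
    by_cases hint : (I ⊔ Ideal.span {c}) ⊓ (I ⊔ Ideal.span {t}) = I
    · rcases h _ _ hint with h1 | h1
      · exfalso
        apply hc1
        rw [← h1]
        exact (le_sup_right : Ideal.span {c} ≤ _) (Ideal.mem_span_singleton_self _)
      · exfalso
        apply htI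
        rw [← h1]
        exact (le_sup_right : Ideal.span {t} ≤ _) (Ideal.mem_span_singleton_self _)
    · have hlt : ¬ ((I ⊔ Ideal.span {c}) ⊓ (I ⊔ Ideal.span {t}) ≤ I) := fun hle =>
        hint (le_antisymm hle (le_inf le_sup_left le_sup_left))
      obtain ⟨u, ⟨hu1, hu2⟩, hu3⟩ := SetLike.not_le_iff_exists.1 hlt
      obtain ⟨a, ha⟩ := mem_sup_span.1 hu1
      obtain ⟨b, hb⟩ := mem_sup_span.1 hu2
      rcases unit_or (c := b) with hbu | hbm
      · obtain ⟨b', hb'⟩ := hbu.exists_left_inv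
        refine ⟨b' * a, ?_⟩
        have : t - b' * a * c = b' * ((u - a * c) - (u - b * t)) + (1 - b' * b) * t := by ring
        rw [this, hb', sub_self, zero_mul, add_zero]
        exact I.mul_mem_left _ (I.sub_mem ha hb)
      · exfalso
        apply hu3
        have : u = (u - b * t) + b * t := by ring
        rw [this]
        exact I.add_mem hb (ht b hbm)
  · rintro ⟨s, hs1, hs2, hs3⟩ J J' hJ
    have key : ∀ J : Ideal R, I ≤ J → J ≠ I → s ∈ J := by
      intro J hIJ hne
      have hlt : ¬ (J ≤ I) := fun hle => hne (le_antisymm hle hIJ)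
      obtain ⟨t, ht1, ht2⟩ := SetLike.not_le_iff_exists.1 hlt
      obtain ⟨c, hc1, hc2⟩ := hsoc t ht2
      obtain ⟨e, he⟩ := hs3 _ hc2
      rcases unit_or (c := e) with heu | hem
      · obtain ⟨e', he'⟩ := heu.exists_left_inv
        have : s = e' * (c * t) - e' * (c * t - e * s) + (1 - e' * e) * s := by ring
        rw [this, he', sub_self, zero_mul, add_zero]
        exact J.sub_mem (J.mul_mem_left _ (J.mul_mem_left _ ht1)) (J.mul_mem_left _ (hIJ he))
      · exfalso
        apply hc1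
        have : c * t = (c * t - e * s) + e * s := by ring
        rw [this]
        exact I.add_mem he (hs2 e hem)
    by_contra hcon
    push Not at hcon
    apply hs1
    have h1 := key J (hJ ▸ inf_le_left) hcon.1
    have h2 := key J' (hJ ▸ inf_le_right) hcon.2
    rw [← hJ]
    exact ⟨h1, h2⟩

end socle

/-- The socle condition in a quotient. -/
lemma ss_quot {R : Type} [CommRing R] [IsLocalRing R] {S : Type} [CommRing S] [IsLocalRing S]
    (f : R →+* S) (hf : Function.Surjective f) (J : Ideal S) :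
    SS (J.comap f) ↔ SS J := by
  have hloc : IsLocalHom f := IsLocalHom.of_surjective f hf
  have hm : ∀ y, y ∈ maximalIdeal R ↔ f y ∈ maximalIdeal S := by
    intro y
    rw [mem_maximalIdeal, mem_maximalIdeal, mem_nonunits_iff, mem_nonunits_iff, isUnit_map_iff]
  have hall : ∀ t, (∀ y ∈ maximalIdeal R, y * t ∈ J.comap f) ↔
      ∀ y ∈ maximalIdeal S, y * f t ∈ J := by
    intro t
    constructor
    · intro h y hy
      obtain ⟨y, rfl⟩ := hf y
      have := h y ((hm y).2 hy)
      rwa [Ideal.mem_comap, map_mul] at this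
    · intro h y hy
      rw [Ideal.mem_comap, map_mul]
      exact h _ ((hm y).1 hy)
  constructor
  · rintro ⟨s, hs1, hs2, hs3⟩
    refine ⟨f s, hs1, (hall s).1 hs2, fun t ht => ?_⟩
    obtain ⟨t, rfl⟩ := hf t
    obtain ⟨c, hc⟩ := hs3 t ((hall t).2 ht)
    refine ⟨f c, ?_⟩
    rwa [Ideal.mem_comap, map_sub, map_mul] at hc
  · rintro ⟨s, hs1, hs2, hs3⟩
    obtain ⟨s, rfl⟩ := hf s
    refine ⟨s, hs1, (hall s).2 hs2, fun t ht => ?_⟩
    obtain ⟨c, hc⟩ := hs3 (f t) ((hall t).1 ht)
    obtain ⟨c, rfl⟩ := hf c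
    refine ⟨c, ?_⟩
    rwa [Ideal.mem_comap, map_sub, map_mul]

section regular

variable {R : Type} [CommRing R]

lemma regMod_iff (q : Ideal R) (x : R) :
    RegMod q x ↔ IsSMulRegular (R ⧸ (q • (⊤ : Submodule R R))) x := by
  have hq : q • (⊤ : Submodule R R) = q := by simp
  rw [isSMulRegular_iff_right_eq_zero_of_smul]
  constructor
  · intro h r hr
    obtain ⟨r, rfl⟩ := Submodule.Quotient.mk_surjective _ r
    rw [← Submodule.Quotient.mk_smul, Submodule.Quotient.mk_eq_zero, hq] at hr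
    rw [Submodule.Quotient.mk_eq_zero, hq]
    exact h r hr
  · intro h r hr
    have := h (Submodule.Quotient.mk r) (by
      rw [← Submodule.Quotient.mk_smul, Submodule.Quotient.mk_eq_zero, hq]
      exact hr)
    rwa [Submodule.Quotient.mk_eq_zero, hq] at this

variable [IsLocalRing R]

lemma isRegular_iff_mem {rs : List R} :
    IsRegular R rs ↔ IsWeaklyRegular R rs ∧ ∀ r ∈ rs, r ∈ maximalIdeal R := by
  constructor
  · intro h
    refine ⟨h.1, fun r hr => ?_⟩
    rcases unit_or (c := r) with hu | hm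
    · exfalso
      apply h.2
      rw [smul_eq_mul, Ideal.mul_top]
      exact (Ideal.eq_top_of_isUnit_mem _ (Ideal.subset_span (by simpa using hr)) hu).symm
    · exact hm
  · rintro ⟨h1, h2⟩
    refine ⟨h1, fun h => ?_⟩
    rw [smul_eq_mul, Ideal.mul_top] at h
    have : Ideal.ofList rs ≤ maximalIdeal R := Ideal.span_le.2 fun r hr => h2 r hr
    rw [← h] at this
    exact (maximalIdeal.isMaximal R).ne_top (top_le_iff.1 this)

variable [IsNoetherianRing R]

/-- Regular sequences may be permuted; the last element is regular modulo the others. -/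
lemma isRegular_cons_iff' {x : R} {xs : List R} :
    IsRegular R (x :: xs) ↔ IsWeaklyRegular R xs ∧ (∀ r ∈ xs, r ∈ maximalIdeal R) ∧
      x ∈ maximalIdeal R ∧ RegMod (Ideal.ofList xs) x := by
  have hperm : (x :: xs).Perm (xs ++ [x]) := (List.perm_append_singleton x xs).symm
  have h1 : IsRegular R (x :: xs) ↔ IsRegular R (xs ++ [x]) :=
    ⟨fun h => isRegular_of_perm h hperm, fun h => isRegular_of_perm h hperm.symm⟩
  rw [h1, isRegular_iff_mem, isWeaklyRegular_append_iff, isWeaklyRegular_singleton_iff,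
    ← regMod_iff]
  constructor
  · rintro ⟨⟨h2, h3⟩, h4⟩
    exact ⟨h2, fun r hr => h4 r (by simp [hr]), h4 x (by simp), h3⟩
  · rintro ⟨h2, h3, h4, h5⟩
    refine ⟨⟨h2, h5⟩, fun r hr => ?_⟩
    rw [List.mem_append, List.mem_singleton] at hr
    rcases hr with hr | rfl
    · exact h3 r hr
    · exact h4

/-- A common regular element modulo two ideals. -/
lemma exists_common {q q' : Ideal R} {x y : R} (hx : x ∈ maximalIdeal R)
    (hy : y ∈ maximalIdeal R) (hqx : RegMod q x) (hqy : RegMod q' y) :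
    ∃ z ∈ maximalIdeal R, RegMod q z ∧ RegMod q' z := by
  let M := R ⧸ (q • (⊤ : Submodule R R))
  let M' := R ⧸ (q' • (⊤ : Submodule R R))
  have hfin : (associatedPrimes R M ∪ associatedPrimes R M').Finite :=
    (associatedPrimes.finite R M).union (associatedPrimes.finite R M')
  by_contra hcon
  push Not at hcon
  have hsub : (maximalIdeal R : Set R) ⊆
      ⋃ p ∈ associatedPrimes R M ∪ associatedPrimes R M', (id p : Ideal R) := by
    intro z hz
    rw [Set.biUnion_union]
    by_cases h1 : RegMod q z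
    · right
      have h2 := hcon z hz h1
      rw [regMod_iff] at h2
      simp only [id]
      rw [biUnion_associatedPrimes_eq_compl_regular]
      exact h2
    · left
      rw [regMod_iff] at h1
      simp only [id]
      rw [biUnion_associatedPrimes_eq_compl_regular]
      exact h1
  obtain ⟨p, hp, hle⟩ := (Ideal.subset_union_prime_finite hfin (f := id) 0 0 (by
    intro p hp _ _
    rcases hp with hp | hp
    · exact hp.isPrime
    · exact hp.isPrime)).1 hsub
  rcases hp with hp | hp
  · have h1 : x ∈ ⋃ p ∈ associatedPrimes R M, (p : Set R) :=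
      Set.mem_iUnion₂.2 ⟨p, hp, hle hx⟩
    rw [biUnion_associatedPrimes_eq_compl_regular] at h1
    exact h1 ((regMod_iff q x).1 hqx)
  · have h1 : y ∈ ⋃ p ∈ associatedPrimes R M', (p : Set R) :=
      Set.mem_iUnion₂.2 ⟨p, hp, hle hy⟩
    rw [biUnion_associatedPrimes_eq_compl_regular] at h1
    exact h1 ((regMod_iff q' y).1 hqy)

end regular

/-- The ideal generated by a regular sequence in a quotient. -/
lemma ofList_comap {R : Type} [CommRing R] (x : R) (rs : List R) :
    (Ideal.ofList (rs.map (Ideal.Quotient.mk (Ideal.span {x})))).comap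
      (Ideal.Quotient.mk (Ideal.span {x})) = Ideal.ofList (x :: rs) := by
  rw [← Ideal.map_ofList, Ideal.comap_map_of_surjective _ Ideal.Quotient.mk_surjective,
    Ideal.ofList_cons, sup_comm]
  congr 1
  exact Ideal.mk_ker

/-- The socle condition does not depend on the maximal regular sequence. -/
theorem ss_indep (d : ℕ) : ∀ (R : Type) [CommRing R] [IsNoetherianRing R] [IsLocalRing R]
    (rs rs' : List R), IsRegular R rs → IsRegular R rs' → rs.length = d → rs'.length = d →
    (SS (Ideal.ofList rs) ↔ SS (Ideal.ofList rs')) := by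
  induction d with
  | zero =>
    intro R _ _ _ rs rs' _ _ h1 h2
    rw [List.length_eq_zero_iff] at h1 h2
    rw [h1, h2]
  | succ d ih =>
    intro R _ _ _ rs rs' hrs hrs' h1 h2
    obtain ⟨x, xs, rfl⟩ := List.exists_cons_of_length_eq_add_one h1
    obtain ⟨y, ys, rfl⟩ := List.exists_cons_of_length_eq_add_one h2
    obtain ⟨a1, a2, a3, a4⟩ := isRegular_cons_iff'.1 hrs
    obtain ⟨b1, b2, b3, b4⟩ := isRegular_cons_iff'.1 hrs'
    obtain ⟨z, hz, hz1, hz2⟩ := exists_common a3 b3 a4 b4
    have k1 : IsRegular R (z :: xs) := isRegular_cons_iff'.2 ⟨a1, a2, hz, hz1⟩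
    have k2 : IsRegular R (z :: ys) := isRegular_cons_iff'.2 ⟨b1, b2, hz, hz2⟩
    have e1 : SS (Ideal.ofList (x :: xs)) ↔ SS (Ideal.ofList (z :: xs)) := by
      rw [Ideal.ofList_cons, Ideal.ofList_cons, sup_comm, sup_comm (Ideal.span {z})]
      exact ss_exch a3 hz a4 hz1
    have e2 : SS (Ideal.ofList (y :: ys)) ↔ SS (Ideal.ofList (z :: ys)) := by
      rw [Ideal.ofList_cons, Ideal.ofList_cons, sup_comm, sup_comm (Ideal.span {z})]
      exact ss_exch b3 hz b4 hz2
    have hnt : Nontrivial (R ⧸ Ideal.span {z}) :=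
      Ideal.Quotient.nontrivial_iff.2 fun h => (maximalIdeal.isMaximal R).ne_top
        (top_le_iff.1 (h ▸ (Ideal.span_singleton_le_iff_mem _).2 hz))
    have hloc : IsLocalRing (R ⧸ Ideal.span {z}) :=
      IsLocalRing.of_surjective' (Ideal.Quotient.mk _) Ideal.Quotient.mk_surjective
    have e3 : SS (Ideal.ofList (z :: xs)) ↔
        SS (Ideal.ofList (xs.map (Ideal.Quotient.mk (Ideal.span {z})))) := by
      rw [← ofList_comap]
      exact ss_quot _ Ideal.Quotient.mk_surjective _
    have e4 : SS (Ideal.ofList (z :: ys)) ↔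
        SS (Ideal.ofList (ys.map (Ideal.Quotient.mk (Ideal.span {z})))) := by
      rw [← ofList_comap]
      exact ss_quot _ Ideal.Quotient.mk_surjective _
    have c1 := (isRegular_quot_iff z xs).1 ((isRegular_cons_iff _ _ _).1 k1).2
    have c2 := (isRegular_quot_iff z ys).1 ((isRegular_cons_iff _ _ _).1 k2).2
    have e5 := ih (R ⧸ Ideal.span {z}) _ _ c1 c2 (by simpa using h1) (by simpa using h2)
    rw [e1, e2, e3, e4, e5]

/-- Maximal regular sequences generate primary ideals. -/
lemma exists_pow_le {R : Type} [CommRing R] [IsNoetherianRing R] [IsLocalRing R] {rs : List R}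
    (hrs : IsRegular R rs) (hl : ((rs.length : ℕ∞) : WithBot ℕ∞) = ringKrullDim R) :
    Ideal.ofList rs ≠ ⊤ ∧ ∃ n, maximalIdeal R ^ n ≤ Ideal.ofList rs := by
  have hne : Ideal.ofList rs ≠ ⊤ := by
    intro h
    apply hrs.2
    rw [smul_eq_mul, Ideal.mul_top, h]
  refine ⟨hne, ?_⟩
  have hnt : Nontrivial (R ⧸ Ideal.ofList rs) := Ideal.Quotient.nontrivial_iff.2 hne
  have hloc : IsLocalRing (R ⧸ Ideal.ofList rs) :=
    IsLocalRing.of_surjective' (Ideal.Quotient.mk _) Ideal.Quotient.mk_surjective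
  have hdim := ringKrullDim_add_length_eq_ringKrullDim_of_isRegular rs hrs
  rw [← hl] at hdim
  have h0 : ringKrullDim (R ⧸ Ideal.ofList rs) ≤ (0 : ℕ) := by
    obtain ⟨e, he⟩ : ∃ e : ℕ∞, ringKrullDim (R ⧸ Ideal.ofList rs) = (e : WithBot ℕ∞) := by
      have h0 : ringKrullDim (R ⧸ Ideal.ofList rs) ≠ ⊥ := by
        intro h
        have := ringKrullDim_nonneg_of_nontrivial (R := R ⧸ Ideal.ofList rs)
        rw [h] at this
        simp at this
      exact ⟨_, (WithBot.coe_unbot _ h0).symm⟩
    rw [he] at hdim ⊢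
    have h1 : e + (rs.length : ℕ∞) = (rs.length : ℕ∞) := by exact_mod_cast hdim
    have h2 : e ≠ ⊤ := by
      rintro rfl
      simp at h1
    lift e to ℕ using h2
    have h3 : e + rs.length = rs.length := by exact_mod_cast h1
    have h4 : e = 0 := by omega
    rw [h4]
    rfl
  have hart : IsArtinianRing (R ⧸ Ideal.ofList rs) := by
    rw [isArtinianRing_iff_krullDimLE_zero, Ring.krullDimLE_iff]
    exact h0
  obtain ⟨n, hn⟩ := (isArtinianRing_iff_isNilpotent_maximalIdeal _).1 hart
  refine ⟨n, fun r hr => ?_⟩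
  have hmap : (maximalIdeal R ^ n).map (Ideal.Quotient.mk (Ideal.ofList rs)) ≤
      maximalIdeal (R ⧸ Ideal.ofList rs) ^ n := by
    rw [Ideal.map_pow]
    apply Ideal.pow_right_mono
    rw [Ideal.map_le_iff_le_comap]
    intro y hy
    have : IsLocalHom (Ideal.Quotient.mk (Ideal.ofList rs)) :=
      IsLocalHom.of_surjective _ Ideal.Quotient.mk_surjective
    rw [Ideal.mem_comap, mem_maximalIdeal, mem_nonunits_iff, isUnit_map_iff]
    simpa using hy
  have h1 := hmap (Ideal.mem_map_of_mem _ hr)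
  rw [hn] at h1
  exact Ideal.Quotient.eq_zero_iff_mem.1 h1

/-- Quotients by a regular element of the maximal ideal. -/
theorem isGor_quot_iff {R : Type} [CommRing R] [IsNoetherianRing R] [IsLocalRing R] {x : R}
    (hx : x ∈ maximalIdeal R) (reg : IsSMulRegular R x) :
    IsGor R ↔ IsGor (R ⧸ Ideal.span {x}) := by
  refine ⟨IsGor.quot hx reg, fun h => ?_⟩
  have hdim := ringKrullDim_quotient_span_singleton_succ_eq_ringKrullDim reg hx
  have hnt : Nontrivial (R ⧸ Ideal.span {x}) :=
    Ideal.Quotient.nontrivial_iff.2 fun h => (maximalIdeal.isMaximal R).ne_top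
      (top_le_iff.1 (h ▸ (Ideal.span_singleton_le_iff_mem _).2 hx))
  have hloc : IsLocalRing (R ⧸ Ideal.span {x}) :=
    IsLocalRing.of_surjective' (Ideal.Quotient.mk _) Ideal.Quotient.mk_surjective
  refine ⟨(isCM_quot_iff hx reg).2 h.1, fun rs hrs hl => ?_⟩
  change Irr (Ideal.ofList rs)
  obtain ⟨hne, n, hn⟩ := exists_pow_le hrs hl
  rw [irr_iff hne hn]
  obtain ⟨ts', hts', hlt'⟩ := h.1
  obtain ⟨ts, rfl⟩ : ∃ ts : List R, ts.map (Ideal.Quotient.mk (Ideal.span {x})) = ts' :=
    List.map_surjective_iff.2 Ideal.Quotient.mk_surjective ts'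
  have hreg : IsRegular R (x :: ts) :=
    (isRegular_cons_iff _ _ _).2 ⟨reg, (isRegular_quot_iff x ts).2 hts'⟩
  have hlen : (((x :: ts).length : ℕ∞) : WithBot ℕ∞) = ringKrullDim R := by
    rw [← hdim, ← hlt']; simp
  have hlen2 : rs.length = (x :: ts).length := by
    have : ((rs.length : ℕ∞) : WithBot ℕ∞) = (((x :: ts).length : ℕ∞) : WithBot ℕ∞) := by
      rw [hl, hlen]
    exact_mod_cast this
  rw [ss_indep rs.length R rs (x :: ts) hrs hreg rfl hlen2.symm, ← ofList_comap,
    ss_quot _ Ideal.Quotient.mk_surjective]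
  obtain ⟨hne', n', hn'⟩ := exists_pow_le hts' hlt'
  rw [← irr_iff hne' hn']
  exact h.2 _ hts' hlt'

end

end Pool.Agent.Lib.MP_1e2f52_ag
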