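import Pool.Agent.Lib.MP_1e2f52_ag.Pat

/-!
# A nilpotent matrix with blocks of equal size, and a tower of flag bundles
-/

namespace Pool.Agent.Lib.MP_1e2f52_ag

noncomputable section

open Matrix

/-- Block diagonal matrices. -/
def bd {L I : Type} [DecidableEq L] (D : L → Matrix I I ℂ) : Matrix (L × I) (L × I) ℂ :=
  fun p q => if p.1 = q.1 then D p.1 p.2 q.2 else 0

/-- The shift by `k` levels. -/
def shk {r N : ℕ} (k : ℕ) : Matrix (Fin (r + 1) × Fin N) (Fin (r + 1) × Fin N) ℂ :=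
  fun p q => if p.1.val + k = q.1.val ∧ p.2 = q.2 then 1 else 0

section bd

variable {L I : Type} [DecidableEq L] [Fintype L] [Fintype I] [DecidableEq I]

lemma bd_mul (D D' : L → Matrix I I ℂ) : bd D * bd D' = bd (fun k => D k * D' k) := by
  ext ⟨k, i⟩ ⟨k', i'⟩
  rw [Matrix.mul_apply, Fintype.sum_prod_type, Finset.sum_eq_single k]
  · simp only [bd, if_true]
    split_ifs with h
    · rw [Matrix.mul_apply]
    · simp
  · intro b _ hb
    apply Finset.sum_eq_zero
    intro x _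
    simp only [bd]
    rw [if_neg (Ne.symm hb), zero_mul]
  · intro h; exact absurd (Finset.mem_univ _) h

lemma bd_one : bd (fun _ : L => (1 : Matrix I I ℂ)) = 1 := by
  ext ⟨k, i⟩ ⟨k', i'⟩
  simp only [bd, Matrix.one_apply, Prod.mk.injEq]
  split_ifs <;> simp_all

end bd

section sh

variable {r N : ℕ}

lemma shk_zero : (shk 0 : Matrix (Fin (r + 1) × Fin N) (Fin (r + 1) × Fin N) ℂ) = 1 := by
  ext ⟨k, i⟩ ⟨k', i'⟩
  simp only [shk, Matrix.one_apply, Prod.mk.injEq, add_zero, Fin.ext_iff]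

lemma shk_mul_one (k : ℕ) : (shk k : Matrix (Fin (r + 1) × Fin N) (Fin (r + 1) × Fin N) ℂ) * shk 1 =
    shk (k + 1) := by
  ext ⟨a, i⟩ ⟨b, j⟩
  rw [Matrix.mul_apply]
  simp only [shk]
  by_cases h : a.val + (k + 1) = b.val ∧ i = j
  · rw [if_pos h]
    have hlt : a.val + k < r + 1 := by have := b.isLt; omega
    rw [Finset.sum_eq_single (⟨a.val + k, hlt⟩, i)]
    · rw [if_pos ⟨rfl, rfl⟩, if_pos ⟨by simp only; omega, h.2⟩, one_mul]
    · rintro ⟨c, l⟩ _ hne
      by_cases h1 : a.val + k = c.val ∧ i = l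
      · exfalso; apply hne
        rw [Prod.mk.injEq]
        exact ⟨Fin.ext h1.1.symm, h1.2.symm⟩
      · rw [if_neg h1, zero_mul]
    · intro h; exact absurd (Finset.mem_univ _) h
  · rw [if_neg h]
    apply Finset.sum_eq_zero
    rintro ⟨c, l⟩ _
    by_cases h1 : a.val + k = c.val ∧ i = l
    · rw [if_neg (fun h2 : c.val + 1 = b.val ∧ l = j => h ⟨by omega, h1.2.trans h2.2⟩), mul_zero]
    · rw [if_neg h1, zero_mul]

lemma shk_pow (k : ℕ) : (shk 1 : Matrix (Fin (r + 1) × Fin N) (Fin (r + 1) × Fin N) ℂ) ^ k =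
    shk k := by
  induction k with
  | zero => rw [pow_zero, shk_zero]
  | succ k ih => rw [pow_succ, ih, shk_mul_one]

lemma shk_bd_const (k : ℕ) (h : Matrix (Fin N) (Fin N) ℂ) :
    (shk k : Matrix (Fin (r + 1) × Fin N) (Fin (r + 1) × Fin N) ℂ) * bd (fun _ => h) =
      bd (fun _ => h) * shk k := by
  ext ⟨a, i⟩ ⟨b, j⟩
  rw [Matrix.mul_apply, Matrix.mul_apply]
  simp only [shk, bd]
  by_cases hab : a.val + k = b.val
  · rw [Finset.sum_eq_single (b, i), Finset.sum_eq_single (a, j)]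
    · simp [hab]
    · rintro ⟨c, l⟩ _ hne
      by_cases h1 : a = c
      · subst h1
        by_cases h2 : l = j
        · subst h2; exact absurd rfl hne
        · simp [h2]
      · simp [h1]
    · intro h; exact absurd (Finset.mem_univ _) h
    · rintro ⟨c, l⟩ _ hne
      by_cases h1 : c = b
      · subst h1
        by_cases h2 : i = l
        · subst h2; exact absurd rfl hne
        · simp [h2]
      · simp [h1]
    · intro h; exact absurd (Finset.mem_univ _) h
  · rw [Finset.sum_eq_zero, Finset.sum_eq_zero]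
    · rintro ⟨c, l⟩ _
      by_cases h1 : a = c
      · subst h1
        simp [hab]
      · simp [h1]
    · rintro ⟨c, l⟩ _
      by_cases h1 : c = b
      · subst h1
        simp [hab]
      · simp [h1]

lemma bd_shk_bd (k : ℕ) (D D' : Fin (r + 1) → Matrix (Fin N) (Fin N) ℂ)
    (p q : Fin (r + 1) × Fin N) :
    (bd D * shk k * bd D' : Matrix (Fin (r + 1) × Fin N) (Fin (r + 1) × Fin N) ℂ) p q =
      if p.1.val + k = q.1.val then (D p.1 * D' q.1) p.2 q.2 else 0 := by
  obtain ⟨a, i⟩ := p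
  obtain ⟨b, j⟩ := q
  have h1 : ∀ (c : Fin (r + 1)) (l : Fin N),
      (bd D * shk k : Matrix (Fin (r + 1) × Fin N) (Fin (r + 1) × Fin N) ℂ) (a, i) (c, l) =
        if a.val + k = c.val then D a i l else 0 := by
    intro c l
    rw [Matrix.mul_apply, Finset.sum_eq_single (a, l)]
    · simp [bd, shk]
    · rintro ⟨c', l'⟩ _ hne
      simp only [bd, shk]
      by_cases h1 : a = c'
      · subst h1
        by_cases h2 : l' = l
        · subst h2; exact absurd rfl hne
        · simp [h2]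
      · simp [h1]
    · intro h; exact absurd (Finset.mem_univ _) h
  rw [Matrix.mul_apply, Fintype.sum_prod_type, Finset.sum_eq_single b]
  · simp only [h1, bd, if_true]
    split_ifs with h
    · rw [Matrix.mul_apply]
    · simp
  · intro c _ hc
    apply Finset.sum_eq_zero
    intro l _
    simp only [bd]
    rw [if_neg hc, mul_zero]
  · intro h; exact absurd (Finset.mem_univ _) h

end sh

/-- The data of the construction: invertible matrices preserving the span of two of the last three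
basis vectors. -/
structure TData where
  /-- the number of levels minus one -/
  r : ℕ
  /-- the dimension of each level -/
  N : ℕ
  /-- the first pivot -/
  o1 : Fin N
  /-- the position between the pivots -/
  o3 : Fin N
  /-- the second pivot -/
  o2 : Fin N
  h13 : o1.val + 1 = o3.val
  h32 : o3.val + 1 = o2.val
  hN : o2.val + 1 = N
  /-- the change of coordinates at each level -/
  G : Fin (r + 1) → Matrix (Fin N) (Fin N) ℂ
  hG : ∀ k, IsUnit (G k).det
  hJ : ∀ k i, i ≠ o1 → i ≠ o2 → G k i o1 = 0 ∧ G k i o2 = 0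

namespace TData

variable (D : TData)

/-- The size of the matrices. -/
abbrev n : ℕ := (D.r + 1) * D.N

/-- Levels and coordinates. -/
abbrev Ix : Type := Fin (D.r + 1) × Fin D.N

/-- The enumeration of the index set. -/
def ix : D.Ix ≃ Fin D.n := finProdFinEquiv

lemma ix_val (p : D.Ix) : (D.ix p).val = p.2.val + D.N * p.1.val := finProdFinEquiv_apply_val p

/-- Matrices in the standard enumeration. -/
def re (M : Matrix D.Ix D.Ix ℂ) : Matrix (Fin D.n) (Fin D.n) ℂ := M.submatrix D.ix.symm D.ix.symm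

lemma re_apply (M : Matrix D.Ix D.Ix ℂ) (p q : D.Ix) : D.re M (D.ix p) (D.ix q) = M p q := by
  simp [re]

lemma re_mul (M M' : Matrix D.Ix D.Ix ℂ) : D.re M * D.re M' = D.re (M * M') :=
  Matrix.submatrix_mul_equiv _ _ _ _ _

lemma re_one : D.re 1 = 1 := by simp [re]

lemma re_pow (M : Matrix D.Ix D.Ix ℂ) (k : ℕ) : D.re M ^ k = D.re (M ^ k) := by
  induction k with
  | zero => rw [pow_zero, pow_zero, re_one]
  | succ k ih => rw [pow_succ, pow_succ, ih, re_mul]

/-- The nilpotent matrix. -/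
def X : Matrix (Fin D.n) (Fin D.n) ℂ := D.re (bd D.G * shk 1 * bd (fun k => (D.G k)⁻¹))

/-- The action of `GL_N` commuting with `X`. -/
def th (h : Matrix (Fin D.N) (Fin D.N) ℂ) : Matrix (Fin D.n) (Fin D.n) ℂ :=
  D.re (bd (fun k => D.G k * h * (D.G k)⁻¹))

/-- The level of an index. -/
def lev (v : Fin D.n) : ℕ := (D.ix.symm v).1.val

/-- The pivots. -/
def J (i : Fin D.N) : Prop := i = D.o1 ∨ i = D.o2

instance (i : Fin D.N) : Decidable (D.J i) := inferInstanceAs (Decidable (_ ∨ _))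

/-- The block of an index. -/
def blk (v : Fin D.n) : ℕ := if D.J (D.ix.symm v).2 then D.lev v else D.lev v + 1

lemma lev_ix (p : D.Ix) : D.lev (D.ix p) = p.1.val := by simp [lev]

lemma blk_ix (p : D.Ix) : D.blk (D.ix p) = if D.J p.2 then p.1.val else p.1.val + 1 := by
  simp [blk, lev]

lemma lev_le_blk (v : Fin D.n) : D.lev v ≤ D.blk v := by
  unfold blk; split_ifs <;> omega

lemma blk_le (v : Fin D.n) : D.blk v ≤ D.lev v + 1 := by
  unfold blk; split_ifs <;> omega

lemma lev_mono : Monotone D.lev := by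
  intro v v' h
  obtain ⟨⟨a, i⟩, rfl⟩ := D.ix.surjective v
  obtain ⟨⟨b, j⟩, rfl⟩ := D.ix.surjective v'
  rw [lev_ix, lev_ix]
  rw [Fin.le_def, ix_val, ix_val] at h
  simp only at h ⊢
  by_contra hcon
  have h1 : b.val + 1 ≤ a.val := by omega
  have h2 := Nat.mul_le_mul_left D.N h1
  rw [mul_add, mul_one] at h2
  have := j.isLt
  omega

lemma ix_lt (a : Fin (D.r + 1)) {i j : Fin D.N} : D.ix (a, i) < D.ix (a, j) ↔ i < j := by
  rw [Fin.lt_def, ix_val, ix_val, Fin.lt_def]
  simp only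
  omega

/-- The permutation. -/
def w : Equiv.Perm (Fin D.n) := (exists_sort D.blk).choose

lemma w_mono : Monotone (D.blk ∘ D.w) := (exists_sort D.blk).choose_spec.1

lemma w_anti : ∀ i j, i < j → D.blk (D.w i) = D.blk (D.w j) → D.w j < D.w i :=
  (exists_sort D.blk).choose_spec.2

/-- The block of a position. -/
def be (i : Fin D.n) : ℕ := D.blk (D.w i)

lemma be_mono : Monotone D.be := D.w_mono

lemma G_inv_mul (k : Fin (D.r + 1)) : (D.G k)⁻¹ * D.G k = 1 := Matrix.nonsing_inv_mul _ (D.hG k)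

lemma G_mul_inv (k : Fin (D.r + 1)) : D.G k * (D.G k)⁻¹ = 1 := Matrix.mul_nonsing_inv _ (D.hG k)

/-! ### Preservation of the span of the pivots -/

/-- A matrix preserves the span of the pivot vectors. -/
def Pres (M : Matrix (Fin D.N) (Fin D.N) ℂ) : Prop := ∀ i j, ¬ D.J i → D.J j → M i j = 0

lemma pres_iff (M : Matrix (Fin D.N) (Fin D.N) ℂ) :
    D.Pres M ↔ BlockTriangular M (fun i => if D.J i then 0 else 1 : Fin D.N → ℕ) := by
  constructor
  · intro h i j hij
    apply h
    · intro hi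
      simp only [hi, if_true] at hij
      exact absurd hij (Nat.not_lt_zero _)
    · by_contra hj
      simp only [hj, if_false] at hij
      split_ifs at hij <;> omega
  · intro h i j hi hj
    apply h
    simp [hi, hj]

lemma pres_mul {M M' : Matrix (Fin D.N) (Fin D.N) ℂ} (h : D.Pres M) (h' : D.Pres M') :
    D.Pres (M * M') := by
  rw [pres_iff] at *
  exact h.mul h'

lemma pres_inv {M : Matrix (Fin D.N) (Fin D.N) ℂ} (h : D.Pres M) (hu : IsUnit M.det) :
    D.Pres M⁻¹ := by
  rw [pres_iff] at *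
  exact bt_inv h hu

lemma pres_G (k : Fin (D.r + 1)) : D.Pres (D.G k) := by
  intro i j hi hj
  have h1 : i ≠ D.o1 := fun h => hi (Or.inl h)
  have h2 : i ≠ D.o2 := fun h => hi (Or.inr h)
  rcases hj with rfl | rfl
  · exact (D.hJ k i h1 h2).1
  · exact (D.hJ k i h1 h2).2

lemma pres_G_inv (k : Fin (D.r + 1)) : D.Pres (D.G k)⁻¹ := D.pres_inv (D.pres_G k) (D.hG k)

/-! ### Patterns -/

lemma X_apply (p q : D.Ix) : D.X (D.ix p) (D.ix q) =
    if p.1.val + 1 = q.1.val then (D.G p.1 * (D.G q.1)⁻¹) p.2 q.2 else 0 := by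
  rw [X, re_apply, bd_shk_bd]

lemma X_pow_apply (k : ℕ) (p q : D.Ix) : (D.X ^ k) (D.ix p) (D.ix q) =
    if p.1.val + k = q.1.val then (D.G p.1 * (D.G q.1)⁻¹) p.2 q.2 else 0 := by
  have h1 : ∀ k, (bd D.G * shk 1 * bd (fun k => (D.G k)⁻¹) : Matrix D.Ix D.Ix ℂ) ^ k =
      bd D.G * shk k * bd (fun k => (D.G k)⁻¹) := by
    intro k
    have h2 : (bd (fun k => (D.G k)⁻¹) * bd D.G : Matrix D.Ix D.Ix ℂ) = 1 := by
      rw [bd_mul]
      simp only [G_inv_mul]
      exact bd_one
    induction k with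
    | zero =>
      rw [pow_zero, shk_zero, Matrix.mul_one, bd_mul]
      simp only [G_mul_inv]
      exact bd_one.symm
    | succ k ih =>
      rw [pow_succ, ih, ← shk_mul_one k]
      simp only [Matrix.mul_assoc]
      rw [← Matrix.mul_assoc (bd (fun k => (D.G k)⁻¹)) (bd D.G), h2, Matrix.one_mul]
  rw [X, re_pow, re_apply, h1, bd_shk_bd]

lemma X_lev : SBT D.lev D.X := by
  intro v v' h
  obtain ⟨p, rfl⟩ := D.ix.surjective v
  obtain ⟨q, rfl⟩ := D.ix.surjective v'
  rw [lev_ix, lev_ix] at h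
  rw [X_apply, if_neg (by omega)]

lemma X_nilpotent : IsNilpotent D.X := D.X_lev.nilpotent

lemma X_blk : SBT D.blk D.X := by
  intro v v' h
  obtain ⟨p, rfl⟩ := D.ix.surjective v
  obtain ⟨q, rfl⟩ := D.ix.surjective v'
  rw [blk_ix, blk_ix] at h
  rw [X_apply]
  split_ifs with h1
  · have h2 := D.pres_mul (D.pres_G p.1) (D.pres_G_inv q.1)
    apply h2
    · intro hp
      rw [if_pos hp] at h
      split_ifs at h <;> omega
    · by_contra hq
      rw [if_neg hq] at h
      split_ifs at h <;> omega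
  · rfl

lemma X_be : SBT D.be (D.X.submatrix D.w D.w) := fun i j h => D.X_blk _ _ h

lemma th_mul (h h' : Matrix (Fin D.N) (Fin D.N) ℂ) : D.th h * D.th h' = D.th (h * h') := by
  rw [th, th, re_mul, bd_mul, th]
  congr 2
  funext k
  calc D.G k * h * (D.G k)⁻¹ * (D.G k * h' * (D.G k)⁻¹)
      = D.G k * h * ((D.G k)⁻¹ * D.G k) * h' * (D.G k)⁻¹ := by simp only [Matrix.mul_assoc]
    _ = D.G k * (h * h') * (D.G k)⁻¹ := by rw [G_inv_mul, Matrix.mul_one]; simp only [Matrix.mul_assoc]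

lemma th_one : D.th 1 = 1 := by
  rw [th]
  simp only [Matrix.mul_one, G_mul_inv]
  rw [bd_one, re_one]

lemma th_inv {h : Matrix (Fin D.N) (Fin D.N) ℂ} (hu : IsUnit h.det) : (D.th h)⁻¹ = D.th h⁻¹ := by
  apply Matrix.inv_eq_left_inv
  rw [th_mul, Matrix.nonsing_inv_mul _ hu, th_one]

lemma th_det {h : Matrix (Fin D.N) (Fin D.N) ℂ} (hu : IsUnit h.det) : IsUnit (D.th h).det := by
  apply Matrix.isUnit_det_of_left_inverse (B := D.th h⁻¹)
  rw [th_mul, Matrix.nonsing_inv_mul _ hu, th_one]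

lemma th_comm (h : Matrix (Fin D.N) (Fin D.N) ℂ) : D.th h * D.X = D.X * D.th h := by
  have h0 : (bd (fun k => D.G k * h * (D.G k)⁻¹) : Matrix D.Ix D.Ix ℂ) =
      bd D.G * bd (fun _ => h) * bd (fun k => (D.G k)⁻¹) := by
    rw [bd_mul, bd_mul]
  have h2 : (bd (fun k => (D.G k)⁻¹) * bd D.G : Matrix D.Ix D.Ix ℂ) = 1 := by
    rw [bd_mul]
    simp only [G_inv_mul]
    exact bd_one
  rw [th, X, re_mul, re_mul, h0]
  congr 1
  calc bd D.G * bd (fun _ => h) * bd (fun k => (D.G k)⁻¹) *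
        (bd D.G * shk 1 * bd (fun k => (D.G k)⁻¹))
      = bd D.G * bd (fun _ => h) * (bd (fun k => (D.G k)⁻¹) * bd D.G) * shk 1 *
          bd (fun k => (D.G k)⁻¹) := by simp only [Matrix.mul_assoc]
    _ = bd D.G * (shk 1 * bd (fun _ => h)) * bd (fun k => (D.G k)⁻¹) := by
        rw [h2, Matrix.mul_one, shk_bd_const]; simp only [Matrix.mul_assoc]
    _ = bd D.G * shk 1 * (bd (fun k => (D.G k)⁻¹) * bd D.G) * bd (fun _ => h) *
          bd (fun k => (D.G k)⁻¹) := by rw [h2, Matrix.mul_one]; simp only [Matrix.mul_assoc]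
    _ = _ := by simp only [Matrix.mul_assoc]

/-- The preimage under `X` of the span of the blocks up to `k`. -/
lemma X_preimage (k : ℕ) (m : Fin D.n → ℂ) (h : ∀ v, k < D.blk v → (D.X *ᵥ m) v = 0) :
    ∀ v, k + 1 < D.blk v → m v = 0 := by
  -- the components of `X m`
  have hX : ∀ (a b : Fin (D.r + 1)) (i : Fin D.N), a.val + 1 = b.val →
      (D.X *ᵥ m) (D.ix (a, i)) = ((D.G a * (D.G b)⁻¹) *ᵥ (fun j => m (D.ix (b, j)))) i := by
    intro a b i hab
    rw [Matrix.mulVec, dotProduct, ← Equiv.sum_comp D.ix, Fintype.sum_prod_type,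
      Finset.sum_eq_single b]
    · rw [Matrix.mulVec, dotProduct]
      refine Finset.sum_congr rfl fun j _ => ?_
      rw [X_apply, if_pos hab]
    · intro c _ hc
      apply Finset.sum_eq_zero
      intro j _
      rw [X_apply, if_neg, zero_mul]
      intro h1
      exact hc (Fin.ext (by simp only at h1; omega))
    · intro h; exact absurd (Finset.mem_univ _) h
  intro v hv
  obtain ⟨⟨b, j⟩, rfl⟩ := D.ix.surjective v
  rw [blk_ix] at hv
  simp only at hv
  have hb : 1 ≤ b.val := by split_ifs at hv <;> omega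
  obtain ⟨a, ha⟩ : ∃ a : Fin (D.r + 1), a.val + 1 = b.val :=
    ⟨⟨b.val - 1, by have := b.isLt; omega⟩, by simp only; omega⟩
  -- invert `G a * (G b)⁻¹`
  have hinv : ∀ u : Fin D.N → ℂ, (D.G b * (D.G a)⁻¹) *ᵥ ((D.G a * (D.G b)⁻¹) *ᵥ u) = u := by
    intro u
    rw [Matrix.mulVec_mulVec]
    have : D.G b * (D.G a)⁻¹ * (D.G a * (D.G b)⁻¹) = 1 := by
      rw [Matrix.mul_assoc, ← Matrix.mul_assoc ((D.G a)⁻¹), G_inv_mul, Matrix.one_mul, G_mul_inv]
    rw [this, Matrix.one_mulVec]
  have hm : m (D.ix (b, j)) =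
      ((D.G b * (D.G a)⁻¹) *ᵥ (fun i => (D.X *ᵥ m) (D.ix (a, i)))) j := by
    have h1 : (fun i => (D.X *ᵥ m) (D.ix (a, i))) =
        (D.G a * (D.G b)⁻¹) *ᵥ (fun j => m (D.ix (b, j))) := by
      funext i
      exact hX a b i ha
    rw [h1, hinv]
  rw [hm, Matrix.mulVec, dotProduct]
  apply Finset.sum_eq_zero
  intro i _
  by_cases hi : k < D.blk (D.ix (a, i))
  · rw [h _ hi, mul_zero]
  · rw [blk_ix] at hi
    simp only at hi
    have h3 := D.pres_mul (D.pres_G b) (D.pres_G_inv a)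
    rw [h3 j i, zero_mul]
    · intro hj
      rw [if_pos hj] at hv
      split_ifs at hi <;> omega
    · by_contra hi'
      rw [if_neg hi'] at hi
      split_ifs at hv <;> omega

end TData

end

end Pool.Agent.Lib.MP_1e2f52_ag
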