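import Pool.Agent.Lib.MP_1e2f52_ag.Tow
import Pool.Agent.Lib.MP_1e2f52_ag.Poly
import Pool.Agent.Lib.MP_1e2f52_ag.Cell

/-!
# The Springer Schubert cell of the tower
-/

open MvPolynomial Matrix

namespace Pool.Agent.Lib.MP_1e2f52_ag

noncomputable section

namespace TData

variable (D : TData)

/-- The vector in `ℂ^N` given by the component of level zero of a column. -/
def tv (g : Matrix (Fin D.n) (Fin D.n) ℂ) (c : Fin D.n) : Fin D.N → ℂ :=
  (D.G 0)⁻¹ *ᵥ (fun y => g (D.ix (0, y)) c)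

/-- The position of the first pivot of level zero. -/
def c1 : Fin D.n := D.w.symm (D.ix (0, D.o1))

/-- The position of the second pivot of level zero. -/
def c2 : Fin D.n := D.w.symm (D.ix (0, D.o2))

lemma o1_ne : D.o1 ≠ D.o2 := by
  intro h
  have h1 := D.h13
  have h2 := D.h32
  rw [h] at h1
  omega

lemma o3_not : ¬ D.J D.o3 := by
  rintro (h | h)
  · have h1 := D.h13
    rw [h] at h1
    omega
  · have h1 := D.h32
    rw [h] at h1
    omega

lemma c1_ne : D.c1 ≠ D.c2 := by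
  intro h
  have h1 := D.ix.injective (D.w.symm.injective h)
  rw [Prod.mk.injEq] at h1
  exact D.o1_ne h1.2

lemma be_c1 : D.be D.c1 = 0 := by
  have h : D.J D.o1 := Or.inl rfl
  rw [be, c1, Equiv.apply_symm_apply, blk_ix, if_pos h]
  rfl

lemma be_c2 : D.be D.c2 = 0 := by
  have h : D.J D.o2 := Or.inr rfl
  rw [be, c2, Equiv.apply_symm_apply, blk_ix, if_pos h]
  rfl

lemma be_zero {i : Fin D.n} (h : D.be i = 0) : i = D.c1 ∨ i = D.c2 := by
  obtain ⟨⟨a, j⟩, hp⟩ := D.ix.surjective (D.w i)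
  rw [be, ← hp, blk_ix] at h
  simp only at h
  split_ifs at h with hj
  have ha : a = 0 := Fin.ext h
  subst ha
  rcases hj with rfl | rfl
  · left; rw [c1, hp, Equiv.symm_apply_apply]
  · right; rw [c2, hp, Equiv.symm_apply_apply]

lemma sum_be_zero {M : Type} [AddCommMonoid M] (f : Fin D.n → M) (h : ∀ i, D.be i ≠ 0 → f i = 0) :
    ∑ i, f i = f D.c1 + f D.c2 := by
  rw [← Finset.sum_pair D.c1_ne]
  symm
  apply Finset.sum_subset (Finset.subset_univ _)
  intro i _ hi
  apply h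
  intro h0
  apply hi
  rw [Finset.mem_insert, Finset.mem_singleton]
  exact D.be_zero h0

/-- The span of the vectors of level zero. -/
def Sp (g : Matrix (Fin D.n) (Fin D.n) ℂ) (t : Fin D.N → ℂ) : Prop :=
  ∃ s s' : ℂ, t = s • D.tv g D.c1 + s' • D.tv g D.c2

lemma tv_mul (g p : Matrix (Fin D.n) (Fin D.n) ℂ) (c : Fin D.n) :
    D.tv (g * p) c = ∑ i, p i c • D.tv g i := by
  have h1 : (fun y => (g * p) (D.ix (0, y)) c) = ∑ i, p i c • (fun y => g (D.ix (0, y)) i) := by
    funext y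
    rw [Matrix.mul_apply, Finset.sum_apply]
    refine Finset.sum_congr rfl fun i _ => ?_
    rw [Pi.smul_apply, smul_eq_mul, mul_comm]
  rw [tv, h1, Matrix.mulVec_sum]
  refine Finset.sum_congr rfl fun i _ => ?_
  rw [Matrix.mulVec_smul]
  rfl

lemma tv_mul_bt {g p : Matrix (Fin D.n) (Fin D.n) ℂ} (hp : BlockTriangular p D.be) {c : Fin D.n}
    (hc : D.be c = 0) :
    D.tv (g * p) c = p D.c1 c • D.tv g D.c1 + p D.c2 c • D.tv g D.c2 := by
  rw [tv_mul, D.sum_be_zero]
  intro i hi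
  rw [hp (show D.be c < D.be i by omega), zero_smul]

lemma sp_mul {g p : Matrix (Fin D.n) (Fin D.n) ℂ} (hp : BlockTriangular p D.be)
    {t : Fin D.N → ℂ} (ht : D.Sp (g * p) t) : D.Sp g t := by
  obtain ⟨s, s', rfl⟩ := ht
  rw [D.tv_mul_bt hp D.be_c1, D.tv_mul_bt hp D.be_c2]
  refine ⟨s * p D.c1 D.c1 + s' * p D.c1 D.c2, s * p D.c2 D.c1 + s' * p D.c2 D.c2, ?_⟩
  simp only [smul_add, add_smul, mul_smul]
  abel

lemma sp_mul_inv {g p : Matrix (Fin D.n) (Fin D.n) ℂ} (hp : BlockTriangular p D.be)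
    (hu : IsUnit p.det) {t : Fin D.N → ℂ} (ht : D.Sp g t) : D.Sp (g * p) t := by
  apply D.sp_mul (bt_inv hp hu)
  rwa [Matrix.mul_assoc, Matrix.mul_nonsing_inv _ hu, Matrix.mul_one]

lemma th_apply (h : Matrix (Fin D.N) (Fin D.N) ℂ) (p q : D.Ix) :
    D.th h (D.ix p) (D.ix q) = if p.1 = q.1 then (D.G p.1 * h * (D.G p.1)⁻¹) p.2 q.2 else 0 := by
  rw [th, re_apply]
  rfl

lemma tv_th (h : Matrix (Fin D.N) (Fin D.N) ℂ) (g : Matrix (Fin D.n) (Fin D.n) ℂ) (c : Fin D.n) :
    D.tv (D.th h * g) c = h *ᵥ D.tv g c := by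
  have h1 : (fun y => (D.th h * g) (D.ix (0, y)) c) =
      (D.G 0 * h * (D.G 0)⁻¹) *ᵥ (fun y => g (D.ix (0, y)) c) := by
    funext y
    rw [Matrix.mul_apply, ← Equiv.sum_comp D.ix, Fintype.sum_prod_type, Finset.sum_eq_single 0]
    · rw [Matrix.mulVec, dotProduct]
      refine Finset.sum_congr rfl fun z _ => ?_
      rw [th_apply, if_pos rfl]
    · intro b _ hb
      apply Finset.sum_eq_zero
      intro z _
      rw [th_apply, if_neg (Ne.symm hb), zero_mul]
    · intro h; exact absurd (Finset.mem_univ _) h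
  rw [tv, h1, tv, Matrix.mulVec_mulVec, Matrix.mulVec_mulVec]
  congr 1
  rw [← Matrix.mul_assoc, ← Matrix.mul_assoc, G_inv_mul, Matrix.one_mul]

lemma tv_perm1 : D.tv (permMat D.w) D.c1 = (D.G 0)⁻¹ *ᵥ Pi.single D.o1 1 := by
  rw [tv]
  congr 1
  funext y
  rw [permMat, c1, Equiv.apply_symm_apply, Pi.single_apply]
  simp only [EmbeddingLike.apply_eq_iff_eq, Prod.mk.injEq, true_and]

lemma tv_perm2 : D.tv (permMat D.w) D.c2 = (D.G 0)⁻¹ *ᵥ Pi.single D.o2 1 := by
  rw [tv]
  congr 1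
  funext y
  rw [permMat, c2, Equiv.apply_symm_apply, Pi.single_apply]
  simp only [EmbeddingLike.apply_eq_iff_eq, Prod.mk.injEq, true_and]

/-- A matrix preserving the span of the pivots applied to a pivot. -/
lemma pres_single {M : Matrix (Fin D.N) (Fin D.N) ℂ} (hM : D.Pres M) {o : Fin D.N} (ho : D.J o) :
    M *ᵥ Pi.single o 1 = M D.o1 o • Pi.single D.o1 1 + M D.o2 o • Pi.single D.o2 1 := by
  funext i
  rw [Matrix.mulVec_single_one, Matrix.col_apply, Pi.add_apply, Pi.smul_apply, Pi.smul_apply,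
    Pi.single_apply, Pi.single_apply]
  by_cases h1 : i = D.o1
  · subst h1
    rw [if_pos rfl, if_neg D.o1_ne]
    simp
  · by_cases h2 : i = D.o2
    · subst h2
      rw [if_pos rfl, if_neg h1]
      simp
    · rw [if_neg h1, if_neg h2, hM i o (by rintro (h | h); exacts [h1 h, h2 h]) ho]
      simp

/-- Membership in a coset `θ(h) w P`, first direction. -/
lemma coset_data {h : Matrix (Fin D.N) (Fin D.N) ℂ} (hh : IsUnit h.det)
    {p : Matrix (Fin D.n) (Fin D.n) ℂ} (hp : BlockTriangular p D.be) (hu : IsUnit p.det) :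
    IsUnit (D.th h * permMat D.w * p).det ∧
      SBT D.be ((D.th h * permMat D.w * p)⁻¹ * D.X * (D.th h * permMat D.w * p)) ∧
      ∀ c, D.be c = 0 → ∃ s s' : ℂ, D.tv (D.th h * permMat D.w * p) c =
        s • (h *ᵥ Pi.single D.o1 1) + s' • (h *ᵥ Pi.single D.o2 1) := by
  refine ⟨?_, ?_, ?_⟩
  · rw [Matrix.det_mul, Matrix.det_mul]
    exact ((D.th_det hh).mul (permMat_det _)).mul hu
  · have h1 : (D.th h * permMat D.w * p)⁻¹ * D.X * (D.th h * permMat D.w * p) =
        p⁻¹ * (D.X.submatrix D.w D.w) * p := by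
      rw [← permMat_conj, Matrix.mul_inv_rev, Matrix.mul_inv_rev]
      have h2 : (D.th h)⁻¹ * D.X * D.th h = D.X := by
        rw [Matrix.mul_assoc, ← th_comm, ← Matrix.mul_assoc,
          Matrix.nonsing_inv_mul _ (D.th_det hh), Matrix.one_mul]
      calc p⁻¹ * ((permMat D.w)⁻¹ * (D.th h)⁻¹) * D.X * (D.th h * permMat D.w * p)
          = p⁻¹ * ((permMat D.w)⁻¹ * ((D.th h)⁻¹ * D.X * D.th h) * permMat D.w) * p := by
            simp only [Matrix.mul_assoc]
        _ = _ := by rw [h2]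
    rw [h1]
    exact D.X_be.conj hp hu
  · intro c hc
    have hG := D.pres_G_inv 0
    have e1 : D.tv (D.th h * permMat D.w) D.c1 =
        (D.G 0)⁻¹ D.o1 D.o1 • (h *ᵥ Pi.single D.o1 1) +
          (D.G 0)⁻¹ D.o2 D.o1 • (h *ᵥ Pi.single D.o2 1) := by
      rw [tv_th, tv_perm1, D.pres_single hG (Or.inl rfl), Matrix.mulVec_add, Matrix.mulVec_smul,
        Matrix.mulVec_smul]
    have e2 : D.tv (D.th h * permMat D.w) D.c2 =
        (D.G 0)⁻¹ D.o1 D.o2 • (h *ᵥ Pi.single D.o1 1) +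
          (D.G 0)⁻¹ D.o2 D.o2 • (h *ᵥ Pi.single D.o2 1) := by
      rw [tv_th, tv_perm2, D.pres_single hG (Or.inr rfl), Matrix.mulVec_add, Matrix.mulVec_smul,
        Matrix.mulVec_smul]
    rw [D.tv_mul_bt hp hc, e1, e2]
    refine ⟨p D.c1 c * (D.G 0)⁻¹ D.o1 D.o1 + p D.c2 c * (D.G 0)⁻¹ D.o1 D.o2,
      p D.c1 c * (D.G 0)⁻¹ D.o2 D.o1 + p D.c2 c * (D.G 0)⁻¹ D.o2 D.o2, ?_⟩
    simp only [smul_add, add_smul, mul_smul]
    abel

/-- The kernel of `X`. -/
lemma X_ker (m : Fin D.n → ℂ) (h : ∀ v, (D.X *ᵥ m) v = 0) : ∀ v, 0 < D.lev v → m v = 0 := by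
  intro v hv
  obtain ⟨⟨b, j⟩, rfl⟩ := D.ix.surjective v
  rw [lev_ix] at hv
  simp only at hv
  obtain ⟨a, ha⟩ : ∃ a : Fin (D.r + 1), a.val + 1 = b.val :=
    ⟨⟨b.val - 1, by have := b.isLt; omega⟩, by simp only; omega⟩
  have hX : ∀ i, (D.X *ᵥ m) (D.ix (a, i)) =
      ((D.G a * (D.G b)⁻¹) *ᵥ (fun j => m (D.ix (b, j)))) i := by
    intro i
    rw [Matrix.mulVec, dotProduct, ← Equiv.sum_comp D.ix, Fintype.sum_prod_type,
      Finset.sum_eq_single b]
    · rw [Matrix.mulVec, dotProduct]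
      refine Finset.sum_congr rfl fun j _ => ?_
      rw [X_apply, if_pos ha]
    · intro c _ hc
      apply Finset.sum_eq_zero
      intro j _
      rw [X_apply, if_neg, zero_mul]
      intro h1
      exact hc (Fin.ext (by simp only at h1; omega))
    · intro h; exact absurd (Finset.mem_univ _) h
  have h1 : (D.G a * (D.G b)⁻¹) *ᵥ (fun j => m (D.ix (b, j))) = 0 := by
    funext i
    rw [← hX i, h]
    rfl
  have h2 : (D.G b * (D.G a)⁻¹) *ᵥ ((D.G a * (D.G b)⁻¹) *ᵥ (fun j => m (D.ix (b, j)))) =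
      fun j => m (D.ix (b, j)) := by
    rw [Matrix.mulVec_mulVec]
    have : D.G b * (D.G a)⁻¹ * (D.G a * (D.G b)⁻¹) = 1 := by
      rw [Matrix.mul_assoc, ← Matrix.mul_assoc ((D.G a)⁻¹), G_inv_mul, Matrix.one_mul, G_mul_inv]
    rw [this, Matrix.one_mulVec]
  rw [h1, Matrix.mulVec_zero] at h2
  exact (congrFun h2 j).symm

/-- Membership in a coset `θ(h) w P`, second direction. -/
lemma mem_coset {h : Matrix (Fin D.N) (Fin D.N) ℂ} (hh : IsUnit h.det)
    {g : Matrix (Fin D.n) (Fin D.n) ℂ} (hg : IsUnit g.det) (hs : SBT D.be (g⁻¹ * D.X * g))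
    (ht : ∀ c, D.be c = 0 → ∃ s s' : ℂ, D.tv g c =
        s • (h *ᵥ Pi.single D.o1 1) + s' • (h *ᵥ Pi.single D.o2 1)) :
    ∃ p : Matrix (Fin D.n) (Fin D.n) ℂ, BlockTriangular p D.be ∧ IsUnit p.det ∧
      g = D.th h * permMat D.w * p := by
  have hhi : IsUnit (h⁻¹).det := Matrix.isUnit_nonsing_inv_det _ hh
  set q : Matrix (Fin D.n) (Fin D.n) ℂ := D.th h⁻¹ * g with hq
  set Y : Matrix (Fin D.n) (Fin D.n) ℂ := g⁻¹ * D.X * g with hY
  have hXq : D.X * q = q * Y := by
    rw [hq, ← Matrix.mul_assoc, ← th_comm, hY, Matrix.mul_assoc, Matrix.mul_assoc]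
    congr 1
    rw [← Matrix.mul_assoc, ← Matrix.mul_assoc, Matrix.mul_nonsing_inv _ hg, Matrix.one_mul]
  have hcol : ∀ j v, (D.X *ᵥ (fun u => q u j)) v = ∑ i, q v i * Y i j := by
    intro j v
    have := congrFun (congrFun hXq v) j
    rw [Matrix.mul_apply, Matrix.mul_apply] at this
    exact this
  have key : ∀ k j, D.be j = k → ∀ v, k < D.blk v → q v j = 0 := by
    intro k
    induction k using Nat.strong_induction_on with
    | _ k ih =>
      intro j hj v hv
      rcases Nat.eq_zero_or_pos k with hk | hk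
      · subst hk
        have h0 : ∀ v, (D.X *ᵥ (fun u => q u j)) v = 0 := by
          intro v
          rw [hcol]
          apply Finset.sum_eq_zero
          intro i _
          rw [hs i j (by omega), mul_zero]
        by_cases hl : 0 < D.lev v
        · exact D.X_ker _ h0 v hl
        · obtain ⟨⟨a, x⟩, rfl⟩ := D.ix.surjective v
          rw [lev_ix] at hl
          have ha : a = 0 := Fin.ext (by simp only at hl; simpa using hl)
          subst ha
          rw [blk_ix] at hv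
          have hx : ¬ D.J x := by
            intro hx
            simp [hx] at hv
          -- the component of level zero
          obtain ⟨s, s', hss⟩ := ht j hj
          have h3 : D.tv q j = s • Pi.single D.o1 1 + s' • Pi.single D.o2 1 := by
            rw [hq, tv_th, hss, Matrix.mulVec_add, Matrix.mulVec_smul, Matrix.mulVec_smul,
              Matrix.mulVec_mulVec, Matrix.mulVec_mulVec, Matrix.nonsing_inv_mul _ hh,
              Matrix.one_mulVec, Matrix.one_mulVec]
          have h4 : (fun y => q (D.ix (0, y)) j) = D.G 0 *ᵥ D.tv q j := by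
            rw [tv, Matrix.mulVec_mulVec, G_mul_inv, Matrix.one_mulVec]
          have h5 := congrFun h4 x
          rw [h3, Matrix.mulVec_add, Matrix.mulVec_smul, Matrix.mulVec_smul,
            Matrix.mulVec_single_one, Matrix.mulVec_single_one] at h5
          simp only [Pi.add_apply, Pi.smul_apply, Matrix.col_apply] at h5
          rw [h5, D.pres_G 0 x D.o1 hx (Or.inl rfl), D.pres_G 0 x D.o2 hx (Or.inr rfl)]
          simp
      · obtain ⟨k', rfl⟩ : ∃ k', k = k' + 1 := ⟨k - 1, by omega⟩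
        refine D.X_preimage k' (fun u => q u j) ?_ v hv
        intro v hv
        rw [hcol]
        apply Finset.sum_eq_zero
        intro i _
        by_cases hi : D.be j ≤ D.be i
        · rw [hs i j hi, mul_zero]
        · rw [ih (D.be i) (by omega) i rfl v (by omega), zero_mul]
  refine ⟨(permMat D.w)⁻¹ * q, ?_, ?_, ?_⟩
  · intro i j hij
    rw [permMat_inv, permMat_mul, Matrix.submatrix_apply]
    exact key _ j rfl _ hij
  · rw [Matrix.det_mul, hq, Matrix.det_mul]
    exact (Matrix.isUnit_nonsing_inv_det _ (permMat_det _)).mul ((D.th_det hhi).mul hg)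
  · rw [hq, ← Matrix.mul_assoc, Matrix.mul_assoc (D.th h), Matrix.mul_nonsing_inv _ (permMat_det _),
      Matrix.mul_one, ← Matrix.mul_assoc, th_mul, Matrix.mul_nonsing_inv _ hh, th_one,
      Matrix.one_mul]

end TData

end

end Pool.Agent.Lib.MP_1e2f52_ag
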