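import Pool.Agent.Lib.MP_1e2f52_ag.TowCell

/-!
# Points of the cell of the tower, and stability of its closure
-/

open MvPolynomial Matrix

namespace Pool.Agent.Lib.MP_1e2f52_ag

noncomputable section

lemma diag_ne {n : ℕ} {b : Matrix (Fin n) (Fin n) ℂ} (hb : IsUpper b) (hu : IsUnit b.det)
    (i : Fin n) : b i i ≠ 0 := by
  have h1 : b.det = ∏ i, b i i := by
    rw [Matrix.det_of_isUpperTriangular]
    intro p q hpq
    exact hb _ _ hpq
  rw [h1] at hu
  exact (Finset.prod_ne_zero_iff.1 hu.ne_zero) i (Finset.mem_univ _)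

/-- The bracket of two linear forms on a pair of vectors. -/
def br {N : ℕ} (φ ψ a b : Fin N → ℂ) : ℂ := (φ ⬝ᵥ a) * (ψ ⬝ᵥ b) - (φ ⬝ᵥ b) * (ψ ⬝ᵥ a)

namespace TData

variable (D : TData)

lemma cell_vec {g : Matrix (Fin D.n) (Fin D.n) ℂ} (hg : g ∈ cell D.X D.w) (k : Fin (D.r + 1))
    (o : Fin D.N) (ho : D.J o) :
    ∃ t, D.Sp g t ∧ (∀ i, o < i → (D.G k *ᵥ t) i = 0) ∧ (D.G k *ᵥ t) o ≠ 0 := by
  obtain ⟨⟨b, c, hb, hbu, hc, hcu, rfl⟩, hs⟩ := hg
  set g0 : Matrix (Fin D.n) (Fin D.n) ℂ := b * permMat D.w with hg0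
  have hg0u : IsUnit g0.det := by
    rw [hg0, Matrix.det_mul]; exact hbu.mul (permMat_det _)
  have hcell : g0 ∈ cell D.X D.w := by
    refine ⟨⟨b, 1, hb, hbu, isUpper_one, by simp, by rw [Matrix.mul_one]⟩, ?_⟩
    have h1 := springer_mul (isUpper_inv hc hcu) (Matrix.isUnit_nonsing_inv_det _ hcu) hs
    rwa [Matrix.mul_assoc, Matrix.mul_nonsing_inv _ hcu, Matrix.mul_one] at h1
  have hY : SBT D.be (g0⁻¹ * D.X * g0) :=
    cell_sbt D.lev_mono D.lev_le_blk D.blk_le D.X_lev D.w_mono D.w_anti hcell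
  set Y : Matrix (Fin D.n) (Fin D.n) ℂ := g0⁻¹ * D.X * g0 with hYd
  have hgY1 : g0 * Y = D.X * g0 := by
    rw [hYd, ← Matrix.mul_assoc g0, ← Matrix.mul_assoc g0, Matrix.mul_nonsing_inv _ hg0u,
      Matrix.one_mul]
  have hgY : ∀ k : ℕ, g0 * Y ^ k = D.X ^ k * g0 := by
    intro k
    induction k with
    | zero => simp
    | succ k ih =>
      calc g0 * Y ^ (k + 1) = g0 * Y ^ k * Y := by
            rw [pow_succ]; exact (Matrix.mul_assoc g0 (Y ^ k) Y).symm
        _ = D.X ^ k * (g0 * Y) := by rw [ih]; exact Matrix.mul_assoc _ _ _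
        _ = D.X ^ (k + 1) * g0 := by
            rw [hgY1, pow_succ]; exact (Matrix.mul_assoc _ _ _).symm
  set j0 : Fin D.n := D.w.symm (D.ix (k, o)) with hj0
  have hbe : D.be j0 = k.val := by
    rw [be, hj0, Equiv.apply_symm_apply, blk_ix, if_pos ho]
  set u : Fin D.N → ℂ := fun y => b (D.ix (k, y)) (D.ix (k, o)) with hu
  have hGt : D.G k *ᵥ ((D.G k)⁻¹ *ᵥ u) = u := by
    rw [Matrix.mulVec_mulVec, G_mul_inv, Matrix.one_mulVec]
  refine ⟨(D.G k)⁻¹ *ᵥ u, ?_, ?_, ?_⟩
  · apply D.sp_mul_inv (isUpper_bt D.be_mono hc) hcu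
    refine ⟨(Y ^ k.val) D.c1 j0, (Y ^ k.val) D.c2 j0, ?_⟩
    have h1 : D.tv (g0 * Y ^ k.val) j0 = (Y ^ k.val) D.c1 j0 • D.tv g0 D.c1 +
        (Y ^ k.val) D.c2 j0 • D.tv g0 D.c2 := by
      rw [tv_mul, D.sum_be_zero]
      intro i hi
      rw [hY.pow k.val i j0 (by omega), zero_smul]
    rw [← h1, hgY, tv]
    have h2 : (fun y => (D.X ^ k.val * g0) (D.ix (0, y)) j0) = (D.G 0 * (D.G k)⁻¹) *ᵥ u := by
      funext y
      rw [Matrix.mul_apply, ← Equiv.sum_comp D.ix, Fintype.sum_prod_type, Finset.sum_eq_single k]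
      · rw [Matrix.mulVec, dotProduct]
        refine Finset.sum_congr rfl fun z _ => ?_
        rw [X_pow_apply, if_pos (by simp), hg0, mul_permMat, Matrix.submatrix_apply, hj0,
          Equiv.apply_symm_apply]
        rfl
      · intro c _ hc
        apply Finset.sum_eq_zero
        intro z _
        rw [X_pow_apply, if_neg, zero_mul]
        intro h
        apply hc
        apply Fin.ext
        simp only [Fin.val_zero, zero_add] at h
        exact h.symm
      · intro h; exact absurd (Finset.mem_univ _) h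
    rw [h2, Matrix.mulVec_mulVec, ← Matrix.mul_assoc, G_inv_mul, Matrix.one_mul]
  · intro i hi
    rw [hGt]
    exact hb _ _ ((D.ix_lt k).2 hi)
  · rw [hGt]
    exact diag_ne hb hbu _

/-- The relations satisfied by the plane of a point of the cell. -/
theorem cell_rel {g : Matrix (Fin D.n) (Fin D.n) ℂ} (hg : g ∈ cell D.X D.w)
    (k : Fin (D.r + 1)) :
    br (D.G k D.o3) (D.G k D.o2) (D.tv g D.c1) (D.tv g D.c2) = 0 ∧
      br (D.G k D.o1) (D.G k D.o2) (D.tv g D.c1) (D.tv g D.c2) ≠ 0 := by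
  obtain ⟨t, ⟨s, s', ht⟩, h1, h2⟩ := D.cell_vec hg k D.o1 (Or.inl rfl)
  obtain ⟨t', ⟨u, u', ht'⟩, _, h4⟩ := D.cell_vec hg k D.o2 (Or.inr rfl)
  have e13 : D.o1 < D.o3 := by rw [Fin.lt_def]; have := D.h13; omega
  have e12 : D.o1 < D.o2 := by rw [Fin.lt_def]; have := D.h13; have := D.h32; omega
  have h5 := h1 D.o3 e13
  have h6 := h1 D.o2 e12
  have hform : ∀ (o : Fin D.N) (x : Fin D.N → ℂ), (D.G k *ᵥ x) o = D.G k o ⬝ᵥ x := fun _ _ => rfl
  rw [hform] at h2 h4 h5 h6
  rw [ht, dotProduct_add, dotProduct_smul, dotProduct_smul, smul_eq_mul, smul_eq_mul] at h2 h5 h6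
  rw [ht', dotProduct_add, dotProduct_smul, dotProduct_smul, smul_eq_mul, smul_eq_mul] at h4
  set a := D.tv g D.c1
  set b := D.tv g D.c2
  constructor
  · have e1 : s * br (D.G k D.o3) (D.G k D.o2) a b = 0 := by
      rw [br]
      linear_combination (D.G k D.o2 ⬝ᵥ b) * h5 - (D.G k D.o3 ⬝ᵥ b) * h6
    have e2 : s' * br (D.G k D.o3) (D.G k D.o2) a b = 0 := by
      rw [br]
      linear_combination -(D.G k D.o2 ⬝ᵥ a) * h5 + (D.G k D.o3 ⬝ᵥ a) * h6
    by_contra hne
    have e3 : s = 0 := by simpa [hne] using e1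
    have e4 : s' = 0 := by simpa [hne] using e2
    apply h2
    rw [e3, e4]
    ring
  · intro h0
    apply mul_ne_zero h2 h4
    have e1 : (s * (D.G k D.o1 ⬝ᵥ a) + s' * (D.G k D.o1 ⬝ᵥ b)) *
        (u * (D.G k D.o2 ⬝ᵥ a) + u' * (D.G k D.o2 ⬝ᵥ b)) =
        (s * u' - s' * u) * br (D.G k D.o1) (D.G k D.o2) a b +
        (u * (D.G k D.o1 ⬝ᵥ a) + u' * (D.G k D.o1 ⬝ᵥ b)) *
          (s * (D.G k D.o2 ⬝ᵥ a) + s' * (D.G k D.o2 ⬝ᵥ b)) := by
      rw [br]
      ring
    rw [e1, h0, h6]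
    ring

/-- Planes satisfying the relations come from points of the cell. -/
theorem rel_cell {h : Matrix (Fin D.N) (Fin D.N) ℂ} (hh : IsUnit h.det)
    (h1 : ∀ k, br (D.G k D.o3) (D.G k D.o2) (h *ᵥ Pi.single D.o1 1) (h *ᵥ Pi.single D.o2 1) = 0)
    (h2 : ∀ k, br (D.G k D.o1) (D.G k D.o2) (h *ᵥ Pi.single D.o1 1) (h *ᵥ Pi.single D.o2 1) ≠ 0) :
    ∃ p : Matrix (Fin D.n) (Fin D.n) ℂ, BlockTriangular p D.be ∧ IsUnit p.det ∧
      D.th h * permMat D.w * p ∈ cell D.X D.w := by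
  set a : Fin D.N → ℂ := h *ᵥ Pi.single D.o1 1 with ha
  set b : Fin D.N → ℂ := h *ᵥ Pi.single D.o2 1 with hb
  -- the two echelon vectors
  let u1 : Fin (D.r + 1) → Fin D.N → ℂ := fun k => (D.G k D.o2 ⬝ᵥ b) • a - (D.G k D.o2 ⬝ᵥ a) • b
  let u2 : Fin (D.r + 1) → Fin D.N → ℂ := fun k => (D.G k D.o1 ⬝ᵥ a) • b - (D.G k D.o1 ⬝ᵥ b) • a
  let B : Fin (D.r + 1) → Matrix (Fin D.N) (Fin D.N) ℂ := fun k i j =>
    if j = D.o1 then (D.G k *ᵥ u1 k) i else if j = D.o2 then (D.G k *ᵥ u2 k) i else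
      (1 : Matrix (Fin D.N) (Fin D.N) ℂ) i j
  have e13 : D.o1 < D.o3 := by rw [Fin.lt_def]; have := D.h13; omega
  have e32 : D.o3 < D.o2 := by rw [Fin.lt_def]; have := D.h32; omega
  have hlast : ∀ i : Fin D.N, D.o1 < i → i = D.o3 ∨ i = D.o2 := by
    intro i hi
    have g1 := D.h13
    have g2 := D.h32
    have g3 := D.hN
    have g4 := i.isLt
    rw [Fin.lt_def] at hi
    rcases Nat.lt_or_ge D.o3.val i.val with h | h
    · right; apply Fin.ext; omega
    · left; apply Fin.ext; omega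
  have hlast2 : ∀ i : Fin D.N, ¬ D.o2 < i := by
    intro i hi
    have g3 := D.hN
    have g4 := i.isLt
    rw [Fin.lt_def] at hi
    omega
  have hform : ∀ k (o : Fin D.N) (x : Fin D.N → ℂ), (D.G k *ᵥ x) o = D.G k o ⬝ᵥ x :=
    fun _ _ _ => rfl
  have hu1 : ∀ k o, (D.G k *ᵥ u1 k) o = br (D.G k o) (D.G k D.o2) a b := by
    intro k o
    rw [hform]
    simp only [u1, dotProduct_sub, dotProduct_smul, smul_eq_mul, br]
    ring
  have hu2 : (∀ k, (D.G k *ᵥ u2 k) D.o2 = br (D.G k D.o1) (D.G k D.o2) a b) := by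
    intro k
    rw [hform]
    simp only [u2, dotProduct_sub, dotProduct_smul, smul_eq_mul, br]
  have hBup : ∀ k i j, j < i → B k i j = 0 := by
    intro k i j hij
    simp only [B]
    split_ifs with g1 g2
    · subst g1
      rw [hu1]
      rcases hlast i hij with rfl | rfl
      · exact h1 k
      · rw [br]; ring
    · subst g2
      exact absurd hij (hlast2 i)
    · exact Matrix.one_apply_ne hij.ne'
  have hBd : ∀ k i, B k i i ≠ 0 := by
    intro k i
    simp only [B]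
    split_ifs with g1 g2
    · rw [hu1, g1]; exact h2 k
    · rw [g2, hu2]; exact h2 k
    · rw [Matrix.one_apply_eq]; exact one_ne_zero
  have hbmat : IsUpper (D.re (bd B)) := by
    intro v v' hv
    obtain ⟨⟨k, i⟩, rfl⟩ := D.ix.surjective v
    obtain ⟨⟨k', i'⟩, rfl⟩ := D.ix.surjective v'
    rw [re_apply, bd]
    split_ifs with hk
    · simp only at hk
      subst hk
      exact hBup _ _ _ ((D.ix_lt k).1 hv)
    · rfl
  have hbdet : IsUnit (D.re (bd B)).det := by
    have g1 : (D.re (bd B)).det = ∏ i, (D.re (bd B)) i i := by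
      rw [Matrix.det_of_isUpperTriangular]
      intro p q hpq
      exact hbmat _ _ hpq
    rw [g1, isUnit_iff_ne_zero, Finset.prod_ne_zero_iff]
    intro v _
    obtain ⟨⟨k, i⟩, rfl⟩ := D.ix.surjective v
    rw [re_apply, bd, if_pos rfl]
    exact hBd _ _
  -- the matrices of the quotient
  have hhi : IsUnit (h⁻¹).det := Matrix.isUnit_nonsing_inv_det _ hh
  have hinva : h⁻¹ *ᵥ a = Pi.single D.o1 1 := by
    rw [ha, Matrix.mulVec_mulVec, Matrix.nonsing_inv_mul _ hh, Matrix.one_mulVec]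
  have hinvb : h⁻¹ *ᵥ b = Pi.single D.o2 1 := by
    rw [hb, Matrix.mulVec_mulVec, Matrix.nonsing_inv_mul _ hh, Matrix.one_mulVec]
  have hkey : ∀ (k : Fin (D.r + 1)) (x y : ℂ) (i : Fin D.N), ¬ D.J i →
      ((D.G k * h⁻¹) *ᵥ (x • a + y • b)) i = 0 := by
    intro k x y i hi
    rw [← Matrix.mulVec_mulVec, Matrix.mulVec_add, Matrix.mulVec_smul, Matrix.mulVec_smul,
      hinva, hinvb, Matrix.mulVec_add, Matrix.mulVec_smul, Matrix.mulVec_smul,
      Matrix.mulVec_single_one, Matrix.mulVec_single_one]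
    simp only [Pi.add_apply, Pi.smul_apply, Matrix.col_apply]
    rw [D.pres_G k i D.o1 hi (Or.inl rfl), D.pres_G k i D.o2 hi (Or.inr rfl)]
    simp
  have hcolB : ∀ k i j, ¬ D.J i → D.J j → (D.G k * h⁻¹ * (D.G k)⁻¹ * B k) i j = 0 := by
    intro k i j hi hj
    have g1 : (D.G k * h⁻¹ * (D.G k)⁻¹ * B k) i j =
        ((D.G k * h⁻¹ * (D.G k)⁻¹) *ᵥ (fun l => B k l j)) i := rfl
    rw [g1]
    rcases hj with rfl | rfl
    · have g2 : (fun l => B k l D.o1) = D.G k *ᵥ u1 k := by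
        funext l; simp only [B, if_true]
      rw [g2, Matrix.mulVec_mulVec, Matrix.mul_assoc, G_inv_mul, Matrix.mul_one]
      have g3 : u1 k = (D.G k D.o2 ⬝ᵥ b) • a + (-(D.G k D.o2 ⬝ᵥ a)) • b := by
        simp only [u1, neg_smul]; rfl
      rw [g3]
      exact hkey _ _ _ _ hi
    · have g2 : (fun l => B k l D.o2) = D.G k *ᵥ u2 k := by
        funext l; simp only [B, if_neg D.o1_ne.symm, if_true]
      rw [g2, Matrix.mulVec_mulVec, Matrix.mul_assoc, G_inv_mul, Matrix.mul_one]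
      have g3 : u2 k = (-(D.G k D.o1 ⬝ᵥ b)) • a + (D.G k D.o1 ⬝ᵥ a) • b := by
        simp only [u2, neg_smul]; rw [add_comm]; rfl
      rw [g3]
      exact hkey _ _ _ _ hi
  set M : Matrix (Fin D.n) (Fin D.n) ℂ := D.th h⁻¹ * D.re (bd B) with hM
  have hMblk : BlockTriangular M D.blk := by
    intro v v' hv
    obtain ⟨⟨k, i⟩, rfl⟩ := D.ix.surjective v
    obtain ⟨⟨k', i'⟩, rfl⟩ := D.ix.surjective v'
    rw [hM, th, re_mul, bd_mul, re_apply, bd]
    split_ifs with hk
    · simp only at hk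
      subst hk
      rw [blk_ix, blk_ix] at hv
      apply hcolB
      · intro hi
        rw [if_pos hi] at hv
        simp only at hv
        split_ifs at hv <;> omega
      · by_contra hi
        rw [if_neg hi] at hv
        simp only at hv
        split_ifs at hv <;> omega
    · rfl
  have hMu : IsUnit M.det := by
    rw [hM, Matrix.det_mul]; exact (D.th_det hhi).mul hbdet
  have hp : BlockTriangular (M.submatrix D.w D.w) D.be := fun i j hij => hMblk hij
  have hpu : IsUnit (M.submatrix D.w D.w).det := by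
    rw [Matrix.det_submatrix_equiv_self]; exact hMu
  refine ⟨M.submatrix D.w D.w, hp, hpu, ?_⟩
  have hg : D.th h * permMat D.w * M.submatrix D.w D.w = D.re (bd B) * permMat D.w := by
    rw [← permMat_conj, ← Matrix.mul_assoc, ← Matrix.mul_assoc, Matrix.mul_assoc (D.th h),
      Matrix.mul_nonsing_inv _ (permMat_det _), Matrix.mul_one, hM, ← Matrix.mul_assoc, th_mul,
      Matrix.mul_nonsing_inv _ hh, th_one, Matrix.one_mul]
  obtain ⟨c1, c2, _⟩ := D.coset_data hh hp hpu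
  refine ⟨?_, c1, c2.isUpper D.be_mono⟩
  rw [hg]
  exact ⟨D.re (bd B), 1, hbmat, hbdet, isUpper_one, by simp, by rw [Matrix.mul_one]⟩

/-- The cell is stable under generic elements of the parabolic subgroup. -/
lemma cell_mul {b c p : Matrix (Fin D.n) (Fin D.n) ℂ} (hb : IsUpper b) (hbu : IsUnit b.det)
    (hc : IsUpper c) (hcu : IsUnit c.det) (hg : b * permMat D.w * c ∈ cell D.X D.w)
    (hp : BlockTriangular p D.be) (hpu : IsUnit p.det) (hden : ∀ j, den (c * p) j ≠ 0) :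
    b * permMat D.w * c * p ∈ cell D.X D.w := by
  have hY := cell_sbt D.lev_mono D.lev_le_blk D.blk_le D.X_lev D.w_mono D.w_anti hg
  have hgu : IsUnit (b * permMat D.w * c).det := hg.2.1
  constructor
  · obtain ⟨l, b', hl, hb', hlb⟩ := exists_lu _ (c * p) hden
    have hb'u : IsUnit b'.det := by
      have h1 : (c * p).det = b'.det := by rw [hlb, Matrix.det_mul, hl.det, one_mul]
      rw [← h1, Matrix.det_mul]
      exact hcu.mul hpu
    have hlbt : BlockTriangular l D.be := by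
      have h1 : l = c * p * b'⁻¹ := by
        rw [hlb, Matrix.mul_assoc, Matrix.mul_nonsing_inv _ hb'u, Matrix.mul_one]
      rw [h1]
      exact ((isUpper_bt D.be_mono hc).mul hp).mul (bt_inv (isUpper_bt D.be_mono hb') hb'u)
    set l' : Matrix (Fin D.n) (Fin D.n) ℂ := l.submatrix D.w.symm D.w.symm with hl'
    have hl'u : IsUpper l' := by
      intro v v' hv
      rw [hl', Matrix.submatrix_apply]
      rcases lt_trichotomy (D.w.symm v) (D.w.symm v') with h | h | h
      · exact hl.2 _ _ h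
      · exact absurd (D.w.symm.injective h) hv.ne'
      · by_contra hne
        have h1 : ¬ D.be (D.w.symm v') < D.be (D.w.symm v) := fun h' => hne (hlbt h')
        have h2 : D.be (D.w.symm v') ≤ D.be (D.w.symm v) := D.be_mono h.le
        have h3 : D.blk (D.w (D.w.symm v')) = D.blk (D.w (D.w.symm v)) := by
          change D.be _ = D.be _
          omega
        have h4 := D.w_anti _ _ h h3
        rw [Equiv.apply_symm_apply, Equiv.apply_symm_apply] at h4
        exact absurd hv (not_lt.2 h4.le)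
    have hl'det : IsUnit l'.det := by
      rw [hl', Matrix.det_submatrix_equiv_self, hl.det]; exact isUnit_one
    refine ⟨b * l', b', isUpper_mul hb hl'u, by rw [Matrix.det_mul]; exact hbu.mul hl'det, hb',
      hb'u, ?_⟩
    have h5 : permMat D.w * l = l' * permMat D.w := by
      rw [permMat_mul, mul_permMat, hl']
      ext i j
      simp
    rw [Matrix.mul_assoc (b * permMat D.w) c p, hlb, ← Matrix.mul_assoc, Matrix.mul_assoc b, h5]
    simp only [Matrix.mul_assoc]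
  · refine ⟨by rw [Matrix.det_mul]; exact hgu.mul hpu, ?_⟩
    have h1 : (b * permMat D.w * c * p)⁻¹ * D.X * (b * permMat D.w * c * p) =
        p⁻¹ * ((b * permMat D.w * c)⁻¹ * D.X * (b * permMat D.w * c)) * p := by
      rw [Matrix.mul_inv_rev _ p]; simp only [Matrix.mul_assoc]
    rw [h1]
    exact (hY.conj hp hpu).isUpper D.be_mono

end TData

end

end Pool.Agent.Lib.MP_1e2f52_ag
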