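import Pool.Agent.Lib.MP_1e2f52_ag.TowCl

/-!
# Stability of the closure of the cell
-/

open MvPolynomial Matrix

namespace Pool.Agent.Lib.MP_1e2f52_ag

noncomputable section

lemma polyFn_eval_mat {σ : Type} {n : ℕ} {M : (σ → ℂ) → Matrix (Fin n) (Fin n) ℂ} (hM : PolyMat M)
    (P : MvPolynomial (Fin n × Fin n) ℂ) : PolyFn (fun x => eval (ent (M x)) P) := by
  have h1 : ∀ ij : Fin n × Fin n, PolyFn (fun x => ent (M x) ij) := by
    intro ij
    exact hM ij.1 ij.2
  exact PolyFn.evalComp (φ := fun x => ent (M x)) h1 P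

section gen

variable {n : ℕ} (be : Fin n → ℕ)

/-- The free entries of block triangular matrices. -/
abbrev Fr : Type := {ij : Fin n × Fin n // be ij.1 ≤ be ij.2}

/-- The block triangular matrix with given entries. -/
def mfr (x : Fr be → ℂ) : Matrix (Fin n) (Fin n) ℂ :=
  fun i j => if h : be i ≤ be j then x ⟨(i, j), h⟩ else 0

lemma polyMat_mfr : PolyMat (mfr be) := by
  intro i j
  by_cases h : be i ≤ be j
  · simp only [mfr, dif_pos h]
    exact PolyFn.coord _
  · simp only [mfr, dif_neg h]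
    exact PolyFn.const _

lemma mfr_bt (x : Fr be → ℂ) : BlockTriangular (mfr be x) be := by
  intro i j hij
  simp only [mfr]
  rw [dif_neg (not_le.2 hij)]

lemma mfr_surj {M : Matrix (Fin n) (Fin n) ℂ} (hM : BlockTriangular M be) :
    mfr be (fun q => M q.1.1 q.1.2) = M := by
  ext i j
  simp only [mfr]
  split_ifs with h
  · rfl
  · exact (hM (not_le.1 h)).symm

theorem mul_mem_zclosure {S : Set (Matrix (Fin n) (Fin n) ℂ)} {g c : Matrix (Fin n) (Fin n) ℂ}
    (hg : IsUnit g.det) (hc : BlockTriangular c be) (hcu : IsUnit c.det)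
    (hS : ∀ p : Matrix (Fin n) (Fin n) ℂ, BlockTriangular p be → IsUnit p.det →
      (∀ j, den (c * p) j ≠ 0) → g * p ∈ S)
    {p : Matrix (Fin n) (Fin n) ℂ} (hp : BlockTriangular p be) (hpu : IsUnit p.det) :
    g * p ∈ zclosure S := by
  refine ⟨by rw [Matrix.det_mul]; exact hg.mul hpu, fun P hP => ?_⟩
  have hf : PolyFn (fun x : Fr be → ℂ => eval (ent (g * mfr be x)) P) :=
    polyFn_eval_mat ((PolyMat.const g).mul (polyMat_mfr be)) P
  have hgf : PolyFn (fun x : Fr be → ℂ => (∏ j, den (c * mfr be x) j) * (mfr be x).det) :=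
    (PolyFn.prod _ fun j _ => ((PolyMat.const c).mul (polyMat_mfr be)).den j).mul
      (polyMat_mfr be).det
  have h0 : ∀ x : Fr be → ℂ, eval (ent (g * mfr be x)) P *
      ((∏ j, den (c * mfr be x) j) * (mfr be x).det) = 0 := by
    intro x
    by_cases h1 : (∏ j, den (c * mfr be x) j) * (mfr be x).det = 0
    · rw [h1, mul_zero]
    · have h2 : (∏ j, den (c * mfr be x) j) ≠ 0 := left_ne_zero_of_mul h1
      have h3 : (mfr be x).det ≠ 0 := right_ne_zero_of_mul h1
      rw [Finset.prod_ne_zero_iff] at h2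
      have h4 := hS _ (mfr_bt be x) (isUnit_iff_ne_zero.2 h3)
        (fun j => h2 j (Finset.mem_univ _))
      have h5 : eval (ent (g * mfr be x)) P = 0 := hP _ h4
      rw [h5, zero_mul]
  have hcs := mfr_surj be (bt_inv hc hcu)
  have hy : (∏ j, den (c * mfr be (fun q => c⁻¹ q.1.1 q.1.2)) j) *
      (mfr be (fun q => c⁻¹ q.1.1 q.1.2)).det ≠ 0 := by
    rw [hcs]
    apply mul_ne_zero
    · rw [Finset.prod_ne_zero_iff]
      intro j _
      rw [Matrix.mul_nonsing_inv _ hcu]
      exact den_upper_ne isUpper_one (by simp) j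
    · exact (Matrix.isUnit_nonsing_inv_det _ hcu).ne_zero
  have hz := hf.eq_zero_of_mul hgf h0 _ hy (fun q => p q.1.1 q.1.2)
  rw [mfr_surj be hp] at hz
  exact hz

end gen

namespace TData

variable (D : TData)

/-- The closure of the cell contains the translates of the cell by the parabolic subgroup. -/
theorem cell_mul_mem_zclosure {g p : Matrix (Fin D.n) (Fin D.n) ℂ} (hg : g ∈ cell D.X D.w)
    (hp : BlockTriangular p D.be) (hpu : IsUnit p.det) : g * p ∈ zclosure (cell D.X D.w) := by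
  obtain ⟨b, c, hb, hbu, hc, hcu, hgd⟩ := hg.1
  refine mul_mem_zclosure D.be hg.2.1 (isUpper_bt D.be_mono hc) hcu (fun p hp hpu hden => ?_)
    hp hpu
  rw [hgd] at hg ⊢
  exact D.cell_mul hb hbu hc hcu hg hp hpu hden

end TData

end

end Pool.Agent.Lib.MP_1e2f52_ag
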