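import Pool.Agent.Lib.MP_1e2f52_ag.Form

/-!
# Universality of the closures of Springer Schubert cells
-/

open MvPolynomial Matrix

namespace Pool.Agent.Lib.MP_1e2f52_ag

noncomputable section

/-- Composition of a polynomial with a linear map. -/
def sub {M : ℕ} (R : Matrix (Fin M) (Fin M) ℂ) (p : MvPolynomial (Fin M) ℂ) :
    MvPolynomial (Fin M) ℂ :=
  bind₁ (fun i => lin (R i)) p

lemma eval_sub {M : ℕ} (R : Matrix (Fin M) (Fin M) ℂ) (p : MvPolynomial (Fin M) ℂ)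
    (z : Fin M → ℂ) : eval z (sub R p) = eval (R *ᵥ z) p := by
  rw [sub, eval_bind]
  congr 2
  funext i
  rw [eval_lin]
  rfl

/-- The data in the case of a good coordinate system. -/
theorem exists_germs0 {m : ℕ} {K : Set (Fin (m + 2) → ℂ)}
    (hcl : ∀ z, (∀ p : MvPolynomial (Fin (m + 2)) ℂ, (∀ z' ∈ K, eval z' p = 0) → eval z p = 0) →
      z ∈ K)
    (hcone : ∀ z ∈ K, ∀ c : ℂ, c • z ∈ K)
    (haff : ∀ p : MvPolynomial (Fin (m + 2)) ℂ, (∀ z ∈ K, z 0 ≠ 0 → eval z p = 0) →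
      ∀ z ∈ K, eval z p = 0)
    (h0 : Pi.single 0 1 ∈ K) :
    ∃ (n k : ℕ) (X : Matrix (Fin n) (Fin n) ℂ) (w : Equiv.Perm (Fin n)),
      IsNilpotent X ∧ permMat w ∈ springer X ∧ SameGerms X w K k := by
  obtain ⟨D, rfl, hD⟩ := exists_data hcl hcone haff h0
  subst hD
  exact ⟨D.n, D.kk, D.X, D.w, D.X_nilpotent, D.perm_mem, D.germs⟩

/-- Every projective variety occurs, up to a product with an affine space and locally, as the
closure of a Springer Schubert cell. -/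
theorem exists_germs {m : ℕ} {K : Set (Fin (m + 2) → ℂ)}
    (hcl : ∀ z, (∀ p : MvPolynomial (Fin (m + 2)) ℂ, (∀ z' ∈ K, eval z' p = 0) → eval z p = 0) →
      z ∈ K)
    (hcone : ∀ z ∈ K, ∀ c : ℂ, c • z ∈ K) (hne : ∃ z ∈ K, z ≠ 0) :
    ∃ (n k : ℕ) (X : Matrix (Fin n) (Fin n) ℂ) (w : Equiv.Perm (Fin n)),
      IsNilpotent X ∧ permMat w ∈ springer X ∧ SameGerms X w K k := by
  obtain ⟨ℓ, hℓ⟩ := exists_form hcone hne
  obtain ⟨z0, hz0, hz1⟩ : ∃ z ∈ K, ℓ ⬝ᵥ z = 1 := by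
    obtain ⟨z, hz, hzℓ⟩ : ∃ z ∈ K, ℓ ⬝ᵥ z ≠ 0 := by
      by_contra hcon
      push Not at hcon
      obtain ⟨z, hz, _⟩ := hne
      have := hℓ 1 (fun z hz h => absurd (hcon z hz) h) z hz
      rw [map_one] at this
      exact one_ne_zero this
    exact ⟨(ℓ ⬝ᵥ z)⁻¹ • z, hcone z hz _, by rw [dotProduct_smul, smul_eq_mul, inv_mul_cancel₀ hzℓ]⟩
  obtain ⟨R, hR, hR0, hRz⟩ := exists_coord hz1
  have hRR : R⁻¹ * R = 1 := Matrix.nonsing_inv_mul _ hR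
  have hRR' : R * R⁻¹ = 1 := Matrix.mul_nonsing_inv _ hR
  have hvv : ∀ z, R⁻¹ *ᵥ (R *ᵥ z) = z := fun z => by
    rw [Matrix.mulVec_mulVec, hRR, Matrix.one_mulVec]
  have hvv' : ∀ z, R *ᵥ (R⁻¹ *ᵥ z) = z := fun z => by
    rw [Matrix.mulVec_mulVec, hRR', Matrix.one_mulVec]
  set K' : Set (Fin (m + 2) → ℂ) := {z | R⁻¹ *ᵥ z ∈ K} with hK'
  have hKK' : ∀ z ∈ K, R *ᵥ z ∈ K' := by
    intro z hz
    change R⁻¹ *ᵥ (R *ᵥ z) ∈ K
    rw [hvv]
    exact hz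
  have hK'K : ∀ z ∈ K', R⁻¹ *ᵥ z ∈ K := fun z hz => hz
  have hcone' : ∀ z ∈ K', ∀ c : ℂ, c • z ∈ K' := by
    intro z hz c
    change R⁻¹ *ᵥ (c • z) ∈ K
    rw [Matrix.mulVec_smul]
    exact hcone _ hz _
  obtain ⟨n, k, X, w, h1, h2, h3, h4⟩ := exists_germs0 (K := K') (by
    intro z hz
    apply hcl
    intro p hp
    rw [← eval_sub]
    apply hz
    intro z' hz'
    rw [eval_sub]
    exact hp _ hz') hcone' (by
    intro p hp z hz
    have h5 := hℓ (sub R p) (by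
      intro z hz hzℓ
      rw [eval_sub]
      apply hp _ (hKK' z hz)
      change R 0 ⬝ᵥ z ≠ 0
      rw [hR0]
      exact hzℓ) _ hz
    rw [eval_sub, hvv'] at h5
    exact h5) (by
    change R⁻¹ *ᵥ _ ∈ K
    rw [← hRz, hvv]
    exact hz0)
  refine ⟨n, k, X, w, h1, h2, ?_, ?_⟩
  · intro g hg a ha
    obtain ⟨i, z, hz, hzi, ⟨e⟩⟩ := h3 g hg a ha
    have hne0 : R⁻¹ *ᵥ z ≠ 0 := by
      intro h
      have := hvv' z
      rw [h, Matrix.mulVec_zero] at this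
      rw [← this] at hzi
      exact zero_ne_one hzi
    obtain ⟨j, hj⟩ := Function.ne_iff.1 hne0
    have hj' : (R⁻¹ *ᵥ z) j ≠ 0 := hj
    obtain ⟨e'⟩ := germ_lin (κ := Fin k) hRR' hRR hK'K hKK' hcone' hcone hz hzi hj'
    refine ⟨j, _, hcone _ (hK'K z hz) _, ?_, ⟨e.trans e'⟩⟩
    simp [hj']
  · intro j z hz hzj
    have hne0 : R *ᵥ z ≠ 0 := by
      intro h
      have := hvv z
      rw [h, Matrix.mulVec_zero] at this
      rw [← this] at hzj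
      exact zero_ne_one hzj
    obtain ⟨i, hi⟩ := Function.ne_iff.1 hne0
    have hi' : (R *ᵥ z) i ≠ 0 := hi
    obtain ⟨e'⟩ := germ_lin (κ := Fin k) hRR hRR' hKK' hK'K hcone hcone' hz hzj hi'
    obtain ⟨g, hg, a, ha, ⟨e⟩⟩ := h4 i (((R *ᵥ z) i)⁻¹ • (R *ᵥ z)) (hcone' _ (hKK' z hz) _)
      (by simp [hi'])
    exact ⟨g, hg, a, ha, ⟨e.trans e'.symm⟩⟩

end

end Pool.Agent.Lib.MP_1e2f52_ag
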