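import Pool.Agent.Lib.MP_1e2f52_ag.Univ
import Pool.Agent.Lib.MP_1e2f52_ag.CylGerm

/-!
# Cohen-Macaulay and Gorenstein closures
-/

open MvPolynomial Matrix

namespace Pool.Agent.Lib.MP_1e2f52_ag

noncomputable section

variable {n m : ℕ} {X : Matrix (Fin n) (Fin n) ℂ} {w : Equiv.Perm (Fin n)}
  {K : Set (Fin (m + 2) → ℂ)} {k : ℕ}

lemma SameGerms.iff {Q : ∀ (R : Type) [CommRing R], Prop} (h : SameGerms X w K k)
    (hQ : ∀ (R S : Type) [CommRing R] [CommRing S], (R ≃+* S) → (Q R ↔ Q S))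
    (hQ' : ∀ (V : Set (Fin (m + 2) → ℂ)) (p : Fin (m + 2) ⊕ Fin k → ℂ), p ∈ cyl V (Fin k) →
      (Q (Germ (cyl V (Fin k)) p) ↔ Q (Germ V (fun i => p (Sum.inl i))))) :
    (∀ g : Matrix (Fin n) (Fin n) ℂ, IsUnit g.det → ∀ a ∈ chart X w g, Q (Germ (chart X w g) a)) ↔
      ∀ i, ∀ z ∈ {z | z ∈ K ∧ z i = 1}, Q (Germ {z | z ∈ K ∧ z i = 1} z) := by
  have key : ∀ i, ∀ z ∈ {z | z ∈ K ∧ z i = 1},
      (Q (Germ (cyl {z | z ∈ K ∧ z i = 1} (Fin k)) (Sum.elim z 0)) ↔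
        Q (Germ {z | z ∈ K ∧ z i = 1} z)) := by
    intro i z hz
    exact hQ' {z | z ∈ K ∧ z i = 1} (Sum.elim z 0) hz
  constructor
  · intro h1 i z hz
    obtain ⟨g, hg, a, ha, ⟨e⟩⟩ := h.2 i z hz.1 hz.2
    exact (key i z hz).1 ((hQ _ _ e).1 (h1 g hg a ha))
  · intro h1 g hg a ha
    obtain ⟨i, z, hz, hzi, ⟨e⟩⟩ := h.1 g hg a ha
    exact (hQ _ _ e).2 ((key i z ⟨hz, hzi⟩).2 (h1 i z ⟨hz, hzi⟩))

theorem SameGerms.closureCM_iff (h : SameGerms X w K k) :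
    ClosureCM X w ↔ ∀ i, AffineCM {z | z ∈ K ∧ z i = 1} :=
  h.iff (Q := fun R _ => IsCM R) (fun _ _ _ _ e => isCM_congr e) (fun _ _ hp => isCM_cyl_germ hp)

theorem SameGerms.closureGor_iff (h : SameGerms X w K k) :
    ClosureGor X w ↔ ∀ i, AffineGor {z | z ∈ K ∧ z i = 1} :=
  h.iff (Q := fun R _ => IsGor R) (fun _ _ _ _ e => isGor_congr e)
    (fun _ _ hp => isGor_cyl_germ hp)

lemma zeroLocus_closed {M : ℕ} (I : Ideal (MvPolynomial (Fin M) ℂ)) (z : Fin M → ℂ)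
    (h : ∀ p : MvPolynomial (Fin M) ℂ, (∀ z' ∈ zeroLocus ℂ I, eval z' p = 0) → eval z p = 0) :
    z ∈ zeroLocus ℂ I := by
  intro p hp
  exact h p fun z' hz' => hz' p hp

end

end Pool.Agent.Lib.MP_1e2f52_ag
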